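import Pool.Agent.Lib.P4f18df.Count

/-!
# Squarefree integers in short intervals on average
-/

set_option autoImplicit false

namespace Pool.Agent.P4f18df

open Finset Filter ArithmeticFunction

lemma sum_moebius_sq {n M : ℕ} (hn : 0 < n) (hM : n ≤ M) :
    ∑ d ∈ (Ioc 0 M).filter (fun d => d ^ 2 ∣ n), (moebius d : ℤ) =
      if Squarefree n then 1 else 0 := by
  obtain ⟨m, b, hmb, hm⟩ := Nat.sq_mul_squarefree n
  have hb : b ≠ 0 := by rintro rfl; simp at hmb; omega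
  have hmpos : m ≠ 0 := hm.ne_zero
  have h1 : (Ioc 0 M).filter (fun d => d ^ 2 ∣ n) = b.divisors := by
    ext d
    rw [Finset.mem_filter, Finset.mem_Ioc, Nat.mem_divisors]
    constructor
    · rintro ⟨⟨hd0, _⟩, hd⟩
      refine ⟨?_, hb⟩
      rw [← Nat.factorization_le_iff_dvd (by omega) hb]
      intro p
      rw [← hmb] at hd
      have h2 := (Nat.factorization_le_iff_dvd (by positivity) (by positivity)).2 hd p
      rw [Nat.factorization_pow, Nat.factorization_mul (by positivity) hmpos,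
        Nat.factorization_pow] at h2
      simp only [Finsupp.smul_apply, Finsupp.add_apply, smul_eq_mul] at h2
      have h3 := hm.natFactorization_le_one p
      omega
    · rintro ⟨hd, _⟩
      have hd0 : 0 < d := Nat.pos_of_dvd_of_pos hd (by omega)
      have hdn : d ^ 2 ∣ n := by
        rw [← hmb]; exact dvd_mul_of_dvd_left (pow_dvd_pow_of_dvd hd 2) m
      refine ⟨⟨hd0, ?_⟩, hdn⟩
      have := Nat.le_of_dvd hn hdn
      nlinarith
  rw [h1]
  have h2 : ∑ d ∈ b.divisors, (moebius d : ℤ) = if b = 1 then 1 else 0 := by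
    rw [← coe_mul_zeta_apply, moebius_mul_coe_zeta, one_apply]
  rw [h2]
  by_cases hb1 : b = 1
  · rw [if_pos hb1, if_pos]
    rw [← hmb, hb1]; simpa using hm
  · rw [if_neg hb1, if_neg]
    intro hsq
    have : b * b ∣ n := by rw [← hmb, sq]; exact dvd_mul_right _ _
    exact hb1 (Nat.isUnit_iff.1 (hsq b this))

/-- the constant `6/π²` -/
noncomputable def c2 : ℝ := 6 / Real.pi ^ 2

lemma c2_pos : 0 < c2 := by unfold c2; positivity

lemma c2_le : c2 ≤ 1 := by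
  unfold c2
  rw [div_le_one (by positivity)]
  have := Real.pi_gt_three
  nlinarith

lemma tendsto_moebius_sq :
    Tendsto (fun M : ℕ => ∑ d ∈ Ioc 0 M, (moebius d : ℝ) / (d : ℝ) ^ 2) atTop (nhds c2) := by
  have h1 : LSeriesSummable (fun n => ((moebius n : ℤ) : ℂ)) 2 :=
    LSeriesSummable_moebius_iff.2 (by norm_num)
  have h2 := LSeries_zeta_mul_Lseries_moebius (s := 2) (by norm_num)
  rw [LSeries_zeta_eq_riemannZeta (by norm_num), riemannZeta_two] at h2
  have hpi : (Real.pi : ℂ) ≠ 0 := by exact_mod_cast Real.pi_ne_zero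
  have h3 : LSeries (fun n => ((moebius n : ℤ) : ℂ)) 2 = (c2 : ℂ) := by
    unfold c2
    push_cast
    field_simp at h2 ⊢
    linear_combination h2
  have h4 : HasSum (fun n : ℕ => LSeries.term (fun n => ((moebius n : ℤ) : ℂ)) 2 n) (c2 : ℂ) := by
    rw [← h3]; exact h1.hasSum
  have h5 : HasSum (fun n : ℕ => (((moebius n : ℝ) / (n : ℝ) ^ 2 : ℝ) : ℂ)) (c2 : ℂ) := by
    convert h4 using 2 with n
    rcases Nat.eq_zero_or_pos n with h | h
    · subst h; simp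
    · rw [LSeries.term_of_ne_zero (by omega)]
      push_cast
      norm_num
  have h6 : HasSum (fun n : ℕ => (moebius n : ℝ) / (n : ℝ) ^ 2) c2 := by
    exact Complex.hasSum_ofReal.1 h5
  have h7 := h6.tendsto_sum_nat.comp (tendsto_add_atTop_nat 1)
  refine h7.congr (fun M => ?_)
  simp only [Function.comp]
  rw [Finset.range_eq_Ico, Finset.sum_eq_sum_Ico_succ_bot (by omega)]
  simp only [Nat.cast_zero]
  rw [show (moebius 0 : ℝ) / (0:ℝ) ^ 2 = 0 by simp, zero_add]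
  apply Finset.sum_congr _ (fun _ _ => rfl)
  ext n; simp only [Finset.mem_Ico, Finset.mem_Ioc]; omega

lemma moebius_sq_tail (z : ℕ) :
    |∑ d ∈ Ioc 0 z, (moebius d : ℝ) / (d : ℝ) ^ 2 - c2| ≤ 2 / (z + 1) := by
  have h1 : Tendsto (fun M : ℕ => |∑ d ∈ Ioc 0 z, (moebius d : ℝ) / (d : ℝ) ^ 2 -
      ∑ d ∈ Ioc 0 M, (moebius d : ℝ) / (d : ℝ) ^ 2|) atTop
      (nhds |∑ d ∈ Ioc 0 z, (moebius d : ℝ) / (d : ℝ) ^ 2 - c2|) :=
    (tendsto_const_nhds.sub tendsto_moebius_sq).abs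
  refine le_of_tendsto h1 ?_
  filter_upwards [eventually_ge_atTop z] with M hM
  have e : ∑ d ∈ Ioc 0 M, (moebius d : ℝ) / (d : ℝ) ^ 2 =
      ∑ d ∈ Ioc 0 z, (moebius d : ℝ) / (d : ℝ) ^ 2 +
      ∑ d ∈ Ioc z M, (moebius d : ℝ) / (d : ℝ) ^ 2 := by
    rw [← Finset.sum_union]
    · congr 1
      ext n; simp only [Finset.mem_Ioc, Finset.mem_union]; omega
    · rw [Finset.disjoint_left]; intro n h1 h2
      simp only [Finset.mem_Ioc] at h1 h2; omega
  rw [e, show ∀ A B : ℝ, A - (A + B) = -B by intros; ring, abs_neg]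
  calc |∑ d ∈ Ioc z M, (moebius d : ℝ) / (d : ℝ) ^ 2|
      ≤ ∑ d ∈ Ioc z M, |(moebius d : ℝ) / (d : ℝ) ^ 2| := Finset.abs_sum_le_sum_abs _ _
    _ ≤ ∑ d ∈ Ioc z M, ((d : ℝ) ^ 2)⁻¹ := by
        apply Finset.sum_le_sum
        intro d _
        rw [abs_div, abs_of_nonneg (by positivity : (0:ℝ) ≤ (d : ℝ) ^ 2), ← one_div]
        apply div_le_div_of_nonneg_right _ (by positivity)
        exact_mod_cast abs_moebius_le_one
    _ ≤ ∑ d ∈ Ioo z (M + 1), ((d : ℝ) ^ 2)⁻¹ := by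
        apply Finset.sum_le_sum_of_subset_of_nonneg _ (fun _ _ _ => by positivity)
        intro n; simp only [Finset.mem_Ioc, Finset.mem_Ioo]; omega
    _ ≤ 2 / (z + 1) := sum_Ioo_inv_sq_le z (M + 1)

lemma card_dvd_Ioc_abs (a h v : ℕ) (hv : 0 < v) :
    |(((Ioc a (a + h)).filter (fun n => v ∣ n)).card : ℝ) - (h : ℝ) / v| ≤ 1 := by
  rw [abs_le]
  constructor
  · rw [card_dvd_Ioc_nat]
    have h1 : a / v + h / v ≤ (a + h) / v := Nat.add_div_le_add_div a h v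
    have h2 : h / v ≤ (a + h) / v - a / v := by omega
    have h3 : ((h / v : ℕ) : ℝ) ≤ (((a + h) / v - a / v : ℕ) : ℝ) := by exact_mod_cast h2
    have h4 : (h : ℝ) / v < ((h / v : ℕ) : ℝ) + 1 := by
      rw [div_lt_iff₀ (by exact_mod_cast hv)]
      have := Nat.lt_div_mul_add hv (a := h)
      have h5 : (h : ℝ) < ((h / v : ℕ) : ℝ) * v + v := by exact_mod_cast this
      linarith
    linarith
  · have := card_dvd_Ioc a h v hv
    linarith

lemma card_Q_eq {N h a : ℕ} (ha' : a + h ≤ 3 * N) :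
    ((Q h a).card : ℝ) = ∑ d ∈ Ioc 0 (3 * N), (moebius d : ℝ) *
      (((Ioc a (a + h)).filter (fun n => d ^ 2 ∣ n)).card : ℝ) := by
  have h1 : ((Q h a).card : ℝ) = ∑ n ∈ Ioc a (a + h), (if Squarefree n then (1:ℝ) else 0) := by
    rw [Q, Finset.card_filter]; push_cast; rfl
  have h2 : ∀ n ∈ Ioc a (a + h), (if Squarefree n then (1:ℝ) else 0) =
      ∑ d ∈ Ioc 0 (3 * N), if d ^ 2 ∣ n then (moebius d : ℝ) else 0 := by
    intro n hn
    rw [Finset.mem_Ioc] at hn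
    have := sum_moebius_sq (n := n) (M := 3 * N) (by omega) (by omega)
    rw [← Finset.sum_filter]
    have h3 : ((∑ d ∈ (Ioc 0 (3 * N)).filter (fun d => d ^ 2 ∣ n), (moebius d : ℤ) : ℤ) : ℝ) =
      ((if Squarefree n then 1 else 0 : ℤ) : ℝ) := by rw [this]
    push_cast at h3
    rw [h3]
  rw [h1, Finset.sum_congr rfl h2, Finset.sum_comm]
  apply Finset.sum_congr rfl
  intro d _
  rw [← Finset.sum_filter, Finset.sum_const, nsmul_eq_mul, mul_comm]

lemma sum_shift_le' (N h : ℕ) (hh : h ≤ N) (ψ : ℕ → ℝ) (hψ : ∀ n, 0 ≤ ψ n) :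
    ∑ a ∈ Ioc N (2 * N), ∑ n ∈ Ioc a (a + h), ψ n ≤ h * ∑ n ∈ Ioc 0 (3 * N), ψ n := by
  have h1 : ∀ a ∈ Ioc N (2 * N), ∑ n ∈ Ioc a (a + h), ψ n =
      ∑ n ∈ Ioc 0 (3 * N), if n ∈ Ioc a (a + h) then ψ n else 0 := by
    intro a ha
    rw [Finset.mem_Ioc] at ha
    rw [← Finset.sum_filter]
    apply Finset.sum_congr _ (fun _ _ => rfl)
    ext n
    simp only [Finset.mem_filter, Finset.mem_Ioc]
    omega
  rw [Finset.sum_congr rfl h1, Finset.sum_comm, Finset.mul_sum]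
  apply Finset.sum_le_sum
  intro n _
  rw [← Finset.sum_filter, Finset.sum_const, nsmul_eq_mul]
  apply mul_le_mul_of_nonneg_right _ (hψ n)
  have : ((Ioc N (2 * N)).filter (fun a => n ∈ Ioc a (a + h))) ⊆ Ico (n - h) n := by
    intro a ha
    simp only [Finset.mem_filter, Finset.mem_Ioc] at ha
    rw [Finset.mem_Ico]; omega
  have h2 := Finset.card_le_card this
  rw [Nat.card_Ico] at h2
  have h3 : (Finset.filter (fun a => n ∈ Ioc a (a + h)) (Ioc N (2 * N))).card ≤ h := by omega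
  exact_mod_cast h3

/-- Squarefree integers in short intervals on average. -/
theorem sum_card_Q {N h : ℕ} (hh1 : 1 ≤ h) (hh : h ≤ N) :
    ∑ a ∈ Ioc N (2 * N), |((Q h a).card : ℝ) - h * c2| ≤ 9 * N * Real.sqrt h := by
  set z := Nat.sqrt h with hz
  have hhr : (0:ℝ) < h := by exact_mod_cast hh1
  have hzs : (z : ℝ) ≤ Real.sqrt h := by
    apply Real.le_sqrt_of_sq_le
    have := Nat.sqrt_le' h
    exact_mod_cast this
  have hzs' : Real.sqrt h ≤ z + 1 := by
    apply Real.sqrt_le_iff.2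
    refine ⟨by positivity, ?_⟩
    have := Nat.lt_succ_sqrt' h
    have h2 : (h : ℝ) < ((z + 1 : ℕ) : ℝ) ^ 2 := by exact_mod_cast this
    push_cast at h2
    exact h2.le
  have hzN : z ≤ 3 * N := by
    have := Nat.sqrt_le_self h
    omega
  have hhz : (h : ℝ) / (z + 1) ≤ Real.sqrt h := by
    rw [div_le_iff₀ (by positivity)]
    have := Real.mul_self_sqrt hhr.le
    nlinarith [Real.sqrt_nonneg (h : ℝ)]
  set cd : ℕ → ℕ → ℝ := fun d a => (((Ioc a (a + h)).filter (fun n => d ^ 2 ∣ n)).card : ℝ)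
    with hcd
  have hpt : ∀ a ∈ Ioc N (2 * N), |((Q h a).card : ℝ) - h * c2| ≤
      3 * Real.sqrt h + ∑ d ∈ Ioc z (3 * N), cd d a := by
    intro a ha
    rw [Finset.mem_Ioc] at ha
    rw [card_Q_eq (N := N) (by omega)]
    have e : ∑ d ∈ Ioc 0 (3 * N), (moebius d : ℝ) * cd d a =
        ∑ d ∈ Ioc 0 z, (moebius d : ℝ) * cd d a +
        ∑ d ∈ Ioc z (3 * N), (moebius d : ℝ) * cd d a := by
      rw [← Finset.sum_union]
      · congr 1
        ext n; simp only [Finset.mem_Ioc, Finset.mem_union]; omega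
      · rw [Finset.disjoint_left]; intro n h1 h2
        simp only [Finset.mem_Ioc] at h1 h2; omega
    have e2 : ∑ d ∈ Ioc 0 (3 * N), (moebius d : ℝ) * cd d a - h * c2 =
        (∑ d ∈ Ioc 0 z, (moebius d : ℝ) * (cd d a - (h : ℝ) / (d : ℝ) ^ 2)) +
        h * (∑ d ∈ Ioc 0 z, (moebius d : ℝ) / (d : ℝ) ^ 2 - c2) +
        ∑ d ∈ Ioc z (3 * N), (moebius d : ℝ) * cd d a := by
      rw [e, mul_sub, Finset.mul_sum]
      simp only [mul_sub, Finset.sum_sub_distrib]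
      have : ∑ x ∈ Ioc 0 z, (moebius x : ℝ) * ((h : ℝ) / (x : ℝ) ^ 2) =
        ∑ i ∈ Ioc 0 z, (h : ℝ) * ((moebius i : ℝ) / (i : ℝ) ^ 2) := by
        apply Finset.sum_congr rfl; intro x _; ring
      rw [this]; ring
    have b1 : |∑ d ∈ Ioc 0 z, (moebius d : ℝ) * (cd d a - (h : ℝ) / (d : ℝ) ^ 2)| ≤ z := by
      refine le_trans (Finset.abs_sum_le_sum_abs _ _) ?_
      calc ∑ d ∈ Ioc 0 z, |(moebius d : ℝ) * (cd d a - (h : ℝ) / (d : ℝ) ^ 2)|
          ≤ ∑ d ∈ Ioc 0 z, (1:ℝ) := by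
            apply Finset.sum_le_sum
            intro d hd
            rw [Finset.mem_Ioc] at hd
            rw [abs_mul]
            have m1 : |(moebius d : ℝ)| ≤ 1 := by exact_mod_cast abs_moebius_le_one
            have m2 := card_dvd_Ioc_abs a h (d ^ 2) (by have := hd.1; positivity)
            push_cast at m2
            have m3 : |cd d a - (h : ℝ) / (d : ℝ) ^ 2| ≤ 1 := m2
            have m4 := mul_le_mul m1 m3 (abs_nonneg _) (by norm_num : (0:ℝ) ≤ 1)
            linarith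
        _ = z := by simp
    have b2 : |h * (∑ d ∈ Ioc 0 z, (moebius d : ℝ) / (d : ℝ) ^ 2 - c2)| ≤ 2 * Real.sqrt h := by
      rw [abs_mul, abs_of_pos hhr]
      calc (h : ℝ) * |∑ d ∈ Ioc 0 z, (moebius d : ℝ) / (d : ℝ) ^ 2 - c2|
          ≤ h * (2 / (z + 1)) := by
            apply mul_le_mul_of_nonneg_left (moebius_sq_tail z) hhr.le
        _ = 2 * (h / (z + 1)) := by ring
        _ ≤ 2 * Real.sqrt h := by linarith
    have b3 : |∑ d ∈ Ioc z (3 * N), (moebius d : ℝ) * cd d a| ≤ ∑ d ∈ Ioc z (3 * N), cd d a := by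
      refine le_trans (Finset.abs_sum_le_sum_abs _ _) ?_
      apply Finset.sum_le_sum
      intro d _
      rw [abs_mul]
      have m1 : |(moebius d : ℝ)| ≤ 1 := by exact_mod_cast abs_moebius_le_one
      have m2 : 0 ≤ cd d a := Nat.cast_nonneg _
      rw [abs_of_nonneg m2]
      nlinarith
    rw [e2]
    calc _ ≤ |∑ d ∈ Ioc 0 z, (moebius d : ℝ) * (cd d a - (h : ℝ) / (d : ℝ) ^ 2)| +
        |h * (∑ d ∈ Ioc 0 z, (moebius d : ℝ) / (d : ℝ) ^ 2 - c2)| +
        |∑ d ∈ Ioc z (3 * N), (moebius d : ℝ) * cd d a| := abs_add_three _ _ _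
      _ ≤ _ := by linarith
  have htail : ∑ a ∈ Ioc N (2 * N), ∑ d ∈ Ioc z (3 * N), cd d a ≤ 6 * N * Real.sqrt h := by
    rw [Finset.sum_comm]
    have h1 : ∀ d ∈ Ioc z (3 * N), ∑ a ∈ Ioc N (2 * N), cd d a ≤
        3 * N * h * ((d : ℝ) ^ 2)⁻¹ := by
      intro d hd
      rw [Finset.mem_Ioc] at hd
      have hdr : (0:ℝ) < d := by exact_mod_cast (by omega : 0 < d)
      have e : ∀ a, cd d a = ∑ n ∈ Ioc a (a + h), if d ^ 2 ∣ n then (1:ℝ) else 0 := by
        intro a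
        simp only [hcd]
        rw [Finset.card_filter]; push_cast; rfl
      rw [Finset.sum_congr rfl (fun a _ => e a)]
      refine le_trans (sum_shift_le' N h hh (fun n => if d ^ 2 ∣ n then (1:ℝ) else 0)
        (fun n => by split_ifs <;> norm_num)) ?_
      have e2 : ∑ n ∈ Ioc 0 (3 * N), (if d ^ 2 ∣ n then (1:ℝ) else 0) =
          ((3 * N / d ^ 2 : ℕ) : ℝ) := by
        rw [← Nat.Ioc_filter_dvd_card_eq_div, Finset.card_filter]; push_cast; rfl
      rw [e2]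
      have e3 : ((3 * N / d ^ 2 : ℕ) : ℝ) ≤ 3 * N * ((d : ℝ) ^ 2)⁻¹ := by
        have := @Nat.cast_div_le ℝ _ _ _ (3 * N) (d ^ 2)
        push_cast at this
        rw [← div_eq_mul_inv]; exact this
      calc (h : ℝ) * ((3 * N / d ^ 2 : ℕ) : ℝ) ≤ h * (3 * N * ((d : ℝ) ^ 2)⁻¹) := by gcongr
        _ = _ := by ring
    refine le_trans (Finset.sum_le_sum h1) ?_
    rw [← Finset.mul_sum]
    have h2 : ∑ d ∈ Ioc z (3 * N), ((d : ℝ) ^ 2)⁻¹ ≤ 2 / (z + 1) := by
      refine le_trans ?_ (sum_Ioo_inv_sq_le z (3 * N + 1))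
      apply Finset.sum_le_sum_of_subset_of_nonneg _ (fun _ _ _ => by positivity)
      intro n; simp only [Finset.mem_Ioc, Finset.mem_Ioo]; omega
    calc 3 * (N : ℝ) * h * ∑ d ∈ Ioc z (3 * N), ((d : ℝ) ^ 2)⁻¹
        ≤ 3 * (N : ℝ) * h * (2 / (z + 1)) := by gcongr
      _ = 6 * N * (h / (z + 1)) := by ring
      _ ≤ 6 * N * Real.sqrt h := by gcongr
  calc ∑ a ∈ Ioc N (2 * N), |((Q h a).card : ℝ) - h * c2|
      ≤ ∑ a ∈ Ioc N (2 * N), (3 * Real.sqrt h + ∑ d ∈ Ioc z (3 * N), cd d a) :=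
        Finset.sum_le_sum hpt
    _ = N * (3 * Real.sqrt h) + ∑ a ∈ Ioc N (2 * N), ∑ d ∈ Ioc z (3 * N), cd d a := by
        rw [Finset.sum_add_distrib, Finset.sum_const, nsmul_eq_mul, Nat.card_Ioc]
        congr 3; omega
    _ ≤ _ := by linarith

end Pool.Agent.P4f18df
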