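import Pool.Agent.Lib.P4f18df.Variance

/-!
# Convergence of all moments
-/

set_option autoImplicit false

namespace Pool.Agent.P4f18df

open Finset Filter MeasureTheory

lemma even_disc {f : ℕ → ℝ} (hm : MomProp f) (j q : ℕ) (hj : 1 ≤ j) (hq : 1 ≤ q) :
    ∀ᶠ N : ℕ in atTop, ∀ h : ℕ, 1 ≤ h → (h : ℝ) ≤ (N : ℝ) ^ (1 - 1 / q : ℝ) →
      ∑ a ∈ Ioc N (2 * N), (Wd f h a) ^ (2 * j) ≤ N * (((4 * j) ^ j + 1) * (h : ℝ) ^ j) := by
  filter_upwards [hm (2 * j) q (by omega) hq 1 one_pos, eventually_ge_atTop 1]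
    with N h3 hN h hh0 hhN
  have hNr : (0:ℝ) < N := by exact_mod_cast hN
  have hhr : (0:ℝ) < h := by exact_mod_cast hh0
  have h4 := h3 h hh0 hhN
  have e : (Real.sqrt h) ^ (2 * j) = (h : ℝ) ^ j := by
    rw [pow_mul, Real.sq_sqrt hhr.le]
  rw [e, one_mul] at h4
  have e1 : ∑ a ∈ Ioc N (2 * N), (Wd f h a) ^ (2 * j) =
      N * Dk f (2 * j) N h + ∑ a ∈ Ioc N (2 * N), (triv (2 * j) (Q h a) : ℝ) := by
    rw [Dk, mul_div_cancel₀ _ hNr.ne', Finset.sum_sub_distrib]; ring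
  rw [e1]
  have h5 := sum_triv_le (N := N) (h := h) hj
  have h6 : N * Dk f (2 * j) N h ≤ N * (h : ℝ) ^ j :=
    mul_le_mul_of_nonneg_left (le_trans (le_abs_self _) h4) hNr.le
  have h7 : ((4 : ℝ) * j * h) ^ j = (4 * j) ^ j * (h : ℝ) ^ j := mul_pow _ _ _
  rw [h7] at h5
  nlinarith

/-- uniform bound for the even moments on `[X, 2X]` -/
lemma even_bound {f : ℕ → ℝ} (hf : SgnFun f) (hm : MomProp f) (ε : ℝ) (hε : 0 < ε)
    (H : ℝ → ℝ) (hH1 : Tendsto H atTop atTop)
    (hH2 : ∀ᶠ X in atTop, H X ≤ X ^ (1 - ε)) (j : ℕ) (hj : 1 ≤ j) :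
    ∃ C : ℝ, 0 < C ∧ ∀ᶠ X : ℝ in atTop,
      (∫ x in X..(2 * X), (Zm f X (H X) x) ^ (2 * j)) ≤ C * X := by
  obtain ⟨q, hq⟩ := exists_nat_gt (4 / ε)
  have hq0 : 0 < q := by
    have : (0:ℝ) < q := lt_trans (by positivity) hq
    exact_mod_cast this
  have hqε : (1 / q : ℝ) ≤ ε / 4 := by
    rw [div_lt_iff₀ hε] at hq
    rw [div_le_iff₀ (by exact_mod_cast hq0)]
    linarith
  have hc2 := c2_pos
  set K : ℝ := (4 * j) ^ j + 1 with hK
  have hK0 : 0 < K := by positivity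
  refine ⟨2 ^ (2 * j) * (2 * K + 2 ^ (2 * j)) / c2 ^ j, by positivity, ?_⟩
  have c1 : ∀ᶠ X : ℝ in atTop, ∀ h : ℕ, 1 ≤ h →
      (h : ℝ) ≤ ((⌊X⌋₊ : ℕ) : ℝ) ^ (1 - 1 / q : ℝ) →
      ∑ a ∈ Ioc ⌊X⌋₊ (2 * ⌊X⌋₊), (Wd f h a) ^ (2 * j) ≤ ((⌊X⌋₊ : ℕ) : ℝ) * (K * (h : ℝ) ^ j) :=
    tendsto_nat_floor_atTop.eventually (even_disc hm j q hj hq0)
  have tdiv : Tendsto (fun X : ℝ => (⌊X⌋₊ + 1) / 2) atTop atTop := by
    have h1 : Tendsto (fun n : ℕ => (n + 1) / 2) atTop atTop := by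
      apply tendsto_atTop_atTop.2
      intro b
      exact ⟨2 * b, fun n hn => by omega⟩
    exact h1.comp tendsto_nat_floor_atTop
  have c1' : ∀ᶠ X : ℝ in atTop, ∀ h : ℕ, 1 ≤ h →
      (h : ℝ) ≤ (((⌊X⌋₊ + 1) / 2 : ℕ) : ℝ) ^ (1 - 1 / q : ℝ) →
      ∑ a ∈ Ioc ((⌊X⌋₊ + 1) / 2) (2 * ((⌊X⌋₊ + 1) / 2)), (Wd f h a) ^ (2 * j) ≤
        (((⌊X⌋₊ + 1) / 2 : ℕ) : ℝ) * (K * (h : ℝ) ^ j) :=
    tdiv.eventually (even_disc hm j q hj hq0)
  have c4 : ∀ᶠ X : ℝ in atTop, X ^ (-ε) < 1 / 10000 := by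
    have := tendsto_rpow_neg_atTop hε
    exact this.eventually (gt_mem_nhds (by positivity))
  have c6 : ∀ᶠ X : ℝ in atTop, X ^ (1 - ε) ≤ (X / 4) ^ (1 - 1 / q : ℝ) := by
    have d1 : ∀ᶠ X : ℝ in atTop, (4:ℝ) ≤ X ^ (ε / 2) :=
      (tendsto_rpow_atTop (by positivity)).eventually_ge_atTop 4
    filter_upwards [d1, eventually_ge_atTop 2] with X hX1 hX2
    have hX0 : (0:ℝ) < X := by linarith
    have hexp : 0 ≤ (1 - 1 / q : ℝ) := by
      have : (1 / q : ℝ) ≤ 1 := by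
        rw [div_le_one (by exact_mod_cast hq0)]; exact_mod_cast hq0
      linarith
    have hq1 : 0 ≤ (1 / q : ℝ) := by positivity
    calc X ^ (1 - ε) ≤ X ^ ((1 - 1 / q : ℝ) - ε / 2) := by
          apply Real.rpow_le_rpow_of_exponent_le (by linarith)
          linarith
      _ = X ^ (1 - 1 / q : ℝ) / X ^ (ε / 2) := by rw [Real.rpow_sub hX0]
      _ ≤ X ^ (1 - 1 / q : ℝ) / 4 := by
          apply div_le_div_of_nonneg_left (by positivity) (by norm_num) hX1
      _ ≤ X ^ (1 - 1 / q : ℝ) / 4 ^ (1 - 1 / q : ℝ) := by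
          apply div_le_div_of_nonneg_left (by positivity) (by positivity)
          calc (4:ℝ) ^ (1 - 1 / q : ℝ) ≤ 4 ^ (1:ℝ) := by
                apply Real.rpow_le_rpow_of_exponent_le (by norm_num); linarith
            _ = 4 := Real.rpow_one 4
      _ = (X / 4) ^ (1 - 1 / q : ℝ) := by rw [Real.div_rpow hX0.le (by norm_num)]
  filter_upwards [c1, c1', c4, c6, hH2, hH1.eventually_ge_atTop 8,
      eventually_ge_atTop 100] with X g1 g1' g4 g6 g7 g8a g9a
  have hX0 : (0:ℝ) < X := by linarith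
  set N := ⌊X⌋₊ with hN
  set h := ⌊H X⌋₊ with hh
  set N' := (N + 1) / 2 with hN'
  have n1 : (N : ℝ) ≤ X := Nat.floor_le (by linarith)
  have n2 : X < N + 1 := Nat.lt_floor_add_one _
  have b1 : (h : ℝ) ≤ H X := Nat.floor_le (by linarith)
  have b2 : H X < h + 1 := Nat.lt_floor_add_one _
  have hN100 : 100 ≤ N := Nat.le_floor (by exact_mod_cast g9a)
  have hNr : (100:ℝ) ≤ N := by exact_mod_cast hN100
  have hh8 : 8 ≤ h := Nat.le_floor (by exact_mod_cast g8a)
  have hhr : (8:ℝ) ≤ h := by exact_mod_cast hh8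
  have hexp : 0 ≤ (1 - 1 / q : ℝ) := by
    have : (1 / q : ℝ) ≤ 1 := by
      rw [div_le_one (by exact_mod_cast hq0)]; exact_mod_cast hq0
    linarith
  have hN'X : X / 4 ≤ (N' : ℝ) := by
    have : N ≤ 2 * N' := by omega
    have h2 : (N : ℝ) ≤ 2 * N' := by exact_mod_cast this
    linarith
  have hN'le : (N' : ℝ) ≤ X := by
    have : (N' : ℝ) ≤ N := by exact_mod_cast (by omega : N' ≤ N)
    linarith
  have hNX4 : X / 4 ≤ (N : ℝ) := by linarith
  have r1 : (h : ℝ) ≤ (N : ℝ) ^ (1 - 1 / q : ℝ) := by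
    calc (h : ℝ) ≤ X ^ (1 - ε) := by linarith
      _ ≤ (X / 4) ^ (1 - 1 / q : ℝ) := g6
      _ ≤ _ := Real.rpow_le_rpow (by positivity) hNX4 hexp
  have r2 : (h : ℝ) ≤ (N' : ℝ) ^ (1 - 1 / q : ℝ) := by
    calc (h : ℝ) ≤ X ^ (1 - ε) := by linarith
      _ ≤ (X / 4) ^ (1 - 1 / q : ℝ) := g6
      _ ≤ _ := Real.rpow_le_rpow (by positivity) hN'X hexp
  have hHX' : H X ≤ X / 10000 := by
    have h1 : H X ≤ X * X ^ (-ε) := by
      refine le_trans g7 (le_of_eq ?_)
      rw [sub_eq_add_neg, Real.rpow_add hX0, Real.rpow_one]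
    have h2 : X * X ^ (-ε) ≤ X * (1 / 10000) := mul_le_mul_of_nonneg_left g4.le hX0.le
    linarith
  have hhN : (h : ℝ) ≤ N / 1000 := by linarith
  have hhN' : 1000 * h ≤ N := by
    have : 1000 * (h : ℝ) ≤ N := by linarith
    exact_mod_cast this
  have v4 := g1 h (by omega) r1
  have v4' := g1' h (by omega) r2
  -- the step function
  set G : ℝ → ℝ := fun y => (Wd f h ⌊y⌋₊) ^ (2 * j) with hG
  have hGm : Measurable G := measurable_floor_comp_real (fun a => (Wd f h a) ^ (2 * j))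
  have hGev : ∀ a : ℕ, 0 ≤ (Wd f h a) ^ (2 * j) := fun a => by
    rw [pow_mul]; positivity
  have hG0 : ∀ y, 0 ≤ G y := fun y => hGev _
  have hGb : ∀ y, |G y| ≤ (h : ℝ) ^ (2 * j) := by
    intro y
    rw [abs_of_nonneg (hG0 y)]
    have := abs_Wd_le hf h ⌊y⌋₊
    calc G y = |Wd f h ⌊y⌋₊| ^ (2 * j) := by rw [(even_two_mul j).pow_abs]
      _ ≤ _ := pow_le_pow_left₀ (abs_nonneg _) this _
  have hGi : ∀ a b, IntervalIntegrable G volume a b :=
    intervalIntegrable_of_bdd_real hGm _ hGb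
  have A1 : (∫ x in X..(2 * X), (Wd f h ⌊x - H X / 2⌋₊) ^ (2 * j)) =
      ∫ y in (X - H X / 2)..(2 * X - H X / 2), G y := by
    rw [← intervalIntegral.integral_comp_sub_right (fun y => G y) (H X / 2)]
  have B1 : ∫ y in (X - H X / 2)..(2 * X - H X / 2), G y ≤ 2 * X * (K * (h : ℝ) ^ j) := by
    set m := ⌊X - H X / 2⌋₊ with hm'
    have m1 : (m : ℝ) ≤ X - H X / 2 := Nat.floor_le (by linarith)
    have m2 : X - H X / 2 < m + 1 := Nat.lt_floor_add_one _
    have mN : m ≤ 2 * N + 1 := by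
      have : (m : ℝ) ≤ ((2 * N + 1 : ℕ) : ℝ) := by push_cast; linarith
      exact_mod_cast this
    have mlow : N ≤ m + h + 2 := by
      have : (N : ℝ) ≤ ((m + h + 2 : ℕ) : ℝ) := by push_cast; linarith
      exact_mod_cast this
    have s1 : ∫ y in (X - H X / 2)..(2 * X - H X / 2), G y ≤
        ∫ y in (m : ℝ)..((2 * N + 1 : ℕ) : ℝ), G y := by
      apply intervalIntegral.integral_mono_interval m1 (by linarith) (by push_cast; linarith)
      · exact Filter.Eventually.of_forall (fun y => hG0 y)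
      · exact hGi _ _
    refine le_trans s1 ?_
    rw [hG, integral_floor_real (fun a => (Wd f h a) ^ (2 * j)) m (2 * N + 1) mN]
    have hsub : Ico m (2 * N + 1) ⊆ Ioc N' (2 * N') ∪ Ioc N (2 * N) := by
      intro a ha
      rw [Finset.mem_Ico] at ha
      rw [Finset.mem_union, Finset.mem_Ioc, Finset.mem_Ioc]
      omega
    calc ∑ a ∈ Ico m (2 * N + 1), (Wd f h a) ^ (2 * j)
        ≤ ∑ a ∈ Ioc N' (2 * N') ∪ Ioc N (2 * N), (Wd f h a) ^ (2 * j) :=
          Finset.sum_le_sum_of_subset_of_nonneg hsub (fun a _ _ => hGev a)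
      _ ≤ ∑ a ∈ Ioc N' (2 * N'), (Wd f h a) ^ (2 * j) +
          ∑ a ∈ Ioc N (2 * N), (Wd f h a) ^ (2 * j) := by
          rw [← Finset.sum_union_inter]
          have : 0 ≤ ∑ a ∈ Ioc N' (2 * N') ∩ Ioc N (2 * N), (Wd f h a) ^ (2 * j) :=
            Finset.sum_nonneg (fun a _ => hGev a)
          linarith
      _ ≤ N' * (K * (h : ℝ) ^ j) + N * (K * (h : ℝ) ^ j) := add_le_add v4' v4
      _ ≤ X * (K * (h : ℝ) ^ j) + X * (K * (h : ℝ) ^ j) := by gcongr
      _ = _ := by ring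
  -- compare
  have hsig : 0 < sig (H X) := by
    unfold sig; apply Real.sqrt_pos.2; have := Real.pi_pos; positivity
  have hsig2 : sig (H X) ^ (2 * j) = (H X * c2) ^ j := by
    unfold sig c2
    rw [pow_mul, Real.sq_sqrt (by positivity)]
    congr 1; field_simp
  have hZm := measurable_Zm f X (H X)
  have hZb : ∀ x, |(Zm f X (H X) x) ^ (2 * j)| ≤
      (((⌊2 * X + H X⌋₊ + 1 : ℕ) : ℝ) / sig (H X)) ^ (2 * j) := by
    intro x
    rw [abs_pow]
    apply pow_le_pow_left₀ (abs_nonneg _)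
    unfold Zm
    rw [abs_div, abs_of_pos hsig]
    apply div_le_div_of_nonneg_right _ hsig.le
    refine le_trans (Finset.abs_sum_le_sum_abs _ _) ?_
    calc ∑ n ∈ Finset.range (⌊2 * X + H X⌋₊ + 1), |if |(n : ℝ) - x| < H X / 2 then f n else 0|
        ≤ ∑ n ∈ Finset.range (⌊2 * X + H X⌋₊ + 1), (1:ℝ) := by
          apply Finset.sum_le_sum
          intro n _
          split_ifs
          · exact abs_f_le hf n
          · simp
      _ = _ := by simp
  have hZi : IntervalIntegrable (fun x => (Zm f X (H X) x) ^ (2 * j)) volume X (2 * X) :=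
    intervalIntegrable_of_bdd_real (hZm.pow_const _) _ hZb _ _
  have hWm : Measurable (fun x : ℝ => (Wd f h ⌊x - H X / 2⌋₊) ^ (2 * j)) :=
    hGm.comp (by fun_prop)
  have hWi : IntervalIntegrable (fun x : ℝ => (Wd f h ⌊x - H X / 2⌋₊) ^ (2 * j)) volume X
      (2 * X) :=
    intervalIntegrable_of_bdd_real hWm ((h : ℝ) ^ (2 * j)) (fun x => hGb (x - H X / 2)) _ _
  have hptw : ∀ x ∈ Set.Icc X (2 * X), (Zm f X (H X) x) ^ (2 * j) ≤
      2 ^ (2 * j) / (H X * c2) ^ j * ((Wd f h ⌊x - H X / 2⌋₊) ^ (2 * j) + 2 ^ (2 * j)) := by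
    intro x hx
    have h1 := Ms_sub_Wd hf (x := x) (H := H X) (by linarith) (by linarith [hx.1])
    rw [Zm_eq (by linarith) hx.2, div_pow, hsig2]
    set M := Ms f x (H X)
    set W := Wd f h ⌊x - H X / 2⌋₊
    rw [div_mul_eq_mul_div]
    apply div_le_div_of_nonneg_right _ (by positivity)
    have h2 : |M| ≤ 2 * max |W| 2 := by
      have : |M| ≤ |M - W| + |W| := by
        calc |M| = |(M - W) + W| := by congr 1; ring
          _ ≤ _ := abs_add_le _ _
      have := le_max_left |W| 2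
      have := le_max_right |W| 2
      linarith
    calc M ^ (2 * j) = |M| ^ (2 * j) := by rw [(even_two_mul j).pow_abs]
      _ ≤ (2 * max |W| 2) ^ (2 * j) := pow_le_pow_left₀ (abs_nonneg _) h2 _
      _ = 2 ^ (2 * j) * (max |W| 2) ^ (2 * j) := mul_pow _ _ _
      _ ≤ 2 ^ (2 * j) * (W ^ (2 * j) + 2 ^ (2 * j)) := by
          apply mul_le_mul_of_nonneg_left _ (by positivity)
          have e : W ^ (2 * j) = |W| ^ (2 * j) := by rw [(even_two_mul j).pow_abs]
          rw [e]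
          rcases le_total |W| 2 with h3 | h3
          · rw [max_eq_right h3]
            have : 0 ≤ |W| ^ (2 * j) := by positivity
            linarith
          · rw [max_eq_left h3]
            have : (0:ℝ) ≤ 2 ^ (2 * j) := by positivity
            linarith
  have E1 : (∫ x in X..(2 * X), (Zm f X (H X) x) ^ (2 * j)) ≤
      ∫ x in X..(2 * X), 2 ^ (2 * j) / (H X * c2) ^ j *
        ((Wd f h ⌊x - H X / 2⌋₊) ^ (2 * j) + 2 ^ (2 * j)) := by
    apply intervalIntegral.integral_mono_on (by linarith) hZi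
      ((hWi.add intervalIntegrable_const).const_mul _)
    exact hptw
  refine le_trans E1 ?_
  rw [intervalIntegral.integral_const_mul, intervalIntegral.integral_add hWi
    intervalIntegrable_const, intervalIntegral.integral_const, A1]
  have hh1 : (1:ℝ) ≤ (h : ℝ) ^ j := one_le_pow₀ (by linarith)
  have hden : (h : ℝ) ^ j * c2 ^ j ≤ (H X * c2) ^ j := by
    rw [← mul_pow]
    apply pow_le_pow_left₀ (by positivity)
    gcongr
  have hnum : (∫ y in (X - H X / 2)..(2 * X - H X / 2), G y) + (2 * X - X) • (2:ℝ) ^ (2 * j) ≤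
      (2 * K + 2 ^ (2 * j)) * X * (h : ℝ) ^ j := by
    rw [smul_eq_mul]
    have h2 : (2:ℝ) ^ (2 * j) * X * 1 ≤ 2 ^ (2 * j) * X * (h : ℝ) ^ j := by gcongr
    nlinarith
  calc 2 ^ (2 * j) / (H X * c2) ^ j * ((∫ y in (X - H X / 2)..(2 * X - H X / 2), G y) +
        (2 * X - X) • (2:ℝ) ^ (2 * j))
      ≤ 2 ^ (2 * j) / (H X * c2) ^ j * ((2 * K + 2 ^ (2 * j)) * X * (h : ℝ) ^ j) := by
        apply mul_le_mul_of_nonneg_left hnum (by positivity)
    _ ≤ 2 ^ (2 * j) / ((h : ℝ) ^ j * c2 ^ j) * ((2 * K + 2 ^ (2 * j)) * X * (h : ℝ) ^ j) := by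
        apply mul_le_mul_of_nonneg_right _ (by positivity)
        apply div_le_div_of_nonneg_left (by positivity) (by positivity) hden
    _ = 2 ^ (2 * j) * (2 * K + 2 ^ (2 * j)) / c2 ^ j * X := by
        have : (h : ℝ) ≠ 0 := by linarith
        field_simp

/-- truncation of `x ^ k` -/
noncomputable def trunc (k : ℕ) (R : ℝ) (x : ℝ) : ℝ := max (-R) (min (x ^ k) R)

lemma trunc_err (k : ℕ) (R : ℝ) (hR : 0 < R) (x : ℝ) :
    |x ^ k - trunc k R x| ≤ x ^ (2 * k) / R := by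
  have h0 : 0 ≤ x ^ (2 * k) := by rw [pow_mul]; positivity
  have e : x ^ (2 * k) = |x ^ k| * |x ^ k| := by
    rw [← abs_mul, ← pow_add, ← two_mul, abs_of_nonneg h0]
  unfold trunc
  rcases le_total |x ^ k| R with h | h
  · rw [abs_le] at h
    rw [min_eq_left h.2, max_eq_right h.1, sub_self, abs_zero]
    positivity
  · have h1 : |x ^ k - max (-R) (min (x ^ k) R)| ≤ |x ^ k| := by
      rcases le_total 0 (x ^ k) with hx | hx
      · rw [abs_of_nonneg hx] at h
        rw [min_eq_right h, max_eq_right (by linarith), abs_of_nonneg (by linarith),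
          abs_of_nonneg hx]
        linarith
      · rw [abs_of_nonpos hx] at h
        rw [min_eq_left (by linarith), max_eq_left (by linarith), abs_of_nonpos (by linarith),
          abs_of_nonpos hx]
        linarith
    refine le_trans h1 ?_
    rw [e, le_div_iff₀ hR]
    exact mul_le_mul_of_nonneg_left h (abs_nonneg _)

lemma abs_trunc_le (k : ℕ) (R : ℝ) (hR : 0 < R) (x : ℝ) : |trunc k R x| ≤ R := by
  unfold trunc
  rw [abs_le]
  constructor
  · exact le_max_left _ _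
  · exact max_le (by linarith) (min_le_right _ _)

lemma continuous_trunc (k : ℕ) (R : ℝ) : Continuous (trunc k R) := by
  unfold trunc; fun_prop

/-- Moments converge if laws converge weakly and the even moments are bounded. -/
lemma moments_of_weak (μs : ℕ → ProbabilityMeasure ℝ) (μ0 : ProbabilityMeasure ℝ)
    (hconv : Tendsto μs atTop (nhds μ0)) (k : ℕ) (C : ℝ) (hC : 0 < C)
    (hi : ∀ᶠ n in atTop, Integrable (fun x : ℝ => x ^ (2 * k)) (μs n : Measure ℝ) ∧
      Integrable (fun x : ℝ => x ^ k) (μs n : Measure ℝ) ∧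
      ∫ x, x ^ (2 * k) ∂(μs n : Measure ℝ) ≤ C)
    (hi0 : Integrable (fun x : ℝ => x ^ (2 * k)) (μ0 : Measure ℝ))
    (hi0' : Integrable (fun x : ℝ => x ^ k) (μ0 : Measure ℝ)) :
    Tendsto (fun n => ∫ x, x ^ k ∂(μs n : Measure ℝ)) atTop
      (nhds (∫ x, x ^ k ∂(μ0 : Measure ℝ))) := by
  have htr : ∀ R : ℝ, 0 < R → ∀ μ : ProbabilityMeasure ℝ, Integrable (trunc k R) (μ : Measure ℝ) := by
    intro R hR μ
    apply Integrable.of_bound (continuous_trunc k R).aestronglyMeasurable R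
    exact Filter.Eventually.of_forall (fun x => by
      rw [Real.norm_eq_abs]; exact abs_trunc_le k R hR x)
  have herr : ∀ R : ℝ, 0 < R → ∀ μ : ProbabilityMeasure ℝ,
      Integrable (fun x : ℝ => x ^ (2 * k)) (μ : Measure ℝ) →
      Integrable (fun x : ℝ => x ^ k) (μ : Measure ℝ) →
      |(∫ x, x ^ k ∂(μ : Measure ℝ)) - ∫ x, trunc k R x ∂(μ : Measure ℝ)| ≤
        (∫ x, x ^ (2 * k) ∂(μ : Measure ℝ)) / R := by
    intro R hR μ h1 h2
    rw [← integral_sub h2 (htr R hR μ)]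
    refine le_trans (abs_integral_le_integral_abs) ?_
    rw [← integral_div]
    apply integral_mono (h2.sub (htr R hR μ)).abs (h1.div_const R)
    intro x
    exact trunc_err k R hR x
  set C0 : ℝ := ∫ x, x ^ (2 * k) ∂(μ0 : Measure ℝ) with hC0
  have hC0' : 0 ≤ C0 := integral_nonneg (fun x => by
    show 0 ≤ x ^ (2 * k)
    rw [pow_mul]; positivity)
  rw [Metric.tendsto_nhds]
  intro δ hδ
  set R : ℝ := 4 * (C + C0) / δ with hR
  have hR0 : 0 < R := by positivity
  have hCR : C / R + C0 / R ≤ δ / 4 := by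
    rw [← add_div, hR, div_div_eq_mul_div, div_le_iff₀ (by positivity)]
    linarith
  have hb : Tendsto (fun n => ∫ x, trunc k R x ∂(μs n : Measure ℝ)) atTop
      (nhds (∫ x, trunc k R x ∂(μ0 : Measure ℝ))) := by
    have h := (ProbabilityMeasure.tendsto_iff_forall_integral_tendsto.1 hconv)
      (BoundedContinuousFunction.ofNormedAddCommGroup (trunc k R) (continuous_trunc k R) R
        (fun x => by rw [Real.norm_eq_abs]; exact abs_trunc_le k R hR0 x))
    exact h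
  rw [Metric.tendsto_nhds] at hb
  filter_upwards [hb (δ / 4) (by positivity), hi] with n h1 ⟨h2, h3, h4⟩
  rw [Real.dist_eq] at h1 ⊢
  have e1 := herr R hR0 (μs n) h2 h3
  have e2 := herr R hR0 μ0 hi0 hi0'
  have e3 : (∫ x, x ^ (2 * k) ∂(μs n : Measure ℝ)) / R ≤ C / R := by gcongr
  rw [abs_le] at e1 e2
  rw [abs_lt] at h1 ⊢
  constructor <;> linarith [e1.1, e1.2, e2.1, e2.2, h1.1, h1.2]

lemma gauss_int (k : ℕ) :
    Integrable (fun x : ℝ => x ^ k) (ProbabilityTheory.gaussianReal 0 1) := by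
  have h := ProbabilityTheory.memLp_id_gaussianReal (μ := 0) (v := 1) (k : NNReal)
  rcases Nat.eq_zero_or_pos k with h0 | h0
  · subst h0; simp
  · have h1 := h.integrable_norm_rpow (by exact_mod_cast h0.ne') (by simp)
    have h2 : Integrable (fun x : ℝ => |x| ^ k) (ProbabilityTheory.gaussianReal 0 1) := by
      refine h1.congr (Filter.Eventually.of_forall (fun x => ?_))
      simp
    refine h2.mono' (by fun_prop) (Filter.Eventually.of_forall (fun x => ?_))
    rw [Real.norm_eq_abs, abs_pow]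

/-- convergence of the characteristic functions -/
lemma charFun_of_momProp {f : ℕ → ℝ} (hf : SgnFun f) (hm : MomProp f) (ε : ℝ) (hε : 0 < ε)
    (H : ℝ → ℝ) (hH1 : Tendsto H atTop atTop)
    (hH2 : ∀ᶠ X in atTop, H X ≤ X ^ (1 - ε)) :
    ∀ θ : ℝ, Tendsto (fun X : ℝ => charFun ((unif X).map (Zm f X (H X))) θ) atTop
      (nhds ((Real.exp (-(θ ^ 2 / 2)) : ℝ) : ℂ)) := by
  -- choose q with 1/q < ε
  obtain ⟨q, hq⟩ := exists_nat_gt (2 / ε)
  have hq0 : 0 < q := by
    have : (0:ℝ) < q := lt_trans (by positivity) hq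
    exact_mod_cast this
  have hqε : (1 / q : ℝ) ≤ ε / 2 := by
    rw [div_lt_iff₀ hε] at hq
    rw [div_le_iff₀ (by exact_mod_cast hq0)]
    linarith
  -- the characteristic functions converge
  have hchar : ∀ θ : ℝ, Tendsto (fun X : ℝ => charFun ((unif X).map (Zm f X (H X))) θ) atTop
      (nhds ((Real.exp (-(θ ^ 2 / 2)) : ℝ) : ℂ)) := by
    intro θ
    rw [Metric.tendsto_nhds]
    intro δ hδ
    obtain ⟨h₀, hh₀⟩ := disc_charFun hm q hq0 θ (δ / 2) (by positivity)
    have c1 : ∀ᶠ X : ℝ in atTop, ∀ h : ℕ, h₀ ≤ h → (h : ℝ) ≤ ((⌊X⌋₊ : ℕ) : ℝ) ^ (1 - 1 / q : ℝ) →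
      ‖Phi f (θ / sig h) ⌊X⌋₊ h - ((Real.exp (-(θ ^ 2 / 2)) : ℝ) : ℂ)‖ ≤ δ / 2 :=
      tendsto_nat_floor_atTop.eventually hh₀
    have c2 : ∀ᶠ X : ℝ in atTop, h₀ ≤ ⌊H X⌋₊ :=
      (tendsto_nat_floor_atTop.comp hH1).eventually_ge_atTop h₀
    have c3 : ∀ᶠ X : ℝ in atTop, |θ| * (5 / Real.sqrt ⌊H X⌋₊) < δ / 6 := by
      have : Tendsto (fun X : ℝ => |θ| * (5 / Real.sqrt ⌊H X⌋₊)) atTop (nhds (|θ| * 0)) := by
        apply Tendsto.const_mul
        apply tendsto_const_nhds.div_atTop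
        exact Real.tendsto_sqrt_atTop.comp (tendsto_natCast_atTop_atTop.comp
          (tendsto_nat_floor_atTop.comp hH1))
      rw [mul_zero] at this
      exact this.eventually (gt_mem_nhds (by positivity))
    have c4 : ∀ᶠ X : ℝ in atTop, X ^ (-ε) < δ / 12 := by
      have := tendsto_rpow_neg_atTop hε
      exact this.eventually (gt_mem_nhds (by positivity))
    have c5 : ∀ᶠ X : ℝ in atTop, 5 / X < δ / 12 := by
      have : Tendsto (fun X : ℝ => 5 / X) atTop (nhds 0) :=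
        tendsto_const_nhds.div_atTop tendsto_id
      exact this.eventually (gt_mem_nhds (by positivity))
    have c6 : ∀ᶠ X : ℝ in atTop, X ^ (1 - ε) ≤ ((⌊X⌋₊ : ℕ) : ℝ) ^ (1 - 1 / q : ℝ) := by
      -- X^(1-ε) ≤ (X/2)^(1-1/q)
      have d1 : ∀ᶠ X : ℝ in atTop, (2:ℝ) ≤ X ^ (ε / 2) :=
        (tendsto_rpow_atTop (by positivity)).eventually_ge_atTop 2
      filter_upwards [d1, eventually_ge_atTop 2] with X hX1 hX2
      have hX0 : (0:ℝ) < X := by linarith
      have n2 : X < (⌊X⌋₊ : ℝ) + 1 := Nat.lt_floor_add_one _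
      have hfl : X / 2 ≤ (⌊X⌋₊ : ℝ) := by linarith
      have hexp : 0 ≤ (1 - 1 / q : ℝ) := by
        have : (1 / q : ℝ) ≤ 1 := by
          rw [div_le_one (by exact_mod_cast hq0)]; exact_mod_cast hq0
        linarith
      have hq1 : 0 ≤ (1 / q : ℝ) := by positivity
      calc X ^ (1 - ε) ≤ X ^ ((1 - 1 / q : ℝ) - ε / 2) := by
            apply Real.rpow_le_rpow_of_exponent_le (by linarith)
            linarith
        _ = X ^ (1 - 1 / q : ℝ) / X ^ (ε / 2) := by rw [Real.rpow_sub hX0]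
        _ ≤ X ^ (1 - 1 / q : ℝ) / 2 := by
            apply div_le_div_of_nonneg_left (by positivity) (by norm_num) hX1
        _ ≤ X ^ (1 - 1 / q : ℝ) / 2 ^ (1 - 1 / q : ℝ) := by
            apply div_le_div_of_nonneg_left (by positivity) (by positivity)
            calc (2:ℝ) ^ (1 - 1 / q : ℝ) ≤ 2 ^ (1:ℝ) := by
                  apply Real.rpow_le_rpow_of_exponent_le (by norm_num); linarith
              _ = 2 := Real.rpow_one 2
        _ = (X / 2) ^ (1 - 1 / q : ℝ) := by rw [Real.div_rpow hX0.le (by norm_num)]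
        _ ≤ _ := Real.rpow_le_rpow (by positivity) hfl hexp
    filter_upwards [c1, c2, c3, c4, c5, c6, hH2, hH1.eventually_ge_atTop 1,
      eventually_ge_atTop 1] with X g1 g2 g3 g4 g5 g6 g7 g8 g9
    have hX0 : (0:ℝ) < X := by linarith
    have hfl : ((⌊H X⌋₊ : ℕ) : ℝ) ≤ H X := Nat.floor_le (by linarith)
    have k1 := g1 ⌊H X⌋₊ g2 (by linarith)
    have hHX : H X ≤ X * X ^ (-ε) := by
      refine le_trans g7 (le_of_eq ?_)
      rw [sub_eq_add_neg, Real.rpow_add hX0, Real.rpow_one]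
    have hHX' : H X ≤ X := by
      refine le_trans g7 ?_
      calc X ^ (1 - ε) ≤ X ^ (1:ℝ) := Real.rpow_le_rpow_of_exponent_le g9 (by linarith)
        _ = X := Real.rpow_one X
    have k2 := charFun_bound hf g9 g8 hHX' θ
    have k3 : (H X + 4) / X + 1 / X ≤ X ^ (-ε) + 5 / X := by
      have : H X / X ≤ X ^ (-ε) := by
        rw [div_le_iff₀ hX0]; linarith
      have e : (H X + 4) / X + 1 / X = H X / X + 5 / X := by ring
      rw [e]; linarith
    rw [dist_eq_norm]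
    calc ‖charFun ((unif X).map (Zm f X (H X))) θ - ((Real.exp (-(θ ^ 2 / 2)) : ℝ) : ℂ)‖
        = ‖(charFun ((unif X).map (Zm f X (H X))) θ - Phi f (θ / sig ⌊H X⌋₊) ⌊X⌋₊ ⌊H X⌋₊) +
          (Phi f (θ / sig ⌊H X⌋₊) ⌊X⌋₊ ⌊H X⌋₊ - ((Real.exp (-(θ ^ 2 / 2)) : ℝ) : ℂ))‖ := by
          congr 1; ring
      _ ≤ _ := norm_add_le _ _
      _ < δ := by linarith
  exact hchar

/-- the standard Gaussian as a bundled probability measure -/
noncomputable def gaussPM : ProbabilityMeasure ℝ :=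
  ⟨ProbabilityTheory.gaussianReal 0 1, inferInstance⟩

lemma gaussPM_coe : (gaussPM : Measure ℝ) = ProbabilityTheory.gaussianReal 0 1 := rfl

/-- weak convergence of the laws along sequences -/
lemma weak_of_momProp {f : ℕ → ℝ} (hf : SgnFun f) (hm : MomProp f) (ε : ℝ) (hε : 0 < ε)
    (H : ℝ → ℝ) (hH1 : Tendsto H atTop atTop)
    (hH2 : ∀ᶠ X in atTop, H X ≤ X ^ (1 - ε)) (v : ℕ → ℝ) (hvt : Tendsto v atTop atTop)
    (μs : ℕ → ProbabilityMeasure ℝ)
    (hμs : ∀ n, (μs n : Measure ℝ) = (unif (v n)).map (Zm f (v n) (H (v n)))) :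
    Tendsto μs atTop (nhds gaussPM) := by
  rw [ProbabilityMeasure.tendsto_iff_tendsto_charFun]
  intro θ
  have h1 : charFun (gaussPM : Measure ℝ) θ = ((Real.exp (-(θ ^ 2 / 2)) : ℝ) : ℂ) := by
    rw [gaussPM_coe, ProbabilityTheory.charFun_gaussianReal]
    push_cast
    congr 1; simp
  rw [h1]
  have h2 := ((charFun_of_momProp hf hm ε hε H hH1 hH2) θ).comp hvt
  refine h2.congr (fun n => ?_)
  simp only [Function.comp]
  rw [hμs n]

/-- All moments converge to the Gaussian moments. -/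
theorem moments_of_momProp {f : ℕ → ℝ} (hf : SgnFun f) (hm : MomProp f) (ε : ℝ) (hε : 0 < ε)
    (H : ℝ → ℝ) (hH1 : Tendsto H atTop atTop)
    (hH2 : ∀ᶠ X in atTop, H X ≤ X ^ (1 - ε)) (k : ℕ) :
    Tendsto (fun X : ℝ => (∫ x in X..(2 * X),
        (Ms f x (H X) / Real.sqrt (H X / (Real.pi ^ 2 / 6))) ^ k) / X) atTop
      (nhds (∫ y, y ^ k ∂(ProbabilityTheory.gaussianReal 0 1))) := by
  obtain ⟨C, hC, hCb⟩ : ∃ C : ℝ, 0 < C ∧ ∀ᶠ X : ℝ in atTop,
      (∫ x in X..(2 * X), (Zm f X (H X) x) ^ (2 * k)) ≤ C * X := by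
    rcases Nat.eq_zero_or_pos k with h0 | h0
    · subst h0
      refine ⟨1, one_pos, ?_⟩
      filter_upwards [eventually_ge_atTop 1] with X hX
      simp
      linarith
    · exact even_bound hf hm ε hε H hH1 hH2 k h0
  apply tendsto_of_seq_tendsto
  intro u hu
  set v : ℕ → ℝ := fun n => max (u n) 1 with hv
  have hv1 : ∀ n, 1 ≤ v n := fun n => le_max_right _ _
  have hvt : Tendsto v atTop atTop := tendsto_atTop_mono (fun n => le_max_left _ _) hu
  have huv : ∀ᶠ n in atTop, v n = u n := by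
    filter_upwards [hu.eventually_ge_atTop 1] with n hn
    exact max_eq_left hn
  have hprob : ∀ n, IsProbabilityMeasure ((unif (v n)).map (Zm f (v n) (H (v n)))) := by
    intro n
    have := unif_prob (show 0 < v n by have := hv1 n; linarith)
    exact Measure.isProbabilityMeasure_map (measurable_Zm _ _ _).aemeasurable
  set μs : ℕ → ProbabilityMeasure ℝ := fun n => ⟨(unif (v n)).map (Zm f (v n) (H (v n))), hprob n⟩
    with hμs
  have hconv := weak_of_momProp hf hm ε hε H hH1 hH2 v hvt μs (fun n => rfl)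
  -- integrals against the law
  have hint : ∀ n, ∀ m : ℕ, ∫ x, x ^ m ∂(μs n : Measure ℝ) =
      (∫ x in (v n)..(2 * v n), (Zm f (v n) (H (v n)) x) ^ m) / v n := by
    intro n m
    have hvn : 0 < v n := by have := hv1 n; linarith
    simp only [hμs, ProbabilityMeasure.coe_mk]
    rw [integral_map (measurable_Zm _ _ _).aemeasurable (by fun_prop)]
    unfold unif
    rw [integral_smul_measure, intervalIntegral.integral_of_le (by linarith),
      ← integral_Icc_eq_integral_Ioc, ENNReal.toReal_inv, ENNReal.toReal_ofReal hvn.le,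
      smul_eq_mul, div_eq_inv_mul]
  have hbd : ∀ n x, |Zm f (v n) (H (v n)) x| ≤
      |((⌊2 * v n + H (v n)⌋₊ + 1 : ℕ) : ℝ) / sig (H (v n))| := by
    intro n x
    unfold Zm
    rw [abs_div, abs_div]
    apply div_le_div_of_nonneg_right _ (abs_nonneg _)
    refine le_trans (Finset.abs_sum_le_sum_abs _ _) ?_
    calc ∑ i ∈ Finset.range (⌊2 * v n + H (v n)⌋₊ + 1),
          |if |(i : ℝ) - x| < H (v n) / 2 then f i else 0|
        ≤ ∑ i ∈ Finset.range (⌊2 * v n + H (v n)⌋₊ + 1), (1:ℝ) := by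
          apply Finset.sum_le_sum
          intro i _
          split_ifs
          · exact abs_f_le hf i
          · simp
      _ ≤ _ := by
          rw [Finset.sum_const, Finset.card_range, nsmul_eq_mul, mul_one]
          exact le_abs_self _
  have hinteg : ∀ n, ∀ m : ℕ, Integrable (fun x : ℝ => x ^ m) (μs n : Measure ℝ) := by
    intro n m
    simp only [hμs, ProbabilityMeasure.coe_mk]
    rw [integrable_map_measure (by fun_prop) (measurable_Zm _ _ _).aemeasurable]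
    have := unif_prob (show 0 < v n by have := hv1 n; linarith)
    apply Integrable.of_bound (C := |((⌊2 * v n + H (v n)⌋₊ + 1 : ℕ) : ℝ) / sig (H (v n))| ^ m)
    · exact ((measurable_Zm _ _ _).pow_const _).aestronglyMeasurable
    · refine Filter.Eventually.of_forall (fun x => ?_)
      simp only [Function.comp]
      rw [Real.norm_eq_abs, abs_pow]
      exact pow_le_pow_left₀ (abs_nonneg _) (hbd n x) m
  have hmain := moments_of_weak μs gaussPM hconv k C hC
    (by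
      filter_upwards [hvt.eventually hCb] with n hn
      refine ⟨hinteg n _, hinteg n _, ?_⟩
      rw [hint n, div_le_iff₀ (by have := hv1 n; linarith)]
      exact hn) (gauss_int _) (gauss_int _)
  refine hmain.congr' ?_
  have hHpos : ∀ᶠ n in atTop, 0 ≤ H (u n) := (hH1.comp hu).eventually_ge_atTop 0
  filter_upwards [huv, hHpos] with n hn hHn
  have hun : 1 ≤ u n := hn ▸ hv1 n
  rw [hint n k]
  simp only [Function.comp, hn]
  congr 1
  apply intervalIntegral.integral_congr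
  intro x hx
  rw [Set.uIcc_of_le (by linarith)] at hx
  simp only
  rw [Zm_eq hHn hx.2]
  rfl

end Pool.Agent.P4f18df
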