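import Pool.Agent.Lib.P4f18df.Asym

/-!
# Almost sure smallness of `Dk`
-/

set_option autoImplicit false

namespace Pool.Agent.P4f18df

open Finset Filter MeasureTheory ProbabilityTheory

/-- the random multiplicative function -/
noncomputable def rmf {Ω : Type*} (ξ : ℕ → Ω → ℝ) (ω : Ω) (n : ℕ) : ℝ :=
  if Squarefree n then ∏ p ∈ n.primeFactors, ξ p ω else 0

/-- independent fair signs indexed by the primes -/
structure RadPrimes {Ω : Type*} [MeasurableSpace Ω] (μ : Measure Ω) (ξ : ℕ → Ω → ℝ) : Prop where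
  meas : ∀ p, p.Prime → Measurable (ξ p)
  indep : iIndepFun (fun p : Nat.Primes => ξ (p : ℕ)) μ
  val : ∀ p, p.Prime → ∀ᵐ ω ∂μ, ξ p ω = 1 ∨ ξ p ω = -1
  half : ∀ p, p.Prime → μ {ω | ξ p ω = 1} = 1 / 2

/-- the configuration at height `N` -/
noncomputable def conf {Ω : Type*} (ξ : ℕ → Ω → ℝ) (N : ℕ) (ω : Ω) : Finset ℕ :=
  (PN N).filter (fun p => ξ p ω ≠ 1)

section

variable {Ω : Type*} [MeasurableSpace Ω] {μ : Measure Ω} [IsProbabilityMeasure μ]
  {ξ : ℕ → Ω → ℝ} (H : RadPrimes μ ξ)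

include H in
lemma prob_conf (N : ℕ) (U : Finset ℕ) (hU : U ⊆ PN N) :
    μ {ω | conf ξ N ω = U} = (2⁻¹ : ENNReal) ^ (PN N).card := by
  classical
  obtain ⟨S, hSmem, hScard⟩ : ∃ S : Finset Nat.Primes, (∀ p : Nat.Primes, p ∈ S ↔
      (p : ℕ) ∈ PN N) ∧ S.card = (PN N).card := by
    refine ⟨(Finset.subtype Nat.Prime (PN N) : Finset (Subtype Nat.Prime)),
      fun p => Finset.mem_subtype, ?_⟩
    refine (Finset.card_subtype _ _).trans ?_
    congr 1
    apply Finset.filter_true_of_mem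
    intro p hp
    rw [PN, Finset.mem_filter] at hp
    exact hp.2
  set sets : Nat.Primes → Set ℝ := fun p => if (p : ℕ) ∈ U then {1}ᶜ else {1} with hsets
  have e1 : {ω | conf ξ N ω = U} = ⋂ p ∈ S, (ξ (p : ℕ)) ⁻¹' sets p := by
    ext ω
    simp only [Set.mem_setOf_eq, Set.mem_iInter, Set.mem_preimage]
    constructor
    · intro h p hp
      rw [hSmem] at hp
      simp only [hsets]
      split_ifs with hpU
      · rw [← h, conf, Finset.mem_filter] at hpU
        exact hpU.2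
      · rw [← h, conf, Finset.mem_filter] at hpU
        push Not at hpU
        exact hpU hp
    · intro h
      ext p
      rw [conf, Finset.mem_filter]
      constructor
      · rintro ⟨hp, hne⟩
        have hpp : p.Prime := by rw [PN, Finset.mem_filter] at hp; exact hp.2
        have := h ⟨p, hpp⟩ ((hSmem _).2 hp)
        simp only [hsets] at this
        by_contra hpU
        rw [if_neg hpU] at this
        exact hne this
      · intro hpU
        have hp := hU hpU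
        have hpp : p.Prime := by rw [PN, Finset.mem_filter] at hp; exact hp.2
        have := h ⟨p, hpp⟩ ((hSmem _).2 hp)
        simp only [hsets] at this
        rw [if_pos hpU] at this
        exact ⟨hp, this⟩
  have hmeas : ∀ p ∈ S, MeasurableSet (sets p) := by
    intro p _
    simp only [hsets]
    split_ifs
    · exact (measurableSet_singleton 1).compl
    · exact measurableSet_singleton 1
  rw [e1, H.indep.measure_inter_preimage_eq_mul S hmeas]
  have hhalf : ∀ p ∈ S, μ ((ξ (p : ℕ)) ⁻¹' sets p) = 2⁻¹ := by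
    intro p _
    have h1 : μ ((ξ (p : ℕ)) ⁻¹' {1}) = 2⁻¹ := by
      have := H.half p p.2
      rw [one_div] at this
      exact this
    simp only [hsets]
    split_ifs
    · rw [Set.preimage_compl, prob_compl_eq_one_sub (H.meas p p.2 (measurableSet_singleton 1)), h1]
      exact ENNReal.one_sub_inv_two
    · exact h1
  rw [Finset.prod_congr rfl hhalf, Finset.prod_const, hScard]

include H in
lemma prob_event (N : ℕ) (B : Finset ℕ → Prop) [DecidablePred B] :
    μ {ω | B (conf ξ N ω)} ≤ ENNReal.ofReal (av (PN N) (fun U => if B U then 1 else 0)) := by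
  classical
  have h1 : {ω | B (conf ξ N ω)} ⊆
      ⋃ U ∈ (PN N).powerset.filter B, {ω | conf ξ N ω = U} := by
    intro ω hω
    simp only [Set.mem_iUnion]
    refine ⟨conf ξ N ω, ?_, rfl⟩
    rw [Finset.mem_filter, Finset.mem_powerset]
    exact ⟨Finset.filter_subset _ _, hω⟩
  refine le_trans (measure_mono h1) (le_trans (measure_biUnion_finset_le _ _) ?_)
  rw [Finset.sum_congr rfl (fun U hU => prob_conf H N U
    (Finset.mem_powerset.1 (Finset.mem_filter.1 hU).1)), Finset.sum_const, nsmul_eq_mul]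
  apply le_of_eq
  unfold av
  rw [← Finset.sum_filter, Finset.sum_const, nsmul_eq_mul, mul_one,
    ENNReal.ofReal_div_of_pos (by positivity), ENNReal.ofReal_natCast,
    ENNReal.ofReal_pow (by norm_num), div_eq_mul_inv, ENNReal.inv_pow]
  congr 3
  norm_num

include H in
lemma ae_val : ∀ᵐ ω ∂μ, ∀ p : ℕ, p.Prime → (ξ p ω = 1 ∨ ξ p ω = -1) := by
  rw [ae_all_iff]
  intro p
  by_cases hp : p.Prime
  · filter_upwards [H.val p hp] with ω hω _
    exact hω
  · exact Filter.Eventually.of_forall (fun ω h => absurd h hp)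

lemma rmf_eq {ω : Ω} (hω : ∀ p : ℕ, p.Prime → (ξ p ω = 1 ∨ ξ p ω = -1)) {N n : ℕ}
    (hn : n ≤ 3 * N) : rmf ξ ω n = fU (conf ξ N ω) n := by
  unfold rmf fU
  split_ifs with hsq
  · unfold chi
    apply Finset.prod_congr rfl
    intro p hp
    have hpp := Nat.prime_of_mem_primeFactors hp
    have hpP := PN_sub N n (Nat.pos_of_ne_zero hsq.ne_zero) hn hp
    unfold sg
    have hmem : p ∈ conf ξ N ω ↔ (p ∈ PN N ∧ ξ p ω ≠ 1) := by rw [conf, Finset.mem_filter]
    rcases hω p hpp with h | h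
    · rw [if_neg (by rw [hmem, h]; simp), h]
    · rw [if_pos (by rw [hmem]; exact ⟨hpP, by rw [h]; norm_num⟩), h]
  · rfl

lemma Dk_rmf {ω : Ω} (hω : ∀ p : ℕ, p.Prime → (ξ p ω = 1 ∨ ξ p ω = -1)) {N h : ℕ} (k : ℕ)
    (hh : h ≤ N) : Dk (rmf ξ ω) k N h = Dk (fU (conf ξ N ω)) k N h := by
  unfold Dk
  congr 1
  apply Finset.sum_congr rfl
  intro a ha
  rw [Finset.mem_Ioc] at ha
  have : Wd (rmf ξ ω) h a = Wd (fU (conf ξ N ω)) h a := by
    unfold Wd
    apply Finset.sum_congr rfl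
    intro n hn
    rw [Finset.mem_Ioc] at hn
    exact rmf_eq hω (by omega)
  rw [this]

/-- The (deterministic) property which the random function has almost surely. -/
def MomProp (f : ℕ → ℝ) : Prop :=
  ∀ k q : ℕ, 1 ≤ k → 1 ≤ q → ∀ η : ℝ, 0 < η → ∀ᶠ N : ℕ in atTop, ∀ h : ℕ, 1 ≤ h →
    (h : ℝ) ≤ (N : ℝ) ^ (1 - 1 / q : ℝ) → |Dk f k N h| ≤ η * (Real.sqrt h) ^ k

include H in
lemma ae_kq (k q : ℕ) (hk : 1 ≤ k) (hq : 1 ≤ q) : ∃ c : ℝ, 0 < c ∧
    ∀ᵐ ω ∂μ, ∀ᶠ N : ℕ in atTop, ∀ h : ℕ, 1 ≤ h → (h : ℝ) ≤ (N : ℝ) ^ (1 - 1 / q : ℝ) →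
      |Dk (fU (conf ξ N ω)) k N h| ≤ (Real.sqrt h) ^ k * (N : ℝ) ^ (-c) := by
  classical
  obtain ⟨c, hc, htail⟩ := tail_bound k q hk hq
  refine ⟨c, hc, ?_⟩
  obtain ⟨N₀, hN₀⟩ := eventually_atTop.1 htail
  set E : ℕ → Set Ω := fun N => {ω | ∃ h : ℕ, 1 ≤ h ∧ (h : ℝ) ≤ (N : ℝ) ^ (1 - 1 / q : ℝ) ∧
    (Real.sqrt h) ^ k * (N : ℝ) ^ (-c) < |Dk (fU (conf ξ N ω)) k N h|} with hE
  have hEm : ∀ N, N₀ + 1 ≤ N → μ (E N) ≤ ENNReal.ofReal ((N : ℝ) ^ (-2 : ℝ)) := by
    intro N hN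
    have hN1 : 1 ≤ N := by omega
    have hNr : (0:ℝ) < N := by exact_mod_cast hN1
    have hsub : E N ⊆ ⋃ h ∈ (Icc 1 N).filter
        (fun h : ℕ => (h : ℝ) ≤ (N : ℝ) ^ (1 - 1 / q : ℝ)),
        {ω | (Real.sqrt h) ^ k * (N : ℝ) ^ (-c) < |Dk (fU (conf ξ N ω)) k N h|} := by
      rintro ω ⟨h, h1, h2, h3⟩
      simp only [Set.mem_iUnion]
      refine ⟨h, ?_, h3⟩
      rw [Finset.mem_filter, Finset.mem_Icc]
      refine ⟨⟨h1, ?_⟩, h2⟩
      have : (h : ℝ) ≤ (N : ℝ) := by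
        refine le_trans h2 ?_
        calc (N : ℝ) ^ (1 - 1 / q : ℝ) ≤ (N : ℝ) ^ (1 : ℝ) := by
              apply Real.rpow_le_rpow_of_exponent_le (by exact_mod_cast hN1)
              have : 0 ≤ (1 / q : ℝ) := by positivity
              linarith
          _ = N := Real.rpow_one _
      exact_mod_cast this
    refine le_trans (measure_mono hsub) (le_trans (measure_biUnion_finset_le _ _) ?_)
    have hb : ∀ h ∈ (Icc 1 N).filter (fun h : ℕ => (h : ℝ) ≤ (N : ℝ) ^ (1 - 1 / q : ℝ)),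
        μ {ω | (Real.sqrt h) ^ k * (N : ℝ) ^ (-c) < |Dk (fU (conf ξ N ω)) k N h|} ≤
          ENNReal.ofReal ((N : ℝ) ^ (-3 : ℝ)) := by
      intro h hh
      rw [Finset.mem_filter, Finset.mem_Icc] at hh
      refine le_trans (prob_event H N
        (fun U => (Real.sqrt h) ^ k * (N : ℝ) ^ (-c) < |Dk (fU U) k N h|)) ?_
      exact ENNReal.ofReal_le_ofReal (hN₀ N (by omega) h hh.1.1 hh.2)
    refine le_trans (Finset.sum_le_sum hb) ?_
    rw [Finset.sum_const, nsmul_eq_mul]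
    calc (((Icc 1 N).filter (fun h : ℕ => (h : ℝ) ≤ (N : ℝ) ^ (1 - 1 / q : ℝ))).card : ENNReal) *
          ENNReal.ofReal ((N : ℝ) ^ (-3 : ℝ))
        ≤ (N : ENNReal) * ENNReal.ofReal ((N : ℝ) ^ (-3 : ℝ)) := by
          gcongr
          refine le_trans (Finset.card_filter_le _ _) ?_
          simp
      _ = ENNReal.ofReal ((N : ℝ) * (N : ℝ) ^ (-3 : ℝ)) := by
          rw [ENNReal.ofReal_mul hNr.le, ENNReal.ofReal_natCast]
      _ = ENNReal.ofReal ((N : ℝ) ^ (-2 : ℝ)) := by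
          congr 1
          nth_rewrite 1 [← Real.rpow_one (N : ℝ)]
          rw [← Real.rpow_add hNr]; norm_num
  have hsum : (∑' N, μ (E (N + (N₀ + 1)))) ≠ ⊤ := by
    have hs : Summable (fun N : ℕ => ((N + (N₀ + 1) : ℕ) : ℝ) ^ (-2 : ℝ)) := by
      have : Summable (fun N : ℕ => (N : ℝ) ^ (-2 : ℝ)) :=
        Real.summable_nat_rpow.2 (by norm_num)
      exact (summable_nat_add_iff (N₀ + 1)).2 this
    refine ne_top_of_le_ne_top hs.tsum_ofReal_ne_top ?_
    exact ENNReal.tsum_le_tsum (fun N => hEm _ (by omega))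
  have hbc := ae_eventually_notMem hsum
  filter_upwards [hbc] with ω hω
  rw [eventually_atTop] at hω ⊢
  obtain ⟨n₀, hn₀⟩ := hω
  refine ⟨n₀ + (N₀ + 1), fun N hN h h1 h2 => ?_⟩
  have h3 := hn₀ (N - (N₀ + 1)) (by omega)
  rw [Nat.sub_add_cancel (by omega)] at h3
  by_contra hcon
  push Not at hcon
  exact h3 ⟨h, h1, h2, hcon⟩

include H in
/-- Almost surely, the moment property holds. -/
theorem ae_momProp : ∀ᵐ ω ∂μ, MomProp (rmf ξ ω) := by
  have h1 : ∀ᵐ ω ∂μ, ∀ k q : ℕ, ∀ (hk : 1 ≤ k) (hq : 1 ≤ q), ∃ c : ℝ, 0 < c ∧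
      ∀ᶠ N : ℕ in atTop, ∀ h : ℕ, 1 ≤ h → (h : ℝ) ≤ (N : ℝ) ^ (1 - 1 / q : ℝ) →
      |Dk (fU (conf ξ N ω)) k N h| ≤ (Real.sqrt h) ^ k * (N : ℝ) ^ (-c) := by
    rw [ae_all_iff]; intro k
    rw [ae_all_iff]; intro q
    by_cases hk : 1 ≤ k
    · by_cases hq : 1 ≤ q
      · obtain ⟨c, hc, h⟩ := ae_kq H k q hk hq
        filter_upwards [h] with ω hω _ _
        exact ⟨c, hc, hω⟩
      · exact Filter.Eventually.of_forall (fun ω _ h => absurd h hq)
    · exact Filter.Eventually.of_forall (fun ω h => absurd h hk)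
  filter_upwards [h1, ae_val H] with ω hω hval k q hk hq η hη
  obtain ⟨c, hc, hev⟩ := hω k q hk hq
  filter_upwards [hev, eventually_const_le (1 / η) c hc, eventually_ge_atTop 1]
    with N h2 h3 hN h hh1 hh2
  have hNr : (0:ℝ) < N := by exact_mod_cast hN
  have hhN : h ≤ N := by
    have : (h : ℝ) ≤ (N : ℝ) := by
      refine le_trans hh2 ?_
      calc (N : ℝ) ^ (1 - 1 / q : ℝ) ≤ (N : ℝ) ^ (1 : ℝ) := by
            apply Real.rpow_le_rpow_of_exponent_le (by exact_mod_cast hN)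
            have : 0 ≤ (1 / q : ℝ) := by positivity
            linarith
        _ = N := Real.rpow_one _
    exact_mod_cast this
  rw [Dk_rmf hval k hhN]
  refine le_trans (h2 h hh1 hh2) ?_
  have h4 : (N : ℝ) ^ (-c) ≤ η := by
    rw [Real.rpow_neg hNr.le]
    rw [div_le_iff₀ hη] at h3
    rw [inv_le_comm₀ (by positivity) hη, ← one_div, div_le_iff₀ hη]
    exact h3
  calc (Real.sqrt h) ^ k * (N : ℝ) ^ (-c) ≤ (Real.sqrt h) ^ k * η := by gcongr
    _ = _ := mul_comm _ _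

end

end Pool.Agent.P4f18df
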