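import Pool.Agent.Lib.P4f18df.Var
import Pool.Agent.Lib.KeZhao.Divisor

/-!
# Power saving for the variance and tail bound
-/

set_option autoImplicit false

namespace Pool.Agent.P4f18df

open Finset Filter

lemma two_pow_omega_le {n : ℕ} (hn : n ≠ 0) : 2 ^ n.primeFactors.card ≤ n.divisors.card := by
  rw [Nat.card_divisors hn, ← Finset.prod_const]
  apply Finset.prod_le_prod' 
  intro p hp
  have h1 : 1 ≤ n.factorization p := by
    have hpp := Nat.prime_of_mem_primeFactors hp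
    have := (hpp.dvd_iff_one_le_factorization hn).1 (Nat.dvd_of_mem_primeFactors hp)
    exact this
  omega

lemma pow_omega_le (ρ : ℝ) (hρ : 1 ≤ ρ) (η : ℝ) (hη : 0 < η) :
    ∃ C : ℝ, 1 ≤ C ∧ ∀ n : ℕ, 0 < n → ρ ^ n.primeFactors.card ≤ C * (n : ℝ) ^ η := by
  obtain ⟨L, hL⟩ := pow_unbounded_of_one_lt ρ (by norm_num : (1:ℝ) < 2)
  obtain ⟨C, hC1, hC⟩ := Pool.Agent.KeZhao.divisor_bound (η / (L + 1)) (by positivity)
  refine ⟨C ^ L, one_le_pow₀ hC1, fun n hn => ?_⟩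
  have hn1 : (1:ℝ) ≤ n := by exact_mod_cast hn
  calc ρ ^ n.primeFactors.card ≤ (2 ^ L) ^ n.primeFactors.card :=
        pow_le_pow_left₀ (by linarith) hL.le _
    _ = (2 ^ n.primeFactors.card) ^ L := by rw [← pow_mul, ← pow_mul, mul_comm]
    _ ≤ ((n.divisors.card : ℕ) : ℝ) ^ L := by
        apply pow_le_pow_left₀ (by positivity)
        exact_mod_cast two_pow_omega_le (by omega)
    _ ≤ (C * (n : ℝ) ^ (η / (L + 1))) ^ L := pow_le_pow_left₀ (by positivity) (hC n hn) _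
    _ = C ^ L * (n : ℝ) ^ (η / (L + 1) * L) := by
        rw [mul_pow, ← Real.rpow_natCast ((n : ℝ) ^ (η / (L + 1))), ← Real.rpow_mul (by positivity)]
    _ ≤ C ^ L * (n : ℝ) ^ η := by
        apply mul_le_mul_of_nonneg_left _ (by positivity)
        apply Real.rpow_le_rpow_of_exponent_le hn1
        rw [div_mul_eq_mul_div, div_le_iff₀ (by positivity)]
        nlinarith

/-- the maximal number of prime factors up to `3N` -/
noncomputable def rN (N : ℕ) : ℕ := (Ioc 0 (3 * N)).sup (fun n => n.primeFactors.card)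

lemma le_rN {N n : ℕ} (hn : 0 < n) (hn' : n ≤ 3 * N) : n.primeFactors.card ≤ rN N :=
  Finset.le_sup (f := fun n : ℕ => n.primeFactors.card) (Finset.mem_Ioc.2 ⟨hn, hn'⟩)

lemma exists_rN {N : ℕ} (hN : 1 ≤ N) : ∃ n, 0 < n ∧ n ≤ 3 * N ∧ rN N = n.primeFactors.card := by
  have hne : (Ioc 0 (3 * N)).Nonempty := ⟨1, Finset.mem_Ioc.2 ⟨one_pos, by omega⟩⟩
  obtain ⟨n, hn, he⟩ := Finset.exists_mem_eq_sup (Ioc 0 (3 * N)) hne
    (fun n : ℕ => n.primeFactors.card)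
  rw [Finset.mem_Ioc] at hn
  exact ⟨n, hn.1, hn.2, he⟩

lemma eventually_const_le (C η : ℝ) (hη : 0 < η) : ∀ᶠ N : ℕ in atTop, C ≤ (N : ℝ) ^ η :=
  ((tendsto_rpow_atTop hη).comp tendsto_natCast_atTop_atTop).eventually_ge_atTop C

lemma eventually_pow_rN (ρ : ℝ) (hρ : 1 ≤ ρ) (η : ℝ) (hη : 0 < η) :
    ∀ᶠ N : ℕ in atTop, ρ ^ rN N ≤ (N : ℝ) ^ η := by
  obtain ⟨C, hC1, hC⟩ := pow_omega_le ρ hρ (η / 2) (by positivity)
  filter_upwards [eventually_const_le (C * 3 ^ (η / 2)) (η / 2) (by positivity),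
    eventually_ge_atTop 1] with N h1 hN
  obtain ⟨n, hn, hn', he⟩ := exists_rN hN
  have hNr : (0:ℝ) < N := by exact_mod_cast hN
  rw [he]
  calc ρ ^ n.primeFactors.card ≤ C * (n : ℝ) ^ (η / 2) := hC n hn
    _ ≤ C * (3 * N : ℝ) ^ (η / 2) := by
        apply mul_le_mul_of_nonneg_left _ (by linarith)
        apply Real.rpow_le_rpow (by positivity) _ (by positivity)
        exact_mod_cast hn'
    _ = (C * 3 ^ (η / 2)) * (N : ℝ) ^ (η / 2) := by
        rw [Real.mul_rpow (by norm_num) hNr.le]; ring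
    _ ≤ (N : ℝ) ^ (η / 2) * (N : ℝ) ^ (η / 2) := by gcongr
    _ = (N : ℝ) ^ η := by rw [← Real.rpow_add hNr]; congr 1; ring

lemma eventually_log_le (η : ℝ) (hη : 0 < η) :
    ∀ᶠ N : ℕ in atTop, 2 * (1 + Real.log (3 * N)) + 2 ≤ (N : ℝ) ^ η := by
  have h1 : ∀ᶠ x : ℝ in atTop, Real.log x ≤ 1 * x ^ (η / 2) := by
    have := (isLittleO_log_rpow_atTop (show 0 < η / 2 by positivity)).bound one_pos
    filter_upwards [this, eventually_ge_atTop 1] with x hx hx1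
    rw [Real.norm_eq_abs, Real.norm_eq_abs, abs_of_nonneg (Real.log_nonneg hx1),
      abs_of_nonneg (by positivity)] at hx
    exact hx
  have h2 := (tendsto_natCast_atTop_atTop (R := ℝ)).eventually h1
  filter_upwards [h2, eventually_const_le (4 + 2 * Real.log 3 + 2) (η / 2) (by positivity),
    eventually_ge_atTop 1] with N h3 h4 hN
  have hNr : (0:ℝ) < N := by exact_mod_cast hN
  have hN1 : (1:ℝ) ≤ (N : ℝ) ^ (η / 2) := Real.one_le_rpow (by exact_mod_cast hN) (by positivity)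
  rw [Real.log_mul (by norm_num) hNr.ne']
  have e : (N : ℝ) ^ η = (N : ℝ) ^ (η / 2) * (N : ℝ) ^ (η / 2) := by
    rw [← Real.rpow_add hNr]; congr 1; ring
  rw [e]
  have hl3 : 0 ≤ Real.log 3 := Real.log_nonneg (by norm_num)
  rw [one_mul] at h3
  nlinarith

/-- Power saving for the second moment of `Dk`. -/
theorem var_asymp (k q : ℕ) (hk : 1 ≤ k) (hq : 1 ≤ q) :
    ∃ c : ℝ, 0 < c ∧ ∀ᶠ N : ℕ in atTop, ∀ h : ℕ, (h : ℝ) ≤ (N : ℝ) ^ (1 - 1 / q : ℝ) →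
      av (PN N) (fun U => (Dk (fU U) k N h) ^ 2) ≤ (h : ℝ) ^ k * (N : ℝ) ^ (-c) := by
  have hkr : (1:ℝ) ≤ k := by exact_mod_cast hk
  have hqr : (1:ℝ) ≤ q := by exact_mod_cast hq
  set c₀ : ℝ := min (1 / q) (1 / (2 * k)) with hc₀
  have hc0 : 0 < c₀ := lt_min (by positivity) (by positivity)
  set η : ℝ := c₀ / 24 with hη
  have hη0 : 0 < η := by positivity
  obtain ⟨C₂, hC₂1, hC₂⟩ := Pool.Agent.KeZhao.divisor_bound η hη0
  have hρ : (1:ℝ) ≤ (8 * k : ℝ) ^ k := one_le_pow₀ (by linarith)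
  refine ⟨c₀ / 4, by positivity, ?_⟩
  filter_upwards [eventually_pow_rN ((8 * k : ℝ) ^ k) hρ (2 * η) (by positivity),
    eventually_const_le 2 η hη0, eventually_const_le (C₂ * 9 ^ η) η hη0,
    eventually_const_le (20 * (k : ℝ) ^ 2) η hη0, eventually_log_le η hη0,
    eventually_ge_atTop 1] with N h1 h2 h3 h4 h5 hN h hh
  have hNr : (0:ℝ) < N := by exact_mod_cast hN
  have hN1 : (1:ℝ) ≤ N := by exact_mod_cast hN
  have hhN : h ≤ N := by
    have : (h : ℝ) ≤ (N : ℝ) := by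
      refine le_trans hh ?_
      calc (N : ℝ) ^ (1 - 1 / q : ℝ) ≤ (N : ℝ) ^ (1 : ℝ) := by
            apply Real.rpow_le_rpow_of_exponent_le hN1
            have : 0 ≤ (1 / q : ℝ) := by positivity
            linarith
        _ = N := Real.rpow_one _
    exact_mod_cast this
  set τ : ℝ := C₂ * (9 * (N : ℝ) ^ 2) ^ η with hτ
  have hτ0 : 0 ≤ τ := by positivity
  have hvb := var_bound (k := k) (N := N) (h := h) (r := rN N) hk hN hhN τ ?_
    (fun n hn hn' => le_rN hn hn')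
  swap
  · intro m hm hm'
    refine le_trans (hC₂ m hm) ?_
    rw [hτ]
    apply mul_le_mul_of_nonneg_left _ (by linarith)
    apply Real.rpow_le_rpow (by positivity) _ hη0.le
    exact_mod_cast hm'
  refine le_trans hvb ?_
  -- bounds
  have a1 : ((8 * k : ℝ) ^ rN N) ^ k ≤ (N : ℝ) ^ (2 * η) := by
    rw [← pow_mul, mul_comm (rN N) k, pow_mul]; exact h1
  have a2 : τ ≤ (N : ℝ) ^ (3 * η) := by
    calc τ = (C₂ * 9 ^ η) * ((N : ℝ) ^ 2) ^ η := by
          rw [hτ, Real.mul_rpow (by norm_num) (by positivity)]; ring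
      _ ≤ (N : ℝ) ^ η * ((N : ℝ) ^ 2) ^ η := by gcongr
      _ = (N : ℝ) ^ (3 * η) := by
          rw [← Real.rpow_natCast (N : ℝ) 2, ← Real.rpow_mul hNr.le, ← Real.rpow_add hNr]
          congr 1; push_cast; ring
  have a3 : (h : ℝ) / N ≤ (N : ℝ) ^ (-c₀) := by
    rw [div_le_iff₀ hNr]
    refine le_trans hh ?_
    calc (N : ℝ) ^ (1 - 1 / q : ℝ) ≤ (N : ℝ) ^ (-c₀ + 1) := by
          apply Real.rpow_le_rpow_of_exponent_le hN1
          have := min_le_left (1 / q : ℝ) (1 / (2 * k))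
          linarith
      _ = (N : ℝ) ^ (-c₀) * N := by rw [Real.rpow_add hNr, Real.rpow_one]
  have a4 : Zs N h (2 * k) ≤ (N : ℝ) ^ (-c₀) * (N : ℝ) ^ η := by
    refine le_trans (Zs_le hN (by omega)) ?_
    have b1 : (N : ℝ) ^ (-(1 / (2 * k : ℕ) : ℝ)) ≤ (N : ℝ) ^ (-c₀) := by
      apply Real.rpow_le_rpow_of_exponent_le hN1
      have := min_le_right (1 / q : ℝ) (1 / (2 * k))
      push_cast
      linarith
    have hl : 0 ≤ 1 + Real.log (3 * N) := by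
      have : 0 ≤ Real.log (3 * N) := Real.log_nonneg (by linarith)
      linarith
    calc 2 * h / N * (1 + Real.log (3 * N)) + 2 * (N : ℝ) ^ (-(1 / (2 * k : ℕ) : ℝ))
        = 2 * (h / N) * (1 + Real.log (3 * N)) + 2 * (N : ℝ) ^ (-(1 / (2 * k : ℕ) : ℝ)) := by ring
      _ ≤ 2 * (N : ℝ) ^ (-c₀) * (1 + Real.log (3 * N)) + 2 * (N : ℝ) ^ (-c₀) := by gcongr
      _ = (N : ℝ) ^ (-c₀) * (2 * (1 + Real.log (3 * N)) + 2) := by ring
      _ ≤ (N : ℝ) ^ (-c₀) * (N : ℝ) ^ η := by gcongr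
  have a5 : Real.sqrt (τ * Zs N h (2 * k)) ≤ (N : ℝ) ^ (2 * η - c₀ / 2) := by
    have : τ * Zs N h (2 * k) ≤ ((N : ℝ) ^ (2 * η - c₀ / 2)) ^ 2 := by
      calc τ * Zs N h (2 * k) ≤ (N : ℝ) ^ (3 * η) * ((N : ℝ) ^ (-c₀) * (N : ℝ) ^ η) := by
            have := Zs_nonneg N h (2 * k)
            gcongr
        _ = ((N : ℝ) ^ (2 * η - c₀ / 2)) ^ 2 := by
            rw [← Real.rpow_natCast _ 2, ← Real.rpow_mul hNr.le, ← Real.rpow_add hNr,
              ← Real.rpow_add hNr]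
            congr 1; push_cast; ring
    calc Real.sqrt (τ * Zs N h (2 * k)) ≤ Real.sqrt (((N : ℝ) ^ (2 * η - c₀ / 2)) ^ 2) :=
          Real.sqrt_le_sqrt this
      _ = _ := Real.sqrt_sq (by positivity)
  have a6 : 2 * (h : ℝ) / N + 20 * (k : ℝ) ^ 2 * Real.sqrt (τ * Zs N h (2 * k)) ≤
      (N : ℝ) ^ (4 * η - c₀ / 2) := by
    have b1 : 2 * (h : ℝ) / N ≤ (N : ℝ) ^ (3 * η - c₀ / 2) := by
      calc 2 * (h : ℝ) / N = 2 * (h / N) := by ring
        _ ≤ (N : ℝ) ^ η * (N : ℝ) ^ (-c₀) := by gcongr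
        _ = (N : ℝ) ^ (η - c₀) := by rw [← Real.rpow_add hNr]; congr 1
        _ ≤ _ := by
            apply Real.rpow_le_rpow_of_exponent_le hN1
            linarith
    have b2 : 20 * (k : ℝ) ^ 2 * Real.sqrt (τ * Zs N h (2 * k)) ≤
        (N : ℝ) ^ (3 * η - c₀ / 2) := by
      calc _ ≤ (N : ℝ) ^ η * (N : ℝ) ^ (2 * η - c₀ / 2) := by gcongr
        _ = _ := by rw [← Real.rpow_add hNr]; congr 1; ring
    calc _ ≤ 2 * (N : ℝ) ^ (3 * η - c₀ / 2) := by linarith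
      _ ≤ (N : ℝ) ^ η * (N : ℝ) ^ (3 * η - c₀ / 2) := by gcongr
      _ = _ := by rw [← Real.rpow_add hNr]; congr 1; ring
  calc ((8 * k : ℝ) ^ rN N) ^ k * (h : ℝ) ^ k *
        (2 * h / N + 20 * (k : ℝ) ^ 2 * Real.sqrt (τ * Zs N h (2 * k)))
      ≤ (N : ℝ) ^ (2 * η) * (h : ℝ) ^ k * (N : ℝ) ^ (4 * η - c₀ / 2) := by gcongr
    _ = (h : ℝ) ^ k * ((N : ℝ) ^ (2 * η) * (N : ℝ) ^ (4 * η - c₀ / 2)) := by ring
    _ = (h : ℝ) ^ k * (N : ℝ) ^ (-(c₀ / 4)) := by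
        rw [← Real.rpow_add hNr]
        congr 2
        rw [hη]; ring

lemma LD_Dk {N h k : ℕ} (hh : h ≤ N) :
    LD (PN N) (k * rN N) (fun U => Dk (fU U) k N h) := by
  have h1 : ∀ a ∈ Ioc N (2 * N), LD (PN N) (k * rN N)
      (fun U => (WQ U (Q h a)) ^ k + -(triv k (Q h a) : ℝ)) := by
    intro a ha
    rw [Finset.mem_Ioc] at ha
    apply LD.add
    · exact (LD_WQ (PN_sub N) (fun n hn hn' => le_rN hn hn')
        (good_Q (by omega) (by omega))).pow k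
    · exact (LD.const (PN N) _).mono (Nat.zero_le _)
  have h2 := (LD.sum (Ioc N (2 * N)) h1).const_mul (1 / N : ℝ)
  refine h2.congr (fun U _ => ?_)
  unfold Dk
  rw [Finset.sum_congr rfl (fun a _ => by rw [Wd_fU, sub_eq_add_neg] :
    ∀ a ∈ Ioc N (2 * N), (Wd (fU U) h a) ^ k - (triv k (Q h a) : ℝ) =
      (WQ U (Q h a)) ^ k + -(triv k (Q h a) : ℝ))]
  ring

/-- Tail bound for `Dk`. -/
theorem tail_bound (k q : ℕ) (hk : 1 ≤ k) (hq : 1 ≤ q) :
    ∃ c : ℝ, 0 < c ∧ ∀ᶠ N : ℕ in atTop, ∀ h : ℕ, 1 ≤ h → (h : ℝ) ≤ (N : ℝ) ^ (1 - 1 / q : ℝ) →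
      av (PN N) (fun U => if (Real.sqrt h) ^ k * (N : ℝ) ^ (-c) < |Dk (fU U) k N h| then 1 else 0)
        ≤ (N : ℝ) ^ (-3 : ℝ) := by
  obtain ⟨c, hc, hV⟩ := var_asymp k q hk hq
  obtain ⟨j, hj⟩ := exists_nat_gt (12 / c)
  have hj0 : 0 < j := by
    have : (0:ℝ) < j := lt_trans (by positivity) hj
    exact_mod_cast this
  have hjc : 3 ≤ j * (c / 4) := by
    rw [div_lt_iff₀ hc] at hj; linarith
  have hρ : (1:ℝ) ≤ (4 * j : ℝ) ^ k := by
    apply one_le_pow₀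
    have : (1:ℝ) ≤ j := by exact_mod_cast hj0
    linarith
  refine ⟨c / 8, by positivity, ?_⟩
  filter_upwards [hV, eventually_pow_rN ((4 * j : ℝ) ^ k) hρ (c / 2) (by positivity),
    eventually_ge_atTop 1] with N hV h1 hN h hh1 hh
  have hNr : (0:ℝ) < N := by exact_mod_cast hN
  have hN1 : (1:ℝ) ≤ N := by exact_mod_cast hN
  have hhN : h ≤ N := by
    have : (h : ℝ) ≤ (N : ℝ) := by
      refine le_trans hh ?_
      calc (N : ℝ) ^ (1 - 1 / q : ℝ) ≤ (N : ℝ) ^ (1 : ℝ) := by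
            apply Real.rpow_le_rpow_of_exponent_le hN1
            have : 0 ≤ (1 / q : ℝ) := by positivity
            linarith
        _ = N := Real.rpow_one _
    exact_mod_cast this
  have hhr : (0:ℝ) < h := by exact_mod_cast hh1
  set lam : ℝ := (Real.sqrt h) ^ k * (N : ℝ) ^ (-(c / 8)) with hlam
  have hlam0 : 0 < lam := by
    have : 0 < Real.sqrt h := Real.sqrt_pos.2 hhr
    positivity
  have hlam2 : lam ^ 2 = (h : ℝ) ^ k * (N : ℝ) ^ (-(c / 4)) := by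
    rw [hlam, mul_pow, ← pow_mul, mul_comm k 2, pow_mul, Real.sq_sqrt hhr.le,
      ← Real.rpow_natCast _ 2, ← Real.rpow_mul hNr.le]
    congr 2; push_cast; ring
  have hmom : av (PN N) (fun U => (Dk (fU U) k N h) ^ (2 * j)) ≤
      ((h : ℝ) ^ k * (N : ℝ) ^ (-(c / 2))) ^ j := by
    refine le_trans ((LD_Dk (k := k) hhN).hyper j hj0) ?_
    have hV' := hV h hh
    have h0 : 0 ≤ av (PN N) (fun U => (Dk (fU U) k N h) ^ 2) := av_nonneg (fun U _ => sq_nonneg _)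
    apply pow_le_pow_left₀ (by positivity)
    calc (4 * j : ℝ) ^ (k * rN N) * av (PN N) (fun U => (Dk (fU U) k N h) ^ 2)
        ≤ (N : ℝ) ^ (c / 2) * ((h : ℝ) ^ k * (N : ℝ) ^ (-c)) := by
          rw [pow_mul]
          gcongr
      _ = (h : ℝ) ^ k * ((N : ℝ) ^ (c / 2) * (N : ℝ) ^ (-c)) := by ring
      _ = _ := by rw [← Real.rpow_add hNr]; congr 2; ring
  have hmk : av (PN N) (fun U => if lam < |Dk (fU U) k N h| then 1 else 0) ≤
      av (PN N) (fun U => (1 / lam ^ (2 * j)) * (Dk (fU U) k N h) ^ (2 * j)) := by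
    apply av_mono
    intro U _
    have he : (Dk (fU U) k N h) ^ (2 * j) = |Dk (fU U) k N h| ^ (2 * j) := by
      rw [pow_mul, pow_mul, sq_abs]
    rw [he]
    split_ifs with hlt
    · rw [one_div, inv_mul_eq_div, le_div_iff₀ (by positivity), one_mul]
      exact pow_le_pow_left₀ hlam0.le hlt.le _
    · positivity
  refine le_trans hmk ?_
  rw [av_const_mul]
  calc (1 / lam ^ (2 * j)) * av (PN N) (fun U => (Dk (fU U) k N h) ^ (2 * j))
      ≤ (1 / lam ^ (2 * j)) * ((h : ℝ) ^ k * (N : ℝ) ^ (-(c / 2))) ^ j := by gcongr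
    _ = (((h : ℝ) ^ k * (N : ℝ) ^ (-(c / 2))) / ((h : ℝ) ^ k * (N : ℝ) ^ (-(c / 4)))) ^ j := by
        rw [pow_mul, hlam2, div_pow]; ring
    _ = ((N : ℝ) ^ (-(c / 4))) ^ j := by
        congr 1
        rw [mul_div_mul_left _ _ (by positivity), ← Real.rpow_sub hNr]
        congr 1; ring
    _ = (N : ℝ) ^ (-(c / 4) * j) := by
        rw [← Real.rpow_natCast, ← Real.rpow_mul hNr.le]
    _ ≤ (N : ℝ) ^ (-3 : ℝ) := by
        apply Real.rpow_le_rpow_of_exponent_le hN1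
        linarith

end Pool.Agent.P4f18df
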