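import Pool.Agent.Lib.P4f18df.Tuples

/-!
# Counting pairs of squarefree integers with a large gcd
-/

set_option autoImplicit false

namespace Pool.Agent.P4f18df

open Finset

/-- squarefree integers in `(a, a+h]` -/
def Q (h a : ℕ) : Finset ℕ := (Ioc a (a + h)).filter Squarefree

lemma mem_Q {h a n : ℕ} : n ∈ Q h a ↔ (a < n ∧ n ≤ a + h) ∧ Squarefree n := by
  simp [Q]

lemma card_Q_le (h a : ℕ) : (Q h a).card ≤ h := by
  refine le_trans (Finset.card_filter_le _ _) ?_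
  simp

lemma core_eq {a b : ℕ} (ha : Squarefree a) (hb : Squarefree b) :
    ∏ p ∈ symmDiff a.primeFactors b.primeFactors, p =
      (a / Nat.gcd a b) * (b / Nat.gcd a b) := by
  have hg : ∏ p ∈ a.primeFactors ∩ b.primeFactors, p = Nat.gcd a b := by
    rw [← Nat.primeFactors_gcd ha.ne_zero hb.ne_zero]
    exact Nat.prod_primeFactors_of_squarefree (ha.squarefree_of_dvd (Nat.gcd_dvd_left a b))
  have hgpos : 0 < Nat.gcd a b := Nat.gcd_pos_of_pos_left _ (Nat.pos_of_ne_zero ha.ne_zero)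
  have h1 : a = (∏ p ∈ a.primeFactors \ b.primeFactors, p) * Nat.gcd a b := by
    conv_lhs => rw [← Nat.prod_primeFactors_of_squarefree ha]
    rw [← hg, ← Finset.prod_union (Finset.disjoint_sdiff_inter _ _), Finset.sdiff_union_inter]
  have h2 : b = (∏ p ∈ b.primeFactors \ a.primeFactors, p) * Nat.gcd a b := by
    conv_lhs => rw [← Nat.prod_primeFactors_of_squarefree hb]
    rw [← hg, Finset.inter_comm, ← Finset.prod_union (Finset.disjoint_sdiff_inter _ _),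
      Finset.sdiff_union_inter]
  have h3 : a / Nat.gcd a b = ∏ p ∈ a.primeFactors \ b.primeFactors, p :=
    Nat.div_eq_of_eq_mul_left hgpos h1
  have h4 : b / Nat.gcd a b = ∏ p ∈ b.primeFactors \ a.primeFactors, p :=
    Nat.div_eq_of_eq_mul_left hgpos h2
  rw [h3, h4, ← Finset.prod_union disjoint_sdiff_sdiff]
  rfl

lemma card_dvd_Ioc_nat (a h v : ℕ) :
    ((Ioc a (a + h)).filter (fun n => v ∣ n)).card = (a + h) / v - a / v := by
  have h1 := Nat.Ioc_filter_dvd_card_eq_div (a + h) v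
  have h2 := Nat.Ioc_filter_dvd_card_eq_div a v
  have h3 : (Ioc 0 (a + h)).filter (fun n => v ∣ n) =
      (Ioc 0 a).filter (fun n => v ∣ n) ∪ (Ioc a (a + h)).filter (fun n => v ∣ n) := by
    rw [← Finset.filter_union]
    congr 1
    ext n; simp only [Finset.mem_Ioc, Finset.mem_union]; omega
  rw [h3, Finset.card_union_of_disjoint, h2] at h1
  · omega
  · rw [Finset.disjoint_left]
    intro n hn hn'
    simp only [Finset.mem_filter, Finset.mem_Ioc] at hn hn'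
    omega

lemma card_dvd_Ioc (a h v : ℕ) (hv : 0 < v) :
    (((Ioc a (a + h)).filter (fun n => v ∣ n)).card : ℝ) ≤ (h : ℝ) / v + 1 := by
  rw [card_dvd_Ioc_nat]
  have h1 : (a + h) / v - a / v ≤ h / v + 1 := by
    have key := Nat.add_div (a := a) (b := h) hv
    rw [key]
    generalize a / v = A
    generalize h / v = B
    split_ifs <;> omega
  have h2 : (((a + h) / v - a / v : ℕ) : ℝ) ≤ ((h / v + 1 : ℕ) : ℝ) := by exact_mod_cast h1
  refine le_trans h2 ?_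
  push_cast
  have := @Nat.cast_div_le ℝ _ _ _ h v
  linarith

lemma count_pairs {N a b h : ℕ} (hN : 1 ≤ N) (ha : N ≤ a) (hb : N ≤ b) (ha' : a + h ≤ 3 * N)
    (hb' : b + h ≤ 3 * N) (τ : ℝ)
    (hτ : ∀ m : ℕ, 0 < m → m ≤ 9 * N ^ 2 → ((m.divisors.card : ℕ) : ℝ) ≤ τ)
    (x : ℕ × ℕ) (hx : x ∈ Q h a ×ˢ Q h b) :
    (((Q h a ×ˢ Q h b).filter (fun y => symmDiff x.1.primeFactors x.2.primeFactors =
      symmDiff y.1.primeFactors y.2.primeFactors)).card : ℝ) ≤
      τ * (2 * h * (Nat.gcd x.1 x.2 : ℕ) / N + 1) := by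
  obtain ⟨x₁, x₂⟩ := x
  rw [Finset.mem_product, mem_Q, mem_Q] at hx
  obtain ⟨⟨⟨hx1, hx1'⟩, hx1s⟩, ⟨⟨hx2, hx2'⟩, hx2s⟩⟩ := hx
  simp only at hx1 hx1' hx1s hx2 hx2' hx2s ⊢
  set u := Nat.gcd x₁ x₂ with hu
  have hupos : 0 < u := Nat.gcd_pos_of_pos_left _ (by omega)
  set m := (x₁ / u) * (x₂ / u) with hm
  have e1 : x₁ / u * u = x₁ := Nat.div_mul_cancel (Nat.gcd_dvd_left _ _)
  have e2 : x₂ / u * u = x₂ := Nat.div_mul_cancel (Nat.gcd_dvd_right _ _)
  have hx1u : 0 < x₁ / u := by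
    rcases Nat.eq_zero_or_pos (x₁ / u) with h | h
    · rw [h] at e1; omega
    · exact h
  have hx2u : 0 < x₂ / u := by
    rcases Nat.eq_zero_or_pos (x₂ / u) with h | h
    · rw [h] at e2; omega
    · exact h
  have hmpos : 0 < m := Nat.mul_pos hx1u hx2u
  have hmle : m ≤ 9 * N ^ 2 := by
    calc m ≤ x₁ * x₂ := Nat.mul_le_mul (Nat.div_le_self _ _) (Nat.div_le_self _ _)
      _ ≤ (3 * N) * (3 * N) := Nat.mul_le_mul (by omega) (by omega)
      _ = 9 * N ^ 2 := by ring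
  have hmu : N ^ 2 < m * u ^ 2 := by
    have : m * u ^ 2 = x₁ * x₂ := by
      calc m * u ^ 2 = (x₁ / u * u) * (x₂ / u * u) := by rw [hm]; ring
        _ = x₁ * x₂ := by rw [e1, e2]
    rw [this]
    calc N ^ 2 = N * N := by ring
      _ < x₁ * x₂ := Nat.mul_lt_mul'' (by omega) (by omega)
  set Y := (Q h a ×ˢ Q h b).filter (fun y => symmDiff x₁.primeFactors x₂.primeFactors =
      symmDiff y.1.primeFactors y.2.primeFactors) with hY
  have hYm : ∀ y ∈ Y, (N < y.1 ∧ N < y.2 ∧ y.1 ≤ 3 * N ∧ y.2 ≤ 3 * N) ∧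
      (a < y.1 ∧ y.1 ≤ a + h) ∧
      (y.1 / Nat.gcd y.1 y.2) * (y.2 / Nat.gcd y.1 y.2) = m := by
    intro y hy
    rw [hY, Finset.mem_filter, Finset.mem_product, mem_Q, mem_Q] at hy
    obtain ⟨⟨⟨⟨hy1, hy1'⟩, hy1s⟩, ⟨⟨hy2, hy2'⟩, hy2s⟩⟩, heq⟩ := hy
    refine ⟨⟨by omega, by omega, by omega, by omega⟩, ⟨hy1, hy1'⟩, ?_⟩
    rw [← core_eq hy1s hy2s, ← heq, core_eq hx1s hx2s]
  set R : Finset (Σ _ : ℕ, ℕ) := (m.divisors.filter (fun v => N < 2 * u * v)).sigma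
    (fun v => (Ioc a (a + h)).filter (fun n => v ∣ n)) with hR
  have hcard : Y.card ≤ R.card := by
    apply Finset.card_le_card_of_injOn (fun y => (⟨y.1 / Nat.gcd y.1 y.2, y.1⟩ : Σ _ : ℕ, ℕ))
    · intro y hy
      obtain ⟨⟨k1, k2, k3, k4⟩, k5, k6⟩ := hYm y hy
      have hgp : 0 < Nat.gcd y.1 y.2 := Nat.gcd_pos_of_pos_left _ (by omega)
      have f1 : y.1 / Nat.gcd y.1 y.2 * Nat.gcd y.1 y.2 = y.1 :=
        Nat.div_mul_cancel (Nat.gcd_dvd_left _ _)
      have f2 : y.2 / Nat.gcd y.1 y.2 * Nat.gcd y.1 y.2 = y.2 :=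
        Nat.div_mul_cancel (Nat.gcd_dvd_right _ _)
      set g := Nat.gcd y.1 y.2 with hg
      set v := y.1 / g with hv
      set w := y.2 / g with hw
      have hvpos : 0 < v := by
        rcases Nat.eq_zero_or_pos v with h | h
        · rw [h] at f1; omega
        · exact h
      have hw3 : w < 3 * v := by
        have q1 : w * y.1 = v * y.2 := by
          calc w * y.1 = w * (v * g) := by rw [f1]
            _ = v * (w * g) := by ring
            _ = v * y.2 := by rw [f2]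
        have q2 : v * y.2 ≤ v * (3 * N) := Nat.mul_le_mul_left _ k4
        by_contra hcon
        push Not at hcon
        have q3 : (3 * v) * y.1 ≤ w * y.1 := Nat.mul_le_mul_right _ hcon
        have q4 : (3 * v) * N < (3 * v) * y.1 := by
          apply Nat.mul_lt_mul_of_pos_left k1; omega
        have : v * (3 * N) = 3 * v * N := by ring
        omega
      have hNv : N < 2 * u * v := by
        by_contra hcon
        push Not at hcon
        have q1 : (2 * u * v) ^ 2 ≤ N ^ 2 := Nat.pow_le_pow_left hcon 2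
        have q2 : m ≤ v * (3 * v) := by rw [← k6]; exact Nat.mul_le_mul_left _ (by omega)
        have q3 : m * u ^ 2 ≤ v * (3 * v) * u ^ 2 := Nat.mul_le_mul_right _ q2
        nlinarith
      rw [hR]
      simp only [Finset.coe_sigma, Set.mem_sigma_iff, Finset.mem_coe, Finset.mem_filter,
        Nat.mem_divisors, Finset.mem_Ioc]
      refine ⟨⟨⟨?_, by omega⟩, hNv⟩, k5, ?_⟩
      · rw [← k6]; exact dvd_mul_right _ _
      · exact ⟨g, f1.symm⟩
    · intro y hy z hz hyz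
      simp only [Sigma.mk.injEq, heq_eq_eq] at hyz
      obtain ⟨hv, h1⟩ := hyz
      obtain ⟨⟨k1, k2, k3, k4⟩, k5, k6⟩ := hYm y hy
      obtain ⟨⟨l1, l2, l3, l4⟩, l5, l6⟩ := hYm z hz
      have f1 : y.1 / Nat.gcd y.1 y.2 * Nat.gcd y.1 y.2 = y.1 :=
        Nat.div_mul_cancel (Nat.gcd_dvd_left _ _)
      have f2 : y.2 / Nat.gcd y.1 y.2 * Nat.gcd y.1 y.2 = y.2 :=
        Nat.div_mul_cancel (Nat.gcd_dvd_right _ _)
      have g1 : z.1 / Nat.gcd z.1 z.2 * Nat.gcd z.1 z.2 = z.1 :=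
        Nat.div_mul_cancel (Nat.gcd_dvd_left _ _)
      have g2 : z.2 / Nat.gcd z.1 z.2 * Nat.gcd z.1 z.2 = z.2 :=
        Nat.div_mul_cancel (Nat.gcd_dvd_right _ _)
      have hvpos : 0 < y.1 / Nat.gcd y.1 y.2 := by
        rcases Nat.eq_zero_or_pos (y.1 / Nat.gcd y.1 y.2) with h | h
        · rw [h] at f1; omega
        · exact h
      have hgg : Nat.gcd y.1 y.2 = Nat.gcd z.1 z.2 := by
        have : y.1 / Nat.gcd y.1 y.2 * Nat.gcd y.1 y.2 =
            y.1 / Nat.gcd y.1 y.2 * Nat.gcd z.1 z.2 := by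
          rw [f1, hv, g1, h1]
        exact Nat.eq_of_mul_eq_mul_left hvpos this
      have hww : y.2 / Nat.gcd y.1 y.2 = z.2 / Nat.gcd z.1 z.2 := by
        have : y.1 / Nat.gcd y.1 y.2 * (y.2 / Nat.gcd y.1 y.2) =
            y.1 / Nat.gcd y.1 y.2 * (z.2 / Nat.gcd z.1 z.2) := by
          rw [k6, hv, l6]
        exact Nat.eq_of_mul_eq_mul_left hvpos this
      have h2 : y.2 = z.2 := by rw [← f2, ← g2, hww, hgg]
      exact Prod.ext h1 h2
  have hNr : (0:ℝ) < N := by exact_mod_cast hN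
  calc ((Y.card : ℕ) : ℝ) ≤ (R.card : ℝ) := by exact_mod_cast hcard
    _ = ∑ v ∈ m.divisors.filter (fun v => N < 2 * u * v),
          (((Ioc a (a + h)).filter (fun n => v ∣ n)).card : ℝ) := by
        rw [hR, Finset.card_sigma]; push_cast; rfl
    _ ≤ ∑ v ∈ m.divisors.filter (fun v => N < 2 * u * v), (2 * h * (u : ℕ) / N + 1 : ℝ) := by
        apply Finset.sum_le_sum
        intro v hv
        rw [Finset.mem_filter, Nat.mem_divisors] at hv
        have hvpos : 0 < v := Nat.pos_of_ne_zero (fun h => by rw [h] at hv; omega)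
        refine le_trans (card_dvd_Ioc a h v hvpos) ?_
        have hvr : (0:ℝ) < v := by exact_mod_cast hvpos
        have hNv : (N : ℝ) < 2 * u * v := by exact_mod_cast hv.2
        have : (h : ℝ) / v ≤ 2 * h * u / N := by
          rw [div_le_div_iff₀ hvr hNr]
          have hh : (0:ℝ) ≤ h := Nat.cast_nonneg h
          nlinarith
        linarith
    _ = ((m.divisors.filter (fun v => N < 2 * u * v)).card : ℝ) *
          (2 * h * (u : ℕ) / N + 1 : ℝ) := by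
        rw [Finset.sum_const, nsmul_eq_mul]
    _ ≤ τ * (2 * h * (u : ℕ) / N + 1) := by
        apply mul_le_mul_of_nonneg_right _ (by positivity)
        refine le_trans ?_ (hτ m hmpos hmle)
        exact_mod_cast Finset.card_filter_le _ _

/-- pairs from `(a,a+h] × (b,b+h]`, distinct and with a large gcd -/
def BP (h N m a b : ℕ) : Finset (ℕ × ℕ) :=
  (Q h a ×ˢ Q h b).filter (fun x => x.1 ≠ x.2 ∧ N < (Nat.gcd x.1 x.2) ^ m)

lemma av_G_sq {N a b h : ℕ} (m : ℕ) (hN : 1 ≤ N) (ha : N ≤ a) (hb : N ≤ b)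
    (ha' : a + h ≤ 3 * N) (hb' : b + h ≤ 3 * N) (τ : ℝ)
    (hτ : ∀ m : ℕ, 0 < m → m ≤ 9 * N ^ 2 → ((m.divisors.card : ℕ) : ℝ) ≤ τ)
    (P : Finset ℕ) (hP : ∀ n, 0 < n → n ≤ 3 * N → n.primeFactors ⊆ P) :
    av P (fun U => (∑ x ∈ BP h N m a b, chi x.1.primeFactors U * chi x.2.primeFactors U) ^ 2) ≤
      τ * ∑ x ∈ BP h N m a b, (2 * h * (Nat.gcd x.1 x.2 : ℕ) / N + 1 : ℝ) := by
  refine le_trans (av_pair_sq (BP h N m a b) Nat.primeFactors P ?_) ?_
  · intro x hx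
    rw [BP, Finset.mem_filter, Finset.mem_product, mem_Q, mem_Q] at hx
    exact ⟨hP _ (by omega) (by omega), hP _ (by omega) (by omega)⟩
  · rw [Finset.mul_sum]
    apply Finset.sum_le_sum
    intro x hx
    refine le_trans ?_ (count_pairs hN ha hb ha' hb' τ hτ x (Finset.mem_filter.1 hx).1)
    have : (BP h N m a b).filter (fun y => symmDiff x.1.primeFactors x.2.primeFactors =
      symmDiff y.1.primeFactors y.2.primeFactors) ⊆
      (Q h a ×ˢ Q h b).filter (fun y => symmDiff x.1.primeFactors x.2.primeFactors =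
      symmDiff y.1.primeFactors y.2.primeFactors) := by
      apply Finset.filter_subset_filter
      exact Finset.filter_subset _ _
    exact_mod_cast Finset.card_le_card this

/-- the basic divisor sum -/
noncomputable def Zs (N h m : ℕ) : ℝ :=
  ∑ u ∈ (Ioc 0 (3 * N)).filter (fun u => N < u ^ m), (2 * h * u / N + 1 : ℝ) / (u : ℝ) ^ 2

lemma Zs_nonneg (N h m : ℕ) : 0 ≤ Zs N h m :=
  Finset.sum_nonneg (fun u _ => by positivity)

lemma sum_BP_diag {N a h : ℕ} (m : ℕ) (hN : 1 ≤ N) (ha : N ≤ a) (ha' : a + h ≤ 3 * N) :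
    ∑ x ∈ BP h N m a a, (2 * h * (Nat.gcd x.1 x.2 : ℕ) / N + 1 : ℝ) ≤
      4 * (h : ℝ) ^ 2 * Zs N h m := by
  have hmaps : ∀ x ∈ BP h N m a a, Nat.gcd x.1 x.2 ∈
      (Ioc 0 (3 * N)).filter (fun u => N < u ^ m) := by
    intro x hx
    rw [BP, Finset.mem_filter, Finset.mem_product, mem_Q, mem_Q] at hx
    rw [Finset.mem_filter, Finset.mem_Ioc]
    refine ⟨⟨Nat.gcd_pos_of_pos_left _ (by omega), ?_⟩, hx.2.2⟩
    exact le_trans (Nat.gcd_le_left _ (by omega)) (by omega)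
  rw [← Finset.sum_fiberwise_of_maps_to hmaps, Zs, Finset.mul_sum]
  apply Finset.sum_le_sum
  intro u hu
  rw [Finset.mem_filter, Finset.mem_Ioc] at hu
  have hupos : 0 < u := hu.1.1
  have hur : (0:ℝ) < u := by exact_mod_cast hupos
  have h1 : ∑ x ∈ (BP h N m a a).filter (fun x => Nat.gcd x.1 x.2 = u),
      (2 * h * (Nat.gcd x.1 x.2 : ℕ) / N + 1 : ℝ) =
      (((BP h N m a a).filter (fun x => Nat.gcd x.1 x.2 = u)).card : ℝ) *
        (2 * h * u / N + 1 : ℝ) := by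
    rw [Finset.sum_congr rfl (fun x hx => by rw [(Finset.mem_filter.1 hx).2]),
      Finset.sum_const, nsmul_eq_mul]
  rw [h1]
  have h2 : (((BP h N m a a).filter (fun x => Nat.gcd x.1 x.2 = u)).card : ℝ) ≤
      4 * (h : ℝ) ^ 2 / (u : ℝ) ^ 2 := by
    rcases ((BP h N m a a).filter (fun x => Nat.gcd x.1 x.2 = u)).eq_empty_or_nonempty with
      he | ⟨x, hx⟩
    · rw [he]; simp; positivity
    · have huh : u ≤ h := by
        rw [Finset.mem_filter, BP, Finset.mem_filter, Finset.mem_product, mem_Q, mem_Q] at hx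
        obtain ⟨⟨⟨⟨⟨k1, k2⟩, _⟩, ⟨⟨k3, k4⟩, _⟩⟩, k5, _⟩, k6⟩ := hx
        have d1 : u ∣ x.1 := k6 ▸ Nat.gcd_dvd_left _ _
        have d2 : u ∣ x.2 := k6 ▸ Nat.gcd_dvd_right _ _
        rcases Nat.lt_or_gt_of_ne k5 with hlt | hlt
        · have := Nat.le_of_dvd (by omega) (Nat.dvd_sub d2 d1)
          omega
        · have := Nat.le_of_dvd (by omega) (Nat.dvd_sub d1 d2)
          omega
      have hsub : (BP h N m a a).filter (fun x => Nat.gcd x.1 x.2 = u) ⊆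
          ((Ioc a (a + h)).filter (fun n => u ∣ n)) ×ˢ
            ((Ioc a (a + h)).filter (fun n => u ∣ n)) := by
        intro y hy
        rw [Finset.mem_filter, BP, Finset.mem_filter, Finset.mem_product, mem_Q, mem_Q] at hy
        obtain ⟨⟨⟨⟨⟨k1, k2⟩, _⟩, ⟨⟨k3, k4⟩, _⟩⟩, k5, _⟩, k6⟩ := hy
        have d1 : u ∣ y.1 := k6 ▸ Nat.gcd_dvd_left _ _
        have d2 : u ∣ y.2 := k6 ▸ Nat.gcd_dvd_right _ _
        simp only [Finset.mem_product, Finset.mem_filter, Finset.mem_Ioc]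
        exact ⟨⟨⟨k1, k2⟩, d1⟩, ⟨⟨k3, k4⟩, d2⟩⟩
      have h3 := Finset.card_le_card hsub
      rw [Finset.card_product] at h3
      have h4 : (((BP h N m a a).filter (fun x => Nat.gcd x.1 x.2 = u)).card : ℝ) ≤
          (((Ioc a (a + h)).filter (fun n => u ∣ n)).card : ℝ) *
          (((Ioc a (a + h)).filter (fun n => u ∣ n)).card : ℝ) := by exact_mod_cast h3
      refine le_trans h4 ?_
      have h5 : (((Ioc a (a + h)).filter (fun n => u ∣ n)).card : ℝ) ≤ 2 * h / u := by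
        refine le_trans (card_dvd_Ioc a h u hupos) ?_
        have : (1:ℝ) ≤ h / u := by
          rw [le_div_iff₀ hur, one_mul]; exact_mod_cast huh
        rw [mul_div_assoc]; linarith
      calc _ ≤ (2 * h / u : ℝ) * (2 * h / u) := by gcongr
        _ = _ := by ring
  calc _ ≤ (4 * (h : ℝ) ^ 2 / (u : ℝ) ^ 2) * (2 * h * u / N + 1 : ℝ) :=
        mul_le_mul_of_nonneg_right h2 (by positivity)
    _ = _ := by ring

lemma sum_shift_le (N h : ℕ) (hh : h ≤ N) (ψ : ℕ → ℝ) (hψ : ∀ n, 0 ≤ ψ n) :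
    ∑ a ∈ Ioc N (2 * N), ∑ n ∈ Q h a, ψ n ≤ h * ∑ n ∈ Ioc 0 (3 * N), ψ n := by
  have h1 : ∀ a ∈ Ioc N (2 * N), ∑ n ∈ Q h a, ψ n =
      ∑ n ∈ Ioc 0 (3 * N), if n ∈ Q h a then ψ n else 0 := by
    intro a ha
    rw [Finset.mem_Ioc] at ha
    rw [← Finset.sum_filter]
    apply Finset.sum_congr _ (fun _ _ => rfl)
    ext n
    rw [Finset.mem_filter, mem_Q, Finset.mem_Ioc]
    constructor
    · intro hn; exact ⟨by omega, hn⟩
    · intro hn; exact hn.2
  rw [Finset.sum_congr rfl h1, Finset.sum_comm, Finset.mul_sum]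
  apply Finset.sum_le_sum
  intro n _
  rw [← Finset.sum_filter, Finset.sum_const, nsmul_eq_mul]
  apply mul_le_mul_of_nonneg_right _ (hψ n)
  have : ((Ioc N (2 * N)).filter (fun a => n ∈ Q h a)) ⊆ Ico (n - h) n := by
    intro a ha
    rw [Finset.mem_filter, mem_Q] at ha
    rw [Finset.mem_Ico]; omega
  have h2 := Finset.card_le_card this
  rw [Nat.card_Ico] at h2
  have h3 : (Finset.filter (fun a => n ∈ Q h a) (Ioc N (2 * N))).card ≤ h := by omega
  exact_mod_cast h3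

lemma sum_BP_avg {N h : ℕ} (m : ℕ) (hN : 1 ≤ N) (hh : h ≤ N) :
    ∑ a ∈ Ioc N (2 * N), ∑ b ∈ Ioc N (2 * N),
      ∑ x ∈ BP h N m a b, (2 * h * (Nat.gcd x.1 x.2 : ℕ) / N + 1 : ℝ) ≤
      9 * (h : ℝ) ^ 2 * (N : ℝ) ^ 2 * Zs N h m := by
  set ψ : ℕ → ℕ → ℝ := fun x y => if N < (Nat.gcd x y) ^ m then
    (2 * h * (Nat.gcd x y : ℕ) / N + 1 : ℝ) else 0 with hψ
  have hψ0 : ∀ x y, 0 ≤ ψ x y := by
    intro x y; simp only [hψ]; split_ifs <;> positivity
  have h1 : ∀ a b, ∑ x ∈ BP h N m a b, (2 * h * (Nat.gcd x.1 x.2 : ℕ) / N + 1 : ℝ) ≤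
      ∑ x ∈ Q h a, ∑ y ∈ Q h b, ψ x y := by
    intro a b
    rw [← Finset.sum_product', BP, Finset.sum_filter]
    apply Finset.sum_le_sum
    intro x _
    by_cases hx : x.1 ≠ x.2 ∧ N < (Nat.gcd x.1 x.2) ^ m
    · rw [if_pos hx, hψ]; simp only; rw [if_pos hx.2]
    · rw [if_neg hx]; exact hψ0 _ _
  have h2 : ∑ a ∈ Ioc N (2 * N), ∑ b ∈ Ioc N (2 * N),
      ∑ x ∈ BP h N m a b, (2 * h * (Nat.gcd x.1 x.2 : ℕ) / N + 1 : ℝ) ≤
      (h : ℝ) * ∑ x ∈ Ioc 0 (3 * N), ((h : ℝ) * ∑ y ∈ Ioc 0 (3 * N), ψ x y) := by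
    calc _ ≤ ∑ a ∈ Ioc N (2 * N), ∑ b ∈ Ioc N (2 * N), ∑ x ∈ Q h a, ∑ y ∈ Q h b, ψ x y :=
          Finset.sum_le_sum (fun a _ => Finset.sum_le_sum (fun b _ => h1 a b))
      _ = ∑ a ∈ Ioc N (2 * N), ∑ x ∈ Q h a, ∑ b ∈ Ioc N (2 * N), ∑ y ∈ Q h b, ψ x y := by
          apply Finset.sum_congr rfl; intro a _
          rw [Finset.sum_comm]
      _ ≤ ∑ a ∈ Ioc N (2 * N), ∑ x ∈ Q h a, ((h : ℝ) * ∑ y ∈ Ioc 0 (3 * N), ψ x y) := by
          apply Finset.sum_le_sum; intro a _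
          apply Finset.sum_le_sum; intro x _
          exact sum_shift_le N h hh (ψ x) (hψ0 x)
      _ ≤ _ := sum_shift_le N h hh (fun x => (h : ℝ) * ∑ y ∈ Ioc 0 (3 * N), ψ x y)
          (fun x => mul_nonneg (Nat.cast_nonneg h) (Finset.sum_nonneg (fun y _ => hψ0 x y)))
  refine le_trans h2 ?_
  have h3 : ∑ x ∈ Ioc 0 (3 * N), ∑ y ∈ Ioc 0 (3 * N), ψ x y ≤ 9 * (N : ℝ) ^ 2 * Zs N h m := by
    rw [← Finset.sum_product', hψ]
    simp only
    rw [← Finset.sum_filter]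
    have hmaps : ∀ x ∈ (Ioc 0 (3 * N) ×ˢ Ioc 0 (3 * N)).filter
        (fun x => N < (Nat.gcd x.1 x.2) ^ m), Nat.gcd x.1 x.2 ∈
        (Ioc 0 (3 * N)).filter (fun u => N < u ^ m) := by
      intro x hx
      rw [Finset.mem_filter, Finset.mem_product, Finset.mem_Ioc, Finset.mem_Ioc] at hx
      rw [Finset.mem_filter, Finset.mem_Ioc]
      refine ⟨⟨Nat.gcd_pos_of_pos_left _ (by omega), ?_⟩, hx.2⟩
      exact le_trans (Nat.gcd_le_left _ (by omega)) (by omega)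
    rw [← Finset.sum_fiberwise_of_maps_to hmaps, Zs, Finset.mul_sum]
    apply Finset.sum_le_sum
    intro u hu
    rw [Finset.mem_filter, Finset.mem_Ioc] at hu
    have hupos : 0 < u := hu.1.1
    have hur : (0:ℝ) < u := by exact_mod_cast hupos
    rw [Finset.sum_congr rfl (fun x hx => by rw [(Finset.mem_filter.1 hx).2]),
      Finset.sum_const, nsmul_eq_mul]
    have hsub : (((Ioc 0 (3 * N) ×ˢ Ioc 0 (3 * N)).filter
        (fun x => N < (Nat.gcd x.1 x.2) ^ m)).filter (fun x => Nat.gcd x.1 x.2 = u)) ⊆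
          ((Ioc 0 (3 * N)).filter (fun n => u ∣ n)) ×ˢ
            ((Ioc 0 (3 * N)).filter (fun n => u ∣ n)) := by
      intro y hy
      rw [Finset.mem_filter, Finset.mem_filter, Finset.mem_product] at hy
      obtain ⟨⟨⟨k1, k2⟩, _⟩, k6⟩ := hy
      have d1 : u ∣ y.1 := k6 ▸ Nat.gcd_dvd_left _ _
      have d2 : u ∣ y.2 := k6 ▸ Nat.gcd_dvd_right _ _
      rw [Finset.mem_product, Finset.mem_filter, Finset.mem_filter]
      exact ⟨⟨k1, d1⟩, ⟨k2, d2⟩⟩
    have h3 := Finset.card_le_card hsub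
    rw [Finset.card_product, Nat.Ioc_filter_dvd_card_eq_div] at h3
    have h4 : ((((Ioc 0 (3 * N) ×ˢ Ioc 0 (3 * N)).filter
        (fun x => N < (Nat.gcd x.1 x.2) ^ m)).filter (fun x => Nat.gcd x.1 x.2 = u)).card : ℝ) ≤
        9 * (N : ℝ) ^ 2 / (u : ℝ) ^ 2 := by
      have a1 : ((((Ioc 0 (3 * N) ×ˢ Ioc 0 (3 * N)).filter
        (fun x => N < (Nat.gcd x.1 x.2) ^ m)).filter (fun x => Nat.gcd x.1 x.2 = u)).card : ℝ) ≤
        ((3 * N / u : ℕ) : ℝ) * ((3 * N / u : ℕ) : ℝ) := by exact_mod_cast h3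
      have a2 : ((3 * N / u : ℕ) : ℝ) ≤ 3 * N / u := by
        have := @Nat.cast_div_le ℝ _ _ _ (3 * N) u
        push_cast at this; exact this
      calc _ ≤ ((3 * N / u : ℕ) : ℝ) * ((3 * N / u : ℕ) : ℝ) := a1
        _ ≤ (3 * N / u : ℝ) * (3 * N / u) := by gcongr
        _ = _ := by ring
    calc _ ≤ (9 * (N : ℝ) ^ 2 / (u : ℝ) ^ 2) * (2 * h * u / N + 1 : ℝ) :=
          mul_le_mul_of_nonneg_right h4 (by positivity)
      _ = _ := by ring
  rw [← Finset.mul_sum]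
  calc (h : ℝ) * (h * ∑ x ∈ Ioc 0 (3 * N), ∑ y ∈ Ioc 0 (3 * N), ψ x y)
      ≤ (h : ℝ) * (h * (9 * (N : ℝ) ^ 2 * Zs N h m)) := by gcongr
    _ = _ := by ring

lemma Zs_le {N h m : ℕ} (hN : 1 ≤ N) (hm : 1 ≤ m) :
    Zs N h m ≤ 2 * h / N * (1 + Real.log (3 * N)) + 2 * (N : ℝ) ^ (-(1 / m : ℝ)) := by
  have hNr : (0:ℝ) < N := by exact_mod_cast hN
  have h1 : Zs N h m = (2 * h / N : ℝ) * ∑ u ∈ (Ioc 0 (3 * N)).filter (fun u => N < u ^ m),
      (1 / (u : ℝ)) + ∑ u ∈ (Ioc 0 (3 * N)).filter (fun u => N < u ^ m), ((u : ℝ) ^ 2)⁻¹ := by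
    rw [Zs, Finset.mul_sum, ← Finset.sum_add_distrib]
    apply Finset.sum_congr rfl
    intro u hu
    rw [Finset.mem_filter, Finset.mem_Ioc] at hu
    have hur : (0:ℝ) < u := by exact_mod_cast hu.1.1
    field_simp
  rw [h1]
  apply add_le_add
  · apply mul_le_mul_of_nonneg_left _ (by positivity)
    have h2 : ∑ u ∈ (Ioc 0 (3 * N)).filter (fun u => N < u ^ m), (1 / (u : ℝ)) ≤
        ∑ u ∈ Ioc 0 (3 * N), (1 / (u : ℝ)) :=
      Finset.sum_le_sum_of_subset_of_nonneg (Finset.filter_subset _ _)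
        (fun _ _ _ => by positivity)
    have h3 : ∑ u ∈ Ioc 0 (3 * N), (1 / (u : ℝ)) = (harmonic (3 * N) : ℝ) := by
      rw [harmonic_eq_sum_Icc]
      push_cast
      apply Finset.sum_congr
      · ext n; simp only [Finset.mem_Ioc, Finset.mem_Icc]; omega
      · intro n _; simp
    have h4 := harmonic_le_one_add_log (3 * N)
    push_cast at h4
    linarith
  · set k := ⌊(N : ℝ) ^ (1 / m : ℝ)⌋₊ with hk
    have h2 : (Ioc 0 (3 * N)).filter (fun u => N < u ^ m) ⊆ Ioo k (3 * N + 1) := by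
      intro u hu
      rw [Finset.mem_filter, Finset.mem_Ioc] at hu
      rw [Finset.mem_Ioo]
      refine ⟨?_, by omega⟩
      rw [hk, Nat.floor_lt (by positivity)]
      have h5 : (N : ℝ) < (u : ℝ) ^ m := by exact_mod_cast hu.2
      have h6 := Real.rpow_lt_rpow hNr.le h5 (show 0 < (1 / m : ℝ) by positivity)
      rwa [← Real.rpow_natCast, ← Real.rpow_mul (by positivity), mul_one_div_cancel
        (by positivity), Real.rpow_one] at h6
    calc ∑ u ∈ (Ioc 0 (3 * N)).filter (fun u => N < u ^ m), ((u : ℝ) ^ 2)⁻¹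
        ≤ ∑ u ∈ Ioo k (3 * N + 1), ((u : ℝ) ^ 2)⁻¹ :=
          Finset.sum_le_sum_of_subset_of_nonneg h2 (fun _ _ _ => by positivity)
      _ ≤ 2 / (k + 1) := sum_Ioo_inv_sq_le k (3 * N + 1)
      _ ≤ 2 / (N : ℝ) ^ (1 / m : ℝ) := by
          apply div_le_div_of_nonneg_left (by norm_num) (by positivity)
          exact (Nat.lt_floor_add_one _).le
      _ = 2 * (N : ℝ) ^ (-(1 / m : ℝ)) := by
          rw [Real.rpow_neg hNr.le, div_eq_mul_inv]

end Pool.Agent.P4f18df
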