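import Mathlib

/-!
# Averages over the discrete cube, characters and the Bonami inequality
-/

set_option autoImplicit false

namespace Pool.Agent.P4f18df

open Finset

variable {ι : Type*} [DecidableEq ι]

/-- sign of the index `p` in the configuration `U` -/
def sg (U : Finset ι) (p : ι) : ℝ := if p ∈ U then -1 else 1

/-- the character of the finite set `S` -/
def chi (S U : Finset ι) : ℝ := ∏ p ∈ S, sg U p

/-- average over all configurations in `P` -/
noncomputable def av (P : Finset ι) (F : Finset ι → ℝ) : ℝ :=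
  (∑ U ∈ P.powerset, F U) / 2 ^ P.card

lemma sg_sq (U : Finset ι) (p : ι) : sg U p * sg U p = 1 := by
  unfold sg; split_ifs <;> norm_num

lemma av_congr {P : Finset ι} {F G : Finset ι → ℝ} (h : ∀ U, U ⊆ P → F U = G U) :
    av P F = av P G := by
  unfold av
  rw [Finset.sum_congr rfl (fun U hU => h U (Finset.mem_powerset.1 hU))]

lemma av_add (P : Finset ι) (F G : Finset ι → ℝ) :
    av P (fun U => F U + G U) = av P F + av P G := by
  unfold av
  rw [Finset.sum_add_distrib, add_div]

lemma av_sub (P : Finset ι) (F G : Finset ι → ℝ) :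
    av P (fun U => F U - G U) = av P F - av P G := by
  unfold av
  rw [Finset.sum_sub_distrib, sub_div]

lemma av_const_mul (P : Finset ι) (c : ℝ) (F : Finset ι → ℝ) :
    av P (fun U => c * F U) = c * av P F := by
  unfold av
  rw [← Finset.mul_sum, mul_div_assoc]

lemma av_sum {κ : Type*} (P : Finset ι) (T : Finset κ) (F : κ → Finset ι → ℝ) :
    av P (fun U => ∑ t ∈ T, F t U) = ∑ t ∈ T, av P (F t) := by
  unfold av
  rw [Finset.sum_comm, Finset.sum_div]

lemma av_mono {P : Finset ι} {F G : Finset ι → ℝ} (h : ∀ U, U ⊆ P → F U ≤ G U) :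
    av P F ≤ av P G := by
  unfold av
  apply div_le_div_of_nonneg_right _ (by positivity)
  exact Finset.sum_le_sum (fun U hU => h U (Finset.mem_powerset.1 hU))

lemma av_nonneg {P : Finset ι} {F : Finset ι → ℝ} (h : ∀ U, U ⊆ P → 0 ≤ F U) :
    0 ≤ av P F := by
  unfold av
  apply div_nonneg _ (by positivity)
  exact Finset.sum_nonneg (fun U hU => h U (Finset.mem_powerset.1 hU))

lemma av_const (P : Finset ι) (c : ℝ) : av P (fun _ => c) = c := by
  unfold av
  rw [Finset.sum_const, Finset.card_powerset, nsmul_eq_mul]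
  push_cast
  field_simp

lemma abs_av_le (P : Finset ι) (F : Finset ι → ℝ) : |av P F| ≤ av P (fun U => |F U|) := by
  unfold av
  rw [abs_div, abs_of_pos (by positivity : (0:ℝ) < 2 ^ P.card)]
  exact div_le_div_of_nonneg_right (Finset.abs_sum_le_sum_abs _ _) (by positivity)

lemma av_insert {P : Finset ι} {p : ι} (hp : p ∉ P) (F : Finset ι → ℝ) :
    av (insert p P) F = (av P F + av P (fun U => F (insert p U))) / 2 := by
  unfold av
  rw [Finset.sum_powerset_insert hp, Finset.card_insert_of_notMem hp, pow_succ]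
  field_simp

lemma chi_empty (U : Finset ι) : chi ∅ U = 1 := by simp [chi]

lemma chi_sq (S U : Finset ι) : chi S U * chi S U = 1 := by
  unfold chi
  rw [← Finset.prod_mul_distrib]
  exact Finset.prod_eq_one (fun p _ => sg_sq U p)

lemma abs_chi (S U : Finset ι) : |chi S U| = 1 := by
  have h := chi_sq S U
  have h2 : |chi S U| * |chi S U| = 1 := by rw [← abs_mul, h, abs_one]
  nlinarith [abs_nonneg (chi S U)]

lemma chi_mul (S T U : Finset ι) : chi S U * chi T U = chi (symmDiff S T) U := by
  have h1 : chi S U = chi (S \ T) U * chi (S ∩ T) U := by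
    unfold chi
    rw [← Finset.prod_union]
    · rw [Finset.sdiff_union_inter]
    · exact Finset.disjoint_sdiff_inter S T
  have h2 : chi T U = chi (T \ S) U * chi (S ∩ T) U := by
    unfold chi
    rw [← Finset.prod_union]
    · rw [Finset.inter_comm, Finset.sdiff_union_inter]
    · rw [Finset.inter_comm]; exact Finset.disjoint_sdiff_inter T S
  have h3 : chi (symmDiff S T) U = chi (S \ T) U * chi (T \ S) U := by
    unfold chi
    rw [← Finset.prod_union]
    · rfl
    · exact disjoint_sdiff_sdiff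
  rw [h1, h2, h3]
  have := chi_sq (S ∩ T) U
  calc chi (S \ T) U * chi (S ∩ T) U * (chi (T \ S) U * chi (S ∩ T) U)
      = chi (S \ T) U * chi (T \ S) U * (chi (S ∩ T) U * chi (S ∩ T) U) := by ring
    _ = _ := by rw [this, mul_one]

lemma sg_insert_of_ne {U : Finset ι} {p q : ι} (h : q ≠ p) : sg (insert p U) q = sg U q := by
  unfold sg
  simp [Finset.mem_insert, h]

lemma chi_insert_right {S : Finset ι} {p : ι} (hp : p ∉ S) (U : Finset ι) :
    chi S (insert p U) = chi S U := by
  unfold chi
  apply Finset.prod_congr rfl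
  intro q hq
  exact sg_insert_of_ne (fun h => hp (h ▸ hq))

lemma chi_insert_left {S : Finset ι} {p : ι} (hp : p ∉ S) (U : Finset ι) :
    chi (insert p S) U = sg U p * chi S U := by
  unfold chi
  rw [Finset.prod_insert hp]

lemma av_chi {P : Finset ι} : ∀ {S : Finset ι}, S ⊆ P → S.Nonempty → av P (chi S) = 0 := by
  induction P using Finset.induction_on with
  | empty =>
    intro S hS hne
    exact absurd (Finset.subset_empty.1 hS) hne.ne_empty
  | insert p P hp ih =>
    intro S hS hne
    rw [av_insert hp]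
    by_cases hpS : p ∈ S
    · have hS' : S = insert p (S.erase p) := (Finset.insert_erase hpS).symm
      have e1 : av P (chi S) = av P (chi (S.erase p)) := by
        apply av_congr
        intro U hU
        rw [hS', chi_insert_left (Finset.notMem_erase p S)]
        have : p ∉ U := fun h => hp (hU h)
        simp [sg, this]
      have e2 : av P (fun U => chi S (insert p U)) = - av P (chi (S.erase p)) := by
        rw [← neg_one_mul, ← av_const_mul]
        apply av_congr
        intro U hU
        rw [hS', chi_insert_left (Finset.notMem_erase p S)]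
        rw [chi_insert_right (Finset.notMem_erase p S)]
        simp [sg]
      rw [e1, e2]; simp
    · have hSP : S ⊆ P := by
        intro q hq
        rcases Finset.mem_insert.1 (hS hq) with h | h
        · exact absurd (h ▸ hq) hpS
        · exact h
      have e1 := ih hSP hne
      have e2 : av P (fun U => chi S (insert p U)) = av P (chi S) := by
        apply av_congr
        intro U _
        rw [chi_insert_right hpS]
      rw [e2, e1]; simp

lemma av_chi_nonneg {P S : Finset ι} (hS : S ⊆ P) : 0 ≤ av P (chi S) := by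
  rcases S.eq_empty_or_nonempty with h | h
  · subst h
    have : av P (chi ∅) = 1 := by
      have : av P (chi ∅) = av P (fun _ => 1) := av_congr (fun U _ => chi_empty U)
      rw [this, av_const]
    rw [this]; norm_num
  · rw [av_chi hS h]

/-- Parseval. -/
lemma av_sq_expansion (P : Finset ι) (c : Finset ι → ℝ) :
    av P (fun U => (∑ S ∈ P.powerset, c S * chi S U) ^ 2) = ∑ S ∈ P.powerset, (c S) ^ 2 := by
  have h1 : ∀ U, (∑ S ∈ P.powerset, c S * chi S U) ^ 2 =
      ∑ S ∈ P.powerset, ∑ T ∈ P.powerset, (c S * c T) * chi (symmDiff S T) U := by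
    intro U
    rw [sq, Finset.sum_mul_sum]
    apply Finset.sum_congr rfl; intro S _
    apply Finset.sum_congr rfl; intro T _
    rw [← chi_mul]; ring
  have h2 : av P (fun U => (∑ S ∈ P.powerset, c S * chi S U) ^ 2) =
      ∑ S ∈ P.powerset, ∑ T ∈ P.powerset, (c S * c T) * av P (chi (symmDiff S T)) := by
    rw [av_congr (fun U _ => h1 U), av_sum]
    apply Finset.sum_congr rfl; intro S _
    rw [av_sum]
    apply Finset.sum_congr rfl; intro T _
    rw [av_const_mul]
  rw [h2]
  apply Finset.sum_congr rfl; intro S hS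
  rw [Finset.sum_eq_single S]
  · rw [symmDiff_self]
    have : av P (chi (⊥ : Finset ι)) = 1 := by
      have : av P (chi (⊥ : Finset ι)) = av P (fun _ => 1) := av_congr (fun U _ => chi_empty U)
      rw [this, av_const]
    rw [this]; ring
  · intro T hT hne
    rw [av_chi]
    · ring
    · intro q hq
      rcases Finset.mem_symmDiff.1 hq with h | h
      · exact Finset.mem_powerset.1 hS h.1
      · exact Finset.mem_powerset.1 hT h.1
    · rw [Finset.nonempty_iff_ne_empty]
      intro h
      exact hne (symmDiff_eq_bot.1 h).symm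
  · intro h; exact absurd hS h

/-! ### The two point inequality -/

lemma two_point_aux (x y : ℝ) (hx : 0 ≤ x) (hy : 0 ≤ y) (j : ℕ) :
    0 ≤ (x + y) ^ (2 * j) - (x - y) ^ (2 * j) ∧
    x * ((x + y) ^ (2 * j) - (x - y) ^ (2 * j)) ≤
      2 * j * y * ((x + y) ^ (2 * j) + (x - y) ^ (2 * j)) := by
  induction j with
  | zero => simp
  | succ j ih =>
    obtain ⟨h0, h1⟩ := ih
    set E := (x + y) ^ (2 * j) + (x - y) ^ (2 * j) with hE
    set O := (x + y) ^ (2 * j) - (x - y) ^ (2 * j) with hO
    have e0 : 0 ≤ E := by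
      rw [hE, pow_mul, pow_mul]; positivity
    have hE' : (x + y) ^ (2 * (j + 1)) + (x - y) ^ (2 * (j + 1)) =
        (x ^ 2 + y ^ 2) * E + 2 * x * y * O := by
      rw [hE, hO]; ring
    have hO' : (x + y) ^ (2 * (j + 1)) - (x - y) ^ (2 * (j + 1)) =
        (x ^ 2 + y ^ 2) * O + 2 * x * y * E := by
      rw [hE, hO]; ring
    rw [hE', hO']
    constructor
    · positivity
    · push_cast
      have hj : (0:ℝ) ≤ j := Nat.cast_nonneg j
      have k1 : (x ^ 2 + y ^ 2) * (x * O) ≤ (x ^ 2 + y ^ 2) * (2 * j * y * E) :=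
        mul_le_mul_of_nonneg_left h1 (by positivity)
      have k2 : 0 ≤ y ^ 3 * E := by positivity
      have k3 : 0 ≤ (j + 1) * x * y ^ 2 * O := by positivity
      nlinarith [k1, k2, k3]

lemma two_point (x y : ℝ) (j : ℕ) :
    ((x + y) ^ (2 * j) + (x - y) ^ (2 * j)) / 2 ≤ (x ^ 2 + 4 * j * y ^ 2) ^ j := by
  have key : ∀ x y : ℝ, 0 ≤ x → 0 ≤ y → ∀ i m : ℕ, i ≤ m →
      ((x + y) ^ (2 * i) + (x - y) ^ (2 * i)) / 2 ≤ (x ^ 2 + 4 * m * y ^ 2) ^ i := by
    intro x y hx hy i m
    induction i with
    | zero => intro _; norm_num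
    | succ i ih =>
      intro him
      have h1 := ih (by omega)
      obtain ⟨h0, h2⟩ := two_point_aux x y hx hy i
      set E := (x + y) ^ (2 * i) + (x - y) ^ (2 * i) with hE
      set O := (x + y) ^ (2 * i) - (x - y) ^ (2 * i) with hO
      have e0 : 0 ≤ E := by
        rw [hE, pow_mul, pow_mul]; positivity
      have hE' : (x + y) ^ (2 * (i + 1)) + (x - y) ^ (2 * (i + 1)) =
          (x ^ 2 + y ^ 2) * E + 2 * x * y * O := by
        rw [hE, hO]; ring
      rw [hE']
      have hm : (i : ℝ) + 1 ≤ m := by exact_mod_cast him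
      have k1 : 2 * x * y * O ≤ 2 * y * (2 * i * y * E) := by
        have := mul_le_mul_of_nonneg_left h2 (by positivity : 0 ≤ 2 * y)
        linarith
      have k2 : (x ^ 2 + y ^ 2) * E + 2 * x * y * O ≤ (x ^ 2 + 4 * m * y ^ 2) * E := by
        have : (4 * (i : ℝ) + 1) * y ^ 2 * E ≤ 4 * m * y ^ 2 * E := by
          apply mul_le_mul_of_nonneg_right _ e0
          apply mul_le_mul_of_nonneg_right _ (by positivity)
          linarith
        nlinarith
      calc ((x ^ 2 + y ^ 2) * E + 2 * x * y * O) / 2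
          ≤ (x ^ 2 + 4 * m * y ^ 2) * (E / 2) := by linarith
        _ ≤ (x ^ 2 + 4 * m * y ^ 2) * (x ^ 2 + 4 * m * y ^ 2) ^ i :=
            mul_le_mul_of_nonneg_left h1 (by positivity)
        _ = (x ^ 2 + 4 * m * y ^ 2) ^ (i + 1) := by ring
  have h := key |x| |y| (abs_nonneg x) (abs_nonneg y) j j le_rfl
  rw [sq_abs, sq_abs] at h
  refine le_trans (le_of_eq ?_) h
  have hev : Even (2 * j) := even_two_mul j
  rcases abs_cases x with ⟨hx, _⟩ | ⟨hx, _⟩ <;> rcases abs_cases y with ⟨hy, _⟩ | ⟨hy, _⟩ <;>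
    rw [hx, hy]
  · rw [show x + -y = x - y by ring, show x - -y = x + y by ring]; ring
  · rw [show -x + y = -(x - y) by ring, show -x - y = -(x + y) by ring, hev.neg_pow, hev.neg_pow]
    ring
  · rw [show -x + -y = -(x + y) by ring, show -x - -y = -(x - y) by ring, hev.neg_pow,
      hev.neg_pow]

/-! ### Minkowski-type step -/

lemma mink {j : ℕ} {P : Finset ι} {A B : Finset ι → ℝ} {a b ρ : ℝ} (ha : 0 < a) (hb : 0 < b)
    (hρ : 0 ≤ ρ) (hA : av P (fun U => (A U) ^ (2 * j)) ≤ a ^ j)
    (hB : av P (fun U => (B U) ^ (2 * j)) ≤ b ^ j) :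
    av P (fun U => ((A U) ^ 2 + ρ * (B U) ^ 2) ^ j) ≤ (a + ρ * b) ^ j := by
  have hs : 0 < a + ρ * b := by positivity
  have h1 : ∀ U, ((A U) ^ 2 + ρ * (B U) ^ 2) ^ j ≤ (a + ρ * b) ^ j *
      ((a / (a + ρ * b)) * ((A U) ^ (2 * j) / a ^ j) +
        (ρ * b / (a + ρ * b)) * ((B U) ^ (2 * j) / b ^ j)) := by
    intro U
    have hc := (convexOn_pow (𝕜 := ℝ) j).2
      (show ((A U) ^ 2 / a) ∈ Set.Ici (0:ℝ) from (by positivity : (0:ℝ) ≤ (A U) ^ 2 / a))
      (show ((B U) ^ 2 / b) ∈ Set.Ici (0:ℝ) from (by positivity : (0:ℝ) ≤ (B U) ^ 2 / b))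
      (show 0 ≤ a / (a + ρ * b) by positivity) (show 0 ≤ ρ * b / (a + ρ * b) by positivity)
      (by field_simp)
    simp only [smul_eq_mul] at hc
    have e1 : a / (a + ρ * b) * ((A U) ^ 2 / a) + ρ * b / (a + ρ * b) * ((B U) ^ 2 / b) =
        ((A U) ^ 2 + ρ * (B U) ^ 2) / (a + ρ * b) := by
      field_simp
    rw [e1, div_pow, div_pow, div_pow, ← pow_mul, ← pow_mul] at hc
    rw [div_le_iff₀ (by positivity)] at hc
    linarith
  calc av P (fun U => ((A U) ^ 2 + ρ * (B U) ^ 2) ^ j)
      ≤ av P (fun U => (a + ρ * b) ^ j *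
      ((a / (a + ρ * b)) * ((A U) ^ (2 * j) / a ^ j) +
        (ρ * b / (a + ρ * b)) * ((B U) ^ (2 * j) / b ^ j))) := av_mono (fun U _ => h1 U)
    _ = (a + ρ * b) ^ j * ((a / (a + ρ * b) / a ^ j) * av P (fun U => (A U) ^ (2 * j)) +
        (ρ * b / (a + ρ * b) / b ^ j) * av P (fun U => (B U) ^ (2 * j))) := by
        rw [av_const_mul]
        congr 1
        rw [← av_const_mul, ← av_const_mul, ← av_add]
        apply av_congr; intro U _
        ring
    _ ≤ (a + ρ * b) ^ j * ((a / (a + ρ * b) / a ^ j) * a ^ j +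
        (ρ * b / (a + ρ * b) / b ^ j) * b ^ j) := by
        gcongr
    _ = (a + ρ * b) ^ j := by
        have : (a / (a + ρ * b) / a ^ j) * a ^ j +
          (ρ * b / (a + ρ * b) / b ^ j) * b ^ j = 1 := by
          field_simp
        rw [this, mul_one]

/-- Bonami's inequality (with the constant `4j` instead of `2j - 1`). -/
theorem hyper (j : ℕ) (P : Finset ι) : ∀ c : Finset ι → ℝ,
    av P (fun U => (∑ S ∈ P.powerset, c S * chi S U) ^ (2 * j)) ≤
      (∑ S ∈ P.powerset, (c S) ^ 2 * (4 * j : ℝ) ^ S.card) ^ j := by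
  induction P using Finset.induction_on with
  | empty =>
    intro c
    simp [av, chi_empty, pow_mul]
  | insert p P hp ih =>
    intro c
    set A : Finset ι → ℝ := fun U => ∑ S ∈ P.powerset, c S * chi S U with hA
    set B : Finset ι → ℝ := fun U => ∑ S ∈ P.powerset, c (insert p S) * chi S U with hB
    set a : ℝ := ∑ S ∈ P.powerset, (c S) ^ 2 * (4 * j : ℝ) ^ S.card with ha
    set b : ℝ := ∑ S ∈ P.powerset, (c (insert p S)) ^ 2 * (4 * j : ℝ) ^ S.card with hb
    have ha0 : 0 ≤ a := Finset.sum_nonneg (fun S _ => by positivity)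
    have hb0 : 0 ≤ b := Finset.sum_nonneg (fun S _ => by positivity)
    have hAi := ih c
    have hBi := ih (fun S => c (insert p S))
    have e1 : ∀ U, U ⊆ P → (∑ S ∈ (insert p P).powerset, c S * chi S U) = A U + B U := by
      intro U hU
      rw [Finset.sum_powerset_insert hp, hA, hB]
      simp only
      congr 1
      apply Finset.sum_congr rfl
      intro S hS
      rw [chi_insert_left (fun h => hp (Finset.mem_powerset.1 hS h))]
      have : p ∉ U := fun h => hp (hU h)
      simp [sg, this]
    have e2 : ∀ U, U ⊆ P → (∑ S ∈ (insert p P).powerset, c S * chi S (insert p U)) =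
        A U - B U := by
      intro U hU
      rw [Finset.sum_powerset_insert hp, hA, hB]
      simp only
      rw [sub_eq_add_neg, ← Finset.sum_neg_distrib]
      congr 1
      · apply Finset.sum_congr rfl
        intro S hS
        rw [chi_insert_right (fun h => hp (Finset.mem_powerset.1 hS h))]
      · apply Finset.sum_congr rfl
        intro S hS
        have hpS : p ∉ S := fun h => hp (Finset.mem_powerset.1 hS h)
        rw [chi_insert_left hpS, chi_insert_right hpS]
        simp [sg]
    have e3 : av (insert p P) (fun U => (∑ S ∈ (insert p P).powerset, c S * chi S U) ^ (2 * j)) =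
        av P (fun U => ((A U + B U) ^ (2 * j) + (A U - B U) ^ (2 * j)) / 2) := by
      rw [av_insert hp]
      have : av P (fun U => ((A U + B U) ^ (2 * j) + (A U - B U) ^ (2 * j)) / 2) =
        av P (fun U => (1 / 2 : ℝ) * ((A U + B U) ^ (2 * j) + (A U - B U) ^ (2 * j))) := by
        apply av_congr; intro U _; ring
      rw [this, av_const_mul, av_add]
      rw [av_congr (fun U hU => by rw [e1 U hU] : ∀ U, U ⊆ P →
        (∑ S ∈ (insert p P).powerset, c S * chi S U) ^ (2 * j) = (A U + B U) ^ (2 * j))]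
      rw [av_congr (fun U hU => by rw [e2 U hU] : ∀ U, U ⊆ P →
        (∑ S ∈ (insert p P).powerset, c S * chi S (insert p U)) ^ (2 * j) =
          (A U - B U) ^ (2 * j))]
      ring
    have e4 : ∑ S ∈ (insert p P).powerset, (c S) ^ 2 * (4 * j : ℝ) ^ S.card =
        a + 4 * j * b := by
      rw [Finset.sum_powerset_insert hp, ha, hb, Finset.mul_sum]
      congr 1
      apply Finset.sum_congr rfl
      intro S hS
      have hpS : p ∉ S := fun h => hp (Finset.mem_powerset.1 hS h)
      rw [Finset.card_insert_of_notMem hpS, pow_succ]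
      ring
    rw [e3, e4]
    have step1 : av P (fun U => ((A U + B U) ^ (2 * j) + (A U - B U) ^ (2 * j)) / 2) ≤
        av P (fun U => ((A U) ^ 2 + 4 * j * (B U) ^ 2) ^ j) :=
      av_mono (fun U _ => two_point (A U) (B U) j)
    refine le_trans step1 ?_
    have hlim : Filter.Tendsto (fun δ : ℝ => ((a + δ) + 4 * j * (b + δ)) ^ j)
        (nhdsWithin 0 (Set.Ioi 0)) (nhds (((a + 0) + 4 * j * (b + 0)) ^ j)) := by
      apply tendsto_nhdsWithin_of_tendsto_nhds
      apply Continuous.tendsto
      fun_prop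
    rw [add_zero, add_zero] at hlim
    refine ge_of_tendsto hlim ?_
    filter_upwards [self_mem_nhdsWithin] with δ hδ
    have hδ' : (0:ℝ) < δ := hδ
    refine mink (by positivity) (by positivity) (by positivity) ?_ ?_
    · exact le_trans hAi (pow_le_pow_left₀ ha0 (by linarith) j)
    · exact le_trans hBi (pow_le_pow_left₀ hb0 (by linarith) j)

/-! ### Functions of low degree -/

/-- `F` is (on the configurations in `P`) a polynomial of degree at most `r` -/
def LD (P : Finset ι) (r : ℕ) (F : Finset ι → ℝ) : Prop :=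
  ∃ c : Finset ι → ℝ, (∀ S, r < S.card → c S = 0) ∧
    ∀ U, U ⊆ P → F U = ∑ S ∈ P.powerset, c S * chi S U

lemma LD.mono {P : Finset ι} {r r' : ℕ} {F : Finset ι → ℝ} (h : LD P r F) (hr : r ≤ r') :
    LD P r' F := by
  obtain ⟨c, h1, h2⟩ := h
  exact ⟨c, fun S hS => h1 S (by omega), h2⟩

lemma LD.add {P : Finset ι} {r : ℕ} {F G : Finset ι → ℝ} (hF : LD P r F) (hG : LD P r G) :
    LD P r (fun U => F U + G U) := by
  obtain ⟨c, h1, h2⟩ := hF
  obtain ⟨d, k1, k2⟩ := hG
  refine ⟨fun S => c S + d S, fun S hS => by simp [h1 S hS, k1 S hS], fun U hU => ?_⟩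
  show F U + G U = _
  rw [h2 U hU, k2 U hU, ← Finset.sum_add_distrib]
  apply Finset.sum_congr rfl; intro S _; ring

lemma LD.const_mul {P : Finset ι} {r : ℕ} {F : Finset ι → ℝ} (a : ℝ) (hF : LD P r F) :
    LD P r (fun U => a * F U) := by
  obtain ⟨c, h1, h2⟩ := hF
  refine ⟨fun S => a * c S, fun S hS => by simp [h1 S hS], fun U hU => ?_⟩
  show a * F U = _
  rw [h2 U hU, Finset.mul_sum]
  apply Finset.sum_congr rfl; intro S _; ring

lemma LD.zero (P : Finset ι) (r : ℕ) : LD P r (fun _ => 0) :=
  ⟨fun _ => 0, fun _ _ => rfl, fun U _ => by simp⟩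

lemma LD.congr {P : Finset ι} {r : ℕ} {F G : Finset ι → ℝ} (hF : LD P r F)
    (h : ∀ U, U ⊆ P → G U = F U) : LD P r G := by
  obtain ⟨c, h1, h2⟩ := hF
  exact ⟨c, h1, fun U hU => by rw [h U hU, h2 U hU]⟩

lemma LD.sum {κ : Type*} {P : Finset ι} {r : ℕ} (T : Finset κ) {F : κ → Finset ι → ℝ}
    (h : ∀ t ∈ T, LD P r (F t)) : LD P r (fun U => ∑ t ∈ T, F t U) := by
  classical
  induction T using Finset.induction_on with
  | empty => simpa using LD.zero P r
  | insert t T ht ih =>
    have h1 := h t (Finset.mem_insert_self t T)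
    have h2 := ih (fun s hs => h s (Finset.mem_insert_of_mem hs))
    exact (h1.add h2).congr (fun U _ => by rw [Finset.sum_insert ht])

lemma LD.chi {P S : Finset ι} (hS : S ⊆ P) : LD P S.card (chi S) := by
  refine ⟨fun T => if T = S then 1 else 0, fun T hT => ?_, fun U hU => ?_⟩
  · have : T ≠ S := by rintro rfl; exact lt_irrefl _ hT
    simp [this]
  · rw [Finset.sum_eq_single S]
    · simp
    · intro T _ hne; simp [hne]
    · intro h; exact absurd (Finset.mem_powerset.2 hS) h

lemma LD.const (P : Finset ι) (a : ℝ) : LD P 0 (fun _ => a) := by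
  have h := (LD.chi (P := P) (S := ∅) (Finset.empty_subset P)).const_mul a
  exact h.congr (fun U _ => by rw [chi_empty, mul_one])

lemma LD.mul {P : Finset ι} {r s : ℕ} {F G : Finset ι → ℝ} (hF : LD P r F) (hG : LD P s G) :
    LD P (r + s) (fun U => F U * G U) := by
  obtain ⟨c, h1, h2⟩ := hF
  obtain ⟨d, k1, k2⟩ := hG
  have key : LD P (r + s) (fun U => ∑ S ∈ P.powerset, ∑ T ∈ P.powerset,
      (c S * d T) * Pool.Agent.P4f18df.chi (symmDiff S T) U) := by
    apply LD.sum
    intro S hS
    apply LD.sum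
    intro T hT
    by_cases hc : r < S.card
    · rw [h1 S hc]
      exact (LD.zero P (r + s)).congr (fun U _ => by ring)
    by_cases hd : s < T.card
    · rw [k1 T hd]
      exact (LD.zero P (r + s)).congr (fun U _ => by ring)
    apply LD.const_mul
    refine (LD.chi (P := P) (S := symmDiff S T) ?_).mono ?_
    · intro q hq
      rcases Finset.mem_symmDiff.1 hq with h | h
      · exact Finset.mem_powerset.1 hS h.1
      · exact Finset.mem_powerset.1 hT h.1
    · calc (symmDiff S T).card ≤ (S ∪ T).card := by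
            apply Finset.card_le_card
            intro q hq
            rcases Finset.mem_symmDiff.1 hq with h | h
            · exact Finset.mem_union_left _ h.1
            · exact Finset.mem_union_right _ h.1
        _ ≤ S.card + T.card := Finset.card_union_le S T
        _ ≤ r + s := by omega
  refine key.congr (fun U hU => ?_)
  rw [h2 U hU, k2 U hU, Finset.sum_mul_sum]
  apply Finset.sum_congr rfl; intro S _
  apply Finset.sum_congr rfl; intro T _
  rw [← chi_mul]; ring

lemma LD.pow {P : Finset ι} {r : ℕ} {F : Finset ι → ℝ} (hF : LD P r F) (n : ℕ) :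
    LD P (n * r) (fun U => (F U) ^ n) := by
  induction n with
  | zero => simpa using LD.const P 1
  | succ n ih =>
    have := ih.mul hF
    have e : n * r + r = (n + 1) * r := by ring
    rw [e] at this
    exact this.congr (fun U _ => by rw [pow_succ])

theorem LD.hyper {P : Finset ι} {r : ℕ} {F : Finset ι → ℝ} (hF : LD P r F) (j : ℕ) (hj : 1 ≤ j) :
    av P (fun U => (F U) ^ (2 * j)) ≤ ((4 * j : ℝ) ^ r * av P (fun U => (F U) ^ 2)) ^ j := by
  obtain ⟨c, h1, h2⟩ := hF
  have e1 : av P (fun U => (F U) ^ (2 * j)) =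
      av P (fun U => (∑ S ∈ P.powerset, c S * Pool.Agent.P4f18df.chi S U) ^ (2 * j)) :=
    av_congr (fun U hU => by rw [h2 U hU])
  have e2 : av P (fun U => (F U) ^ 2) =
      av P (fun U => (∑ S ∈ P.powerset, c S * Pool.Agent.P4f18df.chi S U) ^ 2) :=
    av_congr (fun U hU => by rw [h2 U hU])
  rw [e1, e2, av_sq_expansion]
  refine le_trans (Pool.Agent.P4f18df.hyper j P c) ?_
  apply pow_le_pow_left₀ (Finset.sum_nonneg (fun S _ => by positivity))
  rw [Finset.mul_sum]
  apply Finset.sum_le_sum
  intro S _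
  by_cases hc : r < S.card
  · rw [h1 S hc]; simp
  · rw [mul_comm]
    apply mul_le_mul_of_nonneg_right _ (by positivity)
    apply pow_le_pow_right₀ _ (by omega)
    have : (1:ℝ) ≤ j := by exact_mod_cast hj
    linarith

/-- Cauchy–Schwarz for the cube average. -/
lemma av_cs (P : Finset ι) (F G : Finset ι → ℝ) :
    av P (fun U => F U * G U) ≤
      Real.sqrt (av P (fun U => (F U) ^ 2)) * Real.sqrt (av P (fun U => (G U) ^ 2)) := by
  unfold av
  rw [Real.sqrt_div (Finset.sum_nonneg (fun U _ => sq_nonneg _)),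
    Real.sqrt_div (Finset.sum_nonneg (fun U _ => sq_nonneg _))]
  rw [div_mul_div_comm, Real.mul_self_sqrt (by positivity)]
  apply div_le_div_of_nonneg_right _ (by positivity)
  exact Real.sum_mul_le_sqrt_mul_sqrt _ _ _

end Pool.Agent.P4f18df
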