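import Pool.Agent.Lib.P4f18df.Tuples

/-!
# Taylor expansion of `exp (i y)` and the characteristic function of a sum of signs
-/

set_option autoImplicit false

namespace Pool.Agent.P4f18df

open Finset Filter

/-- the Taylor polynomial of the exponential -/
noncomputable def Tp (K : ℕ) (z : ℂ) : ℂ := ∑ k ∈ range K, z ^ k / (k.factorial : ℂ)

lemma hasDerivAt_Tp (c : ℂ) (K : ℕ) (y : ℝ) :
    HasDerivAt (fun y : ℝ => Tp (K + 1) (c * y)) (c * Tp K (c * y)) y := by
  unfold Tp
  have h1 : ∀ k ∈ range (K + 1), HasDerivAt (fun y : ℝ => (c * (y : ℂ)) ^ k / (k.factorial : ℂ))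
      (((k : ℂ) * (c * y) ^ (k - 1) * c) / (k.factorial : ℂ)) y := by
    intro k _
    have h2 : HasDerivAt (fun y : ℝ => c * (y : ℂ)) c y := by
      simpa using (Complex.ofRealCLM.hasDerivAt (x := y)).const_mul c
    exact (h2.pow k).div_const _
  have h3 := HasDerivAt.fun_sum h1
  refine h3.congr_deriv ?_
  rw [Finset.sum_range_succ', Finset.mul_sum]
  simp only [Nat.cast_zero, zero_mul, zero_div, add_zero]
  apply Finset.sum_congr rfl
  intro k _
  rw [Nat.factorial_succ]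
  have h4 : (k.factorial : ℂ) ≠ 0 := by exact_mod_cast k.factorial_ne_zero
  have h5 : ((k : ℂ) + 1) ≠ 0 := by exact_mod_cast Nat.succ_ne_zero k
  push_cast
  field_simp

lemma norm_exp_sub_Tp_aux (c : ℂ) (hc : c.re = 0) (hc1 : ‖c‖ = 1) (K : ℕ) :
    ∀ y : ℝ, 0 ≤ y → ‖Complex.exp (c * y) - Tp K (c * y)‖ ≤ y ^ K / (K.factorial : ℝ) := by
  induction K with
  | zero =>
    intro y _
    simp only [Tp, Finset.range_zero, Finset.sum_empty, sub_zero, pow_zero, Nat.factorial_zero,
      Nat.cast_one, div_one]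
    rw [Complex.norm_exp]
    simp [hc]
  | succ K ih =>
    intro y hy
    have hd : ∀ x : ℝ, HasDerivAt (fun y : ℝ => Complex.exp (c * y) - Tp (K + 1) (c * y))
        (c * (Complex.exp (c * x) - Tp K (c * x))) x := by
      intro x
      have h2 : HasDerivAt (fun y : ℝ => c * (y : ℂ)) c x := by
        simpa using (Complex.ofRealCLM.hasDerivAt (x := x)).const_mul c
      have h3 : HasDerivAt (fun y : ℝ => Complex.exp (c * y)) (Complex.exp (c * x) * c) x :=
        h2.cexp
      have h4 := h3.sub (hasDerivAt_Tp c K x)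
      refine h4.congr_deriv ?_
      ring
    have hB : ∀ x : ℝ, HasDerivAt (fun y : ℝ => y ^ (K + 1) / ((K + 1).factorial : ℝ))
        (x ^ K / (K.factorial : ℝ)) x := by
      intro x
      have h3 := (hasDerivAt_pow (K + 1) x).div_const ((K + 1).factorial : ℝ)
      refine h3.congr_deriv ?_
      rw [Nat.factorial_succ]
      have h4 : (K.factorial : ℝ) ≠ 0 := by exact_mod_cast K.factorial_ne_zero
      have h5 : ((K : ℝ) + 1) ≠ 0 := by positivity
      push_cast
      field_simp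
    have := image_norm_le_of_norm_deriv_right_le_deriv_boundary (a := 0) (b := y)
      (f := fun y : ℝ => Complex.exp (c * y) - Tp (K + 1) (c * y))
      (f' := fun x : ℝ => c * (Complex.exp (c * x) - Tp K (c * x)))
      (B := fun y : ℝ => y ^ (K + 1) / ((K + 1).factorial : ℝ))
      (B' := fun x : ℝ => x ^ K / (K.factorial : ℝ))
      (fun x _ => (hd x).continuousAt.continuousWithinAt)
      (fun x _ => (hd x).hasDerivWithinAt)
      (by simp [Tp, Finset.sum_range_succ']) hB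
      (fun x hx => by
        rw [norm_mul, hc1, one_mul]
        exact ih x hx.1)
    exact this ⟨hy, le_rfl⟩

lemma norm_exp_sub_Tp (K : ℕ) (y : ℝ) :
    ‖Complex.exp (Complex.I * y) - Tp K (Complex.I * y)‖ ≤ |y| ^ K / (K.factorial : ℝ) := by
  rcases le_total 0 y with h | h
  · rw [abs_of_nonneg h]
    exact norm_exp_sub_Tp_aux Complex.I (by simp) (by simp) K y h
  · rw [abs_of_nonpos h]
    have := norm_exp_sub_Tp_aux (-Complex.I) (by simp) (by simp) K (-y) (by linarith)
    have e : (-Complex.I) * ((-y : ℝ) : ℂ) = Complex.I * y := by push_cast; ring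
    rwa [e] at this

/-- characteristic function of a sum of independent signs -/
lemma sum_exp_sg {κ : Type*} [DecidableEq κ] (A : Finset κ) (x : ℝ) :
    (∑ U ∈ A.powerset, Complex.exp (Complex.I * ((x * ∑ v ∈ A, sg U v : ℝ) : ℂ))) /
      2 ^ A.card = ((Real.cos x ^ A.card : ℝ) : ℂ) := by
  have h1 : ∀ U ∈ A.powerset, Complex.exp (Complex.I * ((x * ∑ v ∈ A, sg U v : ℝ) : ℂ)) =
      (∏ v ∈ U, Complex.exp (-(Complex.I * x))) * ∏ v ∈ A \ U, Complex.exp (Complex.I * x) := by
    intro U hU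
    rw [Finset.mem_powerset] at hU
    have e : (Complex.I * ((x * ∑ v ∈ A, sg U v : ℝ) : ℂ)) =
        ∑ v ∈ A, Complex.I * x * (sg U v : ℂ) := by
      push_cast
      rw [← Finset.mul_sum]; ring
    rw [e, Complex.exp_sum, ← Finset.prod_sdiff hU, mul_comm]
    congr 1
    · apply Finset.prod_congr rfl
      intro v hv
      rw [sg, if_pos hv]; congr 1; push_cast; ring
    · apply Finset.prod_congr rfl
      intro v hv
      rw [Finset.mem_sdiff] at hv
      rw [sg, if_neg hv.2]; congr 1; push_cast; ring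
  rw [Finset.sum_congr rfl h1, ← Finset.prod_add]
  rw [Finset.prod_const]
  have h2 : Complex.exp (-(Complex.I * x)) + Complex.exp (Complex.I * x) = 2 * Complex.cos x := by
    rw [Complex.cos]
    rw [show (-(Complex.I * (x : ℂ))) = -(x : ℂ) * Complex.I by ring,
      show (Complex.I * (x : ℂ)) = (x : ℂ) * Complex.I by ring]
    ring
  rw [h2, mul_pow]
  push_cast
  field_simp

/-- comparison of the moments of the independent model with the cosine power -/
lemma cos_pow_sub {κ : Type*} [DecidableEq κ] (A : Finset κ) (x : ℝ) (j : ℕ) :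
    ‖((Real.cos x ^ A.card : ℝ) : ℂ) -
      ∑ k ∈ range (2 * j), (Complex.I * x) ^ k / (k.factorial : ℂ) * (triv k A : ℂ)‖ ≤
      |x| ^ (2 * j) / ((2 * j).factorial : ℝ) * triv (2 * j) A := by
  have h1 : ∑ k ∈ range (2 * j), (Complex.I * x) ^ k / (k.factorial : ℂ) * (triv k A : ℂ) =
      (∑ U ∈ A.powerset, Tp (2 * j) (Complex.I * ((x * ∑ v ∈ A, sg U v : ℝ) : ℂ))) /
        2 ^ A.card := by
    unfold Tp
    rw [Finset.sum_comm, Finset.sum_div]
    apply Finset.sum_congr rfl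
    intro k _
    have h2 := av_pow_sum_sg k A
    unfold av at h2
    have h3 : (triv k A : ℂ) = (∑ U ∈ A.powerset, ((∑ v ∈ A, sg U v : ℝ) : ℂ) ^ k) /
        2 ^ A.card := by
      have := congrArg (fun r : ℝ => (r : ℂ)) h2
      simp only at this
      push_cast at this ⊢
      rw [← this]
    rw [h3, mul_div_assoc', Finset.mul_sum]
    congr 1
    apply Finset.sum_congr rfl
    intro U _
    push_cast
    rw [← mul_assoc, mul_pow (Complex.I * (x : ℂ))]; ring
  rw [h1, ← sum_exp_sg A x, ← sub_div, ← Finset.sum_sub_distrib, norm_div]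
  have h2 : ‖(2 : ℂ) ^ A.card‖ = 2 ^ A.card := by simp
  rw [h2, div_le_iff₀ (by positivity)]
  refine le_trans (norm_sum_le _ _) ?_
  calc ∑ U ∈ A.powerset, ‖Complex.exp (Complex.I * ((x * ∑ v ∈ A, sg U v : ℝ) : ℂ)) -
        Tp (2 * j) (Complex.I * ((x * ∑ v ∈ A, sg U v : ℝ) : ℂ))‖
      ≤ ∑ U ∈ A.powerset, |x * ∑ v ∈ A, sg U v| ^ (2 * j) / ((2 * j).factorial : ℝ) :=
        Finset.sum_le_sum (fun U _ => norm_exp_sub_Tp (2 * j) _)
    _ = |x| ^ (2 * j) / ((2 * j).factorial : ℝ) *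
          ∑ U ∈ A.powerset, (∑ v ∈ A, sg U v) ^ (2 * j) := by
        rw [Finset.mul_sum]
        apply Finset.sum_congr rfl
        intro U _
        rw [abs_mul, mul_pow, (even_two_mul j).pow_abs (∑ v ∈ A, sg U v)]
        ring
    _ = |x| ^ (2 * j) / ((2 * j).factorial : ℝ) * triv (2 * j) A * 2 ^ A.card := by
        have h3 := av_pow_sum_sg (2 * j) A
        unfold av at h3
        rw [← h3]
        field_simp

/-- elementary inequality for powers -/
lemma abs_pow_sub_pow_le (a b : ℝ) (ha : |a| ≤ 1) (hb : |b| ≤ 1) (n : ℕ) :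
    |a ^ n - b ^ n| ≤ n * |a - b| := by
  induction n with
  | zero => simp
  | succ n ih =>
    have e : a ^ (n + 1) - b ^ (n + 1) = a * (a ^ n - b ^ n) + (a - b) * b ^ n := by ring
    rw [e]
    calc |a * (a ^ n - b ^ n) + (a - b) * b ^ n|
        ≤ |a * (a ^ n - b ^ n)| + |(a - b) * b ^ n| := abs_add_le _ _
      _ = |a| * |a ^ n - b ^ n| + |a - b| * |b| ^ n := by rw [abs_mul, abs_mul, abs_pow]
      _ ≤ 1 * (n * |a - b|) + |a - b| * 1 := by
          have : |b| ^ n ≤ 1 := pow_le_one₀ (abs_nonneg _) hb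
          gcongr
      _ = _ := by push_cast; ring

lemma abs_cos_sub_exp_le {x : ℝ} (hx : |x| ≤ 1) : |Real.cos x - Real.exp (-(x ^ 2 / 2))| ≤ x ^ 4 := by
  have h1 := Real.cos_bound hx
  have hx2 : x ^ 2 ≤ 1 := by
    rw [← sq_abs]; exact pow_le_one₀ (abs_nonneg _) hx
  have h2 := Real.abs_exp_sub_one_sub_id_le (x := -(x ^ 2 / 2)) (by
    rw [abs_neg, abs_of_nonneg (by positivity)]; linarith)
  have e : |x| ^ 4 = x ^ 4 := (show Even 4 by decide).pow_abs x
  rw [e] at h1
  rw [abs_le] at h1 h2 ⊢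
  have h4 : 0 ≤ x ^ 4 := by positivity
  have e2 : (-(x ^ 2 / 2)) ^ 2 = x ^ 4 / 4 := by ring
  rw [e2] at h2
  constructor <;> linarith [h1.1, h1.2, h2.1, h2.2]

lemma abs_exp_neg_sub_le {u v : ℝ} (hu : 0 ≤ u) (hv : 0 ≤ v) :
    |Real.exp (-u) - Real.exp (-v)| ≤ |u - v| := by
  wlog h : u ≤ v generalizing u v
  · rw [abs_sub_comm, abs_sub_comm u v]
    exact this hv hu (le_of_lt (not_le.1 h))
  rw [abs_of_nonneg (by
    have := Real.exp_le_exp.2 (neg_le_neg h); linarith), abs_of_nonpos (by linarith)]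
  have h1 : Real.exp (-u) ≤ 1 := Real.exp_le_one_iff.2 (by linarith)
  have h2 : 1 + (-(v - u)) ≤ Real.exp (-(v - u)) := by
    have := Real.add_one_le_exp (-(v - u)); linarith
  have h3 : Real.exp (-v) = Real.exp (-u) * Real.exp (-(v - u)) := by
    rw [← Real.exp_add]; congr 1; ring
  rw [h3]
  have h4 : 0 ≤ Real.exp (-u) := (Real.exp_pos _).le
  nlinarith

/-- cosine power against the Gaussian -/
lemma cos_pow_gauss {x : ℝ} (hx : |x| ≤ 1) (n : ℕ) (s : ℝ) (hs : 0 ≤ s) :
    |Real.cos x ^ n - Real.exp (-(x ^ 2 * s / 2))| ≤ n * x ^ 4 + x ^ 2 / 2 * |(n : ℝ) - s| := by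
  have h1 : |Real.cos x ^ n - Real.exp (-(x ^ 2 / 2)) ^ n| ≤ n * x ^ 4 := by
    refine le_trans (abs_pow_sub_pow_le _ _ (Real.abs_cos_le_one x) ?_ n) ?_
    · rw [abs_of_pos (Real.exp_pos _)]
      exact Real.exp_le_one_iff.2 (by have := sq_nonneg x; linarith)
    · exact mul_le_mul_of_nonneg_left (abs_cos_sub_exp_le hx) (Nat.cast_nonneg n)
  have h2 : |Real.exp (-(x ^ 2 / 2)) ^ n - Real.exp (-(x ^ 2 * s / 2))| ≤
      x ^ 2 / 2 * |(n : ℝ) - s| := by
    rw [← Real.exp_nat_mul]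
    have e : (n : ℝ) * -(x ^ 2 / 2) = -((n : ℝ) * (x ^ 2 / 2)) := by ring
    rw [e]
    refine le_trans (abs_exp_neg_sub_le (by positivity) (by positivity)) (le_of_eq ?_)
    rw [show (n : ℝ) * (x ^ 2 / 2) - x ^ 2 * s / 2 = x ^ 2 / 2 * ((n : ℝ) - s) by ring, abs_mul,
      abs_of_nonneg (by positivity)]
  calc |Real.cos x ^ n - Real.exp (-(x ^ 2 * s / 2))|
      = |(Real.cos x ^ n - Real.exp (-(x ^ 2 / 2)) ^ n) +
        (Real.exp (-(x ^ 2 / 2)) ^ n - Real.exp (-(x ^ 2 * s / 2)))| := by congr 1; ring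
    _ ≤ _ := abs_add_le _ _
    _ ≤ _ := by linarith

end Pool.Agent.P4f18df
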