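import Pool.Agent.Lib.P4f18df.AS
import Pool.Agent.Lib.P4f18df.Sqf
import Pool.Agent.Lib.P4f18df.Taylor

/-!
# The discrete characteristic function
-/

set_option autoImplicit false

namespace Pool.Agent.P4f18df

open Finset Filter

/-- functions with values `±1` at squarefree integers and `0` elsewhere -/
def SgnFun (f : ℕ → ℝ) : Prop :=
  ∀ n, (Squarefree n → f n = 1 ∨ f n = -1) ∧ (¬ Squarefree n → f n = 0)

/-- the normalisation -/
noncomputable def sig (h : ℝ) : ℝ := Real.sqrt (h / (Real.pi ^ 2 / 6))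

/-- discrete characteristic function -/
noncomputable def Phi (f : ℕ → ℝ) (x : ℝ) (N h : ℕ) : ℂ :=
  (∑ a ∈ Ioc N (2 * N), Complex.exp (Complex.I * ((x * Wd f h a : ℝ) : ℂ))) / N

lemma Wd_pow {f : ℕ → ℝ} (hf : SgnFun f) (h a k : ℕ) :
    (Wd f h a) ^ k = (triv k (Q h a) : ℝ) + ((Wd f h a) ^ k - triv k (Q h a)) := by ring

lemma triv_zero {κ : Type*} [DecidableEq κ] (A : Finset κ) : triv 0 A = 1 := by
  have h := av_pow_sum_sg 0 A
  simp only [pow_zero] at h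
  rw [av_const] at h
  exact_mod_cast h.symm

lemma sum_triv_le {N h j : ℕ} (hj : 1 ≤ j) :
    ∑ a ∈ Ioc N (2 * N), (triv (2 * j) (Q h a) : ℝ) ≤ N * (4 * j * h) ^ j := by
  have h1 : ∀ a ∈ Ioc N (2 * N), (triv (2 * j) (Q h a) : ℝ) ≤ (4 * j * h : ℝ) ^ j := by
    intro a _
    refine le_trans (triv_le j hj (Q h a)) ?_
    have : ((Q h a).card : ℝ) ≤ h := by exact_mod_cast card_Q_le h a
    gcongr
  refine le_trans (Finset.sum_le_sum h1) ?_
  rw [Finset.sum_const, nsmul_eq_mul, Nat.card_Ioc]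
  apply le_of_eq
  congr 2; omega

lemma exists_j (c ε : ℝ) (hε : 0 < ε) :
    ∃ j : ℕ, 1 ≤ j ∧ (4 * j * c ^ 2) ^ j / ((2 * j).factorial : ℝ) ≤ ε := by
  have h1 := FloorSemiring.tendsto_pow_div_factorial_atTop (4 * c ^ 2)
  have h2 : ∀ᶠ j : ℕ in atTop, (4 * c ^ 2) ^ j / (j.factorial : ℝ) ≤ ε :=
    (h1.eventually (gt_mem_nhds hε)).mono (fun _ h => le_of_lt h)
  obtain ⟨j, hj1, hj2⟩ := (h2.and (eventually_ge_atTop 1)).exists
  refine ⟨j, hj2, le_trans ?_ hj1⟩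
  rw [div_le_div_iff₀ (by positivity) (by positivity)]
  have h3 : j ^ j * j.factorial ≤ (2 * j).factorial := by
    have := Nat.factorial_mul_pow_le_factorial (m := j) (n := j)
    calc j ^ j * j.factorial ≤ (j + 1) ^ j * j.factorial :=
          Nat.mul_le_mul_right _ (Nat.pow_le_pow_left (by omega) j)
      _ = j.factorial * (j + 1) ^ j := mul_comm _ _
      _ ≤ (j + j).factorial := this
      _ = (2 * j).factorial := by rw [two_mul]
  have h4 : (j : ℝ) ^ j * (j.factorial : ℝ) ≤ ((2 * j).factorial : ℝ) := by exact_mod_cast h3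
  have h5 : (4 * (j : ℝ) * c ^ 2) ^ j = (4 * c ^ 2) ^ j * (j : ℝ) ^ j := by
    rw [← mul_pow]; ring
  rw [h5]
  have h6 : (0:ℝ) ≤ (4 * c ^ 2) ^ j := by positivity
  calc (4 * c ^ 2) ^ j * (j : ℝ) ^ j * (j.factorial : ℝ)
      = (4 * c ^ 2) ^ j * ((j : ℝ) ^ j * (j.factorial : ℝ)) := by ring
    _ ≤ _ := mul_le_mul_of_nonneg_left h4 h6

/-- The bound for the discrete characteristic function in terms of the `Dk`. -/
lemma Phi_bound {f : ℕ → ℝ} {N h j : ℕ} (hj : 1 ≤ j) (hh1 : 1 ≤ h) (hh : h ≤ N)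
    (c η θ : ℝ) (hc : 0 ≤ c) (hη : 0 ≤ η) (hθ : θ ^ 2 * (Real.pi ^ 2 / 6) = c ^ 2)
    (hch : c ≤ Real.sqrt h)
    (hD : ∀ k ∈ Icc 1 (2 * j), |Dk f k N h| ≤ η * (Real.sqrt h) ^ k) :
    ‖Phi f (θ / sig h) N h - ((Real.exp (-(θ ^ 2 / 2)) : ℝ) : ℂ)‖ ≤
      2 * ((4 * j * c ^ 2) ^ j / ((2 * j).factorial : ℝ)) + η * Real.exp c +
        (c ^ 4 / h + 9 * c ^ 2 / 2 / Real.sqrt h) := by
  set x := θ / sig h with hx
  have hN : 1 ≤ N := le_trans hh1 hh
  have hNr : (0:ℝ) < N := by exact_mod_cast hN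
  have hhr : (0:ℝ) < h := by exact_mod_cast hh1
  have hsq : 0 < Real.sqrt h := Real.sqrt_pos.2 hhr
  have hpi : 0 < Real.pi ^ 2 / 6 := by positivity
  have hx2 : x ^ 2 = c ^ 2 / h := by
    rw [hx, div_pow, sig, Real.sq_sqrt (by positivity), ← hθ]
    field_simp
  have hxabs : |x| = c / Real.sqrt h := by
    have h1 : |x| ^ 2 = (c / Real.sqrt h) ^ 2 := by
      rw [sq_abs, hx2, div_pow, Real.sq_sqrt hhr.le]
    exact (pow_left_inj₀ (abs_nonneg _) (by positivity) (by norm_num)).1 h1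
  have hx1 : |x| ≤ 1 := by rw [hxabs, div_le_one hsq]; exact hch
  have hcard : ((Ioc N (2 * N)).card : ℝ) = N := by
    rw [Nat.card_Ioc]; congr 1; omega
  -- the quantities
  set K := 2 * j with hK
  set S2 : ℂ := (∑ a ∈ Ioc N (2 * N), Tp K (Complex.I * ((x * Wd f h a : ℝ) : ℂ))) / N with hS2
  set S3 : ℂ := (∑ a ∈ Ioc N (2 * N), ∑ k ∈ range K, (Complex.I * x) ^ k / (k.factorial : ℂ) *
    (triv k (Q h a) : ℂ)) / N with hS3
  set S4 : ℂ := (∑ a ∈ Ioc N (2 * N), ((Real.cos x ^ (Q h a).card : ℝ) : ℂ)) / N with hS4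
  have hxK : |x| ^ K * (4 * j * h) ^ j = (4 * j * c ^ 2) ^ j := by
    rw [hK, pow_mul, sq_abs, hx2, ← mul_pow]
    congr 1; field_simp
  have htrivB : (|x| ^ K / (K.factorial : ℝ) * ∑ a ∈ Ioc N (2 * N), (triv K (Q h a) : ℝ)) / N ≤
      (4 * j * c ^ 2) ^ j / (K.factorial : ℝ) := by
    rw [div_le_iff₀ hNr]
    calc |x| ^ K / (K.factorial : ℝ) * ∑ a ∈ Ioc N (2 * N), (triv K (Q h a) : ℝ)
        ≤ |x| ^ K / (K.factorial : ℝ) * (N * (4 * j * h) ^ j) := by
          apply mul_le_mul_of_nonneg_left (sum_triv_le hj) (by positivity)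
      _ = (|x| ^ K * (4 * j * h) ^ j) / (K.factorial : ℝ) * N := by ring
      _ = _ := by rw [hxK]
  have normN : ‖(N : ℂ)‖ = N := by simp
  -- T1
  have T1 : ‖Phi f x N h - S2‖ ≤ (4 * j * c ^ 2) ^ j / (K.factorial : ℝ) +
      η * (c ^ K / (K.factorial : ℝ)) := by
    rw [Phi, hS2, ← sub_div, ← Finset.sum_sub_distrib, norm_div, normN, div_le_iff₀ hNr]
    refine le_trans (norm_sum_le _ _) ?_
    have h1 : ∑ a ∈ Ioc N (2 * N), ‖Complex.exp (Complex.I * ((x * Wd f h a : ℝ) : ℂ)) -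
        Tp K (Complex.I * ((x * Wd f h a : ℝ) : ℂ))‖ ≤
        ∑ a ∈ Ioc N (2 * N), |x| ^ K / (K.factorial : ℝ) * (Wd f h a) ^ K := by
      apply Finset.sum_le_sum
      intro a _
      refine le_trans (norm_exp_sub_Tp K _) (le_of_eq ?_)
      rw [abs_mul, mul_pow, hK, (even_two_mul j).pow_abs (Wd f h a)]
      ring
    refine le_trans h1 ?_
    rw [← Finset.mul_sum]
    have h2 : ∑ a ∈ Ioc N (2 * N), (Wd f h a) ^ K =
        ∑ a ∈ Ioc N (2 * N), (triv K (Q h a) : ℝ) + N * Dk f K N h := by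
      rw [Dk, mul_div_cancel₀ _ hNr.ne', ← Finset.sum_add_distrib]
      apply Finset.sum_congr rfl; intro a _; ring
    rw [h2, mul_add]
    have h3 : |x| ^ K / (K.factorial : ℝ) * (N * Dk f K N h) ≤
        η * (c ^ K / (K.factorial : ℝ)) * N := by
      have h4 : |x| ^ K * Dk f K N h ≤ η * c ^ K := by
        calc |x| ^ K * Dk f K N h ≤ |x| ^ K * |Dk f K N h| := by
              apply mul_le_mul_of_nonneg_left (le_abs_self _) (by positivity)
          _ ≤ |x| ^ K * (η * (Real.sqrt h) ^ K) := by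
              apply mul_le_mul_of_nonneg_left (hD K (Finset.mem_Icc.2 ⟨by omega, le_rfl⟩))
                (by positivity)
          _ = η * (|x| * Real.sqrt h) ^ K := by rw [mul_pow]; ring
          _ = η * c ^ K := by rw [hxabs, div_mul_cancel₀ _ hsq.ne']
      calc |x| ^ K / (K.factorial : ℝ) * (N * Dk f K N h)
          = (|x| ^ K * Dk f K N h) * (N / (K.factorial : ℝ)) := by ring
        _ ≤ (η * c ^ K) * (N / (K.factorial : ℝ)) := by gcongr
        _ = _ := by ring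
    rw [div_le_iff₀ hNr] at htrivB
    linarith
  -- T2
  have T2 : ‖S2 - S3‖ ≤ η * ∑ k ∈ range K, c ^ k / (k.factorial : ℝ) := by
    have e : S2 - S3 = ∑ k ∈ range K, (Complex.I * x) ^ k / (k.factorial : ℂ) *
        ((Dk f k N h : ℝ) : ℂ) := by
      rw [hS2, hS3, ← sub_div, ← Finset.sum_sub_distrib]
      unfold Tp
      simp only [← Finset.sum_sub_distrib]
      rw [Finset.sum_comm, Finset.sum_div]
      apply Finset.sum_congr rfl
      intro k _
      unfold Dk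
      push_cast
      rw [mul_div_assoc', Finset.mul_sum]
      congr 1
      apply Finset.sum_congr rfl
      intro a _
      rw [← mul_assoc, mul_pow (Complex.I * (x : ℂ))]; ring
    rw [e, Finset.mul_sum]
    refine le_trans (norm_sum_le _ _) ?_
    apply Finset.sum_le_sum
    intro k hk
    rw [Finset.mem_range] at hk
    rw [norm_mul, norm_div, norm_pow, norm_mul, Complex.norm_I, one_mul, Complex.norm_real,
      Complex.norm_real, Real.norm_eq_abs, Real.norm_eq_abs, Complex.norm_natCast]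
    rcases Nat.eq_zero_or_pos k with h0 | h0
    · have : Dk f 0 N h = 0 := by
        unfold Dk
        simp [triv_zero]
      rw [h0, this]; simp; exact hη
    · calc |x| ^ k / (k.factorial : ℝ) * |Dk f k N h|
          ≤ |x| ^ k / (k.factorial : ℝ) * (η * (Real.sqrt h) ^ k) := by
            apply mul_le_mul_of_nonneg_left (hD k (Finset.mem_Icc.2 ⟨h0, by omega⟩))
              (by positivity)
        _ = η * ((|x| * Real.sqrt h) ^ k / (k.factorial : ℝ)) := by rw [mul_pow]; ring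
        _ = η * (c ^ k / (k.factorial : ℝ)) := by rw [hxabs, div_mul_cancel₀ _ hsq.ne']
  -- T3
  have T3 : ‖S3 - S4‖ ≤ (4 * j * c ^ 2) ^ j / (K.factorial : ℝ) := by
    rw [hS3, hS4, ← sub_div, ← Finset.sum_sub_distrib, norm_div, normN]
    refine le_trans ?_ htrivB
    apply div_le_div_of_nonneg_right _ hNr.le
    refine le_trans (norm_sum_le _ _) ?_
    rw [Finset.mul_sum]
    apply Finset.sum_le_sum
    intro a _
    rw [norm_sub_rev]
    exact cos_pow_sub (Q h a) x j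
  -- T4
  have T4 : ‖S4 - ((Real.exp (-(θ ^ 2 / 2)) : ℝ) : ℂ)‖ ≤
      c ^ 4 / h + 9 * c ^ 2 / 2 / Real.sqrt h := by
    have e : S4 - ((Real.exp (-(θ ^ 2 / 2)) : ℝ) : ℂ) =
        (∑ a ∈ Ioc N (2 * N), (((Real.cos x ^ (Q h a).card : ℝ) : ℂ) -
          ((Real.exp (-(θ ^ 2 / 2)) : ℝ) : ℂ))) / N := by
      rw [hS4, Finset.sum_sub_distrib, sub_div, Finset.sum_const, nsmul_eq_mul]
      have : ((Ioc N (2 * N)).card : ℂ) = N := by exact_mod_cast hcard
      rw [this, mul_div_cancel_left₀]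
      exact_mod_cast hNr.ne'
    rw [e, norm_div, normN, div_le_iff₀ hNr]
    refine le_trans (norm_sum_le _ _) ?_
    have h1 : ∀ a ∈ Ioc N (2 * N), ‖((Real.cos x ^ (Q h a).card : ℝ) : ℂ) -
          ((Real.exp (-(θ ^ 2 / 2)) : ℝ) : ℂ)‖ ≤
        h * x ^ 4 + x ^ 2 / 2 * |((Q h a).card : ℝ) - h * c2| := by
      intro a _
      rw [← Complex.ofReal_sub, Complex.norm_real, Real.norm_eq_abs]
      have h2 : x ^ 2 * (h * c2) / 2 = θ ^ 2 / 2 := by
        rw [hx2, ← hθ, c2]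
        field_simp
      have h3 := cos_pow_gauss hx1 (Q h a).card (h * c2) (by have := c2_pos; positivity)
      rw [h2] at h3
      refine le_trans h3 ?_
      have h4 : ((Q h a).card : ℝ) ≤ h := by exact_mod_cast card_Q_le h a
      have h5 : ((Q h a).card : ℝ) * x ^ 4 ≤ h * x ^ 4 :=
        mul_le_mul_of_nonneg_right h4 (by positivity)
      linarith
    refine le_trans (Finset.sum_le_sum h1) ?_
    rw [Finset.sum_add_distrib, Finset.sum_const, nsmul_eq_mul, hcard, ← Finset.mul_sum]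
    have h2 := sum_card_Q hh1 hh
    have h3 : x ^ 2 / 2 * ∑ a ∈ Ioc N (2 * N), |((Q h a).card : ℝ) - h * c2| ≤
        x ^ 2 / 2 * (9 * N * Real.sqrt h) := mul_le_mul_of_nonneg_left h2 (by positivity)
    have h4 : (N : ℝ) * (h * x ^ 4) = c ^ 4 / h * N := by
      rw [show x ^ 4 = (x ^ 2) ^ 2 by ring, hx2]; field_simp
    have h5 : x ^ 2 / 2 * (9 * N * Real.sqrt h) = 9 * c ^ 2 / 2 / Real.sqrt h * N := by
      rw [hx2]
      have : (h : ℝ) = Real.sqrt h * Real.sqrt h := (Real.mul_self_sqrt hhr.le).symm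
      nth_rewrite 1 [this]
      field_simp
    rw [h4]; linarith
  have hexp : c ^ K / (K.factorial : ℝ) + ∑ k ∈ range K, c ^ k / (k.factorial : ℝ) ≤
      Real.exp c := by
    have := Real.sum_le_exp_of_nonneg hc (K + 1)
    rw [Finset.sum_range_succ] at this
    linarith
  have htot : ‖Phi f x N h - ((Real.exp (-(θ ^ 2 / 2)) : ℝ) : ℂ)‖ ≤
      ‖Phi f x N h - S2‖ + ‖S2 - S3‖ + ‖S3 - S4‖ +
        ‖S4 - ((Real.exp (-(θ ^ 2 / 2)) : ℝ) : ℂ)‖ := by
    calc _ = ‖(Phi f x N h - S2) + (S2 - S3) + (S3 - S4) +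
          (S4 - ((Real.exp (-(θ ^ 2 / 2)) : ℝ) : ℂ))‖ := by congr 1; ring
      _ ≤ _ := norm_add₄_le
  have hmul := mul_le_mul_of_nonneg_left hexp hη
  rw [mul_add] at hmul
  linarith

/-- The discrete characteristic function converges. -/
theorem disc_charFun {f : ℕ → ℝ} (hm : MomProp f) (q : ℕ) (hq : 1 ≤ q) (θ ε : ℝ) (hε : 0 < ε) :
    ∃ h₀ : ℕ, ∀ᶠ N : ℕ in atTop, ∀ h : ℕ, h₀ ≤ h → (h : ℝ) ≤ (N : ℝ) ^ (1 - 1 / q : ℝ) →
      ‖Phi f (θ / sig h) N h - ((Real.exp (-(θ ^ 2 / 2)) : ℝ) : ℂ)‖ ≤ ε := by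
  set c : ℝ := |θ| * Real.sqrt (Real.pi ^ 2 / 6) with hc
  have hc0 : 0 ≤ c := by positivity
  have hθ : θ ^ 2 * (Real.pi ^ 2 / 6) = c ^ 2 := by
    rw [hc, mul_pow, sq_abs, Real.sq_sqrt (by positivity)]
  obtain ⟨j, hj, hjB⟩ := exists_j c (ε / 8) (by positivity)
  set η : ℝ := ε / 4 / Real.exp c with hη
  have hη0 : 0 < η := by positivity
  have hηe : η * Real.exp c = ε / 4 := by
    rw [hη]; field_simp
  have hlim : Tendsto (fun h : ℕ => c ^ 4 / (h : ℝ) + 9 * c ^ 2 / 2 / Real.sqrt h) atTop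
      (nhds (0 + 0)) := by
    apply Tendsto.add
    · exact tendsto_const_nhds.div_atTop tendsto_natCast_atTop_atTop
    · exact tendsto_const_nhds.div_atTop
        (Real.tendsto_sqrt_atTop.comp tendsto_natCast_atTop_atTop)
  rw [add_zero] at hlim
  have h1 : ∀ᶠ h : ℕ in atTop, c ^ 4 / (h : ℝ) + 9 * c ^ 2 / 2 / Real.sqrt h ≤ ε / 4 :=
    (hlim.eventually (gt_mem_nhds (by positivity : 0 < ε / 4))).mono (fun _ h => le_of_lt h)
  have h2 : ∀ᶠ h : ℕ in atTop, c ≤ Real.sqrt h :=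
    (Real.tendsto_sqrt_atTop.comp tendsto_natCast_atTop_atTop).eventually_ge_atTop c
  obtain ⟨h₀, hh₀⟩ := eventually_atTop.1 (h1.and (h2.and (eventually_ge_atTop 1)))
  refine ⟨h₀, ?_⟩
  have h3 : ∀ᶠ N : ℕ in atTop, ∀ k ∈ Icc 1 (2 * j), ∀ h : ℕ, 1 ≤ h →
      (h : ℝ) ≤ (N : ℝ) ^ (1 - 1 / q : ℝ) → |Dk f k N h| ≤ η * (Real.sqrt h) ^ k := by
    rw [Filter.eventually_all_finset]
    intro k hk
    exact hm k q (Finset.mem_Icc.1 hk).1 hq η hη0
  filter_upwards [h3, eventually_ge_atTop 1] with N hN hN1 h hh0 hhN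
  obtain ⟨g1, g2, g3⟩ := hh₀ h hh0
  have hhN' : h ≤ N := by
    have : (h : ℝ) ≤ (N : ℝ) := by
      refine le_trans hhN ?_
      calc (N : ℝ) ^ (1 - 1 / q : ℝ) ≤ (N : ℝ) ^ (1 : ℝ) := by
            apply Real.rpow_le_rpow_of_exponent_le (by exact_mod_cast hN1)
            have : 0 ≤ (1 / q : ℝ) := by positivity
            linarith
        _ = N := Real.rpow_one _
    exact_mod_cast this
  have := Phi_bound (f := f) hj g3 hhN' c η θ hc0 hη0.le hθ g2 (fun k hk => hN k hk h g3 hhN)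
  linarith

end Pool.Agent.P4f18df
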