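import Pool.Agent.Lib.P4f18df.Det

/-!
# From integers to real `x` and `H`
-/

set_option autoImplicit false

namespace Pool.Agent.P4f18df

open Finset Filter MeasureTheory

/-- the sum of `f` over the integers `n` with `|n - x| < H/2` -/
noncomputable def Ms (f : ℕ → ℝ) (x H : ℝ) : ℝ :=
  ∑ n ∈ (Finset.range (⌊x + H⌋₊ + 1)).filter (fun n : ℕ => |(n : ℝ) - x| < H / 2), f n

lemma abs_f_le {f : ℕ → ℝ} (hf : SgnFun f) (n : ℕ) : |f n| ≤ 1 := by
  by_cases h : Squarefree n
  · rcases (hf n).1 h with h | h <;> rw [h] <;> simp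
  · rw [(hf n).2 h]; simp

lemma abs_Wd_le {f : ℕ → ℝ} (hf : SgnFun f) (h a : ℕ) : |Wd f h a| ≤ h := by
  unfold Wd
  refine le_trans (Finset.abs_sum_le_sum_abs _ _) ?_
  refine le_trans (Finset.sum_le_sum (fun n _ => abs_f_le hf n)) ?_
  simp

lemma Ms_sub_Wd {f : ℕ → ℝ} (hf : SgnFun f) {x H : ℝ} (hH : 0 ≤ H) (hx : 0 ≤ x - H / 2) :
    |Ms f x H - Wd f ⌊H⌋₊ ⌊x - H / 2⌋₊| ≤ 2 := by
  set a := ⌊x - H / 2⌋₊ with ha
  set h := ⌊H⌋₊ with hh
  set S := (Finset.range (⌊x + H⌋₊ + 1)).filter (fun n : ℕ => |(n : ℝ) - x| < H / 2) with hS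
  have a1 : (a : ℝ) ≤ x - H / 2 := Nat.floor_le hx
  have a2 : x - H / 2 < a + 1 := Nat.lt_floor_add_one _
  have b1 : (h : ℝ) ≤ H := Nat.floor_le hH
  have b2 : H < h + 1 := Nat.lt_floor_add_one _
  have hSm : ∀ n : ℕ, n ∈ S ↔ |(n : ℝ) - x| < H / 2 := by
    intro n
    rw [hS, Finset.mem_filter, Finset.mem_range]
    constructor
    · exact fun h => h.2
    · intro h
      refine ⟨?_, h⟩
      rw [abs_lt] at h
      have : (n : ℝ) ≤ x + H := by linarith
      have := Nat.le_floor this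
      omega
  have h1 : S \ Ioc a (a + h) ⊆ {a + h + 1} := by
    intro n hn
    rw [Finset.mem_sdiff, hSm, Finset.mem_Ioc, abs_lt] at hn
    rw [Finset.mem_singleton]
    have c1 : (a : ℝ) < n := by linarith [hn.1.1]
    have c2 : (n : ℝ) < a + h + 2 := by linarith [hn.1.2]
    have d1 : a < n := by exact_mod_cast c1
    have d2 : n < a + h + 2 := by exact_mod_cast c2
    have := hn.2
    omega
  have h2 : Ioc a (a + h) \ S ⊆ {a + h} := by
    intro n hn
    rw [Finset.mem_sdiff, hSm, Finset.mem_Ioc, abs_lt] at hn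
    rw [Finset.mem_singleton]
    obtain ⟨⟨n1, n2⟩, n3⟩ := hn
    by_contra hne
    have n4 : n + 1 ≤ a + h := by omega
    have c1 : (a : ℝ) + 1 ≤ n := by exact_mod_cast n1
    have c2 : (n : ℝ) + 1 ≤ a + h := by exact_mod_cast n4
    exact n3 ⟨by linarith, by linarith⟩
  have e : Ms f x H - Wd f h a = ∑ n ∈ S \ Ioc a (a + h), f n - ∑ n ∈ Ioc a (a + h) \ S, f n := by
    unfold Ms Wd
    rw [Finset.sum_sdiff_sub_sum_sdiff]
  rw [e]
  have k1 : |∑ n ∈ S \ Ioc a (a + h), f n| ≤ 1 := by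
    refine le_trans (Finset.abs_sum_le_sum_abs _ _) ?_
    refine le_trans (Finset.sum_le_sum_of_subset_of_nonneg h1 (fun _ _ _ => abs_nonneg _)) ?_
    rw [Finset.sum_singleton]; exact abs_f_le hf _
  have k2 : |∑ n ∈ Ioc a (a + h) \ S, f n| ≤ 1 := by
    refine le_trans (Finset.abs_sum_le_sum_abs _ _) ?_
    refine le_trans (Finset.sum_le_sum_of_subset_of_nonneg h2 (fun _ _ _ => abs_nonneg _)) ?_
    rw [Finset.sum_singleton]; exact abs_f_le hf _
  calc _ ≤ |∑ n ∈ S \ Ioc a (a + h), f n| + |∑ n ∈ Ioc a (a + h) \ S, f n| := abs_sub _ _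
    _ ≤ 2 := by linarith

/-- comparison of the two normalised sums -/
lemma norm_compare {f : ℕ → ℝ} (hf : SgnFun f) {x H : ℝ} (hH : 1 ≤ H) (hx : 0 ≤ x - H / 2) :
    |Ms f x H / sig H - Wd f ⌊H⌋₊ ⌊x - H / 2⌋₊ / sig ⌊H⌋₊| ≤ 5 / Real.sqrt ⌊H⌋₊ := by
  set h := ⌊H⌋₊ with hh
  have b1 : (h : ℝ) ≤ H := Nat.floor_le (by linarith)
  have b2 : H < h + 1 := Nat.lt_floor_add_one _
  have hh1 : 1 ≤ h := Nat.le_floor (by exact_mod_cast hH)
  have hhr : (1:ℝ) ≤ h := by exact_mod_cast hh1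
  set W := Wd f h ⌊x - H / 2⌋₊ with hW
  have hWle : |W| ≤ h := abs_Wd_le hf _ _
  have hMW : |Ms f x H - W| ≤ 2 := Ms_sub_Wd hf (by linarith) hx
  set r : ℝ := Real.sqrt (Real.pi ^ 2 / 6) with hr
  have hr0 : 0 < r := Real.sqrt_pos.2 (by positivity)
  have hr2 : r ≤ 2 := by
    rw [hr]
    apply Real.sqrt_le_iff.2
    have := Real.pi_lt_four
    have := Real.pi_pos
    constructor
    · norm_num
    · nlinarith
  have s1 : ∀ y : ℝ, 0 ≤ y → y / sig y = Real.sqrt y * r := by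
    intro y hy
    unfold sig
    rw [Real.sqrt_div' _ (by positivity), ← hr]
    rcases eq_or_lt_of_le hy with h0 | h0
    · rw [← h0]; simp
    · rw [div_div_eq_mul_div]
      rw [div_eq_iff (Real.sqrt_pos.2 h0).ne']
      nth_rewrite 1 [← Real.mul_self_sqrt hy]
      ring
  have s2 : ∀ y : ℝ, 0 < y → 1 / sig y = r / Real.sqrt y := by
    intro y hy
    unfold sig
    rw [Real.sqrt_div' _ (by positivity), ← hr, one_div_div]
  have hsh : 0 < Real.sqrt h := Real.sqrt_pos.2 (by linarith)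
  have hsH : Real.sqrt h ≤ Real.sqrt H := Real.sqrt_le_sqrt b1
  have t1 : 0 ≤ 1 / sig H := by unfold sig; positivity
  have t2 : 1 / sig H ≤ 2 / Real.sqrt h := by
    rw [s2 H (by linarith)]
    calc r / Real.sqrt H ≤ 2 / Real.sqrt H := by gcongr
      _ ≤ 2 / Real.sqrt h := by gcongr
  have t3 : |1 / sig H - 1 / sig h| ≤ 1 / (h * Real.sqrt h) := by
    rw [s2 H (by linarith), s2 h (by linarith)]
    have e : r / Real.sqrt H - r / Real.sqrt h =
        -(r * (H - h) / (Real.sqrt H * Real.sqrt h * (Real.sqrt H + Real.sqrt h))) := by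
      have hsH0 : 0 < Real.sqrt H := lt_of_lt_of_le hsh hsH
      have q1 := Real.mul_self_sqrt (show (0:ℝ) ≤ H by linarith)
      have q2 := Real.mul_self_sqrt (show (0:ℝ) ≤ (h : ℝ) by linarith)
      have : H - (h : ℝ) = (Real.sqrt H - Real.sqrt h) * (Real.sqrt H + Real.sqrt h) := by
        nlinarith
      rw [this]
      field_simp
      ring
    rw [e, abs_neg, abs_of_nonneg (by
      apply div_nonneg
      · exact mul_nonneg hr0.le (by linarith)
      · positivity)]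
    have q2 := Real.mul_self_sqrt (show (0:ℝ) ≤ (h : ℝ) by linarith)
    have hnum : r * (H - h) ≤ 2 * 1 := by
      apply mul_le_mul hr2 (by linarith) (by linarith) (by norm_num)
    calc r * (H - h) / (Real.sqrt H * Real.sqrt h * (Real.sqrt H + Real.sqrt h))
        ≤ (2 * 1) / (Real.sqrt h * Real.sqrt h * (Real.sqrt h + Real.sqrt h)) := by
          gcongr
      _ = 1 / (h * Real.sqrt h) := by
          rw [q2]; field_simp; ring
  calc |Ms f x H / sig H - W / sig h|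
      = |(Ms f x H - W) * (1 / sig H) + W * (1 / sig H - 1 / sig h)| := by congr 1; ring
    _ ≤ |(Ms f x H - W) * (1 / sig H)| + |W * (1 / sig H - 1 / sig h)| := abs_add_le _ _
    _ = |Ms f x H - W| * (1 / sig H) + |W| * |1 / sig H - 1 / sig h| := by
        rw [abs_mul, abs_mul, abs_of_nonneg t1]
    _ ≤ 2 * (2 / Real.sqrt h) + h * (1 / (h * Real.sqrt h)) := by gcongr
    _ = 5 / Real.sqrt h := by field_simp; ring

/-- integrals of functions of the integer part -/
lemma integral_floor (g : ℕ → ℂ) (m n : ℕ) (hmn : m ≤ n) :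
    ∫ y in (m : ℝ)..n, g ⌊y⌋₊ = ∑ a ∈ Ico m n, g a := by
  have hone : ∀ a : ℕ, ∫ y in (a : ℝ)..((a + 1 : ℕ) : ℝ), g ⌊y⌋₊ = g a := by
    intro a
    rw [intervalIntegral.integral_of_le (by push_cast; linarith),
      MeasureTheory.integral_Ioc_eq_integral_Ioo]
    have : ∫ y in Set.Ioo (a : ℝ) ((a + 1 : ℕ) : ℝ), g ⌊y⌋₊ =
        ∫ y in Set.Ioo (a : ℝ) ((a + 1 : ℕ) : ℝ), g a := by
      apply MeasureTheory.setIntegral_congr_fun measurableSet_Ioo
      intro y hy
      have hfl : ⌊y⌋₊ = a := by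
        rw [Nat.floor_eq_iff (by
          have := hy.1
          have h0 : (0:ℝ) ≤ a := Nat.cast_nonneg a
          linarith)]
        refine ⟨hy.1.le, ?_⟩
        have := hy.2
        push_cast at this
        exact this
      simp only [hfl]
    rw [this, MeasureTheory.setIntegral_const]
    simp
  have hint : ∀ a : ℕ, IntervalIntegrable (fun y : ℝ => g ⌊y⌋₊) volume (a : ℝ)
      ((a + 1 : ℕ) : ℝ) := by
    intro a
    rw [intervalIntegrable_iff_integrableOn_Ioo_of_le (by push_cast; linarith)]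
    have hv1 : (volume (Set.Ioo (a : ℝ) ((a + 1 : ℕ) : ℝ))) ≠ ⊤ := by simp
    have hv2 : ‖g a‖ₑ ≠ ⊤ := by simp
    have : IntegrableOn (fun _ : ℝ => g a) (Set.Ioo (a : ℝ) ((a + 1 : ℕ) : ℝ)) volume :=
      integrableOn_const hv1 hv2
    refine this.congr_fun ?_ measurableSet_Ioo
    intro y hy
    have hfl : ⌊y⌋₊ = a := by
      rw [Nat.floor_eq_iff (by
        have := hy.1
        have h0 : (0:ℝ) ≤ a := Nat.cast_nonneg a
        linarith)]
      refine ⟨hy.1.le, ?_⟩
      have := hy.2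
      push_cast at this
      exact this
    simp only [hfl]
  rw [← intervalIntegral.sum_integral_adjacent_intervals_Ico hmn (fun a _ => hint a)]
  exact Finset.sum_congr rfl (fun a _ => hone a)

lemma measurable_floor_comp (g : ℕ → ℂ) : Measurable (fun y : ℝ => g ⌊y⌋₊) :=
  (measurable_from_nat (f := g)).comp Nat.measurable_floor

lemma intervalIntegrable_of_bdd {G : ℝ → ℂ} (hG : Measurable G) (hb : ∀ y, ‖G y‖ ≤ 1)
    (a b : ℝ) : IntervalIntegrable G volume a b := by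
  rw [intervalIntegrable_iff]
  apply MeasureTheory.Measure.integrableOn_of_bounded (M := 1)
  · simp [Set.uIoc]
  · exact hG.aestronglyMeasurable
  · exact Filter.Eventually.of_forall (fun y => hb y)

/-- comparison of the integral with the sum -/
lemma integral_compare (g : ℕ → ℂ) (hg : ∀ n, ‖g n‖ ≤ 1) {X H : ℝ} (hX : 1 ≤ X) (hH : 0 ≤ H) :
    ‖(∫ x in X..(2 * X), g ⌊x - H / 2⌋₊) - ∑ a ∈ Ioc ⌊X⌋₊ (2 * ⌊X⌋₊), g a‖ ≤ H + 4 := by
  set N := ⌊X⌋₊ with hN
  have n1 : (N : ℝ) ≤ X := Nat.floor_le (by linarith)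
  have n2 : X < N + 1 := Nat.lt_floor_add_one _
  set G : ℝ → ℂ := fun y => g ⌊y⌋₊ with hG
  have hGm : Measurable G := measurable_floor_comp g
  have hGb : ∀ y, ‖G y‖ ≤ 1 := fun y => hg _
  have hGi : ∀ a b, IntervalIntegrable G volume a b := intervalIntegrable_of_bdd hGm hGb
  have e1 : (∫ x in X..(2 * X), g ⌊x - H / 2⌋₊) = ∫ y in (X - H / 2)..(2 * X - H / 2), G y := by
    rw [← intervalIntegral.integral_comp_sub_right (fun y => G y) (H / 2)]
  have e2 : ∑ a ∈ Ioc N (2 * N), g a = ∫ y in ((N + 1 : ℕ) : ℝ)..((2 * N + 1 : ℕ) : ℝ), G y := by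
    rw [hG, integral_floor g (N + 1) (2 * N + 1) (by omega)]
    apply Finset.sum_congr _ (fun _ _ => rfl)
    ext n; simp only [Finset.mem_Ioc, Finset.mem_Ico]; omega
  rw [e1, e2]
  have e3 : (∫ y in (X - H / 2)..(2 * X - H / 2), G y) -
      ∫ y in ((N + 1 : ℕ) : ℝ)..((2 * N + 1 : ℕ) : ℝ), G y =
      (∫ y in (X - H / 2)..((N + 1 : ℕ) : ℝ), G y) -
        ∫ y in (2 * X - H / 2)..((2 * N + 1 : ℕ) : ℝ), G y :=
    intervalIntegral.integral_interval_sub_interval_comm (hGi _ _) (hGi _ _) (hGi _ _)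
  rw [e3]
  have b1 : ‖∫ y in (X - H / 2)..((N + 1 : ℕ) : ℝ), G y‖ ≤ H / 2 + 1 := by
    refine le_trans (intervalIntegral.norm_integral_le_of_norm_le_const (C := 1)
      (fun y _ => hGb y)) ?_
    rw [one_mul]
    push_cast
    rw [abs_le]; constructor <;> linarith
  have b2 : ‖∫ y in (2 * X - H / 2)..((2 * N + 1 : ℕ) : ℝ), G y‖ ≤ H / 2 + 3 := by
    refine le_trans (intervalIntegral.norm_integral_le_of_norm_le_const (C := 1)
      (fun y _ => hGb y)) ?_
    rw [one_mul]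
    push_cast
    rw [abs_le]; constructor <;> linarith
  calc _ ≤ ‖∫ y in (X - H / 2)..((N + 1 : ℕ) : ℝ), G y‖ +
        ‖∫ y in (2 * X - H / 2)..((2 * N + 1 : ℕ) : ℝ), G y‖ := norm_sub_le _ _
    _ ≤ _ := by linarith

lemma norm_exp_I_sub_le (u v : ℝ) :
    ‖Complex.exp (Complex.I * u) - Complex.exp (Complex.I * v)‖ ≤ |u - v| := by
  have e : Complex.exp (Complex.I * u) - Complex.exp (Complex.I * v) =
      Complex.exp (Complex.I * v) * (Complex.exp (Complex.I * ((u - v : ℝ) : ℂ)) - 1) := by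
    rw [mul_sub, ← Complex.exp_add, mul_one]
    congr 2; push_cast; ring
  rw [e, norm_mul]
  have h1 : ‖Complex.exp (Complex.I * v)‖ = 1 := by
    rw [mul_comm]; exact Complex.norm_exp_ofReal_mul_I v
  rw [h1, one_mul]
  have := norm_exp_sub_Tp 1 (u - v)
  simpa [Tp] using this

/-- measurable version of the normalised sum on `[X, 2X]` -/
noncomputable def Zm (f : ℕ → ℝ) (X H : ℝ) (x : ℝ) : ℝ :=
  (∑ n ∈ Finset.range (⌊2 * X + H⌋₊ + 1), if |(n : ℝ) - x| < H / 2 then f n else 0) / sig H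

lemma Zm_eq {f : ℕ → ℝ} {X H x : ℝ} (hH : 0 ≤ H) (hx : x ≤ 2 * X) :
    Zm f X H x = Ms f x H / sig H := by
  unfold Zm Ms
  congr 1
  rw [← Finset.sum_filter]
  apply Finset.sum_congr _ (fun _ _ => rfl)
  ext n
  rw [Finset.mem_filter, Finset.mem_filter, Finset.mem_range, Finset.mem_range]
  constructor
  · rintro ⟨_, h⟩
    refine ⟨?_, h⟩
    rw [abs_lt] at h
    have : (n : ℝ) ≤ x + H := by linarith
    have := Nat.le_floor this
    omega
  · rintro ⟨_, h⟩
    refine ⟨?_, h⟩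
    rw [abs_lt] at h
    have : (n : ℝ) ≤ 2 * X + H := by linarith
    have := Nat.le_floor this
    omega

lemma measurable_Zm (f : ℕ → ℝ) (X H : ℝ) : Measurable (Zm f X H) := by
  unfold Zm
  apply Measurable.div_const
  apply Finset.measurable_fun_sum
  intro n _
  apply Measurable.ite _ measurable_const measurable_const
  apply measurableSet_lt
  · fun_prop
  · fun_prop

/-- the uniform measure on `[X, 2X]` -/
noncomputable def unif (X : ℝ) : Measure ℝ :=
  (ENNReal.ofReal X)⁻¹ • (volume.restrict (Set.Icc X (2 * X)))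

lemma unif_prob {X : ℝ} (hX : 0 < X) : IsProbabilityMeasure (unif X) := by
  constructor
  unfold unif
  rw [Measure.smul_apply, Measure.restrict_apply_univ, Real.volume_Icc, smul_eq_mul]
  rw [show 2 * X - X = X by ring]
  exact ENNReal.inv_mul_cancel (by simpa using hX) ENNReal.ofReal_ne_top

/-- characteristic function of the law, pointwise bound -/
lemma charFun_bound {f : ℕ → ℝ} (hf : SgnFun f) {X H : ℝ} (hX : 1 ≤ X) (hH : 1 ≤ H)
    (hHX : H ≤ X) (θ : ℝ) :
    ‖charFun ((unif X).map (Zm f X H)) θ - Phi f (θ / sig ⌊H⌋₊) ⌊X⌋₊ ⌊H⌋₊‖ ≤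
      |θ| * (5 / Real.sqrt ⌊H⌋₊) + (H + 4) / X + 1 / X := by
  have hX0 : 0 < X := by linarith
  set N := ⌊X⌋₊ with hN
  set h := ⌊H⌋₊ with hh
  have n1 : (N : ℝ) ≤ X := Nat.floor_le (by linarith)
  have n2 : X < N + 1 := Nat.lt_floor_add_one _
  have hN1 : 1 ≤ N := Nat.le_floor (by exact_mod_cast hX)
  have hNr : (0:ℝ) < N := by exact_mod_cast hN1
  set g : ℕ → ℂ := fun a => Complex.exp (Complex.I * ((θ / sig h * Wd f h a : ℝ) : ℂ)) with hg
  have hgn : ∀ a, ‖g a‖ ≤ 1 := by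
    intro a
    simp only [hg]
    rw [mul_comm]
    exact (Complex.norm_exp_ofReal_mul_I _).le
  have e1 : charFun ((unif X).map (Zm f X H)) θ =
      (∫ x in X..(2 * X), Complex.exp (Complex.I * ((θ * Zm f X H x : ℝ) : ℂ))) / X := by
    rw [charFun_apply_real, integral_map (measurable_Zm f X H).aemeasurable
      (by fun_prop)]
    unfold unif
    rw [integral_smul_measure, intervalIntegral.integral_of_le (by linarith),
      ← integral_Icc_eq_integral_Ioc]
    rw [ENNReal.toReal_inv, ENNReal.toReal_ofReal hX0.le]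
    rw [Complex.real_smul, div_eq_inv_mul]
    push_cast
    congr 1
    apply integral_congr_ae
    filter_upwards with x
    congr 1; ring
  have hFm : Measurable (fun x : ℝ => Complex.exp (Complex.I * ((θ * Zm f X H x : ℝ) : ℂ))) := by
    have := measurable_Zm f X H
    fun_prop
  have hFb : ∀ x : ℝ, ‖Complex.exp (Complex.I * ((θ * Zm f X H x : ℝ) : ℂ))‖ ≤ 1 := by
    intro x; rw [mul_comm]; exact (Complex.norm_exp_ofReal_mul_I _).le
  have hgm : Measurable (fun x : ℝ => g ⌊x - H / 2⌋₊) :=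
    (measurable_floor_comp g).comp (by fun_prop)
  have e2 : ‖(∫ x in X..(2 * X), Complex.exp (Complex.I * ((θ * Zm f X H x : ℝ) : ℂ))) -
      ∫ x in X..(2 * X), g ⌊x - H / 2⌋₊‖ ≤ |θ| * (5 / Real.sqrt h) * X := by
    rw [← intervalIntegral.integral_sub (intervalIntegrable_of_bdd hFm hFb _ _)
      (intervalIntegrable_of_bdd hgm (fun x => hgn _) _ _)]
    refine le_trans (intervalIntegral.norm_integral_le_of_norm_le_const
      (C := |θ| * (5 / Real.sqrt h)) ?_) ?_
    · intro x hx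
      rw [Set.uIoc_of_le (by linarith)] at hx
      rw [Zm_eq (by linarith) hx.2]
      simp only [hg]
      refine le_trans (norm_exp_I_sub_le _ _) ?_
      have e : θ * (Ms f x H / sig H) - θ / sig h * Wd f h ⌊x - H / 2⌋₊ =
          θ * (Ms f x H / sig H - Wd f h ⌊x - H / 2⌋₊ / sig h) := by ring
      rw [e, abs_mul]
      apply mul_le_mul_of_nonneg_left _ (abs_nonneg _)
      exact norm_compare hf hH (by linarith [hx.1])
    · rw [show 2 * X - X = X by ring, abs_of_pos hX0]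
  have e3 := integral_compare g hgn hX (show 0 ≤ H by linarith)
  have e4 : ‖(∑ a ∈ Ioc N (2 * N), g a) / X - (∑ a ∈ Ioc N (2 * N), g a) / N‖ ≤ 1 / X := by
    have hs : ‖∑ a ∈ Ioc N (2 * N), g a‖ ≤ N := by
      refine le_trans (norm_sum_le _ _) ?_
      refine le_trans (Finset.sum_le_sum (fun a _ => hgn a)) ?_
      rw [Finset.sum_const, nsmul_eq_mul, mul_one, Nat.card_Ioc]
      exact_mod_cast (by omega : 2 * N - N ≤ N)
    have : (∑ a ∈ Ioc N (2 * N), g a) / X - (∑ a ∈ Ioc N (2 * N), g a) / N =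
        (∑ a ∈ Ioc N (2 * N), g a) * (((1 / X - 1 / N : ℝ)) : ℂ) := by
      push_cast; ring
    rw [this, norm_mul, Complex.norm_real, Real.norm_eq_abs]
    have h2 : |1 / X - 1 / (N : ℝ)| ≤ 1 / (X * N) := by
      rw [div_sub_div _ _ hX0.ne' hNr.ne', abs_div, abs_of_pos (by positivity : 0 < X * (N : ℝ))]
      apply div_le_div_of_nonneg_right _ (by positivity)
      rw [one_mul, mul_one, abs_le]; constructor <;> linarith
    calc ‖∑ a ∈ Ioc N (2 * N), g a‖ * |1 / X - 1 / (N : ℝ)| ≤ N * (1 / (X * N)) := by gcongr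
      _ = 1 / X := by field_simp
  have hPhi : Phi f (θ / sig h) N h = (∑ a ∈ Ioc N (2 * N), g a) / N := rfl
  rw [e1, hPhi]
  set I1 := ∫ x in X..(2 * X), Complex.exp (Complex.I * ((θ * Zm f X H x : ℝ) : ℂ)) with hI1
  set I2 := ∫ x in X..(2 * X), g ⌊x - H / 2⌋₊ with hI2
  set S := ∑ a ∈ Ioc N (2 * N), g a with hS
  have hnX : ‖(X : ℂ)‖ = X := by rw [Complex.norm_real, Real.norm_eq_abs, abs_of_pos hX0]
  have f1 : ‖I1 / X - I2 / X‖ ≤ |θ| * (5 / Real.sqrt h) := by
    rw [← sub_div, norm_div, hnX, div_le_iff₀ hX0]; exact e2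
  have f2 : ‖I2 / X - S / X‖ ≤ (H + 4) / X := by
    rw [← sub_div, norm_div, hnX]
    exact div_le_div_of_nonneg_right e3 hX0.le
  calc ‖I1 / X - S / N‖ = ‖(I1 / X - I2 / X) + (I2 / X - S / X) + (S / X - S / N)‖ := by
        congr 1; ring
    _ ≤ ‖I1 / X - I2 / X‖ + ‖I2 / X - S / X‖ + ‖S / X - S / N‖ := norm_add₃_le
    _ ≤ _ := by linarith

/-- The deterministic theorem. -/
theorem gauss_of_momProp {f : ℕ → ℝ} (hf : SgnFun f) (hm : MomProp f) (ε : ℝ) (hε : 0 < ε)
    (H : ℝ → ℝ) (hH1 : Tendsto H atTop atTop)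
    (hH2 : ∀ᶠ X in atTop, H X ≤ X ^ (1 - ε)) (t : ℝ) :
    Tendsto (fun X : ℝ => (volume {x : ℝ | x ∈ Set.Icc X (2 * X) ∧
        Ms f x (H X) / Real.sqrt (H X / (Real.pi ^ 2 / 6)) ≤ t}).toReal / X) atTop
      (nhds (ProbabilityTheory.cdf (ProbabilityTheory.gaussianReal 0 1) t)) := by
  -- choose q with 1/q < ε
  obtain ⟨q, hq⟩ := exists_nat_gt (2 / ε)
  have hq0 : 0 < q := by
    have : (0:ℝ) < q := lt_trans (by positivity) hq
    exact_mod_cast this
  have hqε : (1 / q : ℝ) ≤ ε / 2 := by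
    rw [div_lt_iff₀ hε] at hq
    rw [div_le_iff₀ (by exact_mod_cast hq0)]
    linarith
  -- the characteristic functions converge
  have hchar : ∀ θ : ℝ, Tendsto (fun X : ℝ => charFun ((unif X).map (Zm f X (H X))) θ) atTop
      (nhds ((Real.exp (-(θ ^ 2 / 2)) : ℝ) : ℂ)) := by
    intro θ
    rw [Metric.tendsto_nhds]
    intro δ hδ
    obtain ⟨h₀, hh₀⟩ := disc_charFun hm q hq0 θ (δ / 2) (by positivity)
    have c1 : ∀ᶠ X : ℝ in atTop, ∀ h : ℕ, h₀ ≤ h → (h : ℝ) ≤ ((⌊X⌋₊ : ℕ) : ℝ) ^ (1 - 1 / q : ℝ) →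
      ‖Phi f (θ / sig h) ⌊X⌋₊ h - ((Real.exp (-(θ ^ 2 / 2)) : ℝ) : ℂ)‖ ≤ δ / 2 :=
      tendsto_nat_floor_atTop.eventually hh₀
    have c2 : ∀ᶠ X : ℝ in atTop, h₀ ≤ ⌊H X⌋₊ :=
      (tendsto_nat_floor_atTop.comp hH1).eventually_ge_atTop h₀
    have c3 : ∀ᶠ X : ℝ in atTop, |θ| * (5 / Real.sqrt ⌊H X⌋₊) < δ / 6 := by
      have : Tendsto (fun X : ℝ => |θ| * (5 / Real.sqrt ⌊H X⌋₊)) atTop (nhds (|θ| * 0)) := by
        apply Tendsto.const_mul
        apply tendsto_const_nhds.div_atTop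
        exact Real.tendsto_sqrt_atTop.comp (tendsto_natCast_atTop_atTop.comp
          (tendsto_nat_floor_atTop.comp hH1))
      rw [mul_zero] at this
      exact this.eventually (gt_mem_nhds (by positivity))
    have c4 : ∀ᶠ X : ℝ in atTop, X ^ (-ε) < δ / 12 := by
      have := tendsto_rpow_neg_atTop hε
      exact this.eventually (gt_mem_nhds (by positivity))
    have c5 : ∀ᶠ X : ℝ in atTop, 5 / X < δ / 12 := by
      have : Tendsto (fun X : ℝ => 5 / X) atTop (nhds 0) :=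
        tendsto_const_nhds.div_atTop tendsto_id
      exact this.eventually (gt_mem_nhds (by positivity))
    have c6 : ∀ᶠ X : ℝ in atTop, X ^ (1 - ε) ≤ ((⌊X⌋₊ : ℕ) : ℝ) ^ (1 - 1 / q : ℝ) := by
      -- X^(1-ε) ≤ (X/2)^(1-1/q)
      have d1 : ∀ᶠ X : ℝ in atTop, (2:ℝ) ≤ X ^ (ε / 2) :=
        (tendsto_rpow_atTop (by positivity)).eventually_ge_atTop 2
      filter_upwards [d1, eventually_ge_atTop 2] with X hX1 hX2
      have hX0 : (0:ℝ) < X := by linarith
      have n2 : X < (⌊X⌋₊ : ℝ) + 1 := Nat.lt_floor_add_one _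
      have hfl : X / 2 ≤ (⌊X⌋₊ : ℝ) := by linarith
      have hexp : 0 ≤ (1 - 1 / q : ℝ) := by
        have : (1 / q : ℝ) ≤ 1 := by
          rw [div_le_one (by exact_mod_cast hq0)]; exact_mod_cast hq0
        linarith
      have hq1 : 0 ≤ (1 / q : ℝ) := by positivity
      calc X ^ (1 - ε) ≤ X ^ ((1 - 1 / q : ℝ) - ε / 2) := by
            apply Real.rpow_le_rpow_of_exponent_le (by linarith)
            linarith
        _ = X ^ (1 - 1 / q : ℝ) / X ^ (ε / 2) := by rw [Real.rpow_sub hX0]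
        _ ≤ X ^ (1 - 1 / q : ℝ) / 2 := by
            apply div_le_div_of_nonneg_left (by positivity) (by norm_num) hX1
        _ ≤ X ^ (1 - 1 / q : ℝ) / 2 ^ (1 - 1 / q : ℝ) := by
            apply div_le_div_of_nonneg_left (by positivity) (by positivity)
            calc (2:ℝ) ^ (1 - 1 / q : ℝ) ≤ 2 ^ (1:ℝ) := by
                  apply Real.rpow_le_rpow_of_exponent_le (by norm_num); linarith
              _ = 2 := Real.rpow_one 2
        _ = (X / 2) ^ (1 - 1 / q : ℝ) := by rw [Real.div_rpow hX0.le (by norm_num)]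
        _ ≤ _ := Real.rpow_le_rpow (by positivity) hfl hexp
    filter_upwards [c1, c2, c3, c4, c5, c6, hH2, hH1.eventually_ge_atTop 1,
      eventually_ge_atTop 1] with X g1 g2 g3 g4 g5 g6 g7 g8 g9
    have hX0 : (0:ℝ) < X := by linarith
    have hfl : ((⌊H X⌋₊ : ℕ) : ℝ) ≤ H X := Nat.floor_le (by linarith)
    have k1 := g1 ⌊H X⌋₊ g2 (by linarith)
    have hHX : H X ≤ X * X ^ (-ε) := by
      refine le_trans g7 (le_of_eq ?_)
      rw [sub_eq_add_neg, Real.rpow_add hX0, Real.rpow_one]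
    have hHX' : H X ≤ X := by
      refine le_trans g7 ?_
      calc X ^ (1 - ε) ≤ X ^ (1:ℝ) := Real.rpow_le_rpow_of_exponent_le g9 (by linarith)
        _ = X := Real.rpow_one X
    have k2 := charFun_bound hf g9 g8 hHX' θ
    have k3 : (H X + 4) / X + 1 / X ≤ X ^ (-ε) + 5 / X := by
      have : H X / X ≤ X ^ (-ε) := by
        rw [div_le_iff₀ hX0]; linarith
      have e : (H X + 4) / X + 1 / X = H X / X + 5 / X := by ring
      rw [e]; linarith
    rw [dist_eq_norm]
    calc ‖charFun ((unif X).map (Zm f X (H X))) θ - ((Real.exp (-(θ ^ 2 / 2)) : ℝ) : ℂ)‖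
        = ‖(charFun ((unif X).map (Zm f X (H X))) θ - Phi f (θ / sig ⌊H X⌋₊) ⌊X⌋₊ ⌊H X⌋₊) +
          (Phi f (θ / sig ⌊H X⌋₊) ⌊X⌋₊ ⌊H X⌋₊ - ((Real.exp (-(θ ^ 2 / 2)) : ℝ) : ℂ))‖ := by
          congr 1; ring
      _ ≤ _ := norm_add_le _ _
      _ < δ := by linarith
  -- pass to sequences
  apply tendsto_of_seq_tendsto
  intro u hu
  set v : ℕ → ℝ := fun n => max (u n) 1 with hv
  have hv1 : ∀ n, 1 ≤ v n := fun n => le_max_right _ _
  have hvt : Tendsto v atTop atTop := tendsto_atTop_mono (fun n => le_max_left _ _) hu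
  have huv : ∀ᶠ n in atTop, v n = u n := by
    filter_upwards [hu.eventually_ge_atTop 1] with n hn
    exact max_eq_left hn
  have hprob : ∀ n, IsProbabilityMeasure ((unif (v n)).map (Zm f (v n) (H (v n)))) := by
    intro n
    have := unif_prob (show 0 < v n by have := hv1 n; linarith)
    exact Measure.isProbabilityMeasure_map (measurable_Zm _ _ _).aemeasurable
  set μs : ℕ → ProbabilityMeasure ℝ := fun n => ⟨(unif (v n)).map (Zm f (v n) (H (v n))), hprob n⟩
    with hμs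
  set μ0 : ProbabilityMeasure ℝ := ⟨ProbabilityTheory.gaussianReal 0 1, inferInstance⟩ with hμ0
  have hconv : Tendsto μs atTop (nhds μ0) := by
    rw [ProbabilityMeasure.tendsto_iff_tendsto_charFun]
    intro θ
    have h1 : charFun (μ0 : Measure ℝ) θ = ((Real.exp (-(θ ^ 2 / 2)) : ℝ) : ℂ) := by
      rw [hμ0]
      simp only [ProbabilityMeasure.coe_mk]
      rw [ProbabilityTheory.charFun_gaussianReal]
      push_cast
      congr 1; simp
    rw [h1]
    exact (hchar θ).comp hvt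
  have hfront : (μ0 : Measure ℝ) (frontier (Set.Iic t)) = 0 := by
    rw [frontier_Iic]
    have := ProbabilityTheory.nullSingletonClass_gaussianReal (μ := 0) (v := 1) (by norm_num)
    show (ProbabilityTheory.gaussianReal 0 1) {t} = 0
    exact measure_singleton t
  have hlim := ProbabilityMeasure.tendsto_measure_of_null_frontier_of_tendsto' hconv hfront
  have hlim2 : Tendsto (fun n => ((μs n : Measure ℝ) (Set.Iic t)).toReal) atTop
      (nhds ((μ0 : Measure ℝ) (Set.Iic t)).toReal) :=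
    (ENNReal.tendsto_toReal (measure_ne_top _ _)).comp hlim
  have h0 : ((μ0 : Measure ℝ) (Set.Iic t)).toReal =
      ProbabilityTheory.cdf (ProbabilityTheory.gaussianReal 0 1) t := by
    rw [ProbabilityTheory.cdf_eq_real]; rfl
  rw [h0] at hlim2
  refine hlim2.congr' ?_
  have hHpos : ∀ᶠ n in atTop, 0 ≤ H (u n) := (hH1.comp hu).eventually_ge_atTop 0
  filter_upwards [huv, hHpos] with n hn hHn
  have hun : 1 ≤ u n := hn ▸ hv1 n
  have hun0 : 0 < u n := by linarith
  simp only [hμs, ProbabilityMeasure.coe_mk, Function.comp, hn]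
  rw [Measure.map_apply (measurable_Zm _ _ _) measurableSet_Iic]
  unfold unif
  rw [Measure.smul_apply, Measure.restrict_apply (measurable_Zm _ _ _ measurableSet_Iic),
    smul_eq_mul, ENNReal.toReal_mul, ENNReal.toReal_inv, ENNReal.toReal_ofReal hun0.le]
  rw [div_eq_inv_mul]
  congr 2
  congr 1
  ext x
  simp only [Set.mem_inter_iff, Set.mem_preimage, Set.mem_Iic, Set.mem_setOf_eq]
  constructor
  · rintro ⟨h1, h2⟩
    refine ⟨h2, ?_⟩
    rw [Zm_eq hHn h2.2] at h1
    exact h1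
  · rintro ⟨h1, h2⟩
    refine ⟨?_, h1⟩
    rw [Zm_eq hHn h1.2]
    exact h2

end Pool.Agent.P4f18df
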