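import Pool.Agent.Lib.P4f18df.Cube

/-!
# Tuples of squarefree integers and products of characters
-/

set_option autoImplicit false

namespace Pool.Agent.P4f18df

open Finset

/-- A product of characters is a character, with explicit support. -/
lemma prod_chi_eq {ι α : Type*} [DecidableEq ι] [DecidableEq α] (L : Finset α)
    (S : α → Finset ι) (P : Finset ι) (hS : ∀ l ∈ L, S l ⊆ P) :
    ∃ S' ⊆ P, (∀ U, ∏ l ∈ L, chi (S l) U = chi S' U) ∧
      ∀ p, p ∈ S' ↔ Odd (L.filter (fun l => p ∈ S l)).card := by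
  induction L using Finset.induction_on with
  | empty => exact ⟨∅, by simp, fun U => by simp [chi_empty], fun p => by simp⟩
  | insert l L hl ih =>
    obtain ⟨S', h1, h2, h3⟩ := ih (fun m hm => hS m (Finset.mem_insert_of_mem hm))
    refine ⟨symmDiff (S l) S', ?_, ?_, ?_⟩
    · intro q hq
      rcases Finset.mem_symmDiff.1 hq with h | h
      · exact hS l (Finset.mem_insert_self l L) h.1
      · exact h1 h.1
    · intro U
      rw [Finset.prod_insert hl, h2, chi_mul]
    · intro p
      rw [Finset.mem_symmDiff, h3 p, Finset.filter_insert]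
      by_cases hp : p ∈ S l
      · rw [if_pos hp, Finset.card_insert_of_notMem (by simp [hl])]
        rw [Nat.odd_add_one]
        tauto
      · rw [if_neg hp]
        tauto

lemma av_prod_chi_nonneg {ι α : Type*} [DecidableEq ι] [DecidableEq α] (L : Finset α)
    (S : α → Finset ι) (P : Finset ι) (hS : ∀ l ∈ L, S l ⊆ P) :
    0 ≤ av P (fun U => ∏ l ∈ L, chi (S l) U) := by
  obtain ⟨S', h1, h2, _⟩ := prod_chi_eq L S P hS
  rw [av_congr (fun U _ => h2 U)]
  exact av_chi_nonneg h1

lemma even_of_av_prod_chi_ne {ι α : Type*} [DecidableEq ι] [DecidableEq α] (L : Finset α)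
    (S : α → Finset ι) (P : Finset ι) (hS : ∀ l ∈ L, S l ⊆ P)
    (hne : av P (fun U => ∏ l ∈ L, chi (S l) U) ≠ 0) (p : ι) :
    Even (L.filter (fun l => p ∈ S l)).card := by
  obtain ⟨S', h1, h2, h3⟩ := prod_chi_eq L S P hS
  rw [av_congr (fun U _ => h2 U)] at hne
  by_contra hodd
  rw [Nat.not_even_iff_odd, ← h3 p] at hodd
  exact hne (av_chi h1 ⟨p, hodd⟩)

/-- Second moment of a sum of distinct characters. -/
lemma av_sum_sq {ι κ : Type*} [DecidableEq ι] [DecidableEq κ] (A : Finset κ)
    (S : κ → Finset ι) (P : Finset ι) (hS : ∀ n ∈ A, S n ⊆ P)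
    (hinj : ∀ n ∈ A, ∀ m ∈ A, S n = S m → n = m) :
    av P (fun U => (∑ n ∈ A, chi (S n) U) ^ 2) = A.card := by
  have h1 : ∀ U, (∑ n ∈ A, chi (S n) U) ^ 2 =
      ∑ n ∈ A, ∑ m ∈ A, chi (symmDiff (S n) (S m)) U := by
    intro U
    rw [sq, Finset.sum_mul_sum]
    apply Finset.sum_congr rfl; intro n _
    apply Finset.sum_congr rfl; intro m _
    rw [← chi_mul]
  rw [av_congr (fun U _ => h1 U), av_sum]
  have h2 : ∀ n ∈ A, av P (fun U => ∑ m ∈ A, chi (symmDiff (S n) (S m)) U) = 1 := by
    intro n hn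
    rw [av_sum, Finset.sum_eq_single n]
    · rw [symmDiff_self]
      have : av P (chi (⊥ : Finset ι)) = av P (fun _ => 1) := av_congr (fun U _ => chi_empty U)
      rw [this, av_const]
    · intro m hm hne
      apply av_chi
      · intro q hq
        rcases Finset.mem_symmDiff.1 hq with h | h
        · exact hS n hn h.1
        · exact hS m hm h.1
      · rw [Finset.nonempty_iff_ne_empty]
        intro h
        exact hne (hinj n hn m hm (symmDiff_eq_bot.1 h)).symm
    · intro h; exact absurd hn h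
  rw [Finset.sum_congr rfl h2]; simp

/-- Second moment of a sum of products of two characters, over a set of pairs. -/
lemma av_pair_sq {ι κ : Type*} [DecidableEq ι] [DecidableEq κ] (B : Finset (κ × κ))
    (S : κ → Finset ι) (P : Finset ι) (hS : ∀ x ∈ B, S x.1 ⊆ P ∧ S x.2 ⊆ P) :
    av P (fun U => (∑ x ∈ B, chi (S x.1) U * chi (S x.2) U) ^ 2) ≤
      ∑ x ∈ B, ((B.filter (fun y => symmDiff (S x.1) (S x.2) =
        symmDiff (S y.1) (S y.2))).card : ℝ) := by
  have h1 : ∀ U, (∑ x ∈ B, chi (S x.1) U * chi (S x.2) U) ^ 2 =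
      ∑ x ∈ B, ∑ y ∈ B, chi (symmDiff (symmDiff (S x.1) (S x.2))
        (symmDiff (S y.1) (S y.2))) U := by
    intro U
    rw [sq, Finset.sum_mul_sum]
    apply Finset.sum_congr rfl; intro x _
    apply Finset.sum_congr rfl; intro y _
    rw [← chi_mul, ← chi_mul, ← chi_mul]
  rw [av_congr (fun U _ => h1 U), av_sum]
  apply Finset.sum_le_sum
  intro x hx
  rw [av_sum, Finset.card_filter]
  push_cast
  apply Finset.sum_le_sum
  intro y hy
  have hsub : symmDiff (symmDiff (S x.1) (S x.2)) (symmDiff (S y.1) (S y.2)) ⊆ P := by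
    have aux : ∀ {A B : Finset ι}, A ⊆ P → B ⊆ P → symmDiff A B ⊆ P := by
      intro A B hA hB q hq
      rcases Finset.mem_symmDiff.1 hq with h | h
      · exact hA h.1
      · exact hB h.1
    exact aux (aux (hS x hx).1 (hS x hx).2) (aux (hS y hy).1 (hS y hy).2)
  by_cases he : symmDiff (S x.1) (S x.2) = symmDiff (S y.1) (S y.2)
  · rw [if_pos he, he, symmDiff_self]
    have : av P (chi (⊥ : Finset ι)) = av P (fun _ => 1) := av_congr (fun U _ => chi_empty U)
    rw [this, av_const]
  · rw [if_neg he]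
    apply le_of_eq
    apply av_chi hsub
    rw [Finset.nonempty_iff_ne_empty]
    intro h
    exact he (symmDiff_eq_bot.1 h)

/-! ### tuples with all multiplicities even -/

/-- number of `k`-tuples of elements of `A` in which every value occurs an even number of times -/
def triv {κ : Type*} [DecidableEq κ] (k : ℕ) (A : Finset κ) : ℕ :=
  ((Fintype.piFinset (fun _ : Fin k => A)).filter
    (fun t => ∀ v ∈ A, Even (univ.filter (fun i => t i = v)).card)).card

/-- the tuples in which some value occurs an odd number of times -/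
def ntr {κ : Type*} [DecidableEq κ] (k : ℕ) (A : Finset κ) : Finset (Fin k → κ) :=
  (Fintype.piFinset (fun _ : Fin k => A)).filter
    (fun t => ¬ ∀ v ∈ A, Even (univ.filter (fun i => t i = v)).card)

lemma prod_eq_one_of_even {κ : Type*} [DecidableEq κ] {k : ℕ} {A : Finset κ} (f : κ → ℝ)
    (hf : ∀ n ∈ A, f n * f n = 1) (t : Fin k → κ) (ht : ∀ i, t i ∈ A)
    (hev : ∀ v ∈ A, Even (univ.filter (fun i => t i = v)).card) : ∏ i, f (t i) = 1 := by
  rw [Finset.prod_comp f t]
  apply Finset.prod_eq_one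
  intro v hv
  obtain ⟨i, _, rfl⟩ := Finset.mem_image.1 hv
  obtain ⟨m, hm⟩ := hev (t i) (ht i)
  have : ({a | t a = t i} : Finset (Fin k)).card = m + m := hm
  rw [this, pow_add, ← mul_pow, hf _ (ht i), one_pow]

lemma pow_eq_triv_add {κ : Type*} [DecidableEq κ] (k : ℕ) (A : Finset κ) (f : κ → ℝ)
    (hf : ∀ n ∈ A, f n * f n = 1) :
    (∑ n ∈ A, f n) ^ k = triv k A + ∑ t ∈ ntr k A, ∏ i, f (t i) := by
  have h1 : (∑ n ∈ A, f n) ^ k = ∑ t ∈ Fintype.piFinset (fun _ : Fin k => A), ∏ i, f (t i) := by
    rw [← Finset.prod_univ_sum]; simp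
  rw [h1, ntr, triv, ← Finset.sum_filter_add_sum_filter_not (Fintype.piFinset (fun _ : Fin k => A))
    (fun t => ∀ v ∈ A, Even (univ.filter (fun i => t i = v)).card)]
  congr 1
  rw [Finset.card_eq_sum_ones]
  push_cast
  apply Finset.sum_congr rfl
  intro t ht
  rw [Finset.mem_filter, Fintype.mem_piFinset] at ht
  exact prod_eq_one_of_even f hf t ht.1 ht.2

/-- the moments of a sum of independent signs count the even tuples -/
lemma av_pow_sum_sg {κ : Type*} [DecidableEq κ] (k : ℕ) (A : Finset κ) :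
    av A (fun U => (∑ v ∈ A, sg U v) ^ k) = triv k A := by
  have h1 : ∀ U, (∑ v ∈ A, sg U v) ^ k = (triv k A : ℝ) + ∑ t ∈ ntr k A, ∏ i, sg U (t i) :=
    fun U => pow_eq_triv_add k A (sg U) (fun n _ => sg_sq U n)
  rw [av_congr (fun U _ => h1 U), av_add, av_const, av_sum]
  have h2 : ∑ t ∈ ntr k A, av A (fun U => ∏ i, sg U (t i)) = 0 := by
    apply Finset.sum_eq_zero
    intro t ht
    rw [ntr, Finset.mem_filter, Fintype.mem_piFinset] at ht
    by_contra hne
    have e : ∀ U, ∏ i, sg U (t i) = ∏ i ∈ (univ : Finset (Fin k)), chi {t i} U := by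
      intro U
      apply Finset.prod_congr rfl; intro i _
      simp [chi]
    rw [av_congr (fun U _ => e U)] at hne
    apply ht.2
    intro v _
    have := even_of_av_prod_chi_ne univ (fun i : Fin k => ({t i} : Finset κ)) A
      (fun l _ => by simpa using ht.1 l) hne v
    simp only [Finset.mem_singleton] at this
    rw [show (univ.filter (fun i => t i = v)) = univ.filter (fun i => v = t i) from by
      ext i; simp [eq_comm]]
    exact this
  rw [h2, add_zero]

lemma LD_sum_sg {κ : Type*} [DecidableEq κ] (A : Finset κ) :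
    LD A 1 (fun U => ∑ v ∈ A, sg U v) := by
  apply LD.sum
  intro v hv
  have h := LD.chi (P := A) (S := {v}) (by simpa using hv)
  rw [Finset.card_singleton] at h
  exact h.congr (fun U _ => by simp [chi])

lemma triv_le {κ : Type*} [DecidableEq κ] (j : ℕ) (hj : 1 ≤ j) (A : Finset κ) :
    (triv (2 * j) A : ℝ) ≤ (4 * j * A.card) ^ j := by
  rw [← av_pow_sum_sg]
  refine le_trans ((LD_sum_sg A).hyper j hj) ?_
  rw [pow_one]
  have h : av A (fun U => (∑ v ∈ A, sg U v) ^ 2) = A.card := by
    have := av_sum_sq A (fun v => ({v} : Finset κ)) A (fun n hn => by simpa using hn)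
      (fun n _ m _ h => by simpa using h)
    rw [← this]
    apply av_congr; intro U _
    simp [chi]
  rw [h]

/-! ### the gcd lemma -/

lemma gcd_prod_dvd {α : Type*} [DecidableEq α] (L : Finset α) (T : α → ℕ) (v : ℕ) :
    Nat.gcd v (∏ l ∈ L, T l) ∣ ∏ l ∈ L, Nat.gcd v (T l) := by
  induction L using Finset.induction_on with
  | empty => simp
  | insert l L hl ih =>
    rw [Finset.prod_insert hl, Finset.prod_insert hl]
    exact dvd_trans (Nat.gcd_mul_right_dvd_mul_gcd v _ _) (Nat.mul_dvd_mul_left _ ih)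

lemma exists_gcd {α : Type*} [Fintype α] [DecidableEq α] (T : α → ℕ) (N m : ℕ)
    (hN1 : 1 ≤ N) (hcard : Fintype.card α ≤ m) (hm : 1 ≤ m)
    (hsq : ∀ l, Squarefree (T l)) (hN : ∀ l, N < T l)
    (hpar : ∀ p, p.Prime → Even (univ.filter (fun l => p ∣ T l)).card) (l0 : α)
    (hodd : Odd (univ.filter (fun l => T l = T l0)).card) :
    ∃ l, T l ≠ T l0 ∧ N < (Nat.gcd (T l0) (T l)) ^ m := by
  classical
  set L' : Finset α := univ.filter (fun l => T l ≠ T l0) with hL'
  have hdvd : T l0 ∣ ∏ l ∈ L', T l := by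
    rw [← Nat.prod_primeFactors_of_squarefree (hsq l0)]
    apply Finset.prod_primes_dvd
    · intro p hp
      exact (Nat.prime_of_mem_primeFactors hp).prime
    · intro p hp
      have hpp := Nat.prime_of_mem_primeFactors hp
      have hpd := Nat.dvd_of_mem_primeFactors hp
      have h1 : (univ.filter (fun l => p ∣ T l)).card =
          (univ.filter (fun l => T l = T l0)).card + (L'.filter (fun l => p ∣ T l)).card := by
        rw [← Finset.card_union_of_disjoint]
        · congr 1
          ext l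
          simp only [hL', Finset.mem_filter, Finset.mem_univ, true_and, Finset.mem_union]
          constructor
          · intro h
            by_cases hl : T l = T l0
            · exact Or.inl hl
            · exact Or.inr ⟨hl, h⟩
          · rintro (h | h)
            · rw [h]; exact hpd
            · exact h.2
        · rw [Finset.disjoint_left]
          intro l h1 h2
          simp only [hL', Finset.mem_filter, Finset.mem_univ, true_and] at h1 h2
          exact h2.1 h1
      have h2 := hpar p hpp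
      rw [h1, Nat.even_add] at h2
      have h3 : ¬ Even (L'.filter (fun l => p ∣ T l)).card := by
        rw [← h2, Nat.not_even_iff_odd]; exact hodd
      have h4 : (L'.filter (fun l => p ∣ T l)).Nonempty := by
        rw [Finset.nonempty_iff_ne_empty]
        intro h; rw [h] at h3; simp at h3
      obtain ⟨l, hl⟩ := h4
      rw [Finset.mem_filter] at hl
      exact dvd_trans hl.2 (Finset.dvd_prod_of_mem T hl.1)
  have hdvd2 : T l0 ∣ ∏ l ∈ L', Nat.gcd (T l0) (T l) := by
    have := gcd_prod_dvd L' T (T l0)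
    rwa [Nat.gcd_eq_left hdvd] at this
  have hpos : 0 < T l0 := lt_of_le_of_lt (Nat.zero_le _) (hN l0)
  have hle : T l0 ≤ ∏ l ∈ L', Nat.gcd (T l0) (T l) :=
    Nat.le_of_dvd (Finset.prod_pos (fun l _ => Nat.gcd_pos_of_pos_left _ hpos)) hdvd2
  by_contra hcon
  push Not at hcon
  have h5 : (T l0) ^ m ≤ N ^ m := by
    calc (T l0) ^ m ≤ (∏ l ∈ L', Nat.gcd (T l0) (T l)) ^ m := Nat.pow_le_pow_left hle m
      _ = ∏ l ∈ L', (Nat.gcd (T l0) (T l)) ^ m := by rw [Finset.prod_pow]
      _ ≤ ∏ l ∈ L', N := by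
          apply Finset.prod_le_prod' 
          intro l hl
          rw [hL', Finset.mem_filter] at hl
          exact hcon l hl.2
      _ = N ^ L'.card := by rw [Finset.prod_const]
      _ ≤ N ^ m := Nat.pow_le_pow_right hN1 (le_trans (Finset.card_le_univ L') hcard)
  have h6 : N ^ m < (T l0) ^ m := Nat.pow_lt_pow_left (hN l0) (by omega)
  omega

/-! ### factoring out two slots -/

lemma sum_two_slots {α κ : Type*} [Fintype α] [DecidableEq α] [DecidableEq κ]
    (A : α → Finset κ) (f : κ → ℝ) (g : κ → κ → Prop) [DecidableRel g] (l₁ l₂ : α)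
    (hne : l₁ ≠ l₂) :
    ∑ T ∈ (Fintype.piFinset A).filter (fun T => g (T l₁) (T l₂)), ∏ l, f (T l) =
      (∑ x ∈ (A l₁ ×ˢ A l₂).filter (fun x => g x.1 x.2), f x.1 * f x.2) *
        ∏ l ∈ (univ.erase l₁).erase l₂, (∑ n ∈ A l, f n) := by
  classical
  have h1 : ∀ x y : κ, x ∈ A l₁ → y ∈ A l₂ →
      ∑ T ∈ (Fintype.piFinset A).filter (fun T => T l₁ = x ∧ T l₂ = y), ∏ l, f (T l) =
      f x * f y * ∏ l ∈ (univ.erase l₁).erase l₂, (∑ n ∈ A l, f n) := by
    intro x y hx hy
    set A' : α → Finset κ := fun l => if l = l₁ then {x} else if l = l₂ then {y} else A l with hA'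
    have e1 : (Fintype.piFinset A).filter (fun T => T l₁ = x ∧ T l₂ = y) =
        Fintype.piFinset A' := by
      ext T
      simp only [Finset.mem_filter, Fintype.mem_piFinset, hA']
      constructor
      · rintro ⟨hT, h1, h2⟩ l
        by_cases hl1 : l = l₁
        · subst hl1; simp [h1]
        · by_cases hl2 : l = l₂
          · subst hl2; simp [hl1, h2]
          · simp [hl1, hl2, hT l]
      · intro h
        have a1 := h l₁
        have a2 := h l₂
        simp only [if_true] at a1
        rw [if_neg hne.symm, if_pos rfl] at a2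
        rw [Finset.mem_singleton] at a1 a2
        refine ⟨fun l => ?_, a1, a2⟩
        by_cases hl1 : l = l₁
        · subst hl1; rw [a1]; exact hx
        · by_cases hl2 : l = l₂
          · subst hl2; rw [a2]; exact hy
          · have := h l
            rwa [if_neg hl1, if_neg hl2] at this
    rw [e1, ← Finset.prod_univ_sum]
    rw [← Finset.mul_prod_erase univ _ (Finset.mem_univ l₁)]
    rw [← Finset.mul_prod_erase (univ.erase l₁) _
      (Finset.mem_erase.2 ⟨hne.symm, Finset.mem_univ l₂⟩)]
    have a1 : ∑ j ∈ A' l₁, f j = f x := by simp [hA']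
    have a2 : ∑ j ∈ A' l₂, f j = f y := by simp [hA', hne.symm]
    rw [a1, a2, mul_assoc]
    congr 2
    apply Finset.prod_congr rfl
    intro l hl
    rw [Finset.mem_erase, Finset.mem_erase] at hl
    simp [hA', hl.1, hl.2.1]
  have h2 : (Fintype.piFinset A).filter (fun T => g (T l₁) (T l₂)) =
      ((A l₁ ×ˢ A l₂).filter (fun x => g x.1 x.2)).biUnion
        (fun x => (Fintype.piFinset A).filter (fun T => T l₁ = x.1 ∧ T l₂ = x.2)) := by
    ext T
    simp only [Finset.mem_filter, Finset.mem_biUnion, Finset.mem_product, Fintype.mem_piFinset,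
      Prod.exists]
    constructor
    · rintro ⟨hT, hg⟩
      exact ⟨T l₁, T l₂, ⟨⟨hT l₁, hT l₂⟩, hg⟩, hT, rfl, rfl⟩
    · rintro ⟨x, y, ⟨_, hg⟩, hT, rfl, rfl⟩
      exact ⟨hT, hg⟩
  rw [h2, Finset.sum_biUnion]
  · rw [Finset.sum_mul]
    apply Finset.sum_congr rfl
    intro x hx
    rw [Finset.mem_filter, Finset.mem_product] at hx
    exact h1 x.1 x.2 hx.1.1 hx.1.2
  · intro x _ y _ hxy
    simp only [Function.onFun]
    rw [Finset.disjoint_left]
    intro T hT hT'
    rw [Finset.mem_filter] at hT hT'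
    apply hxy
    ext
    · rw [← hT.2.1, ← hT'.2.1]
    · rw [← hT.2.2, ← hT'.2.2]

end Pool.Agent.P4f18df
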