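import Pool.Agent.Lib.P4f18df.TwTail

/-!
# The exceptional set of primes
-/

set_option autoImplicit false

namespace Pool.Agent.P4f18df

open Finset Filter NumberTheorySymbols

open scoped Classical in
/-- number of primes `p ≤ P` in `E` -/
noncomputable def cnt (E : Set ℕ) (P : ℕ) : ℝ :=
  (((range (P + 1)).filter (fun p => p.Prime ∧ p ∈ E)).card : ℝ)

/-- number of primes up to `P` -/
noncomputable def cntP (P : ℕ) : ℝ := (((range (P + 1)).filter Nat.Prime).card : ℝ)

/-- relative density zero among the primes -/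
def DensZero (E : Set ℕ) : Prop := Tendsto (fun P : ℕ => cnt E P / cntP P) atTop (nhds 0)

lemma cnt_nonneg (E : Set ℕ) (P : ℕ) : 0 ≤ cnt E P := Nat.cast_nonneg _

lemma cntP_nonneg (P : ℕ) : 0 ≤ cntP P := Nat.cast_nonneg _

lemma cnt_mono {E E' : Set ℕ} (P : ℕ) (h : ∀ p, p ≤ P → p.Prime → p ∈ E → p ∈ E') :
    cnt E P ≤ cnt E' P := by
  classical
  unfold cnt
  have : ((range (P + 1)).filter (fun p => p.Prime ∧ p ∈ E)) ⊆
      ((range (P + 1)).filter (fun p => p.Prime ∧ p ∈ E')) := by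
    intro p hp
    rw [Finset.mem_filter, Finset.mem_range] at hp ⊢
    exact ⟨hp.1, hp.2.1, h p (by omega) hp.2.1 hp.2.2⟩
  exact_mod_cast Finset.card_le_card this

lemma cnt_union (E E' : Set ℕ) (P : ℕ) : cnt (E ∪ E') P ≤ cnt E P + cnt E' P := by
  classical
  unfold cnt
  have : ((range (P + 1)).filter (fun p => p.Prime ∧ p ∈ E ∪ E')) ⊆
      ((range (P + 1)).filter (fun p => p.Prime ∧ p ∈ E)) ∪
        ((range (P + 1)).filter (fun p => p.Prime ∧ p ∈ E')) := by
    intro p hp
    rw [Finset.mem_filter, Finset.mem_range, Set.mem_union] at hp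
    rw [Finset.mem_union, Finset.mem_filter, Finset.mem_filter, Finset.mem_range]
    tauto
  have h2 := (Finset.card_le_card this).trans (Finset.card_union_le _ _)
  have h3 : (((range (P + 1)).filter (fun p => p.Prime ∧ p ∈ E ∪ E')).card : ℝ) ≤
      (((range (P + 1)).filter (fun p => p.Prime ∧ p ∈ E)).card : ℝ) +
        (((range (P + 1)).filter (fun p => p.Prime ∧ p ∈ E')).card : ℝ) := by
    exact_mod_cast h2
  convert h3

lemma cntP_eq (P : ℕ) : cntP P = (Nat.primeCounting P : ℝ) := by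
  unfold cntP
  rw [Nat.primeCounting, Nat.primeCounting', Nat.count_eq_card_filter_range]

lemma eventually_cntP : ∀ᶠ P : ℕ in atTop, (P : ℝ) / (2 * Real.log P) ≤ cntP P := by
  have h1 : ∀ᶠ P : ℕ in atTop, Real.log ((P : ℝ) + 1) ≤ (Real.log 2 - 1 / 2) * P := by
    have hc : 0 < Real.log 2 - 1 / 2 := by have := Real.log_two_gt_d9; linarith
    have h := (Real.isLittleO_log_id_atTop.bound (show 0 < (Real.log 2 - 1 / 2) / 2 by positivity))
    have h' : Tendsto (fun P : ℕ => (P : ℝ) + 1) atTop atTop :=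
      tendsto_atTop_add_const_right _ _ tendsto_natCast_atTop_atTop
    filter_upwards [h'.eventually h, eventually_ge_atTop 1] with P hP hP1
    have hP1' : (1:ℝ) ≤ P := by exact_mod_cast hP1
    rw [Real.norm_eq_abs, id, Real.norm_eq_abs, abs_of_nonneg (Real.log_nonneg (by linarith)),
      abs_of_nonneg (by linarith)] at hP
    nlinarith
  filter_upwards [h1, eventually_ge_atTop 2] with P hP hP2
  have hP2' : (2:ℝ) ≤ P := by exact_mod_cast hP2
  have hlog : 0 < Real.log P := Real.log_pos (by linarith)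
  rw [cntP_eq]
  refine le_trans ?_ (Chebyshev.pi_ge P)
  rw [div_le_div_iff₀ (by positivity) hlog]
  nlinarith

/-- countable unions, up to finitely many elements of each set -/
lemma exists_diag (E : ℕ → Set ℕ) (hE : ∀ i, DensZero (E i)) :
    ∃ F : Set ℕ, DensZero F ∧ ∀ i, ∃ P₀ : ℕ, ∀ p ∈ E i, P₀ ≤ p → p ∈ F := by
  have hpos : ∀ᶠ P : ℕ in atTop, 0 < cntP P := by
    filter_upwards [eventually_cntP, eventually_ge_atTop 2] with P h1 h2
    have hP2' : (2:ℝ) ≤ P := by exact_mod_cast h2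
    have hlog : 0 < Real.log P := Real.log_pos (by linarith)
    exact lt_of_lt_of_le (by positivity) h1
  -- finite unions
  have hG : ∀ i, ∃ P₁ : ℕ, ∀ P, P₁ ≤ P → cnt (⋃ l ∈ Finset.range (i + 1), E l) P ≤
      cntP P / (i + 1) := by
    have hD : ∀ i, DensZero (⋃ l ∈ Finset.range (i + 1), E l) := by
      intro i
      induction i with
      | zero =>
        have : (⋃ l ∈ Finset.range (0 + 1), E l) = E 0 := by simp
        rw [this]; exact hE 0
      | succ i ih =>
        have e : (⋃ l ∈ Finset.range (i + 1 + 1), E l) =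
            (⋃ l ∈ Finset.range (i + 1), E l) ∪ E (i + 1) := by
          rw [Finset.range_add_one, Finset.set_biUnion_insert, Set.union_comm]
        rw [e]
        unfold DensZero
        have hs := ih.add (hE (i + 1))
        rw [add_zero] at hs
        refine squeeze_zero (fun P => div_nonneg (cnt_nonneg _ _) (cntP_nonneg _)) (fun P => ?_) hs
        rw [← add_div]
        exact div_le_div_of_nonneg_right (cnt_union _ _ _) (cntP_nonneg _)
    intro i
    have h1 := (hD i).eventually (gt_mem_nhds (show (0:ℝ) < 1 / ((i : ℝ) + 1) by positivity))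
    obtain ⟨P₁, hP₁⟩ := eventually_atTop.1 (h1.and hpos)
    refine ⟨P₁, fun P hP => ?_⟩
    obtain ⟨g1, g2⟩ := hP₁ P hP
    have g3 := le_of_lt g1
    rw [div_le_iff₀ g2] at g3
    refine le_trans g3 (le_of_eq ?_)
    ring
  choose f hf using hG
  set φ : ℕ → ℕ := fun i => (∑ l ∈ Finset.range (i + 1), f l) + i with hφ
  have hφf : ∀ i, f i ≤ φ i := by
    intro i
    have : f i ≤ ∑ l ∈ Finset.range (i + 1), f l :=
      Finset.single_le_sum (fun _ _ => Nat.zero_le _) (Finset.mem_range.2 (Nat.lt_succ_self i))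
    simp only [hφ]; omega
  have hφi : ∀ i, i ≤ φ i := fun i => by simp only [hφ]; omega
  refine ⟨{p | ∃ i, φ i ≤ p ∧ p ∈ E i}, ?_, fun i => ⟨φ i, fun p hp hle => ⟨i, hle, hp⟩⟩⟩
  unfold DensZero
  rw [Metric.tendsto_atTop]
  intro ε hε
  obtain ⟨i₀, hi₀⟩ := exists_nat_gt (1 / ε)
  obtain ⟨P₂, hP₂⟩ := eventually_atTop.1 hpos
  refine ⟨max (φ i₀) P₂, fun P hP => ?_⟩
  have hPφ : φ i₀ ≤ P := le_trans (le_max_left _ _) hP
  have hPpos := hP₂ P (le_trans (le_max_right _ _) hP)
  rw [Real.dist_eq, sub_zero, abs_of_nonneg (div_nonneg (cnt_nonneg _ _) (cntP_nonneg _))]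
  set i := Nat.findGreatest (fun i => φ i ≤ P) P with hi
  have hi1 : i₀ ≤ i := Nat.le_findGreatest (le_trans (hφi i₀) hPφ) hPφ
  have hi2 : φ i ≤ P := Nat.findGreatest_spec (P := fun i => φ i ≤ P)
    (le_trans (hφi i₀) hPφ) hPφ
  have h1 : cnt {p | ∃ i, φ i ≤ p ∧ p ∈ E i} P ≤ cnt (⋃ l ∈ Finset.range (i + 1), E l) P := by
    apply cnt_mono
    rintro p hp _ ⟨l, hl1, hl2⟩
    have hl3 : φ l ≤ P := le_trans hl1 hp
    have hl4 : l ≤ i := Nat.le_findGreatest (le_trans (hφi l) hl3) hl3
    exact Set.mem_biUnion (Finset.mem_coe.2 (Finset.mem_range.2 (by omega))) hl2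
  have h2 := hf i P (le_trans (hφf i) hi2)
  have hi₀' : (1:ℝ) / ε < (i : ℝ) + 1 := by
    have : (i₀ : ℝ) ≤ i := by exact_mod_cast hi1
    linarith
  rw [div_lt_iff₀ hPpos]
  have h3 : cntP P / ((i : ℝ) + 1) < ε * cntP P := by
    rw [div_lt_iff₀ (by positivity)]
    rw [div_lt_iff₀ hε] at hi₀'
    nlinarith
  linarith

/-- exceptional primes for given parameters -/
def BadP (k q m : ℕ) (c : ℝ) (A : ℕ) : Set ℕ :=
  {p | p.Prime ∧ ∃ N h : ℕ, Real.log p ≤ (N : ℝ) ^ m ∧ N ^ A ≤ p ∧ 1 ≤ h ∧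
    (h : ℝ) ≤ (N : ℝ) ^ (1 - 1 / q : ℝ) ∧
    (Real.sqrt h) ^ k * (N : ℝ) ^ (-c) < |Dk (tw p) k N h|}

theorem exists_bad (k q m : ℕ) (hk : 1 ≤ k) (hq : 1 ≤ q) (hm : 1 ≤ m) :
    ∃ c : ℝ, 0 < c ∧ ∃ A : ℕ, DensZero (BadP k q m c A) := by
  classical
  obtain ⟨c, hc, A₀, hA₀⟩ := twist_tail k q (2 * m + 3) hk hq
  obtain ⟨N₀, hN₀⟩ := eventually_atTop.1 hA₀
  refine ⟨c, hc, max A₀ 2, ?_⟩
  set A := max A₀ 2 with hA
  have hA2 : 2 ≤ A := le_max_right _ _
  -- counting bound
  have hcount : ∀ᶠ P : ℕ in atTop, cnt (BadP k q m c A) P ≤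
      (Nat.sqrt (P + 1) + 1 : ℝ) + (P + 1 : ℝ) * (4 / (Real.log (P + 1)) ^ 2) := by
    have hlt : Tendsto (fun P : ℕ => Real.log ((P : ℝ) + 1)) atTop atTop :=
      Real.tendsto_log_atTop.comp (tendsto_atTop_add_const_right _ _ tendsto_natCast_atTop_atTop)
    filter_upwards [hlt.eventually_ge_atTop (2 * ((N₀ : ℝ) + 4) ^ m)] with P hP
    set D := P + 1 with hD
    have hD1 : 1 ≤ D := by omega
    have hDr : ((D : ℕ) : ℝ) = (P : ℝ) + 1 := by rw [hD]; push_cast; ring
    have hL0 : 0 < Real.log ((P : ℝ) + 1) := by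
      have : (0:ℝ) < 2 * ((N₀ : ℝ) + 4) ^ m := by positivity
      linarith
    -- the family
    have hsub : (range (P + 1)).filter (fun p => p.Prime ∧ p ∈ BadP k q m c A) ⊆
        range (Nat.sqrt D + 1) ∪ (((Ioc 1 D).filter
          (fun N : ℕ => Real.log ((P : ℝ) + 1) / 2 ≤ (N : ℝ) ^ m ∧ N ^ A ≤ D)).biUnion
          (fun N => ((Icc 1 N).filter (fun h : ℕ => (h : ℝ) ≤ (N : ℝ) ^ (1 - 1 / q : ℝ))).biUnion
            (fun h => (range D).filter (fun p => p.Prime ∧ 3 * N < p ∧
              (Real.sqrt h) ^ k * (N : ℝ) ^ (-c) < |Dk (tw p) k N h|)))) := by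
      intro p hp
      rw [Finset.mem_filter, Finset.mem_range] at hp
      obtain ⟨hpP, hpp, _, N, h, g1, g2, g3, g4, g5⟩ := hp
      rw [Finset.mem_union]
      by_cases hps : p < Nat.sqrt D + 1
      · left; exact Finset.mem_range.2 hps
      right
      push Not at hps
      have hp2 : D < p ^ 2 := by
        have := Nat.lt_succ_sqrt D
        calc D < (Nat.sqrt D + 1) * (Nat.sqrt D + 1) := this
          _ ≤ p * p := Nat.mul_le_mul hps hps
          _ = p ^ 2 := (sq p).symm
      have hlogp : Real.log ((P : ℝ) + 1) / 2 ≤ Real.log p := by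
        have h1 : ((P : ℝ) + 1) ≤ (p : ℝ) ^ 2 := by
          rw [← hDr]; exact_mod_cast hp2.le
        have h2 := Real.log_le_log (by positivity) h1
        rw [Real.log_pow] at h2
        push_cast at h2
        linarith
      have hNm : Real.log ((P : ℝ) + 1) / 2 ≤ (N : ℝ) ^ m := hlogp.trans g1
      have hN4 : N₀ + 4 ≤ N := by
        by_contra hcon
        push Not at hcon
        have h1 : (N : ℝ) ^ m < ((N₀ : ℝ) + 4) ^ m := by
          apply pow_lt_pow_left₀ (by exact_mod_cast hcon) (Nat.cast_nonneg _) (by omega)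
        linarith
      have hN1 : 1 ≤ N := by omega
      have hNA : N ^ A ≤ D := by omega
      have hND : N ≤ D := le_trans (Nat.le_self_pow (by omega) N) hNA
      have h3N : 3 * N < p := by
        calc 3 * N < N * N := by nlinarith
          _ = N ^ 2 := (sq N).symm
          _ ≤ N ^ A := Nat.pow_le_pow_right (by omega) hA2
          _ ≤ p := g2
      rw [Finset.mem_biUnion]
      refine ⟨N, ?_, ?_⟩
      · rw [Finset.mem_filter, Finset.mem_Ioc]
        exact ⟨⟨by omega, hND⟩, hNm, hNA⟩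
      · rw [Finset.mem_biUnion]
        refine ⟨h, ?_, ?_⟩
        · rw [Finset.mem_filter, Finset.mem_Icc]
          refine ⟨⟨g3, ?_⟩, g4⟩
          have : (h : ℝ) ≤ (N : ℝ) := by
            refine le_trans g4 ?_
            calc (N : ℝ) ^ (1 - 1 / q : ℝ) ≤ (N : ℝ) ^ (1 : ℝ) := by
                  apply Real.rpow_le_rpow_of_exponent_le (by exact_mod_cast hN1)
                  have : 0 ≤ (1 / q : ℝ) := by positivity
                  linarith
              _ = N := Real.rpow_one _
          exact_mod_cast this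
        · rw [Finset.mem_filter, Finset.mem_range]
          exact ⟨hpP, hpp, h3N, g5⟩
    have hcard := Finset.card_le_card hsub
    have hcard2 := hcard.trans (Finset.card_union_le _ _)
    rw [Finset.card_range] at hcard2
    have hbi : ((((Ioc 1 D).filter
          (fun N : ℕ => Real.log ((P : ℝ) + 1) / 2 ≤ (N : ℝ) ^ m ∧ N ^ A ≤ D)).biUnion
          (fun N => ((Icc 1 N).filter (fun h : ℕ => (h : ℝ) ≤ (N : ℝ) ^ (1 - 1 / q : ℝ))).biUnion
            (fun h => (range D).filter (fun p => p.Prime ∧ 3 * N < p ∧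
              (Real.sqrt h) ^ k * (N : ℝ) ^ (-c) < |Dk (tw p) k N h|)))).card : ℝ) ≤
        (P + 1 : ℝ) * (4 / (Real.log (P + 1)) ^ 2) := by
      refine le_trans (Nat.cast_le.2 Finset.card_biUnion_le) ?_
      push_cast
      have hN : ∀ N ∈ (Ioc 1 D).filter
          (fun N : ℕ => Real.log ((P : ℝ) + 1) / 2 ≤ (N : ℝ) ^ m ∧ N ^ A ≤ D),
          (((((Icc 1 N).filter (fun h : ℕ => (h : ℝ) ≤ (N : ℝ) ^ (1 - 1 / q : ℝ))).biUnion
            (fun h => (range D).filter (fun p => p.Prime ∧ 3 * N < p ∧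
              (Real.sqrt h) ^ k * (N : ℝ) ^ (-c) < |Dk (tw p) k N h|))).card : ℕ) : ℝ) ≤
          ((P + 1 : ℝ) * (4 / (Real.log (P + 1)) ^ 2)) * (((N : ℝ) ^ 2)⁻¹) := by
        intro N hN
        rw [Finset.mem_filter, Finset.mem_Ioc] at hN
        obtain ⟨⟨hN1, hND⟩, hNm, hNA⟩ := hN
        have hNr : (0:ℝ) < N := by exact_mod_cast (by omega : 0 < N)
        have hNN₀ : N₀ ≤ N := by
          by_contra hcon
          push Not at hcon
          have h1 : (N : ℝ) ^ m < ((N₀ : ℝ) + 4) ^ m := by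
            apply pow_lt_pow_left₀ _ (Nat.cast_nonneg _) (by omega)
            have : (N : ℝ) < N₀ := by exact_mod_cast hcon
            linarith
          linarith
        have hNA₀ : N ^ A₀ ≤ D :=
          le_trans (Nat.pow_le_pow_right (by omega) (le_max_left _ _)) hNA
        refine le_trans (Nat.cast_le.2 Finset.card_biUnion_le) ?_
        push_cast
        have hh : ∀ h ∈ (Icc 1 N).filter (fun h : ℕ => (h : ℝ) ≤ (N : ℝ) ^ (1 - 1 / q : ℝ)),
            (((range D).filter (fun p => p.Prime ∧ 3 * N < p ∧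
              (Real.sqrt h) ^ k * (N : ℝ) ^ (-c) < |Dk (tw p) k N h|)).card : ℝ) ≤
              D * ((N : ℝ) ^ (2 * m + 3))⁻¹ := by
          intro h hh
          rw [Finset.mem_filter, Finset.mem_Icc] at hh
          exact hN₀ N hNN₀ h hh.1.1 hh.2 D hNA₀
        refine le_trans (Finset.sum_le_sum hh) ?_
        rw [Finset.sum_const, nsmul_eq_mul]
        have hc1 : (((Icc 1 N).filter (fun h : ℕ => (h : ℝ) ≤ (N : ℝ) ^ (1 - 1 / q : ℝ))).card : ℝ)
            ≤ N := by
          have := Finset.card_filter_le (Icc 1 N)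
            (fun h : ℕ => (h : ℝ) ≤ (N : ℝ) ^ (1 - 1 / q : ℝ))
          rw [Nat.card_Icc, Nat.add_sub_cancel] at this
          exact_mod_cast this
        calc (((Icc 1 N).filter (fun h : ℕ => (h : ℝ) ≤ (N : ℝ) ^ (1 - 1 / q : ℝ))).card : ℝ) *
              (D * ((N : ℝ) ^ (2 * m + 3))⁻¹)
            ≤ N * (D * ((N : ℝ) ^ (2 * m + 3))⁻¹) := by gcongr
          _ = D * (1 / ((N : ℝ) ^ m) ^ 2) * ((N : ℝ) ^ 2)⁻¹ := by
              have : (N : ℝ) ^ (2 * m + 3) = ((N : ℝ) ^ m) ^ 2 * (N : ℝ) ^ 2 * N := by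
                rw [← pow_mul, ← pow_add, ← pow_succ]; congr 1; ring
              rw [this]; field_simp
          _ ≤ (P + 1 : ℝ) * (4 / (Real.log (P + 1)) ^ 2) * ((N : ℝ) ^ 2)⁻¹ := by
              rw [hDr]
              apply mul_le_mul_of_nonneg_right _ (by positivity)
              apply mul_le_mul_of_nonneg_left _ (by positivity)
              rw [div_le_div_iff₀ (by positivity) (by positivity)]
              have : (Real.log ((P : ℝ) + 1) / 2) ^ 2 ≤ ((N : ℝ) ^ m) ^ 2 :=
                pow_le_pow_left₀ (by positivity) hNm 2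
              nlinarith
      refine le_trans (Finset.sum_le_sum hN) ?_
      rw [← Finset.mul_sum]
      have hs : ∑ N ∈ (Ioc 1 D).filter
          (fun N : ℕ => Real.log ((P : ℝ) + 1) / 2 ≤ (N : ℝ) ^ m ∧ N ^ A ≤ D),
          (((N : ℝ) ^ 2)⁻¹) ≤ 1 := by
        refine le_trans (Finset.sum_le_sum_of_subset_of_nonneg (Finset.filter_subset _ _)
          (fun _ _ _ => by positivity)) ?_
        have := sum_Ioc_inv_sq_le_sub (α := ℝ) (k := 1) (n := D) (by norm_num) hD1
        refine le_trans this ?_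
        simp
      calc _ ≤ ((P + 1 : ℝ) * (4 / (Real.log (P + 1)) ^ 2)) * 1 :=
            mul_le_mul_of_nonneg_left hs (by positivity)
        _ = _ := mul_one _
    unfold cnt
    have h3 : (((range (P + 1)).filter (fun p => p.Prime ∧ p ∈ BadP k q m c A)).card : ℝ) ≤
        ((Nat.sqrt D + 1 : ℕ) : ℝ) + ((((Ioc 1 D).filter
          (fun N : ℕ => Real.log ((P : ℝ) + 1) / 2 ≤ (N : ℝ) ^ m ∧ N ^ A ≤ D)).biUnion
          (fun N => ((Icc 1 N).filter (fun h : ℕ => (h : ℝ) ≤ (N : ℝ) ^ (1 - 1 / q : ℝ))).biUnion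
            (fun h => (range D).filter (fun p => p.Prime ∧ 3 * N < p ∧
              (Real.sqrt h) ^ k * (N : ℝ) ^ (-c) < |Dk (tw p) k N h|)))).card : ℝ) := by
      exact_mod_cast hcard2
    refine le_trans h3 ?_
    push_cast
    linarith
  -- limit
  have hlim : Tendsto (fun P : ℕ => 6 * (Real.log P / Real.sqrt P) + 16 / Real.log P) atTop
      (nhds 0) := by
    have l1 : Tendsto (fun P : ℕ => Real.log P / Real.sqrt P) atTop (nhds 0) := by
      have := (isLittleO_log_rpow_atTop (show (0:ℝ) < 1 / 2 by norm_num)).tendsto_div_nhds_zero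
      have h2 := this.comp tendsto_natCast_atTop_atTop
      refine h2.congr (fun P => ?_)
      simp only [Function.comp]
      rw [Real.sqrt_eq_rpow]
    have l2 : Tendsto (fun P : ℕ => 16 / Real.log P) atTop (nhds 0) :=
      tendsto_const_nhds.div_atTop (Real.tendsto_log_atTop.comp tendsto_natCast_atTop_atTop)
    have := (l1.const_mul 6).add l2
    simpa using this
  unfold DensZero
  refine squeeze_zero' (Eventually.of_forall
    (fun P => div_nonneg (cnt_nonneg _ _) (cntP_nonneg _))) ?_ hlim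
  filter_upwards [hcount, eventually_cntP, eventually_ge_atTop 3] with P h1 h2 h3
  have hP : (3:ℝ) ≤ P := by exact_mod_cast h3
  have hlog : 0 < Real.log P := Real.log_pos (by linarith)
  have hlog1 : Real.log P ≤ Real.log ((P : ℝ) + 1) := Real.log_le_log (by linarith) (by linarith)
  have hw : (0:ℝ) < P / (2 * Real.log P) := by positivity
  have hsq : (Nat.sqrt (P + 1) + 1 : ℝ) ≤ 3 * Real.sqrt P := by
    have g1 : (Nat.sqrt (P + 1) : ℝ) ≤ Real.sqrt ((P : ℝ) + 1) := by
      have := Real.nat_sqrt_le_real_sqrt (a := P + 1)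
      push_cast at this; exact this
    have g2 : Real.sqrt ((P : ℝ) + 1) ≤ 2 * Real.sqrt P := by
      rw [show (2:ℝ) * Real.sqrt P = Real.sqrt (4 * P) by
        rw [Real.sqrt_mul (by norm_num), show (4:ℝ) = 2 ^ 2 by norm_num, Real.sqrt_sq (by norm_num)]]
      exact Real.sqrt_le_sqrt (by linarith)
    have g3 : 1 ≤ Real.sqrt P := by
      rw [show (1:ℝ) = Real.sqrt 1 by simp]
      exact Real.sqrt_le_sqrt (by linarith)
    linarith
  have hsqP : Real.sqrt P * Real.sqrt P = P := Real.mul_self_sqrt (by linarith)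
  have hsq0 : 0 < Real.sqrt P := Real.sqrt_pos.2 (by linarith)
  calc cnt (BadP k q m c A) P / cntP P ≤ cnt (BadP k q m c A) P / (P / (2 * Real.log P)) :=
        div_le_div_of_nonneg_left (cnt_nonneg _ _) hw h2
    _ ≤ (3 * Real.sqrt P + (P + 1 : ℝ) * (4 / (Real.log (P + 1)) ^ 2)) /
          (P / (2 * Real.log P)) := by
        apply div_le_div_of_nonneg_right _ hw.le
        linarith
    _ = 6 * (Real.log P / Real.sqrt P) +
          ((P + 1) / P) * (8 * Real.log P / (Real.log (P + 1)) ^ 2) := by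
        have hP0 : (P : ℝ) ≠ 0 := by linarith
        rw [add_div]
        congr 1
        · calc 3 * Real.sqrt P / (P / (2 * Real.log P)) = 6 * Real.log P * (Real.sqrt P / P) := by
                field_simp; ring
            _ = 6 * Real.log P * (1 / Real.sqrt P) := by rw [Real.sqrt_div_self']
            _ = _ := by ring
        · field_simp
          ring
    _ ≤ 6 * (Real.log P / Real.sqrt P) + 2 * (8 * Real.log P / (Real.log P) ^ 2) := by
        have e1 : ((P : ℝ) + 1) / P ≤ 2 := by rw [div_le_iff₀ (by linarith)]; linarith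
        gcongr
    _ = _ := by
        field_simp
        ring

end Pool.Agent.P4f18df
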