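import Mathlib

/-!
# Sums of Jacobi symbols over odd lower arguments
-/

set_option autoImplicit false

namespace Pool.Agent.P4f18df

open Finset NumberTheorySymbols

/-- Existence of an odd `b` prime to `4 n` with `(n | b) = -1` for nonsquare `n`. -/
lemma exists_jacobi_neg {n : ℕ} (hn : 0 < n) (hsq : ¬ IsSquare n) :
    ∃ b : ℕ, b.Coprime (4 * n) ∧ J((n : ℤ) | b) = -1 := by
  -- a prime with odd exponent
  obtain ⟨l, hl, hodd⟩ : ∃ l : ℕ, l.Prime ∧ Odd (n.factorization l) := by
    by_contra hcon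
    push Not at hcon
    apply hsq
    have hev : ∀ l ∈ n.factorization.support, Even (n.factorization l) := by
      intro l hl
      have := hcon l (Nat.prime_of_mem_primeFactors (by simpa using hl))
      exact Nat.not_odd_iff_even.1 this
    refine ⟨∏ l ∈ n.factorization.support, l ^ (n.factorization l / 2), ?_⟩
    rw [← Finset.prod_mul_distrib]
    nth_rewrite 1 [← Nat.prod_factorization_pow_eq_self hn.ne']
    rw [Finsupp.prod]
    apply Finset.prod_congr rfl
    intro l hl
    rw [← pow_add]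
    congr 1
    obtain ⟨r, hr⟩ := hev l hl
    omega
  set v := n.factorization l with hv
  set m := n / l ^ v with hm
  have hnm : l ^ v * m = n := Nat.ordProj_mul_ordCompl_eq_self n l
  have hlm : l.Coprime m := Nat.coprime_ordCompl hl hn.ne'
  have hm0 : 0 < m := Nat.pos_of_ne_zero (by rintro h; rw [h] at hnm; omega)
  have key : ∀ b : ℕ, b.Coprime 2 → b.Coprime l → b.Coprime m → J((l : ℤ) | b) = -1 →
      J((m : ℤ) | b) = 1 → ∃ b : ℕ, b.Coprime (4 * n) ∧ J((n : ℤ) | b) = -1 := by
    intro b h2 hbl hbm h3 h4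
    refine ⟨b, ?_, ?_⟩
    · rw [← hnm]
      apply Nat.Coprime.mul_right
      · rw [show (4:ℕ) = 2 ^ 2 by norm_num]; exact Nat.Coprime.pow_right 2 h2
      · exact Nat.Coprime.mul_right (Nat.Coprime.pow_right _ hbl) hbm
    · rw [← hnm]
      push_cast
      rw [jacobiSym.mul_left, jacobiSym.pow_left, h3, h4, mul_one]
      exact hodd.neg_one_pow
  rcases hl.eq_two_or_odd with h2 | h2
  · -- l = 2
    have hmodd : Nat.Coprime 8 m := by
      rw [show (8:ℕ) = 2 ^ 3 by norm_num]
      exact Nat.Coprime.pow_left 3 (h2 ▸ hlm)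
    obtain ⟨b, hb8, hbm⟩ := Nat.chineseRemainder hmodd 5 1
    have hb8' : b % 8 = 5 := by
      have : b % 8 = 5 % 8 := hb8
      omega
    have hbodd : b % 2 = 1 := by omega
    have hb4 : b % 4 = 1 := by omega
    have hcop2 : b.Coprime 2 := (Nat.coprime_two_right).2 (Nat.odd_iff.2 hbodd)
    have hcopm : b.Coprime m := by
      have : b.gcd m = (1:ℕ).gcd m := Nat.ModEq.gcd_eq hbm
      rw [Nat.Coprime, this]; simp
    refine key b hcop2 (by rw [h2]; exact hcop2) hcopm ?_ ?_
    · rw [h2]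
      have := jacobiSym.at_two (Nat.odd_iff.2 hbodd)
      push_cast
      rw [this, ZMod.χ₈_nat_eq_if_mod_eight]
      simp [hb8', hbodd]
    · have hmo : Odd m := by
        rw [← Nat.coprime_two_left]; exact h2 ▸ hlm
      rw [jacobiSym.quadratic_reciprocity_one_mod_four' hmo hb4]
      have : ((b : ℤ)) % m = (1 : ℤ) % m := by
        have : b % m = 1 % m := hbm
        exact_mod_cast this
      rw [jacobiSym.mod_left' this, jacobiSym.one_left]
  · -- l odd
    haveI : Fact l.Prime := ⟨hl⟩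
    obtain ⟨c, hc⟩ : ∃ c : ℕ, J((c : ℤ) | l) = -1 := by
      obtain ⟨a, ha⟩ := FiniteField.exists_nonsquare (F := ZMod l)
        (by rw [ZMod.ringChar_zmod_n]; rintro rfl; omega)
      refine ⟨a.val, ?_⟩
      rw [ZMod.nonsquare_iff_jacobiSym_eq_neg_one]
      simpa using ha
    have hcop : Nat.Coprime l (4 * m) := by
      apply Nat.Coprime.mul_right _ hlm
      rw [show (4:ℕ) = 2 ^ 2 by norm_num]
      apply Nat.Coprime.pow_right
      exact (Nat.coprime_two_right).2 (Nat.odd_iff.2 h2)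
    obtain ⟨b, hbl, hbm⟩ := Nat.chineseRemainder hcop c 1
    have hb4 : b % 4 = 1 := by
      have h1 : b ≡ 1 [MOD 4] := Nat.ModEq.of_mul_right m hbm
      have : b % 4 = 1 % 4 := h1
      omega
    have hbodd : b % 2 = 1 := by omega
    have hcopm : b.Coprime (4 * m) := by
      have : b.gcd (4 * m) = (1:ℕ).gcd (4 * m) := Nat.ModEq.gcd_eq hbm
      rw [Nat.Coprime, this]; simp
    have hJb : J((b : ℤ) | l) = -1 := by
      have : ((b : ℤ)) % l = (c : ℤ) % l := by
        have : b % l = c % l := hbl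
        exact_mod_cast this
      rw [jacobiSym.mod_left' this, hc]
    have hcopl : b.Coprime l := by
      by_contra hne
      have h0 : J((b : ℤ) | l) = 0 := by
        rw [jacobiSym.eq_zero_iff]
        refine ⟨hl.ne_zero, ?_⟩
        rw [Int.gcd_natCast_natCast]
        exact hne
      rw [h0] at hJb; norm_num at hJb
    refine key b ((Nat.coprime_two_right).2 (Nat.odd_iff.2 hbodd)) hcopl
      (Nat.Coprime.coprime_mul_left_right hcopm) ?_ ?_
    · rw [jacobiSym.quadratic_reciprocity_one_mod_four' (Nat.odd_iff.2 h2) hb4, hJb]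
    · rw [jacobiSym.mod_right' m (Nat.odd_iff.2 hbodd)]
      have hb1 : b % (4 * m) = 1 := by
        have : b % (4 * m) = 1 % (4 * m) := hbm
        rw [this, Nat.mod_eq_of_lt (by omega)]
      rw [hb1, jacobiSym.one_right]

/-- the summand -/
def jo (n d : ℕ) : ℤ := if d % 2 = 1 then J((n : ℤ) | d) else 0

lemma abs_jo_le (n d : ℕ) : |jo n d| ≤ 1 := by
  unfold jo
  split_ifs
  · rcases jacobiSym.trichotomy (n : ℤ) d with h | h | h <;> rw [h] <;> simp
  · simp

lemma jo_mod (n d : ℕ) : jo n (d % (4 * n)) = jo n d := by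
  unfold jo
  have h2 : d % (4 * n) % 2 = d % 2 := Nat.mod_mod_of_dvd d ⟨2 * n, by ring⟩
  rw [h2]
  split_ifs with h
  · rw [← jacobiSym.mod_right' n (Nat.odd_iff.2 h)]
  · rfl

lemma jo_mul (n : ℕ) {b d : ℕ} (hb : b % 2 = 1) : jo n (b * d) = J((n : ℤ) | b) * jo n d := by
  unfold jo
  have h2 : (b * d) % 2 = d % 2 := by
    rw [Nat.mul_mod, hb, one_mul, Nat.mod_mod]
  rw [h2]
  split_ifs with h
  · rw [jacobiSym.mul_right' _ (by rintro rfl; simp at hb) (by rintro rfl; simp at h)]
  · simp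

lemma sum_jo_period {n : ℕ} (hn : 0 < n) (hsq : ¬ IsSquare n) :
    ∑ d ∈ range (4 * n), jo n d = 0 := by
  obtain ⟨b, hb, hJ⟩ := exists_jacobi_neg hn hsq
  haveI : NeZero (4 * n) := ⟨by omega⟩
  have hbodd : b % 2 = 1 := by
    have : b.Coprime 2 := Nat.Coprime.coprime_mul_left_right
      (show b.Coprime ((2 * n) * 2) by rw [show 2 * n * 2 = 4 * n by ring]; exact hb)
    exact Nat.odd_iff.1 ((Nat.coprime_two_right).1 this)
  have h1 : ∑ d ∈ range (4 * n), jo n d = ∑ x : ZMod (4 * n), jo n x.val := by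
    rw [Finset.sum_bij' (i := fun d _ => ((d : ℕ) : ZMod (4 * n))) (j := fun x _ => x.val)]
    · intro d _; exact Finset.mem_univ _
    · intro x _; exact Finset.mem_range.2 (ZMod.val_lt x)
    · intro d hd
      exact ZMod.val_cast_of_lt (Finset.mem_range.1 hd)
    · intro x _
      exact ZMod.natCast_zmod_val x
    · intro d hd
      rw [ZMod.val_cast_of_lt (Finset.mem_range.1 hd)]
  set u : (ZMod (4 * n))ˣ := ZMod.unitOfCoprime b hb with hu
  have h2 : ∑ x : ZMod (4 * n), jo n x.val = ∑ x : ZMod (4 * n), jo n ((u * x : ZMod (4 * n))).val := by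
    exact (Equiv.sum_comp (Units.mulLeft u) (fun x : ZMod (4 * n) => jo n x.val)).symm
  have h3 : ∀ x : ZMod (4 * n), jo n ((u * x : ZMod (4 * n))).val = - jo n x.val := by
    intro x
    have : ((u * x : ZMod (4 * n))).val = (b * x.val) % (4 * n) := by
      rw [hu, ZMod.coe_unitOfCoprime, ZMod.val_mul, ZMod.val_natCast, Nat.mod_mul_mod]
    rw [this, jo_mod, jo_mul n hbodd, hJ]; ring
  rw [h1]
  have h4 : ∑ x : ZMod (4 * n), jo n x.val = - ∑ x : ZMod (4 * n), jo n x.val := by
    nth_rewrite 1 [h2]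
    rw [Finset.sum_congr rfl (fun x _ => h3 x), Finset.sum_neg_distrib]
  omega

lemma abs_sum_jo_le {n : ℕ} (hn : 0 < n) (hsq : ¬ IsSquare n) (D : ℕ) :
    |∑ d ∈ range D, jo n d| ≤ 4 * n := by
  have h1 : ∀ q : ℕ, ∑ d ∈ range (4 * n * q), jo n d = 0 := by
    intro q
    induction q with
    | zero => simp
    | succ q ih =>
      rw [Nat.mul_succ, Finset.sum_range_add, ih, zero_add]
      rw [← sum_jo_period hn hsq]
      apply Finset.sum_congr rfl
      intro d hd
      rw [← jo_mod n (4 * n * q + d), Nat.mul_add_mod, jo_mod]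
  have h2 : D = 4 * n * (D / (4 * n)) + D % (4 * n) := (Nat.div_add_mod D (4 * n)).symm
  rw [h2, Finset.sum_range_add, h1, zero_add]
  refine le_trans (Finset.abs_sum_le_sum_abs _ _) ?_
  refine le_trans (Finset.sum_le_sum (fun d _ => abs_jo_le n _)) ?_
  rw [Finset.sum_const, Finset.card_range, nsmul_eq_mul, mul_one]
  have : D % (4 * n) < 4 * n := Nat.mod_lt _ (by omega)
  exact_mod_cast this.le

end Pool.Agent.P4f18df
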