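import Pool.Agent.Lib.P4f18df.Tuples
import Pool.Agent.Lib.P4f18df.TwJac

/-!
# Transfer from the cube of signs to quadratic characters
-/

set_option autoImplicit false

namespace Pool.Agent.P4f18df

open Finset NumberTheorySymbols

/-- polynomials in the signs with control of degree, supports and coefficients -/
def MD (P : Finset ℕ) (r M : ℕ) (L : ℝ) (F : Finset ℕ → ℝ) : Prop :=
  ∃ c : Finset ℕ → ℝ, (∀ S, r < S.card → c S = 0) ∧ (∀ S, M < ∏ p ∈ S, p → c S = 0) ∧
    (∑ S ∈ P.powerset, |c S| ≤ L) ∧ ∀ U, U ⊆ P → F U = ∑ S ∈ P.powerset, c S * chi S U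

lemma MD.mono {P : Finset ℕ} {r r' M M' : ℕ} {L L' : ℝ} {F : Finset ℕ → ℝ} (h : MD P r M L F)
    (hr : r ≤ r') (hM : M ≤ M') (hL : L ≤ L') : MD P r' M' L' F := by
  obtain ⟨c, h1, h2, h3, h4⟩ := h
  exact ⟨c, fun S hS => h1 S (by omega), fun S hS => h2 S (by omega), h3.trans hL, h4⟩

lemma MD.add {P : Finset ℕ} {r M : ℕ} {L L' : ℝ} {F G : Finset ℕ → ℝ} (hF : MD P r M L F)
    (hG : MD P r M L' G) : MD P r M (L + L') (fun U => F U + G U) := by
  obtain ⟨c, h1, h2, h3, h4⟩ := hF
  obtain ⟨d, k1, k2, k3, k4⟩ := hG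
  refine ⟨fun S => c S + d S, fun S hS => by simp [h1 S hS, k1 S hS],
    fun S hS => by simp [h2 S hS, k2 S hS], ?_, fun U hU => ?_⟩
  · calc ∑ S ∈ P.powerset, |c S + d S| ≤ ∑ S ∈ P.powerset, (|c S| + |d S|) :=
          Finset.sum_le_sum (fun S _ => abs_add_le _ _)
      _ ≤ _ := by rw [Finset.sum_add_distrib]; linarith
  · show F U + G U = _
    rw [h4 U hU, k4 U hU, ← Finset.sum_add_distrib]
    apply Finset.sum_congr rfl; intro S _; ring

lemma MD.const_mul {P : Finset ℕ} {r M : ℕ} {L : ℝ} {F : Finset ℕ → ℝ} (a : ℝ)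
    (hF : MD P r M L F) : MD P r M (|a| * L) (fun U => a * F U) := by
  obtain ⟨c, h1, h2, h3, h4⟩ := hF
  refine ⟨fun S => a * c S, fun S hS => by simp [h1 S hS], fun S hS => by simp [h2 S hS], ?_,
    fun U hU => ?_⟩
  · simp_rw [abs_mul]
    rw [← Finset.mul_sum]
    exact mul_le_mul_of_nonneg_left h3 (abs_nonneg _)
  · show a * F U = _
    rw [h4 U hU, Finset.mul_sum]
    apply Finset.sum_congr rfl; intro S _; ring

lemma MD.zero (P : Finset ℕ) (r M : ℕ) : MD P r M 0 (fun _ => 0) :=
  ⟨fun _ => 0, fun _ _ => rfl, fun _ _ => rfl, by simp, fun U _ => by simp⟩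

lemma MD.congr {P : Finset ℕ} {r M : ℕ} {L : ℝ} {F G : Finset ℕ → ℝ} (hF : MD P r M L F)
    (h : ∀ U, U ⊆ P → G U = F U) : MD P r M L G := by
  obtain ⟨c, h1, h2, h3, h4⟩ := hF
  exact ⟨c, h1, h2, h3, fun U hU => by rw [h U hU, h4 U hU]⟩

lemma MD.sum {κ : Type*} {P : Finset ℕ} {r M : ℕ} (T : Finset κ) {L : κ → ℝ}
    {F : κ → Finset ℕ → ℝ} (h : ∀ t ∈ T, MD P r M (L t) (F t)) :
    MD P r M (∑ t ∈ T, L t) (fun U => ∑ t ∈ T, F t U) := by
  classical
  induction T using Finset.induction_on with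
  | empty => simpa using MD.zero P r M
  | insert t T ht ih =>
    have h1 := h t (Finset.mem_insert_self t T)
    have h2 := ih (fun s hs => h s (Finset.mem_insert_of_mem hs))
    rw [Finset.sum_insert ht]
    exact (h1.add h2).congr (fun U _ => by rw [Finset.sum_insert ht])

lemma MD.chi {P S : Finset ℕ} {r M : ℕ} (hS : S ⊆ P) (hr : S.card ≤ r) (hM : ∏ p ∈ S, p ≤ M) :
    MD P r M 1 (chi S) := by
  refine ⟨fun T => if T = S then 1 else 0, fun T hT => ?_, fun T hT => ?_, ?_, fun U hU => ?_⟩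
  · have : T ≠ S := by rintro rfl; omega
    simp [this]
  · have : T ≠ S := by rintro rfl; omega
    simp [this]
  · rw [Finset.sum_eq_single S]
    · simp
    · intro T _ hne; simp [hne]
    · intro h; exact absurd (Finset.mem_powerset.2 hS) h
  · rw [Finset.sum_eq_single S]
    · simp
    · intro T _ hne; simp [hne]
    · intro h; exact absurd (Finset.mem_powerset.2 hS) h

lemma MD.const (P : Finset ℕ) (a : ℝ) : MD P 0 1 |a| (fun _ => a) := by
  have h := (MD.chi (P := P) (S := ∅) (r := 0) (M := 1) (Finset.empty_subset P) (by simp)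
    (by simp)).const_mul a
  rw [mul_one] at h
  exact h.congr (fun U _ => by rw [chi_empty, mul_one])

lemma MD.mul {P : Finset ℕ} (hP : ∀ p ∈ P, 1 ≤ p) {r s M M' : ℕ} {L L' : ℝ} (hL' : 0 ≤ L')
    {F G : Finset ℕ → ℝ}
    (hF : MD P r M L F) (hG : MD P s M' L' G) :
    MD P (r + s) (M * M') (L * L') (fun U => F U * G U) := by
  obtain ⟨c, h1, h2, h3, h4⟩ := hF
  obtain ⟨d, k1, k2, k3, k4⟩ := hG
  have key : MD P (r + s) (M * M') (∑ S ∈ P.powerset, ∑ T ∈ P.powerset, |c S * d T|)
      (fun U => ∑ S ∈ P.powerset, ∑ T ∈ P.powerset,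
      (c S * d T) * Pool.Agent.P4f18df.chi (symmDiff S T) U) := by
    apply MD.sum
    intro S hS
    apply MD.sum
    intro T hT
    have hz : c S * d T = 0 → MD P (r + s) (M * M') |c S * d T|
        (fun U => (c S * d T) * Pool.Agent.P4f18df.chi (symmDiff S T) U) := by
      intro h0
      rw [h0, abs_zero]
      exact (MD.zero P (r + s) (M * M')).congr (fun U _ => by ring)
    by_cases hc : r < S.card
    · exact hz (by rw [h1 S hc]; ring)
    by_cases hd : s < T.card
    · exact hz (by rw [k1 T hd]; ring)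
    by_cases hc' : M < ∏ p ∈ S, p
    · exact hz (by rw [h2 S hc']; ring)
    by_cases hd' : M' < ∏ p ∈ T, p
    · exact hz (by rw [k2 T hd']; ring)
    push Not at hc hd hc' hd'
    have hSP := Finset.mem_powerset.1 hS
    have hTP := Finset.mem_powerset.1 hT
    have hsub : symmDiff S T ⊆ P := by
      intro q hq
      rcases Finset.mem_symmDiff.1 hq with h | h
      · exact hSP h.1
      · exact hTP h.1
    have h := (MD.chi (P := P) (S := symmDiff S T) (r := r + s) (M := M * M') hsub ?_ ?_).const_mul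
      (c S * d T)
    · rw [mul_one] at h
      exact h
    · calc (symmDiff S T).card ≤ (S ∪ T).card := by
            apply Finset.card_le_card
            intro q hq
            rcases Finset.mem_symmDiff.1 hq with h | h
            · exact Finset.mem_union_left _ h.1
            · exact Finset.mem_union_right _ h.1
        _ ≤ S.card + T.card := Finset.card_union_le S T
        _ ≤ r + s := by omega
    · have e : symmDiff S T = (S \ T) ∪ (T \ S) := rfl
      rw [e, Finset.prod_union (by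
        rw [Finset.disjoint_left]
        intro q h1 h2
        exact (Finset.mem_sdiff.1 h2).2 (Finset.mem_sdiff.1 h1).1)]
      apply Nat.mul_le_mul
      · refine le_trans ?_ hc'
        exact Finset.prod_le_prod_of_subset_of_one_le' Finset.sdiff_subset
          (fun q hq _ => hP q (hSP hq))
      · refine le_trans ?_ hd'
        exact Finset.prod_le_prod_of_subset_of_one_le' Finset.sdiff_subset
          (fun q hq _ => hP q (hTP hq))
  have hL : ∑ S ∈ P.powerset, ∑ T ∈ P.powerset, |c S * d T| ≤ L * L' := by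
    have : ∑ S ∈ P.powerset, ∑ T ∈ P.powerset, |c S * d T| =
        (∑ S ∈ P.powerset, |c S|) * (∑ T ∈ P.powerset, |d T|) := by
      rw [Finset.sum_mul_sum]
      apply Finset.sum_congr rfl; intro S _
      apply Finset.sum_congr rfl; intro T _
      exact abs_mul _ _
    rw [this]
    exact mul_le_mul h3 k3 (Finset.sum_nonneg (fun _ _ => abs_nonneg _))
      (le_trans (Finset.sum_nonneg (fun _ _ => abs_nonneg _)) h3)
  refine (key.mono le_rfl le_rfl hL).congr (fun U hU => ?_)
  rw [h4 U hU, k4 U hU, Finset.sum_mul_sum]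
  apply Finset.sum_congr rfl; intro S _
  apply Finset.sum_congr rfl; intro T _
  rw [← chi_mul]; ring

lemma MD.pow {P : Finset ℕ} (hP : ∀ p ∈ P, 1 ≤ p) {r M : ℕ} {L : ℝ} (hL : 0 ≤ L)
    {F : Finset ℕ → ℝ} (hF : MD P r M L F) (n : ℕ) :
    MD P (n * r) (M ^ n) (L ^ n) (fun U => (F U) ^ n) := by
  induction n with
  | zero => simpa using MD.const P 1
  | succ n ih =>
    have := MD.mul hP hL ih hF
    have e : n * r + r = (n + 1) * r := by ring
    rw [e, ← pow_succ, ← pow_succ] at this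
    exact this.congr (fun U _ => by rw [pow_succ])

/-- the twisted character attached to an odd `d` -/
def Xd (d : ℕ) (S : Finset ℕ) : ℝ := (-1) ^ S.card * ((J(((∏ p ∈ S, p : ℕ) : ℤ) | d) : ℤ) : ℝ)

lemma chi_eq_Xd {P S : Finset ℕ} (hS : S ⊆ P) {q : ℕ}
    (hq : ∀ p ∈ P, J((p : ℤ) | q) = 1 ∨ J((p : ℤ) | q) = -1) :
    chi S (P.filter (fun p : ℕ => J((p : ℤ) | q) = 1)) = Xd q S := by
  classical
  induction S using Finset.induction_on with
  | empty => simp [chi_empty, Xd, jacobiSym.one_left]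
  | insert p S hp ih =>
    have ih' := ih (fun x hx => hS (Finset.mem_insert_of_mem hx))
    have hpP := hS (Finset.mem_insert_self p S)
    have e1 : chi (insert p S) (P.filter (fun p : ℕ => J((p : ℤ) | q) = 1)) =
        sg (P.filter (fun p : ℕ => J((p : ℤ) | q) = 1)) p *
          chi S (P.filter (fun p : ℕ => J((p : ℤ) | q) = 1)) := by
      unfold chi; rw [Finset.prod_insert hp]
    rw [e1, ih']
    unfold Xd
    rw [Finset.prod_insert hp, Finset.card_insert_of_notMem hp]
    push_cast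
    rw [jacobiSym.mul_left]
    have e2 : sg (P.filter (fun p : ℕ => J((p : ℤ) | q) = 1)) p = -(J((p : ℤ) | q) : ℝ) := by
      unfold sg
      rcases hq p hpP with h | h
      · rw [if_pos (Finset.mem_filter.2 ⟨hpP, h⟩), h]; norm_num
      · rw [if_neg, h]
        · norm_num
        · intro h'
          rw [(Finset.mem_filter.1 h').2] at h
          norm_num at h
    rw [e2]
    push_cast
    ring

lemma factorization_prod_sets {n : ℕ} (t : Fin n → Finset ℕ) (ht : ∀ i, ∀ p ∈ t i, p.Prime)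
    (p : ℕ) (hp : p.Prime) :
    (∏ i, ∏ q ∈ t i, q).factorization p = (univ.filter (fun i => p ∈ t i)).card := by
  have h0 : ∀ i, ∏ q ∈ t i, q ≠ 0 := fun i => Finset.prod_ne_zero_iff.2 (fun q hq => (ht i q hq).ne_zero)
  rw [Nat.factorization_prod (fun i _ => h0 i), Finsupp.finset_sum_apply, Finset.card_filter]
  apply Finset.sum_congr rfl
  intro i _
  rw [Nat.factorization_prod (fun q hq => (ht i q hq).ne_zero), Finsupp.finset_sum_apply]
  have : ∀ q ∈ t i, q.factorization p = if q = p then 1 else 0 := by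
    intro q hq
    rw [(ht i q hq).factorization, Finsupp.single_apply]
  rw [Finset.sum_congr rfl this, Finset.sum_ite_eq']

lemma prod_Xd {n : ℕ} (t : Fin n → Finset ℕ) (d : ℕ) :
    ∏ i, Xd d (t i) = (∏ i, (-1 : ℝ) ^ (t i).card) *
      ((J(((∏ i, ∏ q ∈ t i, q : ℕ) : ℤ) | d) : ℤ) : ℝ) := by
  unfold Xd
  rw [Finset.prod_mul_distrib]
  congr 1
  induction n with
  | zero => simp [jacobiSym.one_left]
  | succ n ih =>
    rw [Fin.prod_univ_succ, Fin.prod_univ_succ]
    push_cast
    rw [jacobiSym.mul_left]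
    have := ih (fun i => t i.succ)
    push_cast at this ⊢
    rw [this]

/-- Transfer of even moments. -/
theorem md_transfer {P : Finset ℕ} (hPp : ∀ p ∈ P, p.Prime) {r M : ℕ} {L : ℝ}
    {F : Finset ℕ → ℝ} (hF : MD P r M L F) (j : ℕ) (hj : 1 ≤ j) (D : ℕ) (B : Finset ℕ)
    (hB : ∀ q ∈ B, q < D ∧ q % 2 = 1 ∧ ∀ p ∈ P, J((p : ℤ) | q) = 1 ∨ J((p : ℤ) | q) = -1) :
    ∑ q ∈ B, (F (P.filter (fun p : ℕ => J((p : ℤ) | q) = 1))) ^ (2 * j) ≤
      D * ((4 * j : ℝ) ^ r * av P (fun U => (F U) ^ 2)) ^ j +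
        4 * (M : ℝ) ^ (2 * j) * L ^ (2 * j) := by
  classical
  obtain ⟨c, h1, h2, h3, h4⟩ := hF
  set G : ℕ → ℝ := fun d => ∑ S ∈ P.powerset, c S * Xd d S with hG
  have hFG : ∀ q ∈ B, F (P.filter (fun p : ℕ => J((p : ℤ) | q) = 1)) = G q := by
    intro q hq
    rw [h4 _ (Finset.filter_subset _ _), hG]
    apply Finset.sum_congr rfl
    intro S hS
    rw [chi_eq_Xd (Finset.mem_powerset.1 hS) (hB q hq).2.2]
  rw [Finset.sum_congr rfl (fun q hq => by rw [hFG q hq])]
  -- pass to all odd `d`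
  have s1 : ∑ q ∈ B, (G q) ^ (2 * j) ≤
      ∑ d ∈ (range D).filter (fun d => d % 2 = 1), (G d) ^ (2 * j) := by
    apply Finset.sum_le_sum_of_subset_of_nonneg
    · intro q hq
      rw [Finset.mem_filter, Finset.mem_range]
      exact ⟨(hB q hq).1, (hB q hq).2.1⟩
    · intro d _ _
      rw [pow_mul]; positivity
  refine le_trans s1 ?_
  -- expand
  set T := Fintype.piFinset (fun _ : Fin (2 * j) => P.powerset) with hT
  have hexp : ∀ d, (G d) ^ (2 * j) = ∑ t ∈ T, (∏ i, c (t i)) * ∏ i, Xd d (t i) := by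
    intro d
    have : (G d) ^ (2 * j) = ∏ _i : Fin (2 * j), G d := by
      rw [Finset.prod_const, Finset.card_univ, Fintype.card_fin]
    rw [this, hG, Finset.prod_univ_sum]
    apply Finset.sum_congr rfl
    intro t _
    rw [Finset.prod_mul_distrib]
  have hswap : ∑ d ∈ (range D).filter (fun d => d % 2 = 1), (G d) ^ (2 * j) =
      ∑ t ∈ T, (∏ i, c (t i)) *
        ∑ d ∈ (range D).filter (fun d => d % 2 = 1), ∏ i, Xd d (t i) := by
    rw [Finset.sum_congr rfl (fun d _ => hexp d), Finset.sum_comm]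
    apply Finset.sum_congr rfl
    intro t _
    rw [Finset.mul_sum]
  rw [hswap]
  have hterm : ∀ t ∈ T, (∏ i, c (t i)) *
        ∑ d ∈ (range D).filter (fun d => d % 2 = 1), ∏ i, Xd d (t i) ≤
      D * ((∏ i, |c (t i)|) * av P (fun U => ∏ i, chi (t i) U)) +
        4 * (M : ℝ) ^ (2 * j) * ∏ i, |c (t i)| := by
    intro t ht
    have htP : ∀ i, t i ⊆ P := fun i =>
      Finset.mem_powerset.1 (Fintype.mem_piFinset.1 ht i)
    have hcabs : 0 ≤ ∏ i, |c (t i)| := Finset.prod_nonneg (fun _ _ => abs_nonneg _)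
    have hav0 : 0 ≤ av P (fun U => ∏ i, chi (t i) U) :=
      av_prod_chi_nonneg univ t P (fun i _ => htP i)
    by_cases hz : ∏ i, c (t i) = 0
    · rw [hz, zero_mul]; positivity
    have hcne : ∀ i, c (t i) ≠ 0 := fun i => (Finset.prod_ne_zero_iff.1 hz) i (Finset.mem_univ i)
    set nt := ∏ i, ∏ q ∈ t i, q with hnt
    have hntpos : 0 < nt := Finset.prod_pos (fun i _ => Finset.prod_pos
      (fun q hq => (hPp q (htP i hq)).pos))
    have hntM : nt ≤ M ^ (2 * j) := by
      rw [hnt]
      calc ∏ i, ∏ q ∈ t i, q ≤ ∏ _i : Fin (2 * j), M := by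
            apply Finset.prod_le_prod' 
            intro i _
            by_contra hcon
            push Not at hcon
            exact hcne i (h2 _ hcon)
        _ = M ^ (2 * j) := by
            rw [Finset.prod_const, Finset.card_univ, Fintype.card_fin]
    have hsum : ∑ d ∈ (range D).filter (fun d => d % 2 = 1), ∏ i, Xd d (t i) =
        (∏ i, (-1 : ℝ) ^ (t i).card) * ((∑ d ∈ range D, jo nt d : ℤ) : ℝ) := by
      rw [Finset.sum_congr rfl (fun d _ => prod_Xd t d), ← Finset.mul_sum]
      congr 1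
      push_cast
      rw [Finset.sum_filter]
      apply Finset.sum_congr rfl
      intro d _
      unfold jo
      split_ifs <;> simp [hnt]
    have habs1 : |∏ i, (-1 : ℝ) ^ (t i).card| = 1 := by
      rw [Finset.abs_prod]
      apply Finset.prod_eq_one
      intro i _
      rw [abs_pow]; simp
    have hle : (∏ i, c (t i)) *
        ∑ d ∈ (range D).filter (fun d => d % 2 = 1), ∏ i, Xd d (t i) ≤
        (∏ i, |c (t i)|) * |((∑ d ∈ range D, jo nt d : ℤ) : ℝ)| := by
      refine le_trans (le_abs_self _) ?_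
      rw [hsum, abs_mul, abs_mul, habs1, one_mul, Finset.abs_prod]
    refine le_trans hle ?_
    by_cases hsq : IsSquare nt
    · have hb : |((∑ d ∈ range D, jo nt d : ℤ) : ℝ)| ≤ D := by
        have : |∑ d ∈ range D, jo nt d| ≤ (D : ℤ) := by
          refine le_trans (Finset.abs_sum_le_sum_abs _ _) ?_
          refine le_trans (Finset.sum_le_sum (fun d _ => abs_jo_le nt d)) ?_
          simp
        exact_mod_cast this
      have hav : av P (fun U => ∏ i, chi (t i) U) = 1 := by
        obtain ⟨S', k1, k2, k3⟩ := prod_chi_eq univ t P (fun i _ => htP i)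
        have hS' : S' = ∅ := by
          rw [Finset.eq_empty_iff_forall_notMem]
          intro p hp
          have hpp := hPp p (k1 hp)
          have hodd := (k3 p).1 hp
          obtain ⟨m, hm⟩ := hsq
          have hf := factorization_prod_sets t (fun i q hq => hPp q (htP i hq)) p hpp
          rw [← hnt, hm] at hf
          have hm0 : m ≠ 0 := by rintro rfl; omega
          rw [Nat.factorization_mul hm0 hm0, Finsupp.add_apply] at hf
          rw [← hf] at hodd
          rcases hodd with ⟨a, ha⟩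
          omega
        rw [av_congr (fun U _ => k2 U), hS']
        have : av P (chi ∅) = av P (fun _ => 1) := av_congr (fun U _ => chi_empty U)
        rw [this, av_const]
      rw [hav, mul_one]
      have h5 : (∏ i, |c (t i)|) * |((∑ d ∈ range D, jo nt d : ℤ) : ℝ)| ≤
          (∏ i, |c (t i)|) * D := mul_le_mul_of_nonneg_left hb hcabs
      have h6 : 0 ≤ 4 * (M : ℝ) ^ (2 * j) * ∏ i, |c (t i)| := by positivity
      linarith
    · have hb : |((∑ d ∈ range D, jo nt d : ℤ) : ℝ)| ≤ 4 * (M : ℝ) ^ (2 * j) := by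
        have h5 : |∑ d ∈ range D, jo nt d| ≤ (4 * nt : ℤ) := abs_sum_jo_le hntpos hsq D
        have h6 : |((∑ d ∈ range D, jo nt d : ℤ) : ℝ)| ≤ 4 * nt := by exact_mod_cast h5
        have h7 : (nt : ℝ) ≤ (M : ℝ) ^ (2 * j) := by exact_mod_cast hntM
        linarith
      have h5 : (∏ i, |c (t i)|) * |((∑ d ∈ range D, jo nt d : ℤ) : ℝ)| ≤
          (∏ i, |c (t i)|) * (4 * (M : ℝ) ^ (2 * j)) := mul_le_mul_of_nonneg_left hb hcabs
      have h6 : 0 ≤ D * ((∏ i, |c (t i)|) * av P (fun U => ∏ i, chi (t i) U)) := by positivity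
      linarith
  refine le_trans (Finset.sum_le_sum hterm) ?_
  rw [Finset.sum_add_distrib, ← Finset.mul_sum, ← Finset.mul_sum]
  -- the function with absolute values
  set cA : Finset ℕ → ℝ := fun S => |c S| with hcA
  have hpowA : ∀ U, (∑ S ∈ P.powerset, cA S * chi S U) ^ (2 * j) =
      ∑ t ∈ T, (∏ i, cA (t i)) * ∏ i, chi (t i) U := by
    intro U
    have : (∑ S ∈ P.powerset, cA S * chi S U) ^ (2 * j) =
        ∏ _i : Fin (2 * j), ∑ S ∈ P.powerset, cA S * chi S U := by
      rw [Finset.prod_const, Finset.card_univ, Fintype.card_fin]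
    rw [this, Finset.prod_univ_sum]
    apply Finset.sum_congr rfl
    intro t _
    rw [Finset.prod_mul_distrib]
  have hA : ∑ t ∈ T, (∏ i, |c (t i)|) * av P (fun U => ∏ i, chi (t i) U) =
      av P (fun U => (∑ S ∈ P.powerset, cA S * chi S U) ^ (2 * j)) := by
    rw [av_congr (fun U _ => hpowA U), av_sum]
    apply Finset.sum_congr rfl
    intro t _
    rw [av_const_mul]
  have hLD : LD P r (fun U => ∑ S ∈ P.powerset, cA S * chi S U) :=
    ⟨cA, fun S hS => by rw [hcA]; simp [h1 S hS], fun U _ => rfl⟩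
  have hhyp := hLD.hyper j hj
  have hsqeq : av P (fun U => (∑ S ∈ P.powerset, cA S * chi S U) ^ 2) =
      av P (fun U => (F U) ^ 2) := by
    rw [av_sq_expansion, av_congr (fun U hU => by rw [h4 U hU]), av_sq_expansion]
    apply Finset.sum_congr rfl
    intro S _
    rw [hcA]; exact sq_abs _
  rw [hsqeq] at hhyp
  have hL2 : ∑ t ∈ T, ∏ i, |c (t i)| ≤ L ^ (2 * j) := by
    have : ∑ t ∈ T, ∏ i, |c (t i)| = (∑ S ∈ P.powerset, |c S|) ^ (2 * j) := by
      have : (∑ S ∈ P.powerset, |c S|) ^ (2 * j) =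
          ∏ _i : Fin (2 * j), ∑ S ∈ P.powerset, |c S| := by
        rw [Finset.prod_const, Finset.card_univ, Fintype.card_fin]
      rw [this, Finset.prod_univ_sum]
    rw [this]
    exact pow_le_pow_left₀ (Finset.sum_nonneg (fun _ _ => abs_nonneg _)) h3 _
  rw [hA]
  apply add_le_add
  · exact mul_le_mul_of_nonneg_left hhyp (Nat.cast_nonneg _)
  · exact mul_le_mul_of_nonneg_left hL2 (by positivity)

end Pool.Agent.P4f18df
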