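import Pool.Agent.Lib.P4f18df.Real

/-!
# The law for a sequence of functions
-/

set_option autoImplicit false

namespace Pool.Agent.P4f18df

open Finset Filter MeasureTheory ProbabilityTheory

/-- smallness of the moment discrepancies for a sequence of functions and scales -/
def MomArr (f : ℕ → ℕ → ℝ) (Nn : ℕ → ℕ) : Prop :=
  ∀ k q : ℕ, 1 ≤ k → 1 ≤ q → ∀ η : ℝ, 0 < η → ∀ᶠ i : ℕ in atTop, ∀ h : ℕ, 1 ≤ h →
    (h : ℝ) ≤ (Nn i : ℝ) ^ (1 - 1 / q : ℝ) → |Dk (f i) k (Nn i) h| ≤ η * (Real.sqrt h) ^ k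

/-- The discrete characteristic function converges. -/
theorem disc_charFun_arr {f : ℕ → ℕ → ℝ} {Nn : ℕ → ℕ} (hNn : Tendsto Nn atTop atTop)
    (hm : MomArr f Nn) (q : ℕ) (hq : 1 ≤ q) (θ ε : ℝ) (hε : 0 < ε) :
    ∃ h₀ : ℕ, ∀ᶠ i : ℕ in atTop, ∀ h : ℕ, h₀ ≤ h → (h : ℝ) ≤ (Nn i : ℝ) ^ (1 - 1 / q : ℝ) →
      ‖Phi (f i) (θ / sig h) (Nn i) h - ((Real.exp (-(θ ^ 2 / 2)) : ℝ) : ℂ)‖ ≤ ε := by
  set c : ℝ := |θ| * Real.sqrt (Real.pi ^ 2 / 6) with hc
  have hc0 : 0 ≤ c := by positivity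
  have hθ : θ ^ 2 * (Real.pi ^ 2 / 6) = c ^ 2 := by
    rw [hc, mul_pow, sq_abs, Real.sq_sqrt (by positivity)]
  obtain ⟨j, hj, hjB⟩ := exists_j c (ε / 8) (by positivity)
  set η : ℝ := ε / 4 / Real.exp c with hη
  have hη0 : 0 < η := by positivity
  have hηe : η * Real.exp c = ε / 4 := by
    rw [hη]; field_simp
  have hlim : Tendsto (fun h : ℕ => c ^ 4 / (h : ℝ) + 9 * c ^ 2 / 2 / Real.sqrt h) atTop
      (nhds (0 + 0)) := by
    apply Tendsto.add
    · exact tendsto_const_nhds.div_atTop tendsto_natCast_atTop_atTop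
    · exact tendsto_const_nhds.div_atTop
        (Real.tendsto_sqrt_atTop.comp tendsto_natCast_atTop_atTop)
  rw [add_zero] at hlim
  have h1 : ∀ᶠ h : ℕ in atTop, c ^ 4 / (h : ℝ) + 9 * c ^ 2 / 2 / Real.sqrt h ≤ ε / 4 :=
    (hlim.eventually (gt_mem_nhds (by positivity : 0 < ε / 4))).mono (fun _ h => le_of_lt h)
  have h2 : ∀ᶠ h : ℕ in atTop, c ≤ Real.sqrt h :=
    (Real.tendsto_sqrt_atTop.comp tendsto_natCast_atTop_atTop).eventually_ge_atTop c
  obtain ⟨h₀, hh₀⟩ := eventually_atTop.1 (h1.and (h2.and (eventually_ge_atTop 1)))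
  refine ⟨h₀, ?_⟩
  have h3 : ∀ᶠ i : ℕ in atTop, ∀ k ∈ Icc 1 (2 * j), ∀ h : ℕ, 1 ≤ h →
      (h : ℝ) ≤ (Nn i : ℝ) ^ (1 - 1 / q : ℝ) → |Dk (f i) k (Nn i) h| ≤ η * (Real.sqrt h) ^ k := by
    rw [Filter.eventually_all_finset]
    intro k hk
    exact hm k q (Finset.mem_Icc.1 hk).1 hq η hη0
  filter_upwards [h3, hNn.eventually_ge_atTop 1] with i hN hN1 h hh0 hhN
  set N := Nn i with hNdef
  obtain ⟨g1, g2, g3⟩ := hh₀ h hh0
  have hhN' : h ≤ N := by
    have : (h : ℝ) ≤ (N : ℝ) := by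
      refine le_trans hhN ?_
      calc (N : ℝ) ^ (1 - 1 / q : ℝ) ≤ (N : ℝ) ^ (1 : ℝ) := by
            apply Real.rpow_le_rpow_of_exponent_le (by exact_mod_cast hN1)
            have : 0 ≤ (1 / q : ℝ) := by positivity
            linarith
        _ = N := Real.rpow_one _
    exact_mod_cast this
  have := Phi_bound (f := f i) hj g3 hhN' c η θ hc0 hη0.le hθ g2 (fun k hk => hN k hk h g3 hhN)
  linarith

/-- The deterministic theorem. -/
theorem gauss_of_momArr {f : ℕ → ℕ → ℝ} (hf : ∀ i, SgnFun (f i)) (X H : ℕ → ℝ)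
    (hX : Tendsto X atTop atTop) (hm : MomArr f (fun i => ⌊X i⌋₊)) (ε : ℝ) (hε : 0 < ε)
    (hH1 : Tendsto H atTop atTop)
    (hH2 : ∀ᶠ i in atTop, H i ≤ (X i) ^ (1 - ε)) (t : ℝ) :
    Tendsto (fun i : ℕ => (volume {x : ℝ | x ∈ Set.Icc (X i) (2 * X i) ∧
        Ms (f i) x (H i) / Real.sqrt (H i / (Real.pi ^ 2 / 6)) ≤ t}).toReal / X i) atTop
      (nhds (ProbabilityTheory.cdf (ProbabilityTheory.gaussianReal 0 1) t)) := by
  -- choose q with 1/q < ε
  obtain ⟨q, hq⟩ := exists_nat_gt (2 / ε)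
  have hq0 : 0 < q := by
    have : (0:ℝ) < q := lt_trans (by positivity) hq
    exact_mod_cast this
  have hqε : (1 / q : ℝ) ≤ ε / 2 := by
    rw [div_lt_iff₀ hε] at hq
    rw [div_le_iff₀ (by exact_mod_cast hq0)]
    linarith
  -- the characteristic functions converge
  have hchar : ∀ θ : ℝ, Tendsto (fun i : ℕ => charFun ((unif (X i)).map (Zm (f i) (X i) (H i))) θ)
      atTop (nhds ((Real.exp (-(θ ^ 2 / 2)) : ℝ) : ℂ)) := by
    intro θ
    rw [Metric.tendsto_nhds]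
    intro δ hδ
    have hNn : Tendsto (fun i => ⌊X i⌋₊) atTop atTop := tendsto_nat_floor_atTop.comp hX
    obtain ⟨h₀, hh₀⟩ := disc_charFun_arr hNn hm q hq0 θ (δ / 2) (by positivity)
    have c1 : ∀ᶠ i : ℕ in atTop, ∀ h : ℕ, h₀ ≤ h →
      (h : ℝ) ≤ ((⌊X i⌋₊ : ℕ) : ℝ) ^ (1 - 1 / q : ℝ) →
      ‖Phi (f i) (θ / sig h) ⌊X i⌋₊ h - ((Real.exp (-(θ ^ 2 / 2)) : ℝ) : ℂ)‖ ≤ δ / 2 := hh₀
    have c2 : ∀ᶠ i : ℕ in atTop, h₀ ≤ ⌊H i⌋₊ :=
      (tendsto_nat_floor_atTop.comp hH1).eventually_ge_atTop h₀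
    have c3 : ∀ᶠ i : ℕ in atTop, |θ| * (5 / Real.sqrt ⌊H i⌋₊) < δ / 6 := by
      have : Tendsto (fun i : ℕ => |θ| * (5 / Real.sqrt ⌊H i⌋₊)) atTop (nhds (|θ| * 0)) := by
        apply Tendsto.const_mul
        apply tendsto_const_nhds.div_atTop
        exact Real.tendsto_sqrt_atTop.comp (tendsto_natCast_atTop_atTop.comp
          (tendsto_nat_floor_atTop.comp hH1))
      rw [mul_zero] at this
      exact this.eventually (gt_mem_nhds (by positivity))
    have c4 : ∀ᶠ X : ℝ in atTop, X ^ (-ε) < δ / 12 := by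
      have := tendsto_rpow_neg_atTop hε
      exact this.eventually (gt_mem_nhds (by positivity))
    have c5 : ∀ᶠ X : ℝ in atTop, 5 / X < δ / 12 := by
      have : Tendsto (fun X : ℝ => 5 / X) atTop (nhds 0) :=
        tendsto_const_nhds.div_atTop tendsto_id
      exact this.eventually (gt_mem_nhds (by positivity))
    have c6 : ∀ᶠ X : ℝ in atTop, X ^ (1 - ε) ≤ ((⌊X⌋₊ : ℕ) : ℝ) ^ (1 - 1 / q : ℝ) := by
      -- X^(1-ε) ≤ (X/2)^(1-1/q)
      have d1 : ∀ᶠ X : ℝ in atTop, (2:ℝ) ≤ X ^ (ε / 2) :=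
        (tendsto_rpow_atTop (by positivity)).eventually_ge_atTop 2
      filter_upwards [d1, eventually_ge_atTop 2] with X hX1 hX2
      have hX0 : (0:ℝ) < X := by linarith
      have n2 : X < (⌊X⌋₊ : ℝ) + 1 := Nat.lt_floor_add_one _
      have hfl : X / 2 ≤ (⌊X⌋₊ : ℝ) := by linarith
      have hexp : 0 ≤ (1 - 1 / q : ℝ) := by
        have : (1 / q : ℝ) ≤ 1 := by
          rw [div_le_one (by exact_mod_cast hq0)]; exact_mod_cast hq0
        linarith
      have hq1 : 0 ≤ (1 / q : ℝ) := by positivity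
      calc X ^ (1 - ε) ≤ X ^ ((1 - 1 / q : ℝ) - ε / 2) := by
            apply Real.rpow_le_rpow_of_exponent_le (by linarith)
            linarith
        _ = X ^ (1 - 1 / q : ℝ) / X ^ (ε / 2) := by rw [Real.rpow_sub hX0]
        _ ≤ X ^ (1 - 1 / q : ℝ) / 2 := by
            apply div_le_div_of_nonneg_left (by positivity) (by norm_num) hX1
        _ ≤ X ^ (1 - 1 / q : ℝ) / 2 ^ (1 - 1 / q : ℝ) := by
            apply div_le_div_of_nonneg_left (by positivity) (by positivity)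
            calc (2:ℝ) ^ (1 - 1 / q : ℝ) ≤ 2 ^ (1:ℝ) := by
                  apply Real.rpow_le_rpow_of_exponent_le (by norm_num); linarith
              _ = 2 := Real.rpow_one 2
        _ = (X / 2) ^ (1 - 1 / q : ℝ) := by rw [Real.div_rpow hX0.le (by norm_num)]
        _ ≤ _ := Real.rpow_le_rpow (by positivity) hfl hexp
    filter_upwards [c1, c2, c3, hX.eventually c4, hX.eventually c5, hX.eventually c6, hH2,
      hH1.eventually_ge_atTop 1, hX.eventually_ge_atTop 1] with i g1 g2 g3 g4 g5 g6 g7 g8 g9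
    have hX0 : (0:ℝ) < X i := by linarith
    have hfl : ((⌊H i⌋₊ : ℕ) : ℝ) ≤ H i := Nat.floor_le (by linarith)
    have k1 := g1 ⌊H i⌋₊ g2 (by linarith)
    have hHX : H i ≤ X i * X i ^ (-ε) := by
      refine le_trans g7 (le_of_eq ?_)
      rw [sub_eq_add_neg, Real.rpow_add hX0, Real.rpow_one]
    have hHX' : H i ≤ X i := by
      refine le_trans g7 ?_
      calc X i ^ (1 - ε) ≤ X i ^ (1:ℝ) := Real.rpow_le_rpow_of_exponent_le g9 (by linarith)
        _ = X i := Real.rpow_one (X i)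
    have k2 := charFun_bound (hf i) g9 g8 hHX' θ
    have k3 : (H i + 4) / X i + 1 / X i ≤ X i ^ (-ε) + 5 / X i := by
      have : H i / X i ≤ X i ^ (-ε) := by
        rw [div_le_iff₀ hX0]; linarith
      have e : (H i + 4) / X i + 1 / X i = H i / X i + 5 / X i := by ring
      rw [e]; linarith
    rw [dist_eq_norm]
    calc ‖charFun ((unif (X i)).map (Zm (f i) (X i) (H i))) θ -
            ((Real.exp (-(θ ^ 2 / 2)) : ℝ) : ℂ)‖
        = ‖(charFun ((unif (X i)).map (Zm (f i) (X i) (H i))) θ -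
              Phi (f i) (θ / sig ⌊H i⌋₊) ⌊X i⌋₊ ⌊H i⌋₊) +
          (Phi (f i) (θ / sig ⌊H i⌋₊) ⌊X i⌋₊ ⌊H i⌋₊ -
            ((Real.exp (-(θ ^ 2 / 2)) : ℝ) : ℂ))‖ := by
          congr 1; ring
      _ ≤ _ := norm_add_le _ _
      _ < δ := by linarith
  -- weak convergence
  set v : ℕ → ℝ := fun n => max (X n) 1 with hv
  have hv1 : ∀ n, 1 ≤ v n := fun n => le_max_right _ _
  have huv : ∀ᶠ n in atTop, v n = X n := by
    filter_upwards [hX.eventually_ge_atTop 1] with n hn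
    exact max_eq_left hn
  have hprob : ∀ n, IsProbabilityMeasure ((unif (v n)).map (Zm (f n) (v n) (H n))) := by
    intro n
    have := unif_prob (show 0 < v n by have := hv1 n; linarith)
    exact Measure.isProbabilityMeasure_map (measurable_Zm _ _ _).aemeasurable
  set μs : ℕ → ProbabilityMeasure ℝ := fun n => ⟨(unif (v n)).map (Zm (f n) (v n) (H n)), hprob n⟩
    with hμs
  set μ0 : ProbabilityMeasure ℝ := ⟨ProbabilityTheory.gaussianReal 0 1, inferInstance⟩ with hμ0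
  have hconv : Tendsto μs atTop (nhds μ0) := by
    rw [ProbabilityMeasure.tendsto_iff_tendsto_charFun]
    intro θ
    have h1 : charFun (μ0 : Measure ℝ) θ = ((Real.exp (-(θ ^ 2 / 2)) : ℝ) : ℂ) := by
      rw [hμ0]
      simp only [ProbabilityMeasure.coe_mk]
      rw [ProbabilityTheory.charFun_gaussianReal]
      push_cast
      congr 1; simp
    rw [h1]
    refine (hchar θ).congr' ?_
    filter_upwards [huv] with n hn
    rw [hμs]
    simp only [ProbabilityMeasure.coe_mk, hn]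
  have hfront : (μ0 : Measure ℝ) (frontier (Set.Iic t)) = 0 := by
    rw [frontier_Iic]
    have := ProbabilityTheory.nullSingletonClass_gaussianReal (μ := 0) (v := 1) (by norm_num)
    show (ProbabilityTheory.gaussianReal 0 1) {t} = 0
    exact measure_singleton t
  have hlim := ProbabilityMeasure.tendsto_measure_of_null_frontier_of_tendsto' hconv hfront
  have hlim2 : Tendsto (fun n => ((μs n : Measure ℝ) (Set.Iic t)).toReal) atTop
      (nhds ((μ0 : Measure ℝ) (Set.Iic t)).toReal) :=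
    (ENNReal.tendsto_toReal (measure_ne_top _ _)).comp hlim
  have h0 : ((μ0 : Measure ℝ) (Set.Iic t)).toReal =
      ProbabilityTheory.cdf (ProbabilityTheory.gaussianReal 0 1) t := by
    rw [ProbabilityTheory.cdf_eq_real]; rfl
  rw [h0] at hlim2
  refine hlim2.congr' ?_
  have hHpos : ∀ᶠ n in atTop, 0 ≤ H n := hH1.eventually_ge_atTop 0
  filter_upwards [huv, hHpos] with n hn hHn
  have hun : 1 ≤ X n := hn ▸ hv1 n
  have hun0 : 0 < X n := by linarith
  simp only [hμs, ProbabilityMeasure.coe_mk, hn]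
  rw [Measure.map_apply (measurable_Zm _ _ _) measurableSet_Iic]
  unfold unif
  rw [Measure.smul_apply, Measure.restrict_apply (measurable_Zm _ _ _ measurableSet_Iic),
    smul_eq_mul, ENNReal.toReal_mul, ENNReal.toReal_inv, ENNReal.toReal_ofReal hun0.le]
  rw [div_eq_inv_mul]
  congr 2
  congr 1
  ext x
  simp only [Set.mem_inter_iff, Set.mem_preimage, Set.mem_Iic, Set.mem_setOf_eq]
  constructor
  · rintro ⟨h1, h2⟩
    refine ⟨h2, ?_⟩
    rw [Zm_eq hHn h2.2] at h1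
    exact h1
  · rintro ⟨h1, h2⟩
    refine ⟨?_, h1⟩
    rw [Zm_eq hHn h1.2]
    exact h2

end Pool.Agent.P4f18df
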