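import Pool.Agent.Lib.P4f18df.Asym
import Pool.Agent.Lib.P4f18df.TwFour

/-!
# Exceptional primes for the twisted Möbius function at a fixed scale
-/

set_option autoImplicit false

namespace Pool.Agent.P4f18df

open Finset Filter NumberTheorySymbols

/-- the Möbius function twisted by the Legendre symbol modulo `p` -/
noncomputable def tw (p n : ℕ) : ℝ :=
  (ArithmeticFunction.moebius n : ℝ) * ((J((n : ℤ) | p) : ℤ) : ℝ)

lemma jac_ne {p l : ℕ} (hp : p.Prime) (hl : l.Prime) (hlt : l < p) :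
    J((l : ℤ) | p) = 1 ∨ J((l : ℤ) | p) = -1 := by
  apply jacobiSym.eq_one_or_neg_one
  rw [Int.gcd_natCast_natCast]
  exact (Nat.coprime_primes hl hp).2 hlt.ne

lemma PN_prime {N l : ℕ} (h : l ∈ PN N) : l.Prime := (Finset.mem_filter.1 h).2

lemma PN_le {N l : ℕ} (h : l ∈ PN N) : l ≤ 3 * N := by
  have := Finset.mem_range.1 (Finset.mem_filter.1 h).1
  omega

lemma tw_eq {p N n : ℕ} (hp : p.Prime) (hN : 3 * N < p) (hn' : n ≤ 3 * N) :
    tw p n = fU ((PN N).filter (fun l : ℕ => J((l : ℤ) | p) = 1)) n := by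
  unfold tw fU
  split_ifs with hsq
  · have hn0 : n ≠ 0 := hsq.ne_zero
    rw [chi_eq_Xd (PN_sub N n (Nat.pos_of_ne_zero hn0) hn')
      (fun l hl => jac_ne hp (PN_prime hl) (lt_of_le_of_lt (PN_le hl) hN))]
    unfold Xd
    rw [Nat.prod_primeFactors_of_squarefree hsq, ArithmeticFunction.moebius_apply_of_squarefree hsq]
    have : ArithmeticFunction.cardFactors n = n.primeFactors.card := by
      rw [← (ArithmeticFunction.cardDistinctFactors_eq_cardFactors_iff_squarefree hn0).2 hsq]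
      rfl
    rw [this]
    push_cast
    ring
  · rw [ArithmeticFunction.moebius_eq_zero_of_not_squarefree hsq]; simp

lemma Dk_tw {p N h : ℕ} (hp : p.Prime) (hN : 3 * N < p) (k : ℕ) (hh : h ≤ N) :
    Dk (tw p) k N h = Dk (fU ((PN N).filter (fun l : ℕ => J((l : ℤ) | p) = 1))) k N h := by
  unfold Dk
  congr 1
  apply Finset.sum_congr rfl
  intro a ha
  rw [Finset.mem_Ioc] at ha
  have : Wd (tw p) h a = Wd (fU ((PN N).filter (fun l : ℕ => J((l : ℤ) | p) = 1))) h a := by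
    unfold Wd
    apply Finset.sum_congr rfl
    intro n hn
    rw [Finset.mem_Ioc] at hn
    exact tw_eq hp hN (by omega)
  rw [this]

lemma triv_le_pow {κ : Type*} [DecidableEq κ] (k : ℕ) (A : Finset κ) :
    triv k A ≤ A.card ^ k := by
  unfold triv
  refine le_trans (Finset.card_filter_le _ _) ?_
  rw [Fintype.card_piFinset, Finset.prod_const, Finset.card_univ, Fintype.card_fin]

lemma MD_Dk {N h k : ℕ} (hN : 1 ≤ N) (hh : h ≤ N) :
    MD (PN N) (k * rN N) ((3 * N) ^ k) (2 * (h : ℝ) ^ k) (fun U => Dk (fU U) k N h) := by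
  have hNr : (0:ℝ) < N := by exact_mod_cast hN
  have hP1 : ∀ p ∈ PN N, 1 ≤ p := fun p hp => (PN_prime hp).one_le
  have hM1 : 1 ≤ (3 * N) ^ k := Nat.one_le_pow _ _ (by omega)
  have h1 : ∀ a ∈ Ioc N (2 * N), MD (PN N) (k * rN N) ((3 * N) ^ k) (2 * (h : ℝ) ^ k)
      (fun U => (WQ U (Q h a)) ^ k + -(triv k (Q h a) : ℝ)) := by
    intro a ha
    rw [Finset.mem_Ioc] at ha
    have hgood : Good N (Q h a) := good_Q (by omega) (by omega)
    have hcard : ((Q h a).card : ℝ) ≤ h := by exact_mod_cast card_Q_le h a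
    have hW : MD (PN N) (rN N) (3 * N) h (fun U => WQ U (Q h a)) := by
      have := MD.sum (P := PN N) (r := rN N) (M := 3 * N) (Q h a) (L := fun _ => 1)
        (F := fun n U => cn U n) (fun n hn => by
          have hg := hgood n hn
          exact MD.chi (PN_sub N n (by omega) hg.2.2) (le_rN (by omega) hg.2.2)
            (by rw [Nat.prod_primeFactors_of_squarefree hg.1]; exact hg.2.2))
      refine this.mono le_rfl le_rfl ?_
      simpa using hcard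
    have hWk := MD.pow hP1 (Nat.cast_nonneg h) hW k
    have hc : MD (PN N) (k * rN N) ((3 * N) ^ k) ((h : ℝ) ^ k)
        (fun _ => -(triv k (Q h a) : ℝ)) := by
      refine (MD.const (PN N) (-(triv k (Q h a) : ℝ))).mono (Nat.zero_le _) hM1 ?_
      rw [abs_neg, Nat.abs_cast]
      have h2 : (triv k (Q h a) : ℝ) ≤ ((Q h a).card : ℝ) ^ k := by exact_mod_cast triv_le_pow k _
      exact h2.trans (pow_le_pow_left₀ (Nat.cast_nonneg _) hcard k)
    have := hWk.add hc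
    exact this.mono le_rfl le_rfl (by linarith)
  have h2 := (MD.sum (Ioc N (2 * N)) h1).const_mul (1 / N : ℝ)
  refine (h2.mono le_rfl le_rfl ?_).congr (fun U _ => ?_)
  · rw [Finset.sum_const, Nat.card_Ioc, nsmul_eq_mul, abs_of_pos (by positivity)]
    apply le_of_eq
    have : ((2 * N - N : ℕ) : ℝ) = N := by
      congr 1; omega
    rw [this]; field_simp
  · unfold Dk
    rw [Finset.sum_congr rfl (fun a _ => by rw [Wd_fU, sub_eq_add_neg] :
      ∀ a ∈ Ioc N (2 * N), (Wd (fU U) h a) ^ k - (triv k (Q h a) : ℝ) =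
        (WQ U (Q h a)) ^ k + -(triv k (Q h a) : ℝ))]
    ring

/-- Few primes are exceptional at a given scale. -/
theorem twist_tail (k q b : ℕ) (hk : 1 ≤ k) (hq : 1 ≤ q) :
    ∃ c : ℝ, 0 < c ∧ ∃ A : ℕ, ∀ᶠ N : ℕ in atTop, ∀ h : ℕ, 1 ≤ h →
      (h : ℝ) ≤ (N : ℝ) ^ (1 - 1 / q : ℝ) → ∀ D : ℕ, N ^ A ≤ D →
      (((range D).filter (fun p => p.Prime ∧ 3 * N < p ∧
        (Real.sqrt h) ^ k * (N : ℝ) ^ (-c) < |Dk (tw p) k N h|)).card : ℝ) ≤
        D * ((N : ℝ) ^ b)⁻¹ := by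
  obtain ⟨c, hc, hV⟩ := var_asymp k q hk hq
  obtain ⟨j, hj⟩ := exists_nat_gt (4 * (b + 1) / c)
  have hj0 : 0 < j := by
    have : (0:ℝ) < j := lt_trans (by positivity) hj
    exact_mod_cast this
  have hjc : (b : ℝ) + 1 ≤ j * (c / 4) := by
    rw [div_lt_iff₀ hc] at hj; linarith
  have hρ : (1:ℝ) ≤ (4 * j : ℝ) ^ k := by
    apply one_le_pow₀
    have : (1:ℝ) ≤ j := by exact_mod_cast hj0
    linarith
  obtain ⟨s, hs⟩ := exists_nat_ge (j * (c / 4))
  refine ⟨c / 8, by positivity, 4 * j * k + s + 1 + (b + 1), ?_⟩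
  filter_upwards [hV, eventually_pow_rN ((4 * j : ℝ) ^ k) hρ (c / 2) (by positivity),
    eventually_ge_atTop (4 * 3 ^ (2 * j * k) * 2 ^ (2 * j)), eventually_ge_atTop 2]
    with N hV h1 h2N hN2 h hh1 hh D hD
  have hN : 1 ≤ N := by omega
  have hNr : (0:ℝ) < N := by exact_mod_cast hN
  have hN1 : (1:ℝ) ≤ N := by exact_mod_cast hN
  have hhN : h ≤ N := by
    have : (h : ℝ) ≤ (N : ℝ) := by
      refine le_trans hh ?_
      calc (N : ℝ) ^ (1 - 1 / q : ℝ) ≤ (N : ℝ) ^ (1 : ℝ) := by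
            apply Real.rpow_le_rpow_of_exponent_le hN1
            have : 0 ≤ (1 / q : ℝ) := by positivity
            linarith
        _ = N := Real.rpow_one _
    exact_mod_cast this
  have hhr : (0:ℝ) < h := by exact_mod_cast hh1
  have hhNr : (h : ℝ) ≤ N := by exact_mod_cast hhN
  set lam : ℝ := (Real.sqrt h) ^ k * (N : ℝ) ^ (-(c / 8)) with hlam
  have hlam0 : 0 < lam := by
    have : 0 < Real.sqrt h := Real.sqrt_pos.2 hhr
    positivity
  have hlam2 : lam ^ 2 = (h : ℝ) ^ k * (N : ℝ) ^ (-(c / 4)) := by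
    rw [hlam, mul_pow, ← pow_mul, mul_comm k 2, pow_mul, Real.sq_sqrt hhr.le,
      ← Real.rpow_natCast _ 2, ← Real.rpow_mul hNr.le]
    congr 2; push_cast; ring
  set B := (range D).filter (fun p => p.Prime ∧ 3 * N < p ∧ lam < |Dk (tw p) k N h|) with hB
  have hBmem : ∀ p ∈ B, p < D ∧ p.Prime ∧ 3 * N < p ∧ lam < |Dk (tw p) k N h| := by
    intro p hp
    rw [hB, Finset.mem_filter, Finset.mem_range] at hp
    exact hp
  have htr := md_transfer (fun p hp => PN_prime hp) (MD_Dk (k := k) hN hhN) j hj0 D B (by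
    intro p hp
    obtain ⟨h1, h2, h3, _⟩ := hBmem p hp
    refine ⟨h1, ?_, fun l hl => jac_ne h2 (PN_prime hl) (lt_of_le_of_lt (PN_le hl) h3)⟩
    rcases h2.eq_two_or_odd with h4 | h4
    · omega
    · exact h4)
  have hlow : (B.card : ℝ) * lam ^ (2 * j) ≤
      ∑ p ∈ B, (Dk (fU ((PN N).filter (fun l : ℕ => J((l : ℤ) | p) = 1))) k N h) ^ (2 * j) := by
    rw [← nsmul_eq_mul]
    apply Finset.card_nsmul_le_sum
    intro p hp
    obtain ⟨_, g2, g3, g4⟩ := hBmem p hp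
    rw [← Dk_tw g2 g3 k hhN, pow_mul, pow_mul (Dk (tw p) k N h), ← sq_abs (Dk (tw p) k N h)]
    exact pow_le_pow_left₀ (by positivity) (pow_le_pow_left₀ hlam0.le g4.le 2) j
  have hmain : (B.card : ℝ) * lam ^ (2 * j) ≤
      D * ((h : ℝ) ^ k * (N : ℝ) ^ (-(c / 2))) ^ j +
        4 * (((3 * N) ^ k : ℕ) : ℝ) ^ (2 * j) * (2 * (h : ℝ) ^ k) ^ (2 * j) := by
    refine le_trans hlow (le_trans htr ?_)
    apply add_le_add _ le_rfl
    apply mul_le_mul_of_nonneg_left _ (Nat.cast_nonneg _)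
    have h0 : 0 ≤ av (PN N) (fun U => (Dk (fU U) k N h) ^ 2) := av_nonneg (fun U _ => sq_nonneg _)
    apply pow_le_pow_left₀ (by positivity)
    calc (4 * j : ℝ) ^ (k * rN N) * av (PN N) (fun U => (Dk (fU U) k N h) ^ 2)
        ≤ (N : ℝ) ^ (c / 2) * ((h : ℝ) ^ k * (N : ℝ) ^ (-c)) := by
          rw [pow_mul]
          gcongr
          exact hV h hh
      _ = (h : ℝ) ^ k * ((N : ℝ) ^ (c / 2) * (N : ℝ) ^ (-c)) := by ring
      _ = _ := by rw [← Real.rpow_add hNr]; congr 2; ring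
  -- first term
  have hlam2j : lam ^ (2 * j) = ((h : ℝ) ^ k * (N : ℝ) ^ (-(c / 4))) ^ j := by
    rw [pow_mul, hlam2]
  have hl0 : 0 < lam ^ (2 * j) := by positivity
  have hNb : (0:ℝ) < (N : ℝ) ^ b := by positivity
  have t1 : D * ((h : ℝ) ^ k * (N : ℝ) ^ (-(c / 2))) ^ j ≤
      (D * ((N : ℝ) ^ (b + 1))⁻¹) * lam ^ (2 * j) := by
    rw [hlam2j, mul_assoc]
    apply mul_le_mul_of_nonneg_left _ (Nat.cast_nonneg _)
    have e1 : (N : ℝ) ^ (-(c / 2)) = (N : ℝ) ^ (-(c / 4)) * (N : ℝ) ^ (-(c / 4)) := by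
      rw [← Real.rpow_add hNr]; congr 1; ring
    rw [e1, ← mul_assoc, mul_pow ((h : ℝ) ^ k * (N : ℝ) ^ (-(c / 4))), mul_comm]
    apply mul_le_mul_of_nonneg_right _ (by positivity)
    rw [← Real.rpow_natCast, ← Real.rpow_mul hNr.le, ← Real.rpow_natCast, ← Real.rpow_neg hNr.le]
    apply Real.rpow_le_rpow_of_exponent_le hN1
    push_cast
    linarith
  -- second term
  have hlamlow : ((N : ℝ) ^ s)⁻¹ ≤ lam ^ (2 * j) := by
    rw [hlam2j, mul_pow]
    have g1 : (1:ℝ) ≤ ((h : ℝ) ^ k) ^ j := one_le_pow₀ (one_le_pow₀ (by exact_mod_cast hh1))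
    have g2 : ((N : ℝ) ^ s)⁻¹ ≤ ((N : ℝ) ^ (-(c / 4))) ^ j := by
      rw [← Real.rpow_natCast, ← Real.rpow_natCast, ← Real.rpow_mul hNr.le, ← Real.rpow_neg hNr.le]
      apply Real.rpow_le_rpow_of_exponent_le hN1
      linarith
    calc ((N : ℝ) ^ s)⁻¹ ≤ ((N : ℝ) ^ (-(c / 4))) ^ j := g2
      _ = 1 * ((N : ℝ) ^ (-(c / 4))) ^ j := (one_mul _).symm
      _ ≤ _ := mul_le_mul_of_nonneg_right g1 (by positivity)
  have t2 : 4 * (((3 * N) ^ k : ℕ) : ℝ) ^ (2 * j) * (2 * (h : ℝ) ^ k) ^ (2 * j) ≤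
      (D * ((N : ℝ) ^ (b + 1))⁻¹) * lam ^ (2 * j) := by
    have g1 : 4 * (((3 * N) ^ k : ℕ) : ℝ) ^ (2 * j) * (2 * (h : ℝ) ^ k) ^ (2 * j) ≤
        (N : ℝ) ^ (4 * j * k + 1) := by
      have e1 : (2 * (h : ℝ) ^ k) ^ (2 * j) ≤ (2 * (N : ℝ) ^ k) ^ (2 * j) := by gcongr
      calc 4 * (((3 * N) ^ k : ℕ) : ℝ) ^ (2 * j) * (2 * (h : ℝ) ^ k) ^ (2 * j)
          ≤ 4 * (((3 * N) ^ k : ℕ) : ℝ) ^ (2 * j) * (2 * (N : ℝ) ^ k) ^ (2 * j) := by gcongr
        _ = (4 * 3 ^ (2 * j * k) * 2 ^ (2 * j) : ℝ) * (N : ℝ) ^ (4 * j * k) := by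
            push_cast
            rw [← pow_mul, mul_pow (3:ℝ), mul_pow (2:ℝ), ← pow_mul]
            have : (N : ℝ) ^ (4 * j * k) = (N : ℝ) ^ (k * (2 * j)) * (N : ℝ) ^ (k * (2 * j)) := by
              rw [← pow_add]; congr 1; ring
            rw [this]; ring
        _ ≤ (N : ℝ) * (N : ℝ) ^ (4 * j * k) := by
            apply mul_le_mul_of_nonneg_right _ (by positivity)
            exact_mod_cast h2N
        _ = _ := by rw [pow_succ]; ring
    refine le_trans g1 ?_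
    have g2 : (N : ℝ) ^ (4 * j * k + s + 1 + (b + 1)) ≤ D := by exact_mod_cast hD
    calc (N : ℝ) ^ (4 * j * k + 1) = ((N : ℝ) ^ (4 * j * k + s + 1 + (b + 1)) *
          ((N : ℝ) ^ (b + 1))⁻¹) * ((N : ℝ) ^ s)⁻¹ := by
          have : (N : ℝ) ^ (4 * j * k + s + 1 + (b + 1)) =
              (N : ℝ) ^ (4 * j * k + 1) * (N : ℝ) ^ s * (N : ℝ) ^ (b + 1) := by
            rw [← pow_add, ← pow_add]; congr 1; ring
          rw [this]; field_simp
      _ ≤ (D * ((N : ℝ) ^ (b + 1))⁻¹) * lam ^ (2 * j) := by gcongr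
  have t3 : (B.card : ℝ) * lam ^ (2 * j) ≤ (2 * (D * ((N : ℝ) ^ (b + 1))⁻¹)) * lam ^ (2 * j) := by
    linarith
  have t4 := le_of_mul_le_mul_right t3 hl0
  refine le_trans t4 ?_
  rw [pow_succ, mul_inv]
  have hN2r : (2:ℝ) ≤ N := by exact_mod_cast hN2
  have : 2 * ((N : ℝ))⁻¹ ≤ 1 := by
    rw [← div_eq_mul_inv, div_le_one hNr]; exact hN2r
  calc 2 * (D * (((N : ℝ) ^ b)⁻¹ * (N : ℝ)⁻¹)) = (D * ((N : ℝ) ^ b)⁻¹) * (2 * (N : ℝ)⁻¹) := by ring
    _ ≤ (D * ((N : ℝ) ^ b)⁻¹) * 1 := by gcongr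
    _ = _ := mul_one _

end Pool.Agent.P4f18df
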