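import Pool.Agent.Lib.P4f18df.Count

/-!
# The variance of the averaged moments
-/

set_option autoImplicit false

namespace Pool.Agent.P4f18df

open Finset

/-- the multiplicative function attached to a sign configuration -/
noncomputable def fU (U : Finset ℕ) (n : ℕ) : ℝ :=
  if Squarefree n then chi n.primeFactors U else 0

/-- short sums -/
def Wd (f : ℕ → ℝ) (h a : ℕ) : ℝ := ∑ n ∈ Ioc a (a + h), f n

/-- averaged `k`-th moment minus the average of the independent model -/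
noncomputable def Dk (f : ℕ → ℝ) (k N h : ℕ) : ℝ :=
  (∑ a ∈ Ioc N (2 * N), ((Wd f h a) ^ k - triv k (Q h a))) / N

/-- the character of a natural number -/
noncomputable def cn (U : Finset ℕ) (n : ℕ) : ℝ := chi n.primeFactors U

/-- short sum in terms of characters -/
noncomputable def WQ (U : Finset ℕ) (A : Finset ℕ) : ℝ := ∑ n ∈ A, cn U n

lemma Wd_fU (U : Finset ℕ) (h a : ℕ) : Wd (fU U) h a = WQ U (Q h a) := by
  unfold Wd WQ Q fU cn
  rw [Finset.sum_filter]

lemma cn_sq (U : Finset ℕ) (n : ℕ) : cn U n * cn U n = 1 := chi_sq _ _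

/-- nontrivial part of the `k`-th power -/
noncomputable def NT (U : Finset ℕ) (k : ℕ) (A : Finset ℕ) : ℝ :=
  ∑ t ∈ ntr k A, ∏ i, cn U (t i)

lemma WQ_pow (U : Finset ℕ) (k : ℕ) (A : Finset ℕ) :
    (WQ U A) ^ k = triv k A + NT U k A :=
  pow_eq_triv_add k A (cn U) (fun n _ => cn_sq U n)

/-- good data: all elements squarefree, in `(N, 3N]` -/
def Good (N : ℕ) (A : Finset ℕ) : Prop := ∀ n ∈ A, Squarefree n ∧ N < n ∧ n ≤ 3 * N

lemma good_Q {N h a : ℕ} (ha : N ≤ a) (ha' : a + h ≤ 3 * N) : Good N (Q h a) := by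
  intro n hn
  rw [mem_Q] at hn
  exact ⟨hn.2, by omega, by omega⟩

section

variable {N r : ℕ} {P : Finset ℕ} (hP : ∀ n, 0 < n → n ≤ 3 * N → n.primeFactors ⊆ P)
  (hr : ∀ n, 0 < n → n ≤ 3 * N → n.primeFactors.card ≤ r)

include hP in
lemma good_sub {A : Finset ℕ} (hA : Good N A) : ∀ n ∈ A, n.primeFactors ⊆ P :=
  fun n hn => hP n (by have := hA n hn; omega) (hA n hn).2.2

include hP hr in
lemma LD_WQ {A : Finset ℕ} (hA : Good N A) : LD P r (fun U => WQ U A) := by
  apply LD.sum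
  intro n hn
  exact (LD.chi (good_sub hP hA n hn)).mono
    (hr n (by have := hA n hn; omega) (hA n hn).2.2)

include hP in
lemma av_WQ_sq {A : Finset ℕ} (hA : Good N A) : av P (fun U => (WQ U A) ^ 2) = A.card := by
  refine av_sum_sq A Nat.primeFactors P (good_sub hP hA) ?_
  intro n hn m hm h
  rw [← Nat.prod_primeFactors_of_squarefree (hA n hn).1,
    ← Nat.prod_primeFactors_of_squarefree (hA m hm).1, h]

include hP hr in
lemma WQ_mom {A : Finset ℕ} (hA : Good N A) {h : ℕ} (hcard : A.card ≤ h) {j : ℕ} (hj : 1 ≤ j) :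
    av P (fun U => (WQ U A) ^ (2 * j)) ≤ ((4 * j : ℝ) ^ r * h) ^ j := by
  refine le_trans ((LD_WQ hP hr hA).hyper j hj) ?_
  rw [av_WQ_sq hP hA]
  have : (A.card : ℝ) ≤ h := by exact_mod_cast hcard
  gcongr

include hP in
lemma av_prod_cn_nonneg {α : Type*} [Fintype α] [DecidableEq α] {C : α → Finset ℕ}
    (hC : ∀ l, Good N (C l)) (T : α → ℕ) (hT : ∀ l, T l ∈ C l) :
    0 ≤ av P (fun U => ∏ l, cn U (T l)) :=
  av_prod_chi_nonneg univ (fun l => (T l).primeFactors) P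
    (fun l _ => good_sub hP (hC l) (T l) (hT l))

include hP in
lemma av_NT_nonneg {A : Finset ℕ} (hA : Good N A) (k : ℕ) : 0 ≤ av P (fun U => NT U k A) := by
  unfold NT
  rw [av_sum]
  apply Finset.sum_nonneg
  intro t ht
  rw [ntr, Finset.mem_filter, Fintype.mem_piFinset] at ht
  exact av_prod_cn_nonneg hP (fun _ => hA) t ht.1

include hP hr in
/-- near pairs -/
lemma near_bound {A B : Finset ℕ} (hA : Good N A) (hB : Good N B) {h : ℕ} (hAc : A.card ≤ h)
    (hBc : B.card ≤ h) {k : ℕ} (hk : 1 ≤ k) :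
    av P (fun U => NT U k A * NT U k B) ≤ ((8 * k : ℝ) ^ r * h) ^ k := by
  have h1 : av P (fun U => NT U k A * NT U k B) ≤ av P (fun U => (WQ U A) ^ k * (WQ U B) ^ k) := by
    have e : av P (fun U => (WQ U A) ^ k * (WQ U B) ^ k) =
        (triv k A : ℝ) * triv k B + (triv k A : ℝ) * av P (fun U => NT U k B) +
        (triv k B : ℝ) * av P (fun U => NT U k A) + av P (fun U => NT U k A * NT U k B) := by
      rw [← av_const_mul, ← av_const_mul, ← av_const P ((triv k A : ℝ) * triv k B),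
        ← av_add, ← av_add, ← av_add]
      apply av_congr; intro U _
      rw [WQ_pow, WQ_pow]; ring
    rw [e]
    have a1 := av_NT_nonneg hP hA k
    have a2 := av_NT_nonneg hP hB k
    have a3 : 0 ≤ (triv k A : ℝ) * av P (fun U => NT U k B) := mul_nonneg (Nat.cast_nonneg _) a2
    have a4 : 0 ≤ (triv k B : ℝ) * av P (fun U => NT U k A) := mul_nonneg (Nat.cast_nonneg _) a1
    have a5 : (0:ℝ) ≤ (triv k A : ℝ) * triv k B := by positivity
    linarith
  refine le_trans h1 ?_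
  have h2 : av P (fun U => (WQ U A) ^ k * (WQ U B) ^ k) ≤
      av P (fun U => (1 / 2 : ℝ) * ((WQ U A) ^ (2 * k) + (WQ U B) ^ (2 * k))) := by
    apply av_mono; intro U _
    have := sq_nonneg ((WQ U A) ^ k - (WQ U B) ^ k)
    have e1 : (WQ U A) ^ (2 * k) = ((WQ U A) ^ k) ^ 2 := by rw [← pow_mul, mul_comm]
    have e2 : (WQ U B) ^ (2 * k) = ((WQ U B) ^ k) ^ 2 := by rw [← pow_mul, mul_comm]
    rw [e1, e2]; nlinarith
  refine le_trans h2 ?_
  rw [av_const_mul, av_add]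
  have h3 := WQ_mom hP hr hA hAc hk
  have h4 := WQ_mom hP hr hB hBc hk
  have h5 : ((4 * k : ℝ) ^ r * h) ^ k ≤ ((8 * k : ℝ) ^ r * h) ^ k := by
    have : (4 * k : ℝ) ≤ 8 * k := by
      have : (0:ℝ) ≤ k := Nat.cast_nonneg k
      linarith
    gcongr
  linarith

lemma prod_le_two {α : Type*} [DecidableEq α] (L : Finset α) (z : α → ℝ) (X Y : ℝ) (hX : 0 ≤ X)
    (hY : 0 ≤ Y) (hz : ∀ l ∈ L, z l = X ∨ z l = Y) : ∏ l ∈ L, z l ≤ X ^ L.card + Y ^ L.card := by
  have h1 : ∏ l ∈ L, z l ≤ (max X Y) ^ L.card := by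
    rw [← Finset.prod_const]
    apply Finset.prod_le_prod
    · intro l hl; rcases hz l hl with h | h <;> rw [h] <;> assumption
    · intro l hl; rcases hz l hl with h | h <;> rw [h]
      · exact le_max_left _ _
      · exact le_max_right _ _
  refine le_trans h1 ?_
  rcases le_total X Y with h | h
  · rw [max_eq_right h]; have := pow_nonneg hX L.card; linarith
  · rw [max_eq_left h]; have := pow_nonneg hY L.card; linarith

/-- pair sums -/
noncomputable def GP (N m : ℕ) (A B : Finset ℕ) (U : Finset ℕ) : ℝ :=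
  ∑ x ∈ (A ×ˢ B).filter (fun x => x.1 ≠ x.2 ∧ N < (Nat.gcd x.1 x.2) ^ m), cn U x.1 * cn U x.2

include hP hr in
lemma prod_bound {A B : Finset ℕ} (hA : Good N A) (hB : Good N B) {h : ℕ} (hAc : A.card ≤ h)
    (hBc : B.card ≤ h) {k : ℕ} (hk : 1 ≤ k) {α : Type*} [DecidableEq α]
    (L : Finset α) (hL : L.card = 2 * (k - 1)) (C : α → Finset ℕ) (hC : ∀ l, C l = A ∨ C l = B)
    (G : Finset ℕ → ℝ) :
    av P (fun U => G U * ∏ l ∈ L, WQ U (C l)) ≤
      Real.sqrt (av P (fun U => (G U) ^ 2)) * (2 * ((8 * k : ℝ) ^ r * h) ^ (k - 1)) := by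
  refine le_trans (av_cs P G (fun U => ∏ l ∈ L, WQ U (C l))) ?_
  apply mul_le_mul_of_nonneg_left _ (Real.sqrt_nonneg _)
  have hmom : ∀ A : Finset ℕ, Good N A → A.card ≤ h →
      av P (fun U => ((WQ U A) ^ 2) ^ L.card) ≤ ((8 * k : ℝ) ^ r * h) ^ (2 * (k - 1)) := by
    intro A hA hAc
    rw [hL]
    rcases Nat.eq_zero_or_pos (k - 1) with h0 | h0
    · rw [h0]; simp [av_const]
    · have e : av P (fun U => ((WQ U A) ^ 2) ^ (2 * (k - 1))) =
        av P (fun U => (WQ U A) ^ (2 * (2 * (k - 1)))) := by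
        apply av_congr; intro U _; rw [← pow_mul]
      rw [e]
      refine le_trans (WQ_mom hP hr hA hAc (by omega)) ?_
      have h1 : (4 * ((2 * (k - 1) : ℕ) : ℝ)) ≤ 8 * k := by
        have : ((2 * (k - 1) : ℕ) : ℝ) ≤ ((2 * k : ℕ) : ℝ) := by
          exact_mod_cast (by omega : 2 * (k - 1) ≤ 2 * k)
        push_cast at this ⊢
        linarith
      gcongr
  have h1 : av P (fun U => (∏ l ∈ L, WQ U (C l)) ^ 2) ≤
      2 * ((8 * k : ℝ) ^ r * h) ^ (2 * (k - 1)) := by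
    calc av P (fun U => (∏ l ∈ L, WQ U (C l)) ^ 2)
        ≤ av P (fun U => ((WQ U A) ^ 2) ^ L.card + ((WQ U B) ^ 2) ^ L.card) := by
          apply av_mono; intro U _
          rw [← Finset.prod_pow]
          apply prod_le_two L _ _ _ (sq_nonneg _) (sq_nonneg _)
          intro l _
          rcases hC l with h | h
          · left; rw [h]
          · right; rw [h]
      _ = av P (fun U => ((WQ U A) ^ 2) ^ L.card) + av P (fun U => ((WQ U B) ^ 2) ^ L.card) :=
          av_add _ _ _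
      _ ≤ _ := by
          have := hmom A hA hAc
          have := hmom B hB hBc
          linarith
  calc Real.sqrt (av P (fun U => (∏ l ∈ L, WQ U (C l)) ^ 2))
      ≤ Real.sqrt ((2 * ((8 * k : ℝ) ^ r * h) ^ (k - 1)) ^ 2) := by
        apply Real.sqrt_le_sqrt
        refine le_trans h1 ?_
        have e : ∀ X : ℝ, (2 * X ^ (k - 1)) ^ 2 = 4 * X ^ (2 * (k - 1)) := fun X => by ring
        rw [e]
        have : (0:ℝ) ≤ ((8 * k : ℝ) ^ r * h) ^ (2 * (k - 1)) := by positivity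
        linarith
    _ = _ := Real.sqrt_sq (by positivity)

include hP in
/-- far pairs, combinatorial step -/
lemma far_step {A B : Finset ℕ} (hN1 : 1 ≤ N) (hA : Good N A) (hB : Good N B)
    (hdis : Disjoint A B) {k : ℕ} (hk : 1 ≤ k) :
    av P (fun U => NT U k A * NT U k B) ≤
      ∑ l ∈ (univ : Finset ((Fin k ⊕ Fin k) × (Fin k ⊕ Fin k))).filter (fun l => l.1 ≠ l.2),
        av P (fun U => GP N (2 * k) ((Sum.elim (fun _ => A) (fun _ => B) : Fin k ⊕ Fin k → Finset ℕ) l.1)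
          ((Sum.elim (fun _ => A) (fun _ => B) : Fin k ⊕ Fin k → Finset ℕ) l.2) U *
          ∏ l' ∈ (univ.erase l.1).erase l.2,
            WQ U ((Sum.elim (fun _ => A) (fun _ => B) : Fin k ⊕ Fin k → Finset ℕ) l')) := by
  classical
  set C : Fin k ⊕ Fin k → Finset ℕ := Sum.elim (fun _ => A) (fun _ => B) with hC
  have hCg : ∀ l, Good N (C l) := by
    rintro (i | i)
    · exact hA
    · exact hB
  set F : (Fin k ⊕ Fin k → ℕ) → ℝ := fun T => av P (fun U => ∏ l, cn U (T l)) with hF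
  set g : ℕ → ℕ → Prop := fun x y => x ≠ y ∧ N < (Nat.gcd x y) ^ (2 * k) with hg
  have hFnn : ∀ T ∈ Fintype.piFinset C, 0 ≤ F T := by
    intro T hT
    rw [Fintype.mem_piFinset] at hT
    exact av_prod_cn_nonneg hP hCg T hT
  -- step 1
  have e1 : av P (fun U => NT U k A * NT U k B) =
      ∑ x ∈ ntr k A ×ˢ ntr k B, F (Sum.elim x.1 x.2) := by
    rw [Finset.sum_product]
    simp only [hF]
    have : ∀ U, NT U k A * NT U k B = ∑ t ∈ ntr k A, ∑ t' ∈ ntr k B,
        ∏ l : Fin k ⊕ Fin k, cn U (Sum.elim t t' l) := by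
      intro U
      unfold NT
      rw [Finset.sum_mul_sum]
      apply Finset.sum_congr rfl; intro t _
      apply Finset.sum_congr rfl; intro t' _
      rw [Fintype.prod_sum_type]
      simp
    rw [av_congr (fun U _ => this U), av_sum]
    apply Finset.sum_congr rfl; intro t _
    rw [av_sum]
  -- step 2
  have h2 : ∀ x ∈ ntr k A ×ˢ ntr k B, F (Sum.elim x.1 x.2) ≤
      ∑ l ∈ (univ : Finset ((Fin k ⊕ Fin k) × (Fin k ⊕ Fin k))).filter (fun l => l.1 ≠ l.2),
        if g ((Sum.elim x.1 x.2 : Fin k ⊕ Fin k → ℕ) l.1)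
          ((Sum.elim x.1 x.2 : Fin k ⊕ Fin k → ℕ) l.2) then F (Sum.elim x.1 x.2) else 0 := by
    rintro ⟨t, t'⟩ hx
    rw [Finset.mem_product] at hx
    obtain ⟨ht, ht'⟩ := hx
    simp only at ht ht' ⊢
    rw [ntr, Finset.mem_filter, Fintype.mem_piFinset] at ht ht'
    set T : Fin k ⊕ Fin k → ℕ := Sum.elim t t' with hT
    have hTC : ∀ l, T l ∈ C l := by
      rintro (i | i)
      · exact ht.1 i
      · exact ht'.1 i
    have hFT : 0 ≤ F T := hFnn T (Fintype.mem_piFinset.2 hTC)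
    by_cases hF0 : F T = 0
    · rw [hF0]; simp
    have hpar0 := even_of_av_prod_chi_ne univ (fun l => (T l).primeFactors) P
      (fun l _ => good_sub hP (hCg l) (T l) (hTC l)) hF0
    have hpar : ∀ p, p.Prime → Even (univ.filter (fun l => p ∣ T l)).card := by
      intro p hp
      have := hpar0 p
      convert this using 3 with l
      have hne : T l ≠ 0 := ((hCg l) (T l) (hTC l)).1.ne_zero
      rw [Nat.mem_primeFactors]
      tauto
    obtain ⟨v, hv⟩ := not_forall.1 ht.2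
    rw [Classical.not_imp, Nat.not_even_iff_odd] at hv
    obtain ⟨hvA, hvodd⟩ := hv
    have hne : (univ.filter (fun i => t i = v)).Nonempty := by
      rw [Finset.nonempty_iff_ne_empty]
      intro h; rw [h] at hvodd; simp at hvodd
    obtain ⟨i0, hi0⟩ := hne
    have hi0' : t i0 = v := (Finset.mem_filter.1 hi0).2
    have hodd : Odd (univ.filter (fun l => T l = T (Sum.inl i0))).card := by
      have e : (univ.filter (fun l => T l = T (Sum.inl i0))).card =
          (univ.filter (fun i => t i = v)).card := by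
        rw [Finset.card_filter, Finset.card_filter, Fintype.sum_sum_type]
        have z : ∑ i : Fin k, (if T (Sum.inr i) = T (Sum.inl i0) then 1 else 0) = 0 := by
          apply Finset.sum_eq_zero
          intro i _
          rw [if_neg]
          intro h
          have h1 : t' i = v := by
            have : T (Sum.inr i) = t' i := rfl
            rw [← this, h]; exact hi0'
          exact (Finset.disjoint_left.1 hdis) hvA (h1 ▸ ht'.1 i)
        rw [z, add_zero]
        apply Finset.sum_congr rfl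
        intro i _
        have : T (Sum.inl i) = t i := rfl
        have h2 : T (Sum.inl i0) = v := hi0'
        rw [this, h2]
      rw [e]; exact hvodd
    obtain ⟨l, hl1, hl2⟩ := exists_gcd T N (2 * k) hN1 (by simp; omega) (by omega)
      (fun l => ((hCg l) (T l) (hTC l)).1) (fun l => ((hCg l) (T l) (hTC l)).2.1) hpar
      (Sum.inl i0) hodd
    have hgl : g (T (Sum.inl i0)) (T l) := ⟨hl1.symm, hl2⟩
    have hmem : ((Sum.inl i0, l) : (Fin k ⊕ Fin k) × (Fin k ⊕ Fin k)) ∈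
        (univ : Finset ((Fin k ⊕ Fin k) × (Fin k ⊕ Fin k))).filter (fun l => l.1 ≠ l.2) := by
      rw [Finset.mem_filter]
      refine ⟨Finset.mem_univ _, ?_⟩
      intro heq
      have heq' : Sum.inl i0 = l := heq
      exact hl1 (by rw [← heq'])
    refine le_trans ?_ (Finset.single_le_sum (f := fun l : (Fin k ⊕ Fin k) × (Fin k ⊕ Fin k) =>
      if g (T l.1) (T l.2) then F T else 0) (fun l _ => ?_) hmem)
    · rw [if_pos hgl]
    · split_ifs
      · exact hFT
      · exact le_rfl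
  -- step 3
  rw [e1]
  have h3 : ∑ x ∈ ntr k A ×ˢ ntr k B, F (Sum.elim x.1 x.2) ≤
      ∑ T ∈ Fintype.piFinset C,
      ∑ l ∈ (univ : Finset ((Fin k ⊕ Fin k) × (Fin k ⊕ Fin k))).filter (fun l => l.1 ≠ l.2),
        if g (T l.1) (T l.2) then F T else 0 := by
    refine le_trans (Finset.sum_le_sum h2) ?_
    have hinj : Set.InjOn (fun x : (Fin k → ℕ) × (Fin k → ℕ) =>
        (Sum.elim x.1 x.2 : Fin k ⊕ Fin k → ℕ)) (ntr k A ×ˢ ntr k B : Finset _) := by
      intro x _ y _ hxy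
      simp only at hxy
      ext i
      · exact congrFun hxy (Sum.inl i)
      · exact congrFun hxy (Sum.inr i)
    have himg : (ntr k A ×ˢ ntr k B).image (fun x : (Fin k → ℕ) × (Fin k → ℕ) =>
        (Sum.elim x.1 x.2 : Fin k ⊕ Fin k → ℕ)) ⊆ Fintype.piFinset C := by
      intro T hT
      rw [Finset.mem_image] at hT
      obtain ⟨x, hx, rfl⟩ := hT
      rw [Finset.mem_product, ntr, ntr, Finset.mem_filter, Finset.mem_filter,
        Fintype.mem_piFinset, Fintype.mem_piFinset] at hx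
      rw [Fintype.mem_piFinset]
      rintro (i | i)
      · exact hx.1.1 i
      · exact hx.2.1 i
    have := Finset.sum_image (f := fun T : Fin k ⊕ Fin k → ℕ =>
      ∑ l ∈ (univ : Finset ((Fin k ⊕ Fin k) × (Fin k ⊕ Fin k))).filter (fun l => l.1 ≠ l.2),
        if g (T l.1) (T l.2) then F T else 0) hinj
    rw [← this]
    apply Finset.sum_le_sum_of_subset_of_nonneg himg
    intro T hT _
    apply Finset.sum_nonneg
    intro l _
    split_ifs
    · exact hFnn T hT
    · exact le_rfl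
  refine le_trans h3 (le_of_eq ?_)
  rw [Finset.sum_comm]
  apply Finset.sum_congr rfl
  intro l hl
  rw [Finset.mem_filter] at hl
  rw [← Finset.sum_filter]
  simp only [hF]
  rw [← av_sum]
  apply av_congr
  intro U _
  rw [sum_two_slots C (cn U) g l.1 l.2 hl.2]
  rfl

include hP hr in
lemma far_bound {A B : Finset ℕ} (hN1 : 1 ≤ N) (hA : Good N A) (hB : Good N B)
    (hdis : Disjoint A B) {h : ℕ} (hAc : A.card ≤ h) (hBc : B.card ≤ h) {k : ℕ} (hk : 1 ≤ k) :
    av P (fun U => NT U k A * NT U k B) ≤ (2 * ((8 * k : ℝ) ^ r * h) ^ (k - 1)) * (k : ℝ) ^ 2 *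
      (Real.sqrt (av P (fun U => (GP N (2 * k) A A U) ^ 2)) +
       Real.sqrt (av P (fun U => (GP N (2 * k) A B U) ^ 2)) +
       Real.sqrt (av P (fun U => (GP N (2 * k) B A U) ^ 2)) +
       Real.sqrt (av P (fun U => (GP N (2 * k) B B U) ^ 2))) := by
  refine le_trans (far_step hP hN1 hA hB hdis hk) ?_
  set C : Fin k ⊕ Fin k → Finset ℕ := Sum.elim (fun _ => A) (fun _ => B) with hC
  set M : ℝ := 2 * ((8 * k : ℝ) ^ r * h) ^ (k - 1) with hM
  have hM0 : 0 ≤ M := by positivity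
  have h1 : ∀ l ∈ (univ : Finset ((Fin k ⊕ Fin k) × (Fin k ⊕ Fin k))).filter
      (fun l => l.1 ≠ l.2),
      av P (fun U => GP N (2 * k) (C l.1) (C l.2) U *
          ∏ l' ∈ (univ.erase l.1).erase l.2, WQ U (C l')) ≤
      Real.sqrt (av P (fun U => (GP N (2 * k) (C l.1) (C l.2) U) ^ 2)) * M := by
    intro l hl
    rw [Finset.mem_filter] at hl
    apply prod_bound hP hr hA hB hAc hBc hk
    · rw [Finset.card_erase_of_mem (Finset.mem_erase.2 ⟨hl.2.symm, Finset.mem_univ _⟩),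
        Finset.card_erase_of_mem (Finset.mem_univ _)]
      simp; omega
    · rintro (i | i)
      · left; rfl
      · right; rfl
  refine le_trans (Finset.sum_le_sum h1) ?_
  calc _ ≤ ∑ l ∈ (univ : Finset ((Fin k ⊕ Fin k) × (Fin k ⊕ Fin k))),
      Real.sqrt (av P (fun U => (GP N (2 * k) (C l.1) (C l.2) U) ^ 2)) * M :=
        Finset.sum_le_sum_of_subset_of_nonneg (Finset.filter_subset _ _)
          (fun _ _ _ => mul_nonneg (Real.sqrt_nonneg _) hM0)
    _ = _ := by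
        rw [← Finset.sum_mul, Fintype.sum_prod_type, Fintype.sum_sum_type]
        simp only [Fintype.sum_sum_type, hC, Sum.elim_inl, Sum.elim_inr, Finset.sum_const,
          Finset.card_univ, Fintype.card_fin, nsmul_eq_mul]
        ring

end

/-- the primes up to `3N` -/
def PN (N : ℕ) : Finset ℕ := (Finset.range (3 * N + 1)).filter Nat.Prime

lemma PN_sub (N n : ℕ) (hn : 0 < n) (hn' : n ≤ 3 * N) : n.primeFactors ⊆ PN N := by
  intro p hp
  rw [PN, Finset.mem_filter, Finset.mem_range]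
  have := Nat.le_of_mem_primeFactors hp
  exact ⟨by omega, Nat.prime_of_mem_primeFactors hp⟩

lemma Dk_fU (U : Finset ℕ) (k N h : ℕ) :
    Dk (fU U) k N h = (∑ a ∈ Ioc N (2 * N), NT U k (Q h a)) / N := by
  unfold Dk
  congr 1
  apply Finset.sum_congr rfl
  intro a _
  rw [Wd_fU, WQ_pow]; ring

/-- The variance bound. -/
theorem var_bound {k N h r : ℕ} (hk : 1 ≤ k) (hN : 1 ≤ N) (hh : h ≤ N) (τ : ℝ)
    (hτ : ∀ m : ℕ, 0 < m → m ≤ 9 * N ^ 2 → ((m.divisors.card : ℕ) : ℝ) ≤ τ)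
    (hr : ∀ n, 0 < n → n ≤ 3 * N → n.primeFactors.card ≤ r) :
    av (PN N) (fun U => (Dk (fU U) k N h) ^ 2) ≤
      ((8 * k : ℝ) ^ r) ^ k * (h : ℝ) ^ k *
        (2 * h / N + 20 * (k : ℝ) ^ 2 * Real.sqrt (τ * Zs N h (2 * k))) := by
  classical
  have hNr : (0:ℝ) < N := by exact_mod_cast hN
  have hτ0 : 0 ≤ τ := le_trans (Nat.cast_nonneg _) (hτ 1 one_pos (by nlinarith))
  have hP := PN_sub N
  set P := PN N with hPdef
  have hgood : ∀ a ∈ Ioc N (2 * N), Good N (Q h a) := by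
    intro a ha
    rw [Finset.mem_Ioc] at ha
    exact good_Q (by omega) (by omega)
  set M : ℝ := 2 * ((8 * k : ℝ) ^ r * h) ^ (k - 1) with hM
  set M' : ℝ := ((8 * k : ℝ) ^ r * h) ^ k with hM'
  have hM0 : 0 ≤ M := by positivity
  have hM'0 : 0 ≤ M' := by positivity
  set S : ℕ → ℕ → ℝ := fun a b =>
    τ * ∑ x ∈ BP h N (2 * k) a b, (2 * h * (Nat.gcd x.1 x.2 : ℕ) / N + 1 : ℝ) with hS
  have hS0 : ∀ a b, 0 ≤ S a b := fun a b =>
    mul_nonneg hτ0 (Finset.sum_nonneg (fun x _ => by positivity))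
  set Z := Zs N h (2 * k) with hZ
  have hZ0 : 0 ≤ Z := Zs_nonneg _ _ _
  have hGP : ∀ a ∈ Ioc N (2 * N), ∀ b ∈ Ioc N (2 * N),
      av P (fun U => (GP N (2 * k) (Q h a) (Q h b) U) ^ 2) ≤ S a b := by
    intro a ha b hb
    rw [Finset.mem_Ioc] at ha hb
    exact av_G_sq (2 * k) hN (by omega) (by omega) (by omega) (by omega) τ hτ P hP
  have hSdiag : ∀ a ∈ Ioc N (2 * N), S a a ≤ 4 * (h : ℝ) ^ 2 * (τ * Z) := by
    intro a ha
    rw [Finset.mem_Ioc] at ha
    have := sum_BP_diag (2 * k) hN (by omega : N ≤ a) (by omega : a + h ≤ 3 * N)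
    calc S a a ≤ τ * (4 * (h : ℝ) ^ 2 * Z) := mul_le_mul_of_nonneg_left this hτ0
      _ = _ := by ring
  have hSavg : ∑ a ∈ Ioc N (2 * N), ∑ b ∈ Ioc N (2 * N), S a b ≤
      9 * (h : ℝ) ^ 2 * (N : ℝ) ^ 2 * (τ * Z) := by
    simp only [hS]
    simp_rw [← Finset.mul_sum]
    calc _ ≤ τ * (9 * (h : ℝ) ^ 2 * (N : ℝ) ^ 2 * Z) :=
          mul_le_mul_of_nonneg_left (sum_BP_avg (2 * k) hN hh) hτ0
      _ = _ := by ring
  -- each pair
  have hpair : ∀ a ∈ Ioc N (2 * N), ∀ b ∈ Ioc N (2 * N),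
      av P (fun U => NT U k (Q h a) * NT U k (Q h b)) ≤
        (if b < a + h ∧ a < b + h then M' else 0) +
        M * (k : ℝ) ^ 2 * (4 * (h : ℝ) * Real.sqrt (τ * Z) + Real.sqrt (S a b) +
          Real.sqrt (S b a)) := by
    intro a ha b hb
    by_cases hab : b < a + h ∧ a < b + h
    · rw [if_pos hab]
      have h1 := near_bound hP hr (hgood a ha) (hgood b hb) (card_Q_le h a) (card_Q_le h b) hk
      have h2 : 0 ≤ M * (k : ℝ) ^ 2 * (4 * (h : ℝ) * Real.sqrt (τ * Z) + Real.sqrt (S a b) +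
          Real.sqrt (S b a)) := by positivity
      linarith
    · rw [if_neg hab, zero_add]
      have hdis : Disjoint (Q h a) (Q h b) := by
        rw [Finset.disjoint_left]
        intro n hn hn'
        rw [mem_Q] at hn hn'
        omega
      refine le_trans (far_bound hP hr hN (hgood a ha) (hgood b hb) hdis (card_Q_le h a)
        (card_Q_le h b) hk) ?_
      apply mul_le_mul_of_nonneg_left _ (by positivity)
      have d1 : ∀ a ∈ Ioc N (2 * N),
          Real.sqrt (av P (fun U => (GP N (2 * k) (Q h a) (Q h a) U) ^ 2)) ≤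
          2 * (h : ℝ) * Real.sqrt (τ * Z) := by
        intro a ha
        have e : 2 * (h : ℝ) * Real.sqrt (τ * Z) = Real.sqrt (4 * (h : ℝ) ^ 2 * (τ * Z)) := by
          rw [show (4 * (h : ℝ) ^ 2) = (2 * h) ^ 2 by ring,
            Real.sqrt_mul (show (0:ℝ) ≤ (2 * h) ^ 2 by positivity) (τ * Z),
            Real.sqrt_sq (by positivity)]
        rw [e]
        exact Real.sqrt_le_sqrt (le_trans (hGP a ha a ha) (hSdiag a ha))
      have d2 := Real.sqrt_le_sqrt (hGP a ha b hb)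
      have d3 := Real.sqrt_le_sqrt (hGP b hb a ha)
      have d4 := d1 a ha
      have d5 := d1 b hb
      linarith
  -- expand
  have e1 : av P (fun U => (Dk (fU U) k N h) ^ 2) =
      (∑ a ∈ Ioc N (2 * N), ∑ b ∈ Ioc N (2 * N),
        av P (fun U => NT U k (Q h a) * NT U k (Q h b))) / (N : ℝ) ^ 2 := by
    have : ∀ U, (Dk (fU U) k N h) ^ 2 = (1 / (N : ℝ) ^ 2) *
        ∑ a ∈ Ioc N (2 * N), ∑ b ∈ Ioc N (2 * N), NT U k (Q h a) * NT U k (Q h b) := by
      intro U
      rw [Dk_fU, div_pow, sq (∑ a ∈ Ioc N (2 * N), NT U k (Q h a)), Finset.sum_mul_sum]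
      ring
    rw [av_congr (fun U _ => this U), av_const_mul, av_sum]
    rw [Finset.sum_congr rfl (fun a _ => av_sum P (Ioc N (2 * N)) _)]
    ring
  rw [e1, div_le_iff₀ (by positivity)]
  have hcard : ((Ioc N (2 * N)).card : ℝ) = N := by
    rw [Nat.card_Ioc]; congr 1; omega
  have s1 : ∑ a ∈ Ioc N (2 * N), ∑ b ∈ Ioc N (2 * N),
      (if b < a + h ∧ a < b + h then M' else 0) ≤ N * (2 * h) * M' := by
    have : ∀ a ∈ Ioc N (2 * N), ∑ b ∈ Ioc N (2 * N),
        (if b < a + h ∧ a < b + h then M' else 0) ≤ (2 * h) * M' := by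
      intro a _
      rw [← Finset.sum_filter, Finset.sum_const, nsmul_eq_mul]
      apply mul_le_mul_of_nonneg_right _ hM'0
      have hsub : (Ioc N (2 * N)).filter (fun b => b < a + h ∧ a < b + h) ⊆
          Ico (a + 1 - h) (a + h) := by
        intro b hb
        rw [Finset.mem_filter] at hb
        rw [Finset.mem_Ico]; omega
      have := Finset.card_le_card hsub
      rw [Nat.card_Ico] at this
      have h3 : (Finset.filter (fun b => b < a + h ∧ a < b + h) (Ioc N (2 * N))).card ≤ 2 * h := by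
        omega
      exact_mod_cast h3
    calc _ ≤ ∑ a ∈ Ioc N (2 * N), (2 * h) * M' := Finset.sum_le_sum this
      _ = _ := by rw [Finset.sum_const, nsmul_eq_mul, hcard]; ring
  have s2 : ∑ a ∈ Ioc N (2 * N), ∑ b ∈ Ioc N (2 * N), Real.sqrt (S a b) ≤
      3 * (h : ℝ) * (N : ℝ) ^ 2 * Real.sqrt (τ * Z) := by
    rw [← Finset.sum_product']
    have cs := Real.sum_mul_le_sqrt_mul_sqrt (Ioc N (2 * N) ×ˢ Ioc N (2 * N)) (fun _ => (1:ℝ))
      (fun x => Real.sqrt (S x.1 x.2))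
    simp only [one_mul, one_pow, Finset.sum_const, nsmul_eq_mul, mul_one] at cs
    refine le_trans cs ?_
    rw [Finset.card_product]
    push_cast
    rw [hcard, Real.sqrt_mul_self hNr.le]
    have e : ∑ x ∈ Ioc N (2 * N) ×ˢ Ioc N (2 * N), Real.sqrt (S x.1 x.2) ^ 2 =
        ∑ a ∈ Ioc N (2 * N), ∑ b ∈ Ioc N (2 * N), S a b := by
      rw [← Finset.sum_product']
      apply Finset.sum_congr rfl
      intro x _
      rw [Real.sq_sqrt (hS0 _ _)]
    rw [e]
    have e2 : 3 * (h : ℝ) * (N : ℝ) ^ 2 * Real.sqrt (τ * Z) =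
        N * Real.sqrt (9 * (h : ℝ) ^ 2 * (N : ℝ) ^ 2 * (τ * Z)) := by
      rw [show (9 * (h : ℝ) ^ 2 * (N : ℝ) ^ 2) = (3 * h * N) ^ 2 by ring,
        Real.sqrt_mul (show (0:ℝ) ≤ (3 * h * N) ^ 2 by positivity) (τ * Z),
        Real.sqrt_sq (by positivity)]
      ring
    rw [e2]
    apply mul_le_mul_of_nonneg_left _ hNr.le
    exact Real.sqrt_le_sqrt hSavg
  have s3 : ∑ a ∈ Ioc N (2 * N), ∑ b ∈ Ioc N (2 * N), Real.sqrt (S b a) ≤
      3 * (h : ℝ) * (N : ℝ) ^ 2 * Real.sqrt (τ * Z) := by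
    rw [Finset.sum_comm]; exact s2
  have s4 : ∑ a ∈ Ioc N (2 * N), ∑ b ∈ Ioc N (2 * N), (4 * (h : ℝ) * Real.sqrt (τ * Z)) =
      4 * (h : ℝ) * (N : ℝ) ^ 2 * Real.sqrt (τ * Z) := by
    simp only [Finset.sum_const, nsmul_eq_mul, hcard]; ring
  have stot : ∑ a ∈ Ioc N (2 * N), ∑ b ∈ Ioc N (2 * N),
        av P (fun U => NT U k (Q h a) * NT U k (Q h b)) ≤
      N * (2 * h) * M' + M * (k : ℝ) ^ 2 * (10 * (h : ℝ) * (N : ℝ) ^ 2 * Real.sqrt (τ * Z)) := by
    calc _ ≤ ∑ a ∈ Ioc N (2 * N), ∑ b ∈ Ioc N (2 * N),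
        ((if b < a + h ∧ a < b + h then M' else 0) +
        M * (k : ℝ) ^ 2 * (4 * (h : ℝ) * Real.sqrt (τ * Z) + Real.sqrt (S a b) +
          Real.sqrt (S b a))) :=
          Finset.sum_le_sum (fun a ha => Finset.sum_le_sum (fun b hb => hpair a ha b hb))
      _ = (∑ a ∈ Ioc N (2 * N), ∑ b ∈ Ioc N (2 * N),
          (if b < a + h ∧ a < b + h then M' else 0)) +
          M * (k : ℝ) ^ 2 * ((∑ a ∈ Ioc N (2 * N), ∑ b ∈ Ioc N (2 * N),
            (4 * (h : ℝ) * Real.sqrt (τ * Z))) +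
            (∑ a ∈ Ioc N (2 * N), ∑ b ∈ Ioc N (2 * N), Real.sqrt (S a b)) +
            (∑ a ∈ Ioc N (2 * N), ∑ b ∈ Ioc N (2 * N), Real.sqrt (S b a))) := by
          simp only [Finset.sum_add_distrib, ← Finset.mul_sum]
      _ ≤ _ := by
          rw [s4]
          have hMk : 0 ≤ M * (k : ℝ) ^ 2 := by positivity
          have : (4 * (h : ℝ) * (N : ℝ) ^ 2 * Real.sqrt (τ * Z) +
            (∑ a ∈ Ioc N (2 * N), ∑ b ∈ Ioc N (2 * N), Real.sqrt (S a b)) +
            (∑ a ∈ Ioc N (2 * N), ∑ b ∈ Ioc N (2 * N), Real.sqrt (S b a))) ≤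
            10 * (h : ℝ) * (N : ℝ) ^ 2 * Real.sqrt (τ * Z) := by linarith
          have := mul_le_mul_of_nonneg_left this hMk
          linarith
  refine le_trans stot ?_
  -- final algebra
  have hMM : M * h ≤ 2 * M' := by
    rw [hM, hM']
    have h8 : (1:ℝ) ≤ (8 * k : ℝ) ^ r := by
      apply one_le_pow₀
      have : (1:ℝ) ≤ k := by exact_mod_cast hk
      linarith
    obtain ⟨k', rfl⟩ : ∃ k', k = k' + 1 := ⟨k - 1, by omega⟩
    rw [Nat.add_sub_cancel, pow_succ]
    have h9 : (h : ℝ) ≤ (8 * ((k' + 1 : ℕ) : ℝ)) ^ r * h := by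
      have : (0:ℝ) ≤ h := Nat.cast_nonneg h
      nlinarith
    calc 2 * ((8 * ((k' + 1 : ℕ) : ℝ)) ^ r * h) ^ k' * h
        ≤ 2 * ((8 * ((k' + 1 : ℕ) : ℝ)) ^ r * h) ^ k' * ((8 * ((k' + 1 : ℕ) : ℝ)) ^ r * h) := by
          gcongr
      _ = _ := by ring
  have hMe : ((8 * k : ℝ) ^ r) ^ k * (h : ℝ) ^ k = M' := by
    rw [hM']; exact (mul_pow _ _ _).symm
  rw [hMe]
  have f1 : N * (2 * h) * M' = M' * (2 * h / N) * (N : ℝ) ^ 2 := by
    field_simp
  have f2 : M * (k : ℝ) ^ 2 * (10 * (h : ℝ) * (N : ℝ) ^ 2 * Real.sqrt (τ * Z)) ≤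
      M' * (20 * (k : ℝ) ^ 2 * Real.sqrt (τ * Z)) * (N : ℝ) ^ 2 := by
    have : 0 ≤ 10 * (k : ℝ) ^ 2 * (N : ℝ) ^ 2 * Real.sqrt (τ * Z) := by positivity
    nlinarith [mul_le_mul_of_nonneg_right hMM this]
  calc _ ≤ M' * (2 * h / N) * (N : ℝ) ^ 2 +
      M' * (20 * (k : ℝ) ^ 2 * Real.sqrt (τ * Z)) * (N : ℝ) ^ 2 := by
        rw [f1]; linarith
    _ = _ := by ring

end Pool.Agent.P4f18df
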