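import Pool.Agent.Lib.P4f18df.Real

/-!
# The variance asymptotics
-/

set_option autoImplicit false

namespace Pool.Agent.P4f18df

open Finset Filter MeasureTheory

lemma triv_two {κ : Type*} [DecidableEq κ] (A : Finset κ) : (triv 2 A : ℝ) = A.card := by
  rw [← av_pow_sum_sg]
  have := av_sum_sq A (fun v => ({v} : Finset κ)) A (fun n hn => by simpa using hn)
    (fun n _ m _ h => by simpa using h)
  rw [← this]
  apply av_congr; intro U _
  simp [chi]

lemma le_of_rpow_range {N h q : ℕ} (hN : 1 ≤ N)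
    (hh : (h : ℝ) ≤ (N : ℝ) ^ (1 - 1 / q : ℝ)) : h ≤ N := by
  have : (h : ℝ) ≤ (N : ℝ) := by
    refine le_trans hh ?_
    calc (N : ℝ) ^ (1 - 1 / q : ℝ) ≤ (N : ℝ) ^ (1 : ℝ) := by
          apply Real.rpow_le_rpow_of_exponent_le (by exact_mod_cast hN)
          have : 0 ≤ (1 / q : ℝ) := by positivity
          linarith
      _ = N := Real.rpow_one _
  exact_mod_cast this

lemma var_disc {f : ℕ → ℝ} (hm : MomProp f) (q : ℕ) (hq : 1 ≤ q) (δ : ℝ) (hδ : 0 < δ) :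
    ∃ h₀ : ℕ, ∀ᶠ N : ℕ in atTop, ∀ h : ℕ, h₀ ≤ h → (h : ℝ) ≤ (N : ℝ) ^ (1 - 1 / q : ℝ) →
      |(∑ a ∈ Ioc N (2 * N), (Wd f h a) ^ 2) - N * (h * c2)| ≤ δ * (N * h) := by
  have h2 : ∀ᶠ h : ℕ in atTop, 18 / δ ≤ Real.sqrt h :=
    (Real.tendsto_sqrt_atTop.comp tendsto_natCast_atTop_atTop).eventually_ge_atTop _
  obtain ⟨h₀, hh₀⟩ := eventually_atTop.1 (h2.and (eventually_ge_atTop 1))
  refine ⟨h₀, ?_⟩
  filter_upwards [hm 2 q (by norm_num) hq (δ / 2) (by positivity), eventually_ge_atTop 1]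
    with N h3 hN h hh0 hhN
  obtain ⟨g1, g2⟩ := hh₀ h hh0
  have hhN' := le_of_rpow_range hN hhN
  have hNr : (0:ℝ) < N := by exact_mod_cast hN
  have hhr : (0:ℝ) < h := by exact_mod_cast g2
  have e1 : (∑ a ∈ Ioc N (2 * N), (Wd f h a) ^ 2) - N * (h * c2) =
      N * Dk f 2 N h + ∑ a ∈ Ioc N (2 * N), (((Q h a).card : ℝ) - h * c2) := by
    rw [Dk, mul_div_cancel₀ _ hNr.ne', Finset.sum_sub_distrib, Finset.sum_sub_distrib,
      Finset.sum_const, nsmul_eq_mul, Nat.card_Ioc]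
    simp only [triv_two]
    have : ((2 * N - N : ℕ) : ℝ) = N := by congr 1; omega
    rw [this]; ring
  rw [e1]
  have h4 := h3 h g2 hhN
  rw [Real.sq_sqrt hhr.le] at h4
  have h5 := sum_card_Q g2 hhN'
  have h6 : |∑ a ∈ Ioc N (2 * N), (((Q h a).card : ℝ) - h * c2)| ≤ 9 * N * Real.sqrt h :=
    le_trans (Finset.abs_sum_le_sum_abs _ _) h5
  have h7 : 9 * Real.sqrt h ≤ δ / 2 * h := by
    rw [div_le_iff₀ hδ] at g1
    have := Real.mul_self_sqrt hhr.le
    nlinarith [Real.sqrt_nonneg (h : ℝ)]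
  calc _ ≤ |N * Dk f 2 N h| + |∑ a ∈ Ioc N (2 * N), (((Q h a).card : ℝ) - h * c2)| :=
        abs_add_le _ _
    _ ≤ N * (δ / 2 * h) + 9 * N * Real.sqrt h := by
        rw [abs_mul, abs_of_pos hNr]
        have := mul_le_mul_of_nonneg_left h4 hNr.le
        linarith
    _ ≤ _ := by
        have := mul_le_mul_of_nonneg_left h7 hNr.le
        linarith

lemma fourth_disc {f : ℕ → ℝ} (hm : MomProp f) (q : ℕ) (hq : 1 ≤ q) :
    ∀ᶠ N : ℕ in atTop, ∀ h : ℕ, 1 ≤ h → (h : ℝ) ≤ (N : ℝ) ^ (1 - 1 / q : ℝ) →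
      ∑ a ∈ Ioc N (2 * N), (Wd f h a) ^ 4 ≤ N * (65 * (h : ℝ) ^ 2) := by
  filter_upwards [hm 4 q (by norm_num) hq 1 one_pos, eventually_ge_atTop 1] with N h3 hN h hh0 hhN
  have hNr : (0:ℝ) < N := by exact_mod_cast hN
  have hhr : (0:ℝ) < h := by exact_mod_cast hh0
  have h4 := h3 h hh0 hhN
  have e : (Real.sqrt h) ^ 4 = (h : ℝ) ^ 2 := by
    rw [show (4:ℕ) = 2 * 2 by norm_num, pow_mul, Real.sq_sqrt hhr.le]
  rw [e, one_mul] at h4
  have e1 : ∑ a ∈ Ioc N (2 * N), (Wd f h a) ^ 4 =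
      N * Dk f 4 N h + ∑ a ∈ Ioc N (2 * N), (triv 4 (Q h a) : ℝ) := by
    rw [Dk, mul_div_cancel₀ _ hNr.ne', Finset.sum_sub_distrib]; ring
  rw [e1]
  have h5 := sum_triv_le (N := N) (h := h) (j := 2) (by norm_num)
  norm_num at h5
  have h6 : N * Dk f 4 N h ≤ N * (h : ℝ) ^ 2 :=
    mul_le_mul_of_nonneg_left (le_trans (le_abs_self _) h4) hNr.le
  nlinarith

/-- integrals of real functions of the integer part -/
lemma integral_floor_real (g : ℕ → ℝ) (m n : ℕ) (hmn : m ≤ n) :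
    ∫ y in (m : ℝ)..n, g ⌊y⌋₊ = ∑ a ∈ Ico m n, g a := by
  have h := integral_floor (fun a => (g a : ℂ)) m n hmn
  rw [intervalIntegral.integral_ofReal] at h
  exact_mod_cast h

lemma intervalIntegrable_of_bdd_real {G : ℝ → ℝ} (hG : Measurable G) (C : ℝ)
    (hb : ∀ y, |G y| ≤ C) (a b : ℝ) : IntervalIntegrable G volume a b := by
  rw [intervalIntegrable_iff]
  apply MeasureTheory.Measure.integrableOn_of_bounded (M := C)
  · simp [Set.uIoc]
  · exact hG.aestronglyMeasurable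
  · exact Filter.Eventually.of_forall (fun y => by rw [Real.norm_eq_abs]; exact hb y)

lemma measurable_floor_comp_real (g : ℕ → ℝ) : Measurable (fun y : ℝ => g ⌊y⌋₊) :=
  (measurable_from_nat (f := g)).comp Nat.measurable_floor

/-- a short block of squares is controlled by fourth powers -/
lemma block_le {f : ℕ → ℝ} {h : ℕ} (B : Finset ℕ) (N' : ℕ) (hB : B ⊆ Ioc N' (2 * N'))
    (hc : B.card ≤ 4 * h)
    (h4 : ∑ a ∈ Ioc N' (2 * N'), (Wd f h a) ^ 4 ≤ N' * (65 * (h : ℝ) ^ 2)) :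
    ∑ a ∈ B, (Wd f h a) ^ 2 ≤ 17 * h * Real.sqrt (h * N') := by
  have cs := Real.sum_mul_le_sqrt_mul_sqrt B (fun _ => (1:ℝ)) (fun a => (Wd f h a) ^ 2)
  simp only [one_mul, one_pow, Finset.sum_const, nsmul_eq_mul, mul_one] at cs
  refine le_trans cs ?_
  have h1 : ∑ a ∈ B, ((Wd f h a) ^ 2) ^ 2 ≤ N' * (65 * (h : ℝ) ^ 2) := by
    refine le_trans ?_ h4
    calc ∑ a ∈ B, ((Wd f h a) ^ 2) ^ 2 = ∑ a ∈ B, (Wd f h a) ^ 4 := by
          apply Finset.sum_congr rfl; intro a _; ring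
      _ ≤ _ := Finset.sum_le_sum_of_subset_of_nonneg hB (fun a _ _ => by positivity)
  have h2 : (B.card : ℝ) ≤ 4 * h := by exact_mod_cast hc
  have h3 : Real.sqrt (B.card) * Real.sqrt (∑ a ∈ B, ((Wd f h a) ^ 2) ^ 2) ≤
      Real.sqrt (4 * h) * Real.sqrt (N' * (65 * (h : ℝ) ^ 2)) := by
    gcongr
  refine le_trans h3 ?_
  rw [← Real.sqrt_mul (by positivity)]
  apply Real.sqrt_le_iff.2
  refine ⟨by positivity, ?_⟩
  rw [mul_pow, Real.sq_sqrt (by positivity)]
  have : (0:ℝ) ≤ (h : ℝ) ^ 3 * N' := by positivity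
  nlinarith

/-- The deterministic variance theorem. -/
theorem variance_of_momProp {f : ℕ → ℝ} (hf : SgnFun f) (hm : MomProp f) (ε : ℝ) (hε : 0 < ε)
    (H : ℝ → ℝ) (hH1 : Tendsto H atTop atTop)
    (hH2 : ∀ᶠ X in atTop, H X ≤ X ^ (1 - ε)) :
    Tendsto (fun X : ℝ => (∫ x in X..(2 * X), (Ms f x (H X)) ^ 2) / X /
      (H X / (Real.pi ^ 2 / 6))) atTop (nhds 1) := by
  -- choose q with 1/q < ε
  obtain ⟨q, hq⟩ := exists_nat_gt (4 / ε)
  have hq0 : 0 < q := by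
    have : (0:ℝ) < q := lt_trans (by positivity) hq
    exact_mod_cast this
  have hqε : (1 / q : ℝ) ≤ ε / 4 := by
    rw [div_lt_iff₀ hε] at hq
    rw [div_le_iff₀ (by exact_mod_cast hq0)]
    linarith
  have hpic : ∀ y : ℝ, y / (Real.pi ^ 2 / 6) = y * c2 := by
    intro y; unfold c2; field_simp
  rw [Metric.tendsto_nhds]
  intro δ₀ hδ₀
  -- parameters
  have hc2 := c2_pos
  set δ : ℝ := min (δ₀ * c2 / 8) 1 with hδdef
  have hδ : 0 < δ := lt_min (by positivity) one_pos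
  have hδ1 : δ ≤ 1 := min_le_right _ _
  have hδ2 : δ ≤ δ₀ * c2 / 8 := min_le_left _ _
  obtain ⟨h₀, hh₀⟩ := var_disc hm q hq0 δ hδ
  have c1 : ∀ᶠ X : ℝ in atTop, ∀ h : ℕ, h₀ ≤ h → (h : ℝ) ≤ ((⌊X⌋₊ : ℕ) : ℝ) ^ (1 - 1 / q : ℝ) →
      |(∑ a ∈ Ioc ⌊X⌋₊ (2 * ⌊X⌋₊), (Wd f h a) ^ 2) - ((⌊X⌋₊ : ℕ) : ℝ) * (h * c2)| ≤
        δ * (((⌊X⌋₊ : ℕ) : ℝ) * h) :=
    tendsto_nat_floor_atTop.eventually hh₀
  have c1' : ∀ᶠ X : ℝ in atTop, ∀ h : ℕ, 1 ≤ h →
      (h : ℝ) ≤ ((⌊X⌋₊ : ℕ) : ℝ) ^ (1 - 1 / q : ℝ) →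
      ∑ a ∈ Ioc ⌊X⌋₊ (2 * ⌊X⌋₊), (Wd f h a) ^ 4 ≤ ((⌊X⌋₊ : ℕ) : ℝ) * (65 * (h : ℝ) ^ 2) :=
    tendsto_nat_floor_atTop.eventually (fourth_disc hm q hq0)
  have tdiv : Tendsto (fun X : ℝ => (⌊X⌋₊ + 1) / 2) atTop atTop := by
    have h1 : Tendsto (fun n : ℕ => (n + 1) / 2) atTop atTop := by
      apply tendsto_atTop_atTop.2
      intro b
      exact ⟨2 * b, fun n hn => by omega⟩
    exact h1.comp tendsto_nat_floor_atTop
  have c1'' : ∀ᶠ X : ℝ in atTop, ∀ h : ℕ, 1 ≤ h →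
      (h : ℝ) ≤ (((⌊X⌋₊ + 1) / 2 : ℕ) : ℝ) ^ (1 - 1 / q : ℝ) →
      ∑ a ∈ Ioc ((⌊X⌋₊ + 1) / 2) (2 * ((⌊X⌋₊ + 1) / 2)), (Wd f h a) ^ 4 ≤
        (((⌊X⌋₊ + 1) / 2 : ℕ) : ℝ) * (65 * (h : ℝ) ^ 2) :=
    tdiv.eventually (fourth_disc hm q hq0)
  have c2' : ∀ᶠ X : ℝ in atTop, h₀ ≤ ⌊H X⌋₊ :=
    (tendsto_nat_floor_atTop.comp hH1).eventually_ge_atTop h₀
  have c4 : ∀ᶠ X : ℝ in atTop, X ^ (-ε) < (δ / 100) ^ 2 := by
    have := tendsto_rpow_neg_atTop hε
    exact this.eventually (gt_mem_nhds (by positivity))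
  have c6 : ∀ᶠ X : ℝ in atTop, X ^ (1 - ε) ≤ (X / 4) ^ (1 - 1 / q : ℝ) := by
    have d1 : ∀ᶠ X : ℝ in atTop, (4:ℝ) ≤ X ^ (ε / 2) :=
      (tendsto_rpow_atTop (by positivity)).eventually_ge_atTop 4
    filter_upwards [d1, eventually_ge_atTop 2] with X hX1 hX2
    have hX0 : (0:ℝ) < X := by linarith
    have hexp : 0 ≤ (1 - 1 / q : ℝ) := by
      have : (1 / q : ℝ) ≤ 1 := by
        rw [div_le_one (by exact_mod_cast hq0)]; exact_mod_cast hq0
      linarith
    have hq1 : 0 ≤ (1 / q : ℝ) := by positivity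
    calc X ^ (1 - ε) ≤ X ^ ((1 - 1 / q : ℝ) - ε / 2) := by
          apply Real.rpow_le_rpow_of_exponent_le (by linarith)
          linarith
      _ = X ^ (1 - 1 / q : ℝ) / X ^ (ε / 2) := by rw [Real.rpow_sub hX0]
      _ ≤ X ^ (1 - 1 / q : ℝ) / 4 := by
          apply div_le_div_of_nonneg_left (by positivity) (by norm_num) hX1
      _ ≤ X ^ (1 - 1 / q : ℝ) / 4 ^ (1 - 1 / q : ℝ) := by
          apply div_le_div_of_nonneg_left (by positivity) (by positivity)
          calc (4:ℝ) ^ (1 - 1 / q : ℝ) ≤ 4 ^ (1:ℝ) := by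
                apply Real.rpow_le_rpow_of_exponent_le (by norm_num); linarith
            _ = 4 := Real.rpow_one 4
      _ = (X / 4) ^ (1 - 1 / q : ℝ) := by rw [Real.div_rpow hX0.le (by norm_num)]
  filter_upwards [c1, c1', c1'', c2', c4, c6, hH2, hH1.eventually_ge_atTop (max 8 (100 / δ ^ 2)),
      eventually_ge_atTop (max 100 (100 / δ))] with X g1 g1' g1'' g2 g4 g6 g7 g8 g9
  have g8a : 8 ≤ H X := le_trans (le_max_left _ _) g8
  have g8b : 100 / δ ^ 2 ≤ H X := le_trans (le_max_right _ _) g8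
  have g9a : 100 ≤ X := le_trans (le_max_left _ _) g9
  have g9b : 100 / δ ≤ X := le_trans (le_max_right _ _) g9
  have hX0 : (0:ℝ) < X := by linarith
  set N := ⌊X⌋₊ with hN
  set h := ⌊H X⌋₊ with hh
  set N' := (N + 1) / 2 with hN'
  have n1 : (N : ℝ) ≤ X := Nat.floor_le (by linarith)
  have n2 : X < N + 1 := Nat.lt_floor_add_one _
  have b1 : (h : ℝ) ≤ H X := Nat.floor_le (by linarith)
  have b2 : H X < h + 1 := Nat.lt_floor_add_one _
  have hN100 : 100 ≤ N := Nat.le_floor (by exact_mod_cast g9a)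
  have hNr : (100:ℝ) ≤ N := by exact_mod_cast hN100
  have hh8 : 8 ≤ h := Nat.le_floor (by exact_mod_cast g8a)
  have hhr : (8:ℝ) ≤ h := by exact_mod_cast hh8
  have hexp : 0 ≤ (1 - 1 / q : ℝ) := by
    have : (1 / q : ℝ) ≤ 1 := by
      rw [div_le_one (by exact_mod_cast hq0)]; exact_mod_cast hq0
    linarith
  have hN'X : X / 4 ≤ (N' : ℝ) := by
    have : N ≤ 2 * N' := by omega
    have h2 : (N : ℝ) ≤ 2 * N' := by exact_mod_cast this
    linarith
  have hNX4 : X / 4 ≤ (N : ℝ) := by linarith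
  have r1 : (h : ℝ) ≤ (N : ℝ) ^ (1 - 1 / q : ℝ) := by
    calc (h : ℝ) ≤ X ^ (1 - ε) := by linarith
      _ ≤ (X / 4) ^ (1 - 1 / q : ℝ) := g6
      _ ≤ _ := Real.rpow_le_rpow (by positivity) hNX4 hexp
  have r2 : (h : ℝ) ≤ (N' : ℝ) ^ (1 - 1 / q : ℝ) := by
    calc (h : ℝ) ≤ X ^ (1 - ε) := by linarith
      _ ≤ (X / 4) ^ (1 - 1 / q : ℝ) := g6
      _ ≤ _ := Real.rpow_le_rpow (by positivity) hN'X hexp
  have hHX : H X ≤ X * (δ / 100) ^ 2 := by
    have : H X ≤ X * X ^ (-ε) := by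
      refine le_trans g7 (le_of_eq ?_)
      rw [sub_eq_add_neg, Real.rpow_add hX0, Real.rpow_one]
    refine le_trans this ?_
    exact mul_le_mul_of_nonneg_left g4.le hX0.le
  have hδsq : (δ / 100) ^ 2 ≤ 1 / 10000 := by
    have : δ / 100 ≤ 1 / 100 := by linarith
    calc (δ / 100) ^ 2 ≤ (1 / 100) ^ 2 := pow_le_pow_left₀ (by positivity) this 2
      _ = 1 / 10000 := by norm_num
  have hHX' : H X ≤ X / 10000 := by
    have h1 := mul_le_mul_of_nonneg_left hδsq hX0.le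
    linarith
  have hhN : (h : ℝ) ≤ N / 1000 := by linarith
  have hhN' : 1000 * h ≤ N := by
    have : 1000 * (h : ℝ) ≤ N := by linarith
    exact_mod_cast this
  -- discrete facts
  have v1 := g1 h g2 r1
  have v4 := g1' h (by omega) r1
  have v4' := g1'' h (by omega) r2
  set S2 := ∑ a ∈ Ioc N (2 * N), (Wd f h a) ^ 2 with hS2
  -- the step function
  set G : ℝ → ℝ := fun y => (Wd f h ⌊y⌋₊) ^ 2 with hG
  have hGm : Measurable G := measurable_floor_comp_real (fun a => (Wd f h a) ^ 2)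
  have hG0 : ∀ y, 0 ≤ G y := fun y => sq_nonneg _
  have hGb : ∀ y, |G y| ≤ (h : ℝ) ^ 2 := by
    intro y
    rw [abs_of_nonneg (hG0 y)]
    have := abs_Wd_le hf h ⌊y⌋₊
    calc G y = |Wd f h ⌊y⌋₊| ^ 2 := by rw [sq_abs]
      _ ≤ _ := pow_le_pow_left₀ (abs_nonneg _) this 2
  have hGi : ∀ a b, IntervalIntegrable G volume a b :=
    intervalIntegrable_of_bdd_real hGm _ hGb
  -- boundary blocks
  have A2 : S2 = ∫ y in ((N + 1 : ℕ) : ℝ)..((2 * N + 1 : ℕ) : ℝ), G y := by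
    rw [hG, integral_floor_real (fun a => (Wd f h a) ^ 2) (N + 1) (2 * N + 1) (by omega), hS2]
    apply Finset.sum_congr _ (fun _ _ => rfl)
    ext n; simp only [Finset.mem_Ioc, Finset.mem_Ico]; omega
  have A1 : (∫ x in X..(2 * X), (Wd f h ⌊x - H X / 2⌋₊) ^ 2) =
      ∫ y in (X - H X / 2)..(2 * X - H X / 2), G y := by
    rw [← intervalIntegral.integral_comp_sub_right (fun y => G y) (H X / 2)]
  have A3 : (∫ y in (X - H X / 2)..(2 * X - H X / 2), G y) -
      ∫ y in ((N + 1 : ℕ) : ℝ)..((2 * N + 1 : ℕ) : ℝ), G y =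
      (∫ y in (X - H X / 2)..((N + 1 : ℕ) : ℝ), G y) -
        ∫ y in (2 * X - H X / 2)..((2 * N + 1 : ℕ) : ℝ), G y :=
    intervalIntegral.integral_interval_sub_interval_comm (hGi _ _) (hGi _ _) (hGi _ _)
  have B1 : 0 ≤ ∫ y in (X - H X / 2)..((N + 1 : ℕ) : ℝ), G y :=
    intervalIntegral.integral_nonneg (by push_cast; linarith) (fun y _ => hG0 y)
  have B2 : 0 ≤ ∫ y in (2 * X - H X / 2)..((2 * N + 1 : ℕ) : ℝ), G y :=
    intervalIntegral.integral_nonneg (by push_cast; linarith) (fun y _ => hG0 y)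
  have hsqrt : Real.sqrt (h * N) ≤ δ / 100 * X := by
    apply Real.sqrt_le_iff.2
    refine ⟨by positivity, ?_⟩
    calc (h : ℝ) * N ≤ (X * (δ / 100) ^ 2) * X := by
          apply mul_le_mul _ n1 (by positivity) (by positivity)
          linarith
      _ = (δ / 100 * X) ^ 2 := by ring
  have C1 : ∫ y in (X - H X / 2)..((N + 1 : ℕ) : ℝ), G y ≤ 17 * h * (δ / 100 * X) := by
    set m := ⌊X - H X / 2⌋₊ with hm'
    have m1 : (m : ℝ) ≤ X - H X / 2 := Nat.floor_le (by linarith)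
    have m2 : X - H X / 2 < m + 1 := Nat.lt_floor_add_one _
    have mN : m ≤ N + 1 := by
      have : (m : ℝ) ≤ ((N + 1 : ℕ) : ℝ) := by push_cast; linarith
      exact_mod_cast this
    have mlow : N ≤ m + h + 2 := by
      have : (N : ℝ) ≤ ((m + h + 2 : ℕ) : ℝ) := by push_cast; linarith
      exact_mod_cast this
    have s1 : ∫ y in (X - H X / 2)..((N + 1 : ℕ) : ℝ), G y ≤
        ∫ y in (m : ℝ)..((N + 1 : ℕ) : ℝ), G y := by
      apply intervalIntegral.integral_mono_interval m1 (by push_cast; linarith) le_rfl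
      · exact Filter.Eventually.of_forall (fun y => hG0 y)
      · exact hGi _ _
    refine le_trans s1 ?_
    rw [hG, integral_floor_real (fun a => (Wd f h a) ^ 2) m (N + 1) mN]
    refine le_trans (block_le (Ico m (N + 1)) N' ?_ ?_ v4') ?_
    · intro a ha
      rw [Finset.mem_Ico] at ha
      rw [Finset.mem_Ioc]
      omega
    · rw [Nat.card_Ico]; omega
    · have : Real.sqrt (h * N') ≤ Real.sqrt (h * N) := by
        apply Real.sqrt_le_sqrt
        have : (N' : ℝ) ≤ N := by exact_mod_cast (by omega : N' ≤ N)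
        gcongr
      have h9 : Real.sqrt (h * N') ≤ δ / 100 * X := by linarith
      gcongr
  have C2 : ∫ y in (2 * X - H X / 2)..((2 * N + 1 : ℕ) : ℝ), G y ≤ 17 * h * (δ / 100 * X) := by
    set m := ⌊2 * X - H X / 2⌋₊ with hm'
    have m1 : (m : ℝ) ≤ 2 * X - H X / 2 := Nat.floor_le (by linarith)
    have m2 : 2 * X - H X / 2 < m + 1 := Nat.lt_floor_add_one _
    have mN : m ≤ 2 * N + 1 := by
      have : (m : ℝ) ≤ ((2 * N + 1 : ℕ) : ℝ) := by push_cast; linarith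
      exact_mod_cast this
    have mlow : 2 * N ≤ m + h + 2 := by
      have : (2 * N : ℝ) ≤ ((m + h + 2 : ℕ) : ℝ) := by push_cast; linarith
      exact_mod_cast this
    have s1 : ∫ y in (2 * X - H X / 2)..((2 * N + 1 : ℕ) : ℝ), G y ≤
        ∫ y in (m : ℝ)..((2 * N + 1 : ℕ) : ℝ), G y := by
      apply intervalIntegral.integral_mono_interval m1 (by push_cast; linarith) le_rfl
      · exact Filter.Eventually.of_forall (fun y => hG0 y)
      · exact hGi _ _
    refine le_trans s1 ?_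
    rw [hG, integral_floor_real (fun a => (Wd f h a) ^ 2) m (2 * N + 1) mN]
    refine le_trans (block_le (Ico m (2 * N + 1)) N ?_ ?_ v4) ?_
    · intro a ha
      rw [Finset.mem_Ico] at ha
      rw [Finset.mem_Ioc]
      omega
    · rw [Nat.card_Ico]; omega
    · gcongr
  have D1 : |(∫ x in X..(2 * X), (Wd f h ⌊x - H X / 2⌋₊) ^ 2) - S2| ≤ 17 * h * (δ / 100 * X) := by
    rw [A1, A2, A3, abs_le]; constructor <;> linarith
  -- compare Ms with Wd
  have hWm : Measurable (fun x : ℝ => (Wd f h ⌊x - H X / 2⌋₊) ^ 2) :=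
    hGm.comp (by fun_prop)
  have hWi : IntervalIntegrable (fun x : ℝ => (Wd f h ⌊x - H X / 2⌋₊) ^ 2) volume X (2 * X) :=
    intervalIntegrable_of_bdd_real hWm ((h : ℝ) ^ 2) (fun x => hGb (x - H X / 2)) _ _
  have hsig : 0 < sig (H X) := by
    unfold sig; apply Real.sqrt_pos.2; have := Real.pi_pos; positivity
  have hMeq : ∀ x ∈ Set.uIcc X (2 * X), (Ms f x (H X)) ^ 2 =
      (Zm f X (H X) x * sig (H X)) ^ 2 := by
    intro x hx
    rw [Set.uIcc_of_le (by linarith)] at hx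
    rw [Zm_eq (by linarith) hx.2, div_mul_cancel₀ _ hsig.ne']
  have hMi : IntervalIntegrable (fun x : ℝ => (Ms f x (H X)) ^ 2) volume X (2 * X) := by
    have h1 : IntervalIntegrable (fun x : ℝ => (Zm f X (H X) x * sig (H X)) ^ 2) volume X
        (2 * X) := by
      have hms : Measurable (fun x : ℝ => (Zm f X (H X) x * sig (H X)) ^ 2) := by
        have := measurable_Zm f X (H X)
        fun_prop
      apply intervalIntegrable_of_bdd_real hms (((⌊2 * X + H X⌋₊ + 1 : ℕ) : ℝ) ^ 2)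
      intro x
      rw [abs_of_nonneg (sq_nonneg _)]
      rw [← sq_abs]
      apply pow_le_pow_left₀ (abs_nonneg _)
      unfold Zm
      rw [div_mul_cancel₀ _ hsig.ne']
      refine le_trans (Finset.abs_sum_le_sum_abs _ _) ?_
      calc ∑ n ∈ Finset.range (⌊2 * X + H X⌋₊ + 1), |if |(n : ℝ) - x| < H X / 2 then f n else 0|
          ≤ ∑ n ∈ Finset.range (⌊2 * X + H X⌋₊ + 1), (1:ℝ) := by
            apply Finset.sum_le_sum
            intro n _
            split_ifs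
            · exact abs_f_le hf n
            · simp
        _ = _ := by simp
    refine h1.congr ?_
    intro x hx
    exact (hMeq x (Set.uIoc_subset_uIcc hx)).symm
  have hptw : ∀ x ∈ Set.Icc X (2 * X),
      |(Ms f x (H X)) ^ 2 - (Wd f h ⌊x - H X / 2⌋₊) ^ 2| ≤
        4 + 4 / δ + δ * (Wd f h ⌊x - H X / 2⌋₊) ^ 2 := by
    intro x hx
    have h1 := Ms_sub_Wd hf (x := x) (H := H X) (by linarith) (by linarith [hx.1])
    set M := Ms f x (H X)
    set W := Wd f h ⌊x - H X / 2⌋₊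
    have h2 : M ^ 2 - W ^ 2 = (M - W) ^ 2 + 2 * W * (M - W) := by ring
    rw [h2]
    have h3 : |(M - W) ^ 2 + 2 * W * (M - W)| ≤ |M - W| ^ 2 + 2 * |W| * |M - W| := by
      refine le_trans (abs_add_le _ _) ?_
      rw [abs_mul, abs_mul, abs_pow]; simp
    refine le_trans h3 ?_
    have h4 : |M - W| ^ 2 ≤ 4 :=
      calc |M - W| ^ 2 ≤ 2 ^ 2 := pow_le_pow_left₀ (abs_nonneg _) h1 2
        _ = 4 := by norm_num
    have h5 : 2 * |W| * |M - W| ≤ 4 * |W| :=
      calc 2 * |W| * |M - W| ≤ 2 * |W| * 2 :=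
            mul_le_mul_of_nonneg_left h1 (by positivity)
        _ = 4 * |W| := by ring
    have h6 : 4 * |W| ≤ 4 / δ + δ * W ^ 2 := by
      have h7 : 0 ≤ δ * (2 / δ - |W|) ^ 2 := by positivity
      have e : δ * (2 / δ - |W|) ^ 2 = 4 / δ - 4 * |W| + δ * W ^ 2 := by
        rw [← sq_abs W]; field_simp; ring
      rw [e] at h7
      linarith
    linarith
  have E1 : |(∫ x in X..(2 * X), (Ms f x (H X)) ^ 2) -
      ∫ x in X..(2 * X), (Wd f h ⌊x - H X / 2⌋₊) ^ 2| ≤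
      (4 + 4 / δ) * X + δ * ∫ x in X..(2 * X), (Wd f h ⌊x - H X / 2⌋₊) ^ 2 := by
    rw [← intervalIntegral.integral_sub hMi hWi]
    refine le_trans (intervalIntegral.abs_integral_le_integral_abs (by linarith)) ?_
    have h1 : ∫ x in X..(2 * X), |(Ms f x (H X)) ^ 2 - (Wd f h ⌊x - H X / 2⌋₊) ^ 2| ≤
        ∫ x in X..(2 * X), (4 + 4 / δ + δ * (Wd f h ⌊x - H X / 2⌋₊) ^ 2) := by
      apply intervalIntegral.integral_mono_on (by linarith) (hMi.sub hWi).abs
        ((intervalIntegrable_const).add (hWi.const_mul δ))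
      exact hptw
    refine le_trans h1 (le_of_eq ?_)
    rw [intervalIntegral.integral_add intervalIntegrable_const (hWi.const_mul δ),
      intervalIntegral.integral_const, intervalIntegral.integral_const_mul]
    simp; ring
  -- final assembly
  set I1 := ∫ x in X..(2 * X), (Ms f x (H X)) ^ 2 with hI1
  set I2 := ∫ x in X..(2 * X), (Wd f h ⌊x - H X / 2⌋₊) ^ 2 with hI2
  have c2le := c2_le
  rw [abs_le] at D1 E1 v1
  have hXh : 0 < X * h := by positivity
  have k0 : S2 ≤ 2 * (X * h) := by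
    have : (N : ℝ) * (h * c2) + δ * (N * h) ≤ 2 * (X * h) := by
      have h1 : (N : ℝ) * h ≤ X * h := by gcongr
      have h2 : 0 ≤ (N : ℝ) * h := by positivity
      have h3 : (N : ℝ) * h * c2 ≤ N * h * 1 := mul_le_mul_of_nonneg_left c2le h2
      have h4 : δ * ((N : ℝ) * h) ≤ 1 * (N * h) := mul_le_mul_of_nonneg_right hδ1 h2
      have h5 : (N : ℝ) * (h * c2) = N * h * c2 := by ring
      linarith
    linarith [v1.2]
  have k1 : I2 ≤ 3 * (X * h) := by
    have : 17 * (h : ℝ) * (δ / 100 * X) ≤ X * h := by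
      have : δ * (X * h) ≤ 1 * (X * h) := mul_le_mul_of_nonneg_right hδ1 hXh.le
      linarith
    linarith [D1.2]
  have k2 : (4 + 4 / δ) * X ≤ δ * (X * h) := by
    have h1 : 4 + 4 / δ ≤ δ * h := by
      have h2 : 100 / δ ^ 2 - 1 ≤ (h : ℝ) := by linarith
      have h3 : δ * (100 / δ ^ 2 - 1) ≤ δ * h := mul_le_mul_of_nonneg_left h2 hδ.le
      have h4 : δ * (100 / δ ^ 2 - 1) = 100 / δ - δ := by field_simp
      have h5 : 1 ≤ 1 / δ := by rw [le_div_iff₀ hδ]; linarith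
      have h6 : 4 / δ = 4 * (1 / δ) := by ring
      have h7 : 100 / δ = 100 * (1 / δ) := by ring
      rw [h4, h7] at h3
      rw [h6]
      linarith
    calc (4 + 4 / δ) * X ≤ (δ * h) * X := mul_le_mul_of_nonneg_right h1 hX0.le
      _ = _ := by ring
  have k3 : |I1 - X * h * c2| ≤ 6 * δ * (X * h) := by
    have h1 : |(N : ℝ) * (h * c2) - X * h * c2| ≤ h * c2 := by
      rw [abs_le]
      have h7 : 0 ≤ (h : ℝ) * c2 := by positivity
      have h8 : 0 ≤ (X - N) * ((h : ℝ) * c2) := mul_nonneg (by linarith) h7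
      have h9 : (X - N) * ((h : ℝ) * c2) ≤ 1 * (h * c2) :=
        mul_le_mul_of_nonneg_right (by linarith) h7
      have e : (N : ℝ) * (h * c2) - X * h * c2 = -((X - N) * (h * c2)) := by ring
      rw [e]
      constructor <;> linarith
    have h2 : (h : ℝ) * c2 ≤ δ / 100 * (X * h) := by
      have h3 : 1 ≤ δ / 100 * X := by
        rw [div_le_iff₀ hδ] at g9b; linarith
      have h4 : (h : ℝ) * 1 ≤ h * (δ / 100 * X) := mul_le_mul_of_nonneg_left h3 (by linarith)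
      have h5 : (h : ℝ) * c2 ≤ h * 1 := mul_le_mul_of_nonneg_left c2le (by linarith)
      calc (h : ℝ) * c2 ≤ h * (δ / 100 * X) := h5.trans h4
        _ = δ / 100 * (X * h) := by ring
    rw [abs_le] at h1 ⊢
    have h5 : δ * (N * h) ≤ δ * (X * h) := by gcongr
    have h6 : δ * I2 ≤ δ * (3 * (X * h)) := mul_le_mul_of_nonneg_left k1 hδ.le
    constructor <;> linarith [D1.1, D1.2, E1.1, E1.2, v1.1, v1.2, h1.1, h1.2]
  have k4 : |I1 - X * (H X) * c2| ≤ 7 * δ * (X * H X) := by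
    have h1 : |X * h * c2 - X * (H X) * c2| ≤ X := by
      rw [abs_le]
      have e : X * h * c2 - X * (H X) * c2 = -(X * c2 * (H X - h)) := by ring
      rw [e]
      have h2 : 0 ≤ X * c2 * (H X - h) := by
        apply mul_nonneg (by positivity); linarith
      have h3 : X * c2 * (H X - h) ≤ X * 1 * 1 := by
        apply mul_le_mul _ (by linarith) (by linarith) (by positivity)
        apply mul_le_mul_of_nonneg_left c2le hX0.le
      constructor <;> linarith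
    have h2 : X ≤ δ * (X * H X) := by
      have h3 : 1 ≤ δ * H X := by
        rw [div_le_iff₀ (by positivity)] at g8b
        have : δ * δ * H X ≤ δ * H X := by
          have : δ * (δ * H X) ≤ 1 * (δ * H X) :=
            mul_le_mul_of_nonneg_right hδ1 (by positivity)
          linarith
        have e : H X * δ ^ 2 = δ * δ * H X := by ring
        rw [e] at g8b
        linarith
      calc X = X * 1 := by ring
        _ ≤ X * (δ * H X) := mul_le_mul_of_nonneg_left h3 hX0.le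
        _ = _ := by ring
    have h3 : 6 * δ * (X * h) ≤ 6 * δ * (X * H X) := by gcongr
    calc |I1 - X * (H X) * c2| = |(I1 - X * h * c2) + (X * h * c2 - X * (H X) * c2)| := by
          congr 1; ring
      _ ≤ |I1 - X * h * c2| + |X * h * c2 - X * (H X) * c2| := abs_add_le _ _
      _ ≤ _ := by linarith
  rw [Real.dist_eq, hpic]
  have hHpos : 0 < H X := by linarith
  have e : I1 / X / (H X * c2) - 1 = (I1 - X * (H X) * c2) / (X * (H X) * c2) := by
    field_simp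
  rw [e, abs_div, abs_of_pos (by positivity : 0 < X * H X * c2), div_lt_iff₀ (by positivity)]
  calc |I1 - X * (H X) * c2| ≤ 7 * δ * (X * H X) := k4
    _ ≤ 7 * (δ₀ * c2 / 8) * (X * H X) := by gcongr
    _ < δ₀ * (X * H X * c2) := by
        have h1 : 0 < δ₀ * (X * H X * c2) := by positivity
        have e : 7 * (δ₀ * c2 / 8) * (X * H X) = 7 / 8 * (δ₀ * (X * H X * c2)) := by ring
        rw [e]
        linarith

end Pool.Agent.P4f18df
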